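import Pool.Agent.Work.MP_f0515e_an.PA2

/-! Local Lipschitz bounds. -/

open Set Metric Filter Topology MeasureTheory Function
open scoped ENNReal NNReal

noncomputable section
namespace BEv

variable {E F G : Type} [NormedAddCommGroup E] [NormedSpace ℝ E] [NormedAddCommGroup F]
  [NormedSpace ℝ F] [NormedAddCommGroup G] [NormedSpace ℝ G]

theorem LL.mono {f : E → F} {x : E} {c c' : ℝ} (h : LL f x c) (hc : c ≤ c') : LL f x c' := by
  unfold LL at *
  filter_upwards [h] with p hp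
  exact hp.trans (mul_le_mul_of_nonneg_right hc (norm_nonneg _))

theorem LL.congr {f g : E → F} {x : E} {c : ℝ} (h : LL f x c) (hfg : g =ᶠ[𝓝 x] f) :
    LL g x c := by
  unfold LL at *
  filter_upwards [h, Filter.Eventually.prod_nhds hfg hfg] with p hp hq
  rw [hq.1, hq.2]
  exact hp

theorem LL.of_forall {f : E → F} {c : ℝ} (h : ∀ y z, ‖f y - f z‖ ≤ c * ‖y - z‖) (x : E) :
    LL f x c := 
  Filter.Eventually.of_forall fun p => h p.1 p.2

theorem LL.of_nhds {f : E → F} {c : ℝ} {x : E} {t : Set E} (ht : t ∈ 𝓝 x)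
    (h : ∀ y ∈ t, ∀ z ∈ t, ‖f y - f z‖ ≤ c * ‖y - z‖) : LL f x c := by
  unfold LL
  filter_upwards [prod_mem_nhds ht ht] with p hp
  exact h p.1 hp.1 p.2 hp.2

theorem LL.exists_ball {f : E → F} {c : ℝ} {x : E} (h : LL f x c) :
    ∃ r > 0, ∀ y ∈ ball x r, ∀ z ∈ ball x r, ‖f y - f z‖ ≤ c * ‖y - z‖ := by
  obtain ⟨r, hr, h1⟩ := Metric.eventually_nhds_iff_ball.1 h
  refine ⟨r, hr, fun y hy z hz => h1 (y, z) ?_⟩
  rw [← ball_prod_same]
  exact ⟨hy, hz⟩

theorem LL.continuousAt {f : E → F} {x : E} {c : ℝ} (h : LL f x c) : ContinuousAt f x := by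
  obtain ⟨r, hr, h1⟩ := h.exists_ball
  refine tendsto_iff_norm_sub_tendsto_zero.2
    (squeeze_zero' (g := fun y => c * ‖y - x‖) (Filter.Eventually.of_forall fun _ => norm_nonneg _)
      ?_ ?_)
  · filter_upwards [ball_mem_nhds x hr] with y hy
    exact h1 y hy x (mem_ball_self hr)
  · have h2 : Continuous fun y : E => c * ‖y - x‖ := by fun_prop
    simpa using h2.tendsto x

theorem LL.eventually {f : E → F} {x : E} {c : ℝ} (h : LL f x c) :
    ∀ᶠ y in 𝓝 x, LL f y c := by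
  obtain ⟨r, hr, h1⟩ := h.exists_ball
  filter_upwards [ball_mem_nhds x hr] with y hy
  exact LL.of_nhds (isOpen_ball.mem_nhds hy) h1

theorem LL.comp {g : F → G} {f : E → F} {x : E} {c c' : ℝ} (hg : LL g (f x) c) (hf : LL f x c')
    (hc : 0 ≤ c) : LL (fun y => g (f y)) x (c * c') := by
  have h1 : Tendsto (fun p : E × E => (f p.1, f p.2)) (𝓝 (x, x)) (𝓝 (f x, f x)) :=
    (Tendsto.comp hf.continuousAt (continuous_fst.tendsto (x, x))).prodMk_nhds
      (Tendsto.comp hf.continuousAt (continuous_snd.tendsto (x, x)))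
  unfold LL at *
  filter_upwards [h1.eventually hg, hf] with p hp hq
  rw [mul_assoc]
  exact hp.trans (mul_le_mul_of_nonneg_left hq hc)

theorem LL.id' (x : E) : LL (fun y : E => y) x 1 := 
  LL.of_forall (fun y z => by rw [one_mul]) x

theorem LL.const (a : F) (x : E) : LL (fun _ : E => a) x 0 := 
  LL.of_forall (fun y z => by simp) x

theorem LL.add {f g : E → F} {x : E} {c c' : ℝ} (hf : LL f x c) (hg : LL g x c') :
    LL (fun y => f y + g y) x (c + c') := by
  unfold LL at *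
  filter_upwards [hf, hg] with p hp hq
  rw [add_sub_add_comm, add_mul]
  exact (norm_add_le _ _).trans (add_le_add hp hq)

theorem LL.sub {f g : E → F} {x : E} {c c' : ℝ} (hf : LL f x c) (hg : LL g x c') :
    LL (fun y => f y - g y) x (c + c') := by
  unfold LL at *
  filter_upwards [hf, hg] with p hp hq
  rw [sub_sub_sub_comm, add_mul]
  exact (norm_sub_le _ _).trans (add_le_add hp hq)

theorem LL.const_smul {f : E → F} {x : E} {c : ℝ} (a : ℝ) (hf : LL f x c) :
    LL (fun y => a • f y) x (|a| * c) := by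
  unfold LL at *
  filter_upwards [hf] with p hp
  rw [← smul_sub, norm_smul, Real.norm_eq_abs, mul_assoc]
  exact mul_le_mul_of_nonneg_left hp (abs_nonneg a)

theorem LL.const_mul {f : E → ℝ} {x : E} {c : ℝ} (a : ℝ) (hf : LL f x c) :
    LL (fun y => a * f y) x (|a| * c) := 
  LL.const_smul a hf

theorem LL.max {f g : E → ℝ} {x : E} {c : ℝ} (hf : LL f x c) (hg : LL g x c) :
    LL (fun y => max (f y) (g y)) x c := by
  unfold LL at *
  filter_upwards [hf, hg] with p hp hq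
  exact (abs_max_sub_max_le_max _ _ _ _).trans (max_le hp hq)

theorem LL.min {f g : E → ℝ} {x : E} {c : ℝ} (hf : LL f x c) (hg : LL g x c) :
    LL (fun y => min (f y) (g y)) x c := by
  unfold LL at *
  filter_upwards [hf, hg] with p hp hq
  exact (abs_min_sub_min_le_max _ _ _ _).trans (max_le hp hq)

theorem LL.clamp {f g : E → ℝ} {x : E} {c : ℝ} (hf : LL f x c) (hg : LL g x c) :
    LL (fun y => BEv.clamp (f y) (g y)) x c := by
  have h1 : LL (fun y => -g y) x c := by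
    unfold LL at *
    filter_upwards [hg] with p hp
    rwa [neg_sub_neg, norm_sub_rev]
  exact h1.max (hf.min hg)

theorem LL.cmin {κ : Type} (S : Finset κ) {M : E → ℝ} {f : κ → E → ℝ} {x : E} {c : ℝ}
    (hM : LL M x c) (hf : ∀ k ∈ S, LL (f k) x c) :
    LL (fun y => BEv.cmin S (M y) (fun k => f k y)) x c := by
  classical
  induction S using Finset.induction_on with
  | empty => simpa only [BEv.cmin, Finset.fold_empty] using hM
  | insert a S ha ih =>
    simp only [BEv.cmin, Finset.fold_insert ha]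
    exact (hf a (Finset.mem_insert_self a S)).min
      (ih fun k hk => hf k (Finset.mem_insert_of_mem hk))

theorem LL.prod {f : E → F} {g : E → G} {x : E} {c : ℝ} (hf : LL f x c) (hg : LL g x c) :
    LL (fun y => (f y, g y)) x c := by
  unfold LL at *
  filter_upwards [hf, hg] with p hp hq
  rw [Prod.mk_sub_mk, Prod.norm_mk]
  exact max_le hp hq

theorem LL.apply {ι : Type} [Fintype ι] {f : E → ι → ℝ} {x : E} {c : ℝ} (hf : LL f x c) (i : ι) :
    LL (fun y => f y i) x c := by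
  unfold LL at *
  filter_upwards [hf] with p hp
  exact (norm_le_pi_norm (f p.1 - f p.2) i).trans hp

theorem LL.pi {ι : Type} [Fintype ι] {f : E → ι → ℝ} {x : E} {c : ℝ} (hc : 0 ≤ c)
    (hf : ∀ i, LL (fun y => f y i) x c) : LL f x c := by
  unfold LL at *
  filter_upwards [Filter.eventually_all.2 hf] with p hp
  exact (pi_norm_le_iff_of_nonneg (mul_nonneg hc (norm_nonneg _))).2 hp

theorem om_mono (f : E → F) {r r' : ℝ} {x x' : E} (h : ball x r ⊆ ball x' r') :
    om f r x ≤ om f r' x' := 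
  iSup₂_le fun y hy => iSup₂_le fun z hz =>
    le_iSup₂_of_le y (h hy) (le_iSup₂_of_le z (h hz) le_rfl)

theorem om_le {f : E → F} {r c : ℝ} {x : E}
    (h : ∀ y ∈ ball x r, ∀ z ∈ ball x r, ‖f y - f z‖ ≤ c * ‖y - z‖) :
    om f r x ≤ ENNReal.ofReal c := by
  refine iSup₂_le fun y hy => iSup₂_le fun z hz => ENNReal.div_le_of_le_mul ?_
  rw [edist_dist, edist_dist, dist_eq_norm, dist_eq_norm, mul_comm,
    ← ENNReal.ofReal_mul (norm_nonneg _), mul_comm]
  exact ENNReal.ofReal_le_ofReal (h y hy z hz)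

theorem norm_sub_le_om {f : E → F} {r : ℝ} {x y z : E} (h : om f r x ≠ ⊤) (hy : y ∈ ball x r)
    (hz : z ∈ ball x r) : ‖f y - f z‖ ≤ (om f r x).toReal * ‖y - z‖ := by
  by_cases hyz : y = z
  · simp [hyz]
  have h1 : edist (f y) (f z) / edist y z ≤ om f r x :=
    le_iSup₂_of_le y hy (le_iSup₂_of_le z hz le_rfl)
  rw [ENNReal.div_le_iff (edist_pos.2 hyz).ne' (edist_ne_top y z)] at h1
  have h2 := ENNReal.toReal_mono (ENNReal.mul_ne_top h (edist_ne_top y z)) h1
  rwa [ENNReal.toReal_mul, ← dist_edist, ← dist_edist, dist_eq_norm, dist_eq_norm] at h2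

theorem TP.om_bound {f : E → F} (h : TP f) :
    ∃ L : ℝ≥0∞, L ≠ ⊤ ∧ ∀ r x, om f r x ≤ L := by
  obtain ⟨L, hL⟩ := h.lip
  exact ⟨L, ENNReal.coe_ne_top, fun r x => iSup₂_le fun y _ => iSup₂_le fun z _ =>
    ENNReal.div_le_of_le_mul (hL y z)⟩

theorem lip_le_om (f : E → F) {r : ℝ} (hr : 0 < r) (x : E) : lip f x ≤ om f r x := by
  obtain ⟨n, hn⟩ := exists_nat_one_div_lt hr
  exact (iInf_le _ n).trans (om_mono f (ball_subset_ball hn.le))

theorem LL.lip_le {f : E → F} {x : E} {c : ℝ} (h : LL f x c) :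
    lip f x ≤ ENNReal.ofReal c := by
  obtain ⟨r, hr, h1⟩ := h.exists_ball
  exact (lip_le_om f hr x).trans (om_le h1)

theorem ll_lip_le_of_eq {f g : E → F} {x : E} (h : f =ᶠ[𝓝 x] g) : lip f x ≤ lip g x := by
  obtain ⟨r, hr, h1⟩ := Metric.eventually_nhds_iff_ball.1 h
  refine le_iInf fun n => ?_
  have h2 : 0 < min r (1 / ((n : ℝ) + 1)) := lt_min hr (by positivity)
  refine (lip_le_om f h2 x).trans (iSup₂_le fun y hy => iSup₂_le fun z hz => ?_)
  rw [h1 y (ball_subset_ball (min_le_left _ _) hy), h1 z (ball_subset_ball (min_le_left _ _) hz)]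
  exact le_iSup₂_of_le y (ball_subset_ball (min_le_right _ _) hy)
    (le_iSup₂_of_le z (ball_subset_ball (min_le_right _ _) hz) le_rfl)

theorem lip_congr {f g : E → F} {x : E} (h : f =ᶠ[𝓝 x] g) : lip f x = lip g x := 
  le_antisymm (ll_lip_le_of_eq h) (ll_lip_le_of_eq h.symm)

theorem enorm_fderiv_le_lip (f : E → F) (x : E) : ‖fderiv ℝ f x‖ₑ ≤ lip f x := by
  refine le_iInf fun n => ?_
  by_cases h : om f (1 / ((n : ℝ) + 1)) x = ⊤
  · rw [h]
    exact le_top
  have hr : 0 < 1 / ((n : ℝ) + 1) := by positivity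
  have h1 : ‖fderiv ℝ f x‖ ≤ (om f (1 / ((n : ℝ) + 1)) x).toReal := by
    refine norm_fderiv_le_of_lip' ℝ ENNReal.toReal_nonneg ?_
    filter_upwards [ball_mem_nhds x hr] with y hy
    exact norm_sub_le_om h hy (mem_ball_self hr)
  rw [← ofReal_norm]
  exact ENNReal.ofReal_le_of_le_toReal h1

theorem measurable_om [MeasurableSpace E] [BorelSpace E] (f : E → F) (r : ℝ) :
    Measurable (om f r) := by
  refine LowerSemicontinuous.measurable fun x a ha => ?_
  simp only [om, lt_iSup_iff] at ha ⊢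
  obtain ⟨y, hy, z, hz, h⟩ := ha
  filter_upwards [isOpen_ball.mem_nhds (mem_ball_comm.1 hy),
    isOpen_ball.mem_nhds (mem_ball_comm.1 hz)] with x' h1 h2
  exact ⟨y, mem_ball_comm.1 h1, z, mem_ball_comm.1 h2, h⟩

theorem measurable_lip [MeasurableSpace E] [BorelSpace E] (f : E → F) :
    Measurable (lip f) := 
  Measurable.iInf fun _ => measurable_om f _

theorem ll_mem_ball {c : ℝ} (hc : 0 < c) {r : ℝ} {x y : E} :
    c • y ∈ ball (c • x) (c * r) ↔ y ∈ ball x r := by
  rw [mem_ball, mem_ball, dist_smul₀, Real.norm_eq_abs, abs_of_pos hc, mul_lt_mul_iff_right₀ hc]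

theorem ll_ratio (f : E → F) {c : ℝ} (hc : 0 < c) (y z : E) :
    edist (c⁻¹ • f (c • y)) (c⁻¹ • f (c • z)) / edist y z =
      edist (f (c • y)) (f (c • z)) / edist (c • y) (c • z) := by
  have h0 : (‖c‖₊ : ℝ≥0∞) ≠ 0 := by simpa using hc.ne'
  rw [edist_smul₀, edist_smul₀, nnnorm_inv, ENNReal.smul_def, ENNReal.smul_def, smul_eq_mul,
    smul_eq_mul, ENNReal.coe_inv (by simpa using hc.ne'), div_eq_mul_inv, div_eq_mul_inv,
    ENNReal.mul_inv (Or.inl h0) (Or.inl ENNReal.coe_ne_top)]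
  ring

theorem om_scale (f : E → F) {c : ℝ} (hc : 0 < c) (r : ℝ) (x : E) :
    om (fun y => c⁻¹ • f (c • y)) r x = om f (c * r) (c • x) := by
  refine le_antisymm (iSup₂_le fun y hy => iSup₂_le fun z hz => ?_)
    (iSup₂_le fun y hy => iSup₂_le fun z hz => ?_)
  · rw [ll_ratio f hc]
    exact le_iSup₂_of_le _ ((ll_mem_ball hc).2 hy)
      (le_iSup₂_of_le _ ((ll_mem_ball hc).2 hz) le_rfl)
  · obtain ⟨y, rfl⟩ : ∃ y', c • y' = y := ⟨c⁻¹ • y, smul_inv_smul₀ hc.ne' y⟩
    obtain ⟨z, rfl⟩ : ∃ z', c • z' = z := ⟨c⁻¹ • z, smul_inv_smul₀ hc.ne' z⟩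
    rw [← ll_ratio f hc]
    exact le_iSup₂_of_le _ ((ll_mem_ball hc).1 hy)
      (le_iSup₂_of_le _ ((ll_mem_ball hc).1 hz) le_rfl)

theorem lip_scale (f : E → F) {c : ℝ} (hc : 0 < c) (x : E) :
    lip (fun y => c⁻¹ • f (c • y)) x = lip f (c • x) := by
  refine le_antisymm (le_iInf fun n => ?_) (le_iInf fun n => ?_)
  · have h1 : 0 < 1 / ((n : ℝ) + 1) / c := by positivity
    refine (lip_le_om _ h1 x).trans (le_of_eq ?_)
    rw [om_scale f hc, mul_div_cancel₀ _ hc.ne']
  · rw [om_scale f hc]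
    exact lip_le_om f (by positivity) _

end BEv
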