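import Pool.Agent.Work.MP_f0515e_an.Stmt
import Pool.Agent.Work.MP_f0515e_an.LL

/-! The limit map is a Sobolev map. -/

open Set Metric Filter Topology MeasureTheory Function
open scoped ENNReal NNReal ContDiff

noncomputable section
namespace BEv

open Classical in
/-- The weak derivative of the limit map. -/
def wD {n : ℕ} (k : (Fin n → ℝ) → Fin n → ℝ) (x : Fin n → ℝ) :
    (Fin n → ℝ) →L[ℝ] (Fin n → ℝ) :=
  if k x = x then ContinuousLinearMap.id ℝ _ else fderiv ℝ k x

/-- A family of cut-off versions of the identity. -/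
theorem sob_cut (n : ℕ) : ∃ (M : ℝ≥0) (β : ℝ → (Fin n → ℝ) → Fin n → ℝ), ∀ t, 0 < t →
    LipschitzWith M (β t) ∧ Differentiable ℝ (β t) ∧ (∀ y, ‖y‖ < t → β t y = y) ∧
      ∀ y, 2 * t < ‖y‖ → β t y = 0 := by
  let b : ContDiffBump (0 : Fin n → ℝ) := ⟨1, 2, one_pos, one_lt_two⟩
  have h1 : ContDiff ℝ 1 fun y : Fin n → ℝ => b y • y := b.contDiff.smul contDiff_id
  have h2 : HasCompactSupport fun y : Fin n → ℝ => b y • y := b.hasCompactSupport.smul_right
  obtain ⟨M, hM⟩ := h1.lipschitzWith_of_hasCompactSupport h2 one_ne_zero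
  refine ⟨M, fun t y => b (t⁻¹ • y) • y, fun t ht => ⟨?_, ?_, fun y hy => ?_, fun y hy => ?_⟩⟩
  · refine LipschitzWith.of_dist_le_mul fun x y => ?_
    have h3 := hM.dist_le_mul (t⁻¹ • x) (t⁻¹ • y)
    simp only [smul_comm (b _) t⁻¹, dist_smul₀, Real.norm_of_nonneg (inv_pos.2 ht).le] at h3
    refine le_of_mul_le_mul_left (h3.trans (le_of_eq ?_)) (inv_pos.2 ht)
    ring
  · exact (((b.contDiff (n := 1)).differentiable one_ne_zero).comp
      (differentiable_id.const_smul t⁻¹)).smul differentiable_id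
  · have : b (t⁻¹ • y) = 1 := b.one_of_mem_closedBall (by
      rw [mem_closedBall_zero_iff, norm_smul, Real.norm_of_nonneg (inv_pos.2 ht).le,
        inv_mul_le_iff₀ ht]
      exact hy.le.trans_eq (mul_one t).symm)
    simp only [this, one_smul]
  · have : b (t⁻¹ • y) = 0 := b.zero_of_le_dist (by
      rw [dist_zero_right, norm_smul, Real.norm_of_nonneg (inv_pos.2 ht).le,
        le_inv_mul_iff₀ ht, mul_comm]
      exact hy.le)
    simp only [this, zero_smul]

/-- Integration by parts for Lipschitz maps. -/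
theorem sob_lip {n : ℕ} {u : (Fin n → ℝ) → Fin n → ℝ} {L : ℝ≥0} (hu : LipschitzWith L u)
    (Ω : Set (Fin n → ℝ)) : IsWeakDeriv Ω u (fderiv ℝ u) := by
  intro φ hφ hc hs v
  rw [setIntegral_eq_integral_of_forall_compl_eq_zero fun x hx => by
      rw [fderiv_of_notMem_tsupport ℝ fun h => hx (hs h)]; simp,
    setIntegral_eq_integral_of_forall_compl_eq_zero fun x hx => by
      rw [image_eq_zero_of_notMem_tsupport fun h => hx (hs h), zero_smul]]
  obtain ⟨D, hD⟩ := hφ.lipschitzWith_of_hasCompactSupport hc (by simp)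
  have hφ' : Continuous fun x => fderiv ℝ φ x v :=
    (hφ.continuous_fderiv (by simp)).clm_apply continuous_const
  have i1 : Integrable fun x => fderiv ℝ φ x v • u x :=
    (hφ'.smul hu.continuous).integrable_of_hasCompactSupport (hc.fderiv_apply ℝ v).smul_right
  have i2 : Integrable fun x => φ x • fderiv ℝ u x v := by
    refine (hφ.continuous.integrable_of_hasCompactSupport hc).smul_of_top_left
      (memLp_top_of_bound (measurable_fderiv_apply_const ℝ u v).aestronglyMeasurable (L * ‖v‖)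
        (Eventually.of_forall fun x => ?_))
    exact (ContinuousLinearMap.le_opNorm _ _).trans
      (mul_le_mul_of_nonneg_right (norm_fderiv_le_of_lipschitz ℝ hu) (norm_nonneg _))
  funext i
  have hi : LipschitzWith (1 * L) fun x => u x i := (LipschitzWith.eval i).comp hu
  have h := LipschitzWith.integral_lineDeriv_mul_eq (μ := volume) hi hD hc v
  rw [Pi.neg_apply, eval_integral (fun j => i1.eval j), eval_integral (fun j => i2.eval j)]
  have e1 : ∫ x, (φ x • fderiv ℝ u x v) i = ∫ x, lineDeriv ℝ (fun x => u x i) x v * φ x := by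
    refine integral_congr_ae ?_
    filter_upwards [hu.ae_differentiableAt (μ := volume)] with x hx
    rw [(differentiableAt_pi.1 hx i).lineDeriv_eq_fderiv, fderiv_apply hx i]
    simp [mul_comm]
  rw [e1, h, ← integral_neg]
  refine integral_congr_ae (Eventually.of_forall fun x => ?_)
  simp only [(hφ.differentiable (by simp)).differentiableAt.lineDeriv_eq_fderiv, map_neg,
    Pi.smul_apply, smul_eq_mul, neg_mul, neg_neg]

theorem sob_meas {n : ℕ} {k : (Fin n → ℝ) → Fin n → ℝ} (hk : Continuous k) :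
    Measurable (wD k) :=
  Measurable.ite (isClosed_eq hk continuous_id).measurableSet measurable_const
    (measurable_fderiv ℝ k)

theorem sob_memLp {n q : ℕ} (hq : 1 ≤ q) {k : (Fin n → ℝ) → Fin n → ℝ}
    (hk : Continuous k) {E0 : Set (Fin n → ℝ)} (hE : MeasurableSet E0) (hid : ∀ x ∈ E0, k x = x)
    (hen : ∫⁻ x in ball (0 : Fin n → ℝ) 1 \ E0, lip k x ^ q ≠ ⊤) :
    MemLp (wD k) (q : ℝ≥0∞) (volume.restrict (ball 0 1)) := by
  refine ⟨(sob_meas hk).aestronglyMeasurable, ?_⟩
  rw [eLpNorm_lt_top_iff_lintegral_rpow_enorm_lt_top (by simp; omega) (by simp)]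
  have h1 : ∀ x, ‖wD k x‖ₑ ^ (q : ℝ≥0∞).toReal ≤ 1 + indicator E0ᶜ (fun x => lip k x ^ q) x := by
    intro x
    rw [ENNReal.toReal_natCast, ENNReal.rpow_natCast]
    by_cases hx : k x = x
    · refine le_add_right (pow_le_one₀ zero_le ?_)
      rw [wD, if_pos hx, ← ofReal_norm]
      exact ENNReal.ofReal_le_one.2 ContinuousLinearMap.norm_id_le
    · rw [wD, if_neg hx, indicator_of_mem (show x ∈ E0ᶜ from fun h => hx (hid x h))]
      exact le_add_left (pow_le_pow_left' (enorm_fderiv_le_lip k x) q)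
  refine (lintegral_mono h1).trans_lt ?_
  rw [lintegral_add_left measurable_const, lintegral_indicator hE.compl,
    Measure.restrict_restrict hE.compl, inter_comm, ← sdiff_eq]
  refine ENNReal.add_lt_top.2 ⟨?_, hen.lt_top⟩
  simp

theorem memW1p_of_trunc {n q : ℕ} (hq : 1 ≤ q) {k : (Fin n → ℝ) → Fin n → ℝ}
    (hk : Continuous k) {E0 : Set (Fin n → ℝ)} (hE : MeasurableSet E0) (hid : ∀ x ∈ E0, k x = x)
    (ht : ∀ t : ℝ, 0 < t → ∃ (kj : (Fin n → ℝ) → Fin n → ℝ) (L : ℝ≥0), LipschitzWith L kj ∧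
      ∀ x, k x = kj x ∨ (‖k x - x‖ < t ∧ ‖kj x - x‖ < t))
    (hen : ∫⁻ x in ball (0 : Fin n → ℝ) 1 \ E0, lip k x ^ q ≠ ⊤) :
    MemW1p (q : ℝ≥0∞) (ball 0 1) k (wD k) := by
  have : IsFiniteMeasure (volume.restrict (ball (0 : Fin n → ℝ) 1)) :=
    isFiniteMeasure_restrict.2 measure_ball_lt_top.ne
  have hD := sob_memLp hq hk hE hid hen
  refine ⟨?_, hD, fun φ hφ hc hs v => ?_⟩
  · obtain ⟨C, hC⟩ := (isCompact_closedBall (0 : Fin n → ℝ) 1).exists_bound_of_continuousOn
      hk.continuousOn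
    exact MemLp.of_bound hk.aestronglyMeasurable C
      ((ae_restrict_mem measurableSet_ball).mono fun x hx => hC x (ball_subset_closedBall hx))
  obtain ⟨M, β, hβ⟩ := sob_cut n
  have hM : (0 : ℝ) ≤ M := M.2
  let t : ℕ → ℝ := fun j => 1 / ((j : ℝ) + 1)
  have t0 : ∀ j, 0 < t j := fun j => by positivity
  let u : ℕ → (Fin n → ℝ) → Fin n → ℝ := fun j x => k x - β (t j) (k x - x)
  have hw : Continuous fun x => ‖k x - x‖ := (hk.sub continuous_id).norm
  have hu : ∀ j, ∃ L, LipschitzWith L (u j) := fun j => by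
    obtain ⟨kj, L, h1, h2⟩ := ht _ (t0 j)
    have e : u j = fun x => kj x - β (t j) (kj x - x) := funext fun x => by
      rcases h2 x with h | h
      · simp only [u, h]
      · simp only [u, (hβ _ (t0 j)).2.2.1 _ h.1, (hβ _ (t0 j)).2.2.1 _ h.2, sub_sub_cancel]
    exact ⟨_, e ▸ h1.sub ((hβ _ (t0 j)).1.comp (h1.sub LipschitzWith.id))⟩
  have l1 : ∀ x, k x = x → ∀ j, u j =ᶠ[𝓝 x] id := fun x hx j => by
    filter_upwards [(hw.tendsto x).eventually_lt_const (u := t j)
      (by simpa [hx] using t0 j)] with y hy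
    simp only [u, (hβ _ (t0 j)).2.2.1 _ hy, sub_sub_cancel, id]
  have l2 : ∀ x, k x ≠ x → ∀ᶠ j in atTop, u j =ᶠ[𝓝 x] k := fun x hx => by
    have h0 : 0 < ‖k x - x‖ / 2 := half_pos (norm_pos_iff.2 (sub_ne_zero.2 hx))
    filter_upwards [(tendsto_one_div_add_atTop_nhds_zero_nat (𝕜 := ℝ)).eventually_lt_const h0]
      with j hj
    filter_upwards [(hw.tendsto x).eventually_const_lt (u := 2 * t j)
      (by simp only [t]; linarith)] with y hy
    simp only [u, (hβ _ (t0 j)).2.2.2 _ hy, sub_zero]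
  have c1 : ∀ x, ∀ᶠ j in atTop, u j x = k x ∧ fderiv ℝ (u j) x = wD k x := fun x => by
    by_cases hx : k x = x
    · refine Eventually.of_forall fun j => ⟨(l1 x hx j).eq_of_nhds.trans hx.symm, ?_⟩
      rw [(l1 x hx j).fderiv_eq, fderiv_id, wD, if_pos hx]
    · filter_upwards [l2 x hx] with j hj
      exact ⟨hj.eq_of_nhds, by rw [hj.fderiv_eq, wD, if_neg hx]⟩
  have b1 : ∀ j x, ‖u j x‖ ≤ ‖k x‖ + M * ‖k x - x‖ := fun j x => by
    have h1 := (hβ _ (t0 j)).1.dist_le_mul (k x - x) 0
    rw [(hβ _ (t0 j)).2.2.1 0 (by simpa using t0 j), dist_zero_right, dist_zero_right] at h1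
    exact (norm_sub_le _ _).trans (by linarith)
  have b2 : ∀ᵐ x, ∀ j, ‖fderiv ℝ (u j) x‖ ≤ (M + 1) * (‖wD k x‖ + 1) := by
    have h1 : ∀ᵐ x, ∀ j, DifferentiableAt ℝ (u j) x :=
      ae_all_iff.2 fun j => (hu j).choose_spec.ae_differentiableAt
    filter_upwards [h1] with x hx j
    have h0 := norm_nonneg (wD k x)
    by_cases hk' : k x = x
    · rw [(l1 x hk' j).fderiv_eq, fderiv_id]
      refine ContinuousLinearMap.norm_id_le.trans ?_
      nlinarith [mul_nonneg hM h0]
    · obtain ⟨i, hi⟩ := (l2 x hk').exists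
      have hd : DifferentiableAt ℝ k x := hi.differentiableAt_iff.1 (hx i)
      have h2 : HasFDerivAt (u j) (fderiv ℝ k x - (fderiv ℝ (β (t j)) (k x - x)).comp
          (fderiv ℝ k x - ContinuousLinearMap.id ℝ _)) x :=
        hd.hasFDerivAt.sub (((hβ _ (t0 j)).2.1 _).hasFDerivAt.comp x
          (hd.hasFDerivAt.sub (hasFDerivAt_id x)))
      have h3 : ‖fderiv ℝ (β (t j)) (k x - x)‖ ≤ M :=
        norm_fderiv_le_of_lipschitz ℝ (hβ _ (t0 j)).1
      have h4 : ‖fderiv ℝ k x - ContinuousLinearMap.id ℝ _‖ ≤ ‖fderiv ℝ k x‖ + 1 :=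
        (norm_sub_le _ _).trans (add_le_add_right ContinuousLinearMap.norm_id_le _)
      have h5 := (ContinuousLinearMap.opNorm_comp_le _ _).trans
        (mul_le_mul h3 h4 (norm_nonneg _) hM)
      rw [h2.fderiv, wD, if_neg hk']
      refine (norm_sub_le _ _).trans ?_
      linarith
  have hφ' : Continuous fun x => fderiv ℝ φ x v :=
    (hφ.continuous_fderiv (by simp)).clm_apply continuous_const
  obtain ⟨A, hA⟩ := hc.exists_bound_of_continuous hφ.continuous
  have T1 : Tendsto (fun j => ∫ x in ball (0 : Fin n → ℝ) 1, fderiv ℝ φ x v • u j x) atTop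
      (𝓝 (∫ x in ball (0 : Fin n → ℝ) 1, fderiv ℝ φ x v • k x)) := by
    refine tendsto_integral_of_dominated_convergence
      (fun x => ‖fderiv ℝ φ x v‖ * (‖k x‖ + M * ‖k x - x‖))
      (fun j => (hφ'.smul (hu j).choose_spec.continuous).aestronglyMeasurable) ?_
      (fun j => Eventually.of_forall fun x => ?_) (Eventually.of_forall fun x => ?_)
    · exact ((hφ'.norm.mul (hk.norm.add (continuous_const.mul hw))).continuousOn.integrableOn_compact
        (isCompact_closedBall 0 1)).mono_set ball_subset_closedBall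
    · rw [norm_smul]
      exact mul_le_mul_of_nonneg_left (b1 j x) (norm_nonneg _)
    · exact tendsto_const_nhds.congr' ((c1 x).mono fun j hj => by simp only [hj.1])
  have T2 : Tendsto (fun j => ∫ x in ball (0 : Fin n → ℝ) 1, φ x • fderiv ℝ (u j) x v) atTop
      (𝓝 (∫ x in ball (0 : Fin n → ℝ) 1, φ x • wD k x v)) := by
    refine tendsto_integral_of_dominated_convergence
      (fun x => A * ((M + 1) * (‖wD k x‖ + 1) * ‖v‖))
      (fun j => hφ.continuous.aestronglyMeasurable.smul
        (measurable_fderiv_apply_const ℝ (u j) v).aestronglyMeasurable) ?_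
      (fun j => (ae_restrict_of_ae b2).mono fun x hx => ?_) (Eventually.of_forall fun x => ?_)
    · exact ((((hD.integrable (by exact_mod_cast hq)).norm.add (integrable_const 1)).const_mul
        _).mul_const _).const_mul _
    · rw [norm_smul]
      exact mul_le_mul (hA x) ((ContinuousLinearMap.le_opNorm _ _).trans
        (mul_le_mul_of_nonneg_right (hx j) (norm_nonneg _))) (norm_nonneg _)
        ((norm_nonneg _).trans (hA x))
    · exact tendsto_const_nhds.congr' ((c1 x).mono fun j hj => by simp only [hj.2])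
  exact tendsto_nhds_unique T1 (T2.neg.congr fun j =>
    (sob_lip (hu j).choose_spec _ φ hφ hc hs v).symm)

end BEv
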