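import Mathlib

/-! Sobolev maps and the two kinds of approximants of the Ball-Evans problem. -/

open Set Filter Topology MeasureTheory
open scoped ENNReal ContDiff

noncomputable section
namespace BEv

variable {n : ℕ}

/-- `D` is a weak (distributional) derivative of `f` on `Ω`. -/
def IsWeakDeriv (Ω : Set (Fin n → ℝ)) (f : (Fin n → ℝ) → Fin n → ℝ)
    (D : (Fin n → ℝ) → (Fin n → ℝ) →L[ℝ] (Fin n → ℝ)) : Prop :=
  ∀ φ : (Fin n → ℝ) → ℝ, ContDiff ℝ ∞ φ → HasCompactSupport φ → tsupport φ ⊆ Ω →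
    ∀ w : Fin n → ℝ, ∫ x in Ω, fderiv ℝ φ x w • f x = -∫ x in Ω, φ x • D x w

/-- `f` lies in `W^{1,p}(Ω)` with weak derivative `D`. -/
def MemW1p (p : ℝ≥0∞) (Ω : Set (Fin n → ℝ)) (f : (Fin n → ℝ) → Fin n → ℝ)
    (D : (Fin n → ℝ) → (Fin n → ℝ) →L[ℝ] (Fin n → ℝ)) : Prop :=
  MemLp f p (volume.restrict Ω) ∧ MemLp D p (volume.restrict Ω) ∧ IsWeakDeriv Ω f D

/-- `g` is a smooth diffeomorphism of `Ω` onto its image. -/
def IsDiffeo (Ω : Set (Fin n → ℝ)) (g : (Fin n → ℝ) → Fin n → ℝ) : Prop :=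
  ContDiffOn ℝ ∞ g Ω ∧ IsOpen (g '' Ω) ∧
    ∃ g' : (Fin n → ℝ) → Fin n → ℝ, ContDiffOn ℝ ∞ g' (g '' Ω) ∧ LeftInvOn g' g Ω

/-- `g` is a homeomorphism of `Ω` onto its image, and `Ω` is the union of a countable, locally
finite family of `n`-simplices on each of which `g` is affine. -/
def IsPAHomeo (Ω : Set (Fin n → ℝ)) (g : (Fin n → ℝ) → Fin n → ℝ) : Prop :=
  IsEmbedding (fun x : Ω => g x) ∧
    ∃ S : Set (Affine.Simplex ℝ (Fin n → ℝ) n), S.Countable ∧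
      (⋃ σ ∈ S, convexHull ℝ (range σ.points)) = Ω ∧
      (∀ x ∈ Ω, ∃ t ∈ 𝓝 x, {σ ∈ S | (convexHull ℝ (range σ.points) ∩ t).Nonempty}.Finite) ∧
      ∀ σ ∈ S, ∃ A : (Fin n → ℝ) →ᵃ[ℝ] (Fin n → ℝ), EqOn g A (convexHull ℝ (range σ.points))

/-- `f` (with weak derivative `D`) is a `W^{1,p}(Ω)` limit of approximants of the given kind. -/
def Approximable (Kind : Set (Fin n → ℝ) → ((Fin n → ℝ) → Fin n → ℝ) → Prop) (p : ℝ≥0∞)
    (Ω : Set (Fin n → ℝ)) (f : (Fin n → ℝ) → Fin n → ℝ)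
    (D : (Fin n → ℝ) → (Fin n → ℝ) →L[ℝ] (Fin n → ℝ)) : Prop :=
  ∃ (g : ℕ → (Fin n → ℝ) → Fin n → ℝ)
    (Dg : ℕ → (Fin n → ℝ) → (Fin n → ℝ) →L[ℝ] (Fin n → ℝ)),
    (∀ j, Kind Ω (g j) ∧ MemW1p p Ω (g j) (Dg j)) ∧
    Tendsto (fun j => eLpNorm (g j - f) p (volume.restrict Ω) +
      eLpNorm (Dg j - D) p (volume.restrict Ω)) atTop (𝓝 0)

end BEv
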