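import Pool.Agent.Work.MP_f0515e_an.UnitG
import Pool.Agent.Work.MP_f0515e_an.Stmt
import Pool.Agent.Work.MP_f0515e_an.Sob

-- merged part: Pool.Agent.Work.MP_f0515e_an.Step
section
/-! The step at a fine mesh. -/

open Set Metric Filter Topology MeasureTheory Function
open scoped ENNReal NNReal

noncomputable section
namespace BEv

variable {m : ℕ}

theorem step_En_sc {c : ℝ} (hc : 0 < c) (f : V m → V m) {Z : Set (V m)} (hZ : MeasurableSet Z) :
    En f Z = ENNReal.ofReal (c ^ (2 * m + 1)) *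
      En (fun x => c⁻¹ • f (c • x)) {x | c • x ∈ Z} := by
  unfold En
  rw [lintegral_scale hc _ hZ]
  congr 1
  refine lintegral_congr fun x => ?_
  rw [lip_scale f hc]

theorem step_om_sc {c : ℝ} (hc : 0 < c) (f : V m → V m) (r : ℝ) {Z : Set (V m)}
    (hZ : MeasurableSet Z) :
    ∫⁻ x in Z, (1 + om f (c * r) x) ^ m = ENNReal.ofReal (c ^ (2 * m + 1)) *
      ∫⁻ x in {x | c • x ∈ Z}, (1 + om (fun x => c⁻¹ • f (c • x)) r x) ^ m := by
  rw [lintegral_scale hc _ hZ]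
  congr 1
  refine lintegral_congr fun x => ?_
  rw [om_scale f hc]

theorem step_vol_sc {c : ℝ} (hc : 0 < c) {Z : Set (V m)} (hZ : MeasurableSet Z) :
    volume Z = ENNReal.ofReal (c ^ (2 * m + 1)) * volume {x : V m | c • x ∈ Z} := by
  have h := lintegral_scale hc (fun _ => 1) hZ
  rwa [setLIntegral_one, setLIntegral_one] at h

theorem step_vol_le_En (f : V m → V m) (Z : Set (V m)) : volume Z ≤ En f Z := by
  rw [← setLIntegral_one]
  exact lintegral_mono fun x => one_le_pow₀ le_self_add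

theorem step_En_mono (f : V m → V m) {Z Z' : Set (V m)} (h : Z ⊆ Z') : En f Z ≤ En f Z' :=
  lintegral_mono_set h

theorem step_En_union (f : V m → V m) {Z A B : Set (V m)} (h : Z ⊆ A ∪ B) :
    En f Z ≤ En f A + En f B :=
  (lintegral_mono_set h).trans (lintegral_union_le _ _ _)

theorem step_compact {c : ℝ} (hc : 0 < c) {A : Set (V m)} (hA : IsCompact A) :
    IsCompact {x : V m | c • x ∈ A} :=
  (Homeomorph.smulOfNeZero c hc.ne').isCompact_preimage.2 hA

theorem step_dist {c : ℝ} (hc : 0 < c) (x y : V m) : dist (c • x) (c • y) = c * dist x y := by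
  rw [dist_smul₀, Real.norm_of_nonneg hc.le]

theorem step_cth {c : ℝ} (hc : 0 < c) {A : Set (V m)} (hA : IsCompact A) {r R : ℝ} (hr : 0 ≤ r)
    (h : c * r ≤ R) {x : V m} (hx : x ∈ cthickening r {y : V m | c • y ∈ A}) :
    c • x ∈ cthickening R A := by
  rw [(step_compact hc hA).cthickening_eq_biUnion_closedBall hr] at hx
  obtain ⟨y, hy, hxy⟩ := mem_iUnion₂.1 hx
  refine mem_cthickening_of_dist_le _ (c • y) _ _ hy ?_
  rw [step_dist hc]
  exact (mul_le_mul_of_nonneg_left (mem_closedBall.1 hxy) hc.le).trans h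

theorem step_balls (F : Finset (V m)) :
    volume (⋃ p ∈ F, ball p 9) ≤ F.card * ENNReal.ofReal (18 ^ (2 * m + 1)) := by
  refine (measure_biUnion_finset_le F _).trans (le_of_eq ?_)
  rw [Finset.sum_congr rfl fun p _ => Real.volume_pi_ball p (by norm_num : (0 : ℝ) < 9),
    Finset.sum_const, nsmul_eq_mul, Fintype.card_fin]
  norm_num

theorem step_om_id {f : V m → V m} {r : ℝ} {x : V m} (h : ∀ y ∈ ball x r, f y = y) :
    (1 + om f r x) ^ m ≤ 2 ^ m := by
  have h1 : om f r x ≤ ENNReal.ofReal 1 :=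
    om_le fun y hy z hz => by rw [h y hy, h z hz, one_mul]
  rw [ENNReal.ofReal_one] at h1
  refine pow_le_pow_left' ?_ m
  exact (add_le_add le_rfl h1).trans one_add_one_eq_two.le

theorem step_En_id {f : V m → V m} {I Z : Set (V m)} (hI : IsOpen I) (hZ : MeasurableSet Z)
    (hZI : Z ⊆ I) (h : ∀ y ∈ I, f y = y) : En f Z ≤ 2 ^ m * volume Z := by
  rw [← setLIntegral_const]
  refine setLIntegral_mono' hZ fun x hx => ?_
  obtain ⟨r, hr, hb⟩ := Metric.isOpen_iff.1 hI x (hZI hx)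
  refine le_trans (pow_le_pow_left' (add_le_add le_rfl (lip_le_om f hr x)) m) ?_
  exact step_om_id fun y hy => h y (hb hy)

theorem step_En_congr {f g : V m → V m} {O Z : Set (V m)} (hO : IsOpen O) (hZ : MeasurableSet Z)
    (hZO : Z ⊆ O) (h : ∀ y ∈ O, f y = g y) : En f Z = En g Z := by
  refine setLIntegral_congr_fun hZ fun x hx => ?_
  have h1 : f =ᶠ[𝓝 x] g := eventually_of_mem (hO.mem_nhds (hZO hx)) h
  simp only [lip_congr h1]

theorem step_mesh (a : ℝ) {b : ℝ} (hb : 0 < b) :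
    ∀ᶠ j : ℕ in atTop, (1 / 2 : ℝ) ^ j * a ≤ b := by
  have h : Tendsto (fun j : ℕ => (1 / 2 : ℝ) ^ j * a) atTop (𝓝 (0 * a)) :=
    (tendsto_pow_atTop_nhds_zero_of_lt_one (by norm_num) (by norm_num)).mul_const a
  rw [zero_mul] at h
  exact h.eventually (eventually_le_nhds hb)

theorem step_arith {C0 D P X Y e ε : ℝ≥0∞} (he : (C0 * (P + 1 + D) + 2) * e ≤ ε) :
    C0 * (Y + P * e + e + D * (X + e)) + e + e ≤ C0 * (1 + D) * Y + C0 * (1 + D) * X + ε := by
  refine le_trans ?_ (add_le_add le_rfl he)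
  have h : C0 * (1 + D) * Y + C0 * (1 + D) * X + (C0 * (P + 1 + D) + 2) * e =
      C0 * (Y + P * e + e + D * (X + e)) + e + e + (C0 * D * Y + C0 * X) := by ring
  rw [h]
  exact le_self_add

theorem step (hm : 2 ≤ m) : ∃ C : ℝ≥0∞, C ≠ ⊤ ∧ ∀ v : V m,
    (∀ (l : List (ℕ × ℕ × ℕ)) (j : ℕ), GP v (fun x => word l (((1 / 2 : ℝ) ^ j) • x))) →
    ∀ s : St m, St.Ok v s → St.Gam v s → (∃ l, s.Γ = word l) → ∀ η : ℝ, 0 ≤ η → St.Fib v s η →
    ∀ Fo W : Set (V m), IsCompact Fo → IsOpen W → St.U v s ⊆ W → ∀ ε : ℝ≥0∞, ε ≠ 0 →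
    ∀ t : ℝ, 0 < t →
    ∃ (s' : St m) (Fo' : Set (V m)), St.Ok v s' ∧ St.Gam v s' ∧ (∃ l, s'.Γ = word l) ∧
      St.U v s' ⊆ s.I ∧ (∀ x, x ∉ W → St.k v s' x = St.k v s x) ∧
      (∀ x, ‖St.k v s' x - St.k v s x‖ ≤ 2 * η + t) ∧ St.Fib v s' t ∧ IsCompact Fo' ∧
      St.Fold v s' ⊆ Fo' ∧ En (St.u v s') Fo' ≤ ε ∧
      En (St.u v s') (St.U v s' \ s'.I) ≤ C * En (St.u v s) Fo + ε ∧
      volume (s.I \ s'.I) ≤ C * En (St.u v s) Fo + ε ∧
      (St.Fold v s ⊆ Fo → ∀ B : Set (V m), MeasurableSet B →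
        En (St.u v s') (B \ St.U v s') ≤ En (St.u v s) (B \ St.U v s) +
          C * En (St.u v s) (St.U v s \ s.I) + C * En (St.u v s) Fo + ε) := by
  obtain ⟨C0, hC0, hunit⟩ := unit_step hm
  obtain ⟨Cn, hCn, hnet⟩ := exists_net m
  obtain ⟨D, hD⟩ : ∃ D : ℝ≥0∞, D = 2 ^ m * (ENNReal.ofReal (18 ^ (2 * m + 1)) * Cn) := ⟨_, rfl⟩
  have hP : (2 : ℝ≥0∞) ^ m ≠ ⊤ := ENNReal.pow_ne_top ENNReal.ofNat_ne_top
  have hP1 : (1 : ℝ≥0∞) ≤ 2 ^ m := one_le_pow₀ one_le_two
  have hDt : D ≠ ⊤ := hD ▸ ENNReal.mul_ne_top hP (ENNReal.mul_ne_top ENNReal.ofReal_ne_top hCn)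
  refine ⟨C0 * (1 + D), ENNReal.mul_ne_top hC0 (ENNReal.add_ne_top.2 ⟨ENNReal.one_ne_top, hDt⟩),
    ?_⟩
  rintro v hGP s hs hΓ ⟨l, hl⟩ η hη hFib Fo W hFo hW hUW ε hε t ht
  -- the error budget
  have hE : C0 * (2 ^ m + 1 + D) + 2 ≠ ⊤ := ENNReal.add_ne_top.2 ⟨ENNReal.mul_ne_top hC0
    (ENNReal.add_ne_top.2 ⟨ENNReal.add_ne_top.2 ⟨hP, ENNReal.one_ne_top⟩, hDt⟩),
    ENNReal.ofNat_ne_top⟩
  obtain ⟨e, he0, he⟩ : ∃ e : ℝ≥0∞, e ≠ 0 ∧ (C0 * (2 ^ m + 1 + D) + 2) * e ≤ ε := by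
    obtain ⟨e, he0, he⟩ := ENNReal.exists_nnreal_pos_mul_lt hE hε
    exact ⟨e, ENNReal.coe_ne_zero.2 he0.ne', by rw [mul_comm]; exact he.le⟩
  have hU := St.isCompact_U hs
  have hIU := St.I_subset_U hs
  obtain ⟨K1, hK1I, hK1, hvol⟩ := hs.hI.measurableSet.exists_isCompact_sdiff_lt (μ := volume)
    (ne_top_of_le_ne_top hU.measure_lt_top.ne (measure_mono hIU)) he0
  obtain ⟨r1, hr1, hfat1⟩ := exists_fat_le (St.tp_u hs) hU hK1.measurableSet he0
  obtain ⟨r2, hr2, hfat2⟩ := exists_fat_le (St.tp_u hs) hFo MeasurableSet.empty he0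
  rw [sdiff_empty, sdiff_empty] at hfat2
  obtain ⟨r3, hr3, hcW⟩ := hU.exists_cthickening_subset_open hW hUW
  obtain ⟨r4, hr4, hcI⟩ := hK1.exists_cthickening_subset_open hs.hI hK1I
  obtain ⟨L, hL, hLk⟩ := (St.lh_k hs).tp.exists_bound
  obtain ⟨j, hj1, hj2, hj3, hj4, hj5, hj6, hj7⟩ := ((step_mesh 7 hr1).and
    ((step_mesh 3 hr2).and
    ((step_mesh 5 hr3).and
    ((step_mesh 20 hr4).and
    ((step_mesh (L + 1) ht).and
    ((step_mesh 3 ht).and
    (step_mesh 1 one_pos))))))).exists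
  have hGP1 := hGP l j
  have h2j : (2 : ℝ) ^ j = ((1 / 2 : ℝ) ^ j)⁻¹ := by rw [one_div, inv_pow, inv_inv]
  obtain ⟨c, hcj⟩ : ∃ c : ℝ, c = (1 / 2 : ℝ) ^ j := ⟨_, rfl⟩
  have hc : 0 < c := hcj ▸ pow_pos (by norm_num) j
  rw [← hcj] at hj1 hj2 hj3 hj4 hj5 hj6 hj7 hGP1
  have hci : 0 < c⁻¹ := inv_pos.2 hc
  obtain ⟨κ, hκ⟩ : ∃ κ : ℝ≥0∞, κ = ENNReal.ofReal (c ^ (2 * m + 1)) := ⟨_, rfl⟩
  have hκ1 : κ ≤ 1 := hκ ▸ ENNReal.ofReal_le_one.2 (pow_le_one₀ hc.le (by linarith))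
  have hκe : ∀ a : ℝ≥0∞, κ * a ≤ a := fun a => mul_le_of_le_one_left' hκ1
  -- the rescaled state
  have hs1 := St.ok_sc hs hc
  have hu1 : St.u v (s.sc c) = fun x => c⁻¹ • St.u v s (c • x) := funext (St.u_sc hs hc)
  obtain ⟨T1, hT1, hT1f, hT1c⟩ := finite_cover_balls_of_compact (step_compact hc hK1) one_pos
  have hF1 : ∀ p ∈ hT1f.toFinset, closedBall p 20 ⊆ (s.sc c).I := by
    intro p hp y hy
    refine hcI (mem_cthickening_of_dist_le _ (c • p) _ _ (hT1 (hT1f.mem_toFinset.1 hp)) ?_)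
    rw [step_dist hc]
    exact (mul_le_mul_of_nonneg_left (mem_closedBall.1 hy) hc.le).trans hj4
  have hF1c : ∀ x : V m, c • x ∈ K1 → ∃ p ∈ hT1f.toFinset, ‖x - p‖ < 1 := by
    intro x hx
    obtain ⟨p, hp, hxp⟩ := mem_iUnion₂.1 (hT1c hx)
    exact ⟨p, hT1f.mem_toFinset.2 hp, by rwa [mem_ball, dist_eq_norm] at hxp⟩
  generalize hT1f.toFinset = F1 at hF1 hF1c
  obtain ⟨F2, hF2, hcard⟩ := hnet _ (St.tp_u hs1) _ (step_compact hc hFo)
  have hLk1 : ∀ x y, ‖St.k v (s.sc c) x - St.k v (s.sc c) y‖ ≤ L * ‖x - y‖ := by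
    intro x y
    rw [St.k_sc hs hc, St.k_sc hs hc, ← smul_sub, norm_smul, Real.norm_of_nonneg hci.le]
    have h1 := hLk (c • x) (c • y)
    rw [← smul_sub, norm_smul, Real.norm_of_nonneg hc.le] at h1
    rw [inv_mul_le_iff₀ hc]
    linarith
  have hGP2 : GP v (s.sc c).Γ := by
    have : (s.sc c).Γ = fun x => word l (c • x) := by
      funext x
      change s.Γ (c • x) = _
      rw [hl]
    rw [this]
    exact hGP1
  obtain ⟨s1, i, K, Fo1, ho, hg, hw, hb, hfar, hk, hf, hcF, hFF, hEF, hE1, hE2⟩ :=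
    hunit v (s.sc c) hs1 (St.gam_sc hΓ c) hGP2 F1 F2 hF1 (η / c) L (div_nonneg hη hc.le)
      (St.fib_sc hs hc hFib) (by linarith) hLk1 e he0
  have hs' := St.ok_sc ho hci
  have hu' : (fun x => c⁻¹ • St.u v (s1.sc c⁻¹) (c • x)) = St.u v s1 := by
    funext x
    rw [St.u_sc ho hci, inv_inv, inv_smul_smul₀ hc.ne', inv_smul_smul₀ hc.ne']
  have hEn : ∀ Z : Set (V m), MeasurableSet Z → ∀ Z1 : Set (V m), (∀ x, c • x ∈ Z → x ∈ Z1) →
      En (St.u v (s1.sc c⁻¹)) Z ≤ κ * En (St.u v s1) Z1 := by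
    intro Z hZ Z1 hZ1
    rw [step_En_sc hc _ hZ, hu', ← hκ]
    exact mul_le_mul_right (step_En_mono _ hZ1) κ
  have hI' : ∀ x : V m, c • x ∈ (s1.sc c⁻¹).I ↔ x ∈ s1.I := by
    intro x
    change c⁻¹ • c • x ∈ s1.I ↔ _
    rw [inv_smul_smul₀ hc.ne']
  -- the balls around the second net
  have hballs : 2 ^ m * (κ * volume (⋃ p ∈ F2, ball p 9)) ≤ D * (En (St.u v s) Fo + e) := by
    have h1 : κ * ∫⁻ x in cthickening 3 {x : V m | c • x ∈ Fo},
        (1 + om (St.u v (s.sc c)) 3 x) ^ m ≤ En (St.u v s) Fo + e := by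
      refine le_trans ?_ hfat2
      refine le_trans ?_ (lintegral_mono fun x => pow_le_pow_left' (add_le_add le_rfl
        (om_mono (St.u v s) (ball_subset_ball hj2 : ball x (c * 3) ⊆ ball x r2))) m)
      rw [step_om_sc hc _ 3 isClosed_cthickening.measurableSet, ← hκ, hu1]
      exact mul_le_mul_right (lintegral_mono_set fun x hx =>
        step_cth hc hFo (by norm_num) hj2 hx) κ
    calc 2 ^ m * (κ * volume (⋃ p ∈ F2, ball p 9))
        ≤ 2 ^ m * (κ * ((Cn * ∫⁻ x in cthickening 3 {x : V m | c • x ∈ Fo},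
            (1 + om (St.u v (s.sc c)) 3 x) ^ m) * ENNReal.ofReal (18 ^ (2 * m + 1)))) :=
          mul_le_mul_right (mul_le_mul_right ((step_balls F2).trans
            (mul_le_mul_left hcard _)) κ) _
      _ = D * (κ * ∫⁻ x in cthickening 3 {x : V m | c • x ∈ Fo},
            (1 + om (St.u v (s.sc c)) 3 x) ^ m) := by rw [hD]; ring
      _ ≤ _ := mul_le_mul_right h1 D
  have hshal : ∀ y ∈ Shal F1 F2, c • y ∉ K1 ∨ y ∈ ⋃ p ∈ F2, ball p 9 := by
    rintro y (hy | ⟨p, hp, hy⟩)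
    · refine Or.inl fun hK => ?_
      obtain ⟨p, hp, hyp⟩ := hF1c y hK
      linarith [hy p hp]
    · exact Or.inr (mem_iUnion₂.2 ⟨p, hp, by rwa [mem_ball, dist_eq_norm]⟩)
  have hmIK : MeasurableSet (s.I \ K1) := hs.hI.measurableSet.diff hK1.measurableSet
  have hmain : κ * En (St.u v s1) ({x | ∃ p ∈ F1, ‖x - p‖ ≤ 12} \ s1.I) ≤
      C0 * (0 + 2 ^ m * e + e + D * (En (St.u v s) Fo + e)) + e := by
    have h1 : κ * volume ({y | ∃ p ∈ F1, ‖y - p‖ < 13} ∩ Shal F1 F2) ≤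
        e + D * (En (St.u v s) Fo + e) := by
      have h2 : {y | ∃ p ∈ F1, ‖y - p‖ < 13} ∩ Shal F1 F2 ⊆
          {x : V m | c • x ∈ s.I \ K1} ∪ ⋃ p ∈ F2, ball p 9 := by
        rintro y ⟨⟨p, hp, hyp⟩, hy⟩
        rcases hshal y hy with h | h
        · refine Or.inl ⟨hF1 p hp ?_, h⟩
          rw [mem_closedBall, dist_eq_norm]
          linarith
        · exact Or.inr h
      refine (mul_le_mul_right ((measure_mono h2).trans (measure_union_le _ _)) κ).trans ?_
      rw [mul_add]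
      refine add_le_add ?_ (le_trans (le_mul_of_one_le_left' hP1) hballs)
      rw [hκ, ← step_vol_sc hc hmIK]
      exact hvol.le
    refine (mul_le_mul_right hE1 κ).trans ?_
    rw [mul_add, mul_left_comm]
    refine add_le_add (mul_le_mul_right (h1.trans ?_) C0) (hκe e)
    exact add_le_add le_add_self le_rfl
  have hfin := step_arith (X := En (St.u v s) Fo) (Y := 0) he
  rw [mul_zero, zero_add (C0 * (1 + D) * _)] at hfin
  have hee : e ≤ ε := by
    refine le_trans ?_ he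
    exact le_mul_of_one_le_left' (le_add_left one_le_two)
  refine ⟨s1.sc c⁻¹, {x | c⁻¹ • x ∈ Fo1}, hs', St.gam_sc hg _, ⟨(j, i, K) :: l, ?_⟩, ?_, ?_, ?_, ?_,
    step_compact hci hcF, fun x hx => hFF ((St.mem_Fold_sc ho hci x).1 hx), ?_, ?_, ?_, ?_⟩
  · funext x
    change s1.Γ (c⁻¹ • x) = word l (gen (j, i, K) x)
    rw [hw]
    change s.Γ (c • gg _ K (c⁻¹ • x)) = word l (((1 / 2 : ℝ) ^ j) • gg _ K (((2 : ℝ) ^ j) • x))
    rw [hl, h2j, ← hcj]
  · intro x hx
    obtain ⟨p, hp, hxp⟩ := hb _ ((St.mem_U_sc c⁻¹ x).1 hx)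
    have h1 : c • c⁻¹ • x ∈ s.I := hF1 p hp (by
      rw [mem_closedBall, dist_eq_norm]
      linarith)
    rwa [smul_inv_smul₀ hc.ne'] at h1
  · intro x hx
    have h1 : ∀ y ∈ St.U v (s.sc c), 5 ≤ ‖c⁻¹ • x - y‖ := by
      intro y hy
      by_contra hn
      refine hx (hcW (mem_cthickening_of_dist_le _ (c • y) _ _ hy ?_))
      have h2 := step_dist hc (c⁻¹ • x) y
      rw [smul_inv_smul₀ hc.ne'] at h2
      rw [h2, dist_eq_norm]
      exact (mul_le_mul_of_nonneg_left (not_le.1 hn).le hc.le).trans hj3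
    rw [St.k_sc ho hci, (hfar _ h1).1, St.k_sc hs hc, inv_inv, smul_inv_smul₀ hc.ne',
      smul_inv_smul₀ hc.ne']
  · intro x
    have h1 := hk (c⁻¹ • x)
    rw [St.k_sc hs hc, smul_inv_smul₀ hc.ne'] at h1
    have h2 : St.k v (s1.sc c⁻¹) x - St.k v s x =
        c • (St.k v s1 (c⁻¹ • x) - c⁻¹ • St.k v s x) := by
      rw [St.k_sc ho hci, inv_inv, smul_sub, smul_inv_smul₀ hc.ne']
    rw [h2, norm_smul, Real.norm_of_nonneg hc.le]
    refine (mul_le_mul_of_nonneg_left h1 hc.le).trans ?_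
    have h3 : c * (2 * (η / c) + L + 1) = 2 * η + c * (L + 1) := by field_simp; ring
    linarith
  · intro z hz τ hτ
    refine (St.fib_sc ho hci hf z hz τ hτ).trans ?_
    rw [div_inv_eq_mul, mul_comm]
    exact hj6
  · refine (hEn _ (step_compact hci hcF).measurableSet Fo1 fun x hx => ?_).trans
      ((hκe _).trans (hEF.trans hee))
    have h1 : c⁻¹ • c • x ∈ Fo1 := hx
    rwa [inv_smul_smul₀ hc.ne'] at h1
  · refine (hEn _ ((St.isCompact_U hs').measurableSet.diff hs'.hI.measurableSet) _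
      fun x hx => ?_).trans (hmain.trans (le_self_add.trans hfin))
    refine ⟨hb x ?_, fun h => hx.2 ((hI' x).2 h)⟩
    have h1 := (St.mem_U_sc c⁻¹ _).1 hx.1
    rwa [inv_smul_smul₀ hc.ne'] at h1
  · have h1 : s.I \ (s1.sc c⁻¹).I ⊆ (K1 \ (s1.sc c⁻¹).I) ∪ (s.I \ K1) := by
      intro x hx
      by_cases h : x ∈ K1
      · exact Or.inl ⟨h, hx.2⟩
      · exact Or.inr ⟨hx.1, h⟩
    refine ((measure_mono h1).trans (measure_union_le _ _)).trans (le_trans ?_ hfin)
    refine add_le_add ((step_vol_le_En (St.u v (s1.sc c⁻¹)) _).trans ?_) hvol.le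
    refine (hEn _ (hK1.measurableSet.diff hs'.hI.measurableSet) _ fun x hx => ?_).trans hmain
    obtain ⟨p, hp, hxp⟩ := hF1c x hx.1
    exact ⟨⟨p, hp, by linarith⟩, fun h => hx.2 ((hI' x).2 h)⟩
  · intro hFold B hB
    have hE3 := hE2 fun x hx h0 => hF2 x (hFold ((St.mem_Fold_sc hs hc x).1 hx)) h0
    obtain ⟨T, hT⟩ : ∃ T : Set (V m), T = {x | c⁻¹ • x ∈ cthickening 6 (St.U v (s.sc c))} :=
      ⟨_, rfl⟩
    have hTc : IsClosed T := hT ▸ isClosed_cthickening.preimage (continuous_const_smul c⁻¹)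
    have h1 : B \ St.U v (s1.sc c⁻¹) ⊆ (B \ T) ∪ (T \ (s1.sc c⁻¹).I) := by
      intro x hx
      by_cases h : x ∈ T
      · exact Or.inr ⟨h, fun hI => hx.2 (St.I_subset_U hs' hI)⟩
      · exact Or.inl ⟨hx.1, h⟩
    have h2 : En (St.u v (s1.sc c⁻¹)) (B \ T) ≤ En (St.u v s) (B \ St.U v s) := by
      rw [step_En_congr (g := St.u v s) hTc.isOpen_compl (hB.diff hTc.measurableSet)
        (fun x hx => hx.2) ?_]
      · refine step_En_mono _ fun x hx => ⟨hx.1, fun hxU => hx.2 ?_⟩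
        rw [hT]
        refine self_subset_cthickening _ ?_
        rw [St.mem_U_sc, smul_inv_smul₀ hc.ne']
        exact hxU
      · intro x hx
        have h3 : ∀ y ∈ St.U v (s.sc c), 5 ≤ ‖c⁻¹ • x - y‖ := by
          intro y hy
          by_contra hn
          refine hx ?_
          rw [hT]
          refine mem_cthickening_of_dist_le _ y _ _ hy ?_
          rw [dist_eq_norm]
          linarith [not_le.1 hn]
        rw [St.u_sc ho hci, (hfar _ h3).2, St.u_sc hs hc, inv_inv, smul_inv_smul₀ hc.ne',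
          smul_inv_smul₀ hc.ne']
    have h4 : κ * ∫⁻ y in {x : V m | c • x ∈ cthickening r1 (St.U v s) \ K1},
        (1 + om (St.u v (s.sc c)) 3 y) ^ m ≤
        En (St.u v s) (St.U v s \ s.I) + 2 ^ m * e + e := by
      rw [hκ, hu1, ← step_om_sc hc _ 3
        (isClosed_cthickening.measurableSet.diff hK1.measurableSet)]
      refine le_trans (lintegral_mono fun x => pow_le_pow_left' (add_le_add le_rfl
        (om_mono (St.u v s) (ball_subset_ball (by linarith) : ball x (c * 3) ⊆ ball x r1))) m) ?_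
      refine hfat1.trans (add_le_add ?_ le_rfl)
      refine (step_En_union _ (A := St.U v s \ s.I) (B := s.I \ K1) fun x hx => ?_).trans
        (add_le_add le_rfl ?_)
      · by_cases h : x ∈ s.I
        · exact Or.inr ⟨h, hx.2⟩
        · exact Or.inl ⟨hx.1, h⟩
      · exact (step_En_id hs.hI hmIK sdiff_subset fun y hy => St.u_eq_self hs hy).trans
          (mul_le_mul_right hvol.le _)
    have hmB : MeasurableSet ({x : V m | c • x ∈ K1} ∩ ⋃ p ∈ F2, ball p 9) :=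
      (step_compact hc hK1).measurableSet.inter
        (isOpen_biUnion fun p _ => isOpen_ball).measurableSet
    have h5 : κ * ∫⁻ y in {x : V m | c • x ∈ K1} ∩ ⋃ p ∈ F2, ball p 9,
        (1 + om (St.u v (s.sc c)) 3 y) ^ m ≤ D * (En (St.u v s) Fo + e) := by
      refine le_trans ?_ hballs
      rw [mul_left_comm]
      refine mul_le_mul_right ?_ κ
      refine le_trans ?_ (mul_le_mul_right (measure_mono
        (inter_subset_right (s := {x : V m | c • x ∈ K1}))) _)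
      rw [← setLIntegral_const]
      refine setLIntegral_mono' hmB fun x hx => step_om_id fun y hy => St.u_eq_self hs1 ?_
      obtain ⟨p, hp, hxp⟩ := hF1c x hx.1
      refine hF1 p hp ?_
      rw [mem_closedBall]
      have h6 := dist_triangle y x p
      rw [mem_ball] at hy
      rw [← dist_eq_norm] at hxp
      linarith
    have h6 : cthickening 7 (St.U v (s.sc c)) ∩ Shal F1 F2 ⊆
        {x : V m | c • x ∈ cthickening r1 (St.U v s) \ K1} ∪
          ({x : V m | c • x ∈ K1} ∩ ⋃ p ∈ F2, ball p 9) := by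
      rintro y ⟨hy, hy'⟩
      by_cases h : c • y ∈ K1
      · exact Or.inr ⟨h, (hshal y hy').resolve_left (not_not.2 h)⟩
      · exact Or.inl ⟨step_cth hc hU (by norm_num) hj1 hy, h⟩
    have h7 : En (St.u v (s1.sc c⁻¹)) (T \ (s1.sc c⁻¹).I) ≤
        C0 * (En (St.u v s) (St.U v s \ s.I) + 2 ^ m * e + e + D * (En (St.u v s) Fo + e)) + e := by
      refine (hEn _ (hTc.measurableSet.diff hs'.hI.measurableSet)
        (cthickening 6 (St.U v (s.sc c)) \ s1.I) fun x hx => ?_).trans ?_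
      · refine ⟨?_, fun h => hx.2 ((hI' x).2 h)⟩
        have h8 := hx.1
        rw [hT, mem_ofPred_eq, inv_smul_smul₀ hc.ne'] at h8
        exact h8
      · refine (mul_le_mul_right hE3 κ).trans ?_
        rw [mul_add, mul_left_comm]
        refine add_le_add (mul_le_mul_right ?_ C0) (hκe e)
        refine (mul_le_mul_right ((lintegral_mono_set h6).trans (lintegral_union_le _ _ _)) κ).trans ?_
        rw [mul_add]
        exact add_le_add h4 h5
    refine (step_En_union _ h1).trans ?_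
    rw [add_assoc, add_assoc, ← add_assoc (C0 * (1 + D) * _)]
    exact add_le_add h2 (h7.trans (le_self_add.trans (step_arith he)))

end BEv
end
end

-- merged part: Pool.Agent.Work.MP_f0515e_an.Final
section
-- merged part: Pool.Agent.Work.MP_f0515e_an.Iter
section
/-! Iteration and the limit map. -/

open Set Metric Filter Topology MeasureTheory Function
open scoped ENNReal NNReal

noncomputable section
namespace BEv

variable {m : ℕ}

theorem iter_inv_id (y : V m) : invFun (id : V m → V m) y = y := LH.id'.inv_eq rfl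

theorem exists_init {v : V m} (hv : v 0 ≠ 0) : ∃ s : St m, St.Ok v s ∧ St.Gam v s ∧
    s.Γ = word [] ∧ St.U v s ⊆ ball 0 (1 / 2) ∧ St.Fib v s 1 ∧ 0 < volume s.I ∧
    ∀ x, St.k v s x = rf v x := by
  have hv0 : 0 ≤ ‖v‖ := norm_nonneg v
  obtain ⟨σ, hσ, hσ1⟩ : ∃ σ : ℝ, 0 < σ ∧ σ * (‖v‖ + 1) = 1 / 16 :=
    ⟨1 / 16 / (‖v‖ + 1), by positivity, by field_simp⟩
  have ha0 : TP (fun y : V m => σ - ‖y‖) := (TP.const σ).sub TP.id'.norm_pi
  have ha : TP (fun y : V m => min σ (max (σ - ‖y‖) 0)) :=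
    (TP.const σ).min (ha0.max (TP.const 0))
  let I : Set (V m) := {z | |ell v z| < min σ (max (σ - ‖pj v z‖) 0)}
  have hI : IsOpen I :=
    isOpen_lt (tp_ell v).abs.continuous (ha.comp (tp_pj v)).continuous
  let s : St m := ⟨id, id, σ, fun y => σ - ‖y‖, I, id⟩
  have hU : St.U v s ⊆ ball 0 (1 / 2) := by
    intro z hz
    have h1 : 0 ≤ σ - ‖pj v z‖ := hz.1
    have h2 : |ell v z| ≤ 4 * σ := hz.2
    rw [mem_ball_zero_iff, ← pj_add_ell v z]
    have h3 := norm_add_le (pj v z) (ell v z • v)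
    rw [norm_smul, Real.norm_eq_abs] at h3
    have h4 := mul_le_mul_of_nonneg_right h2 hv0
    nlinarith
  refine ⟨s, ⟨hv, LH.id', LH.id', hσ, ha0, hI, isBounded_ball.subset hU, fun x hx => ?_⟩,
    fun _ _ => rfl, rfl, hU, fun z hz t ht => ?_, hI.measure_pos _ ⟨0, ?_⟩, fun x => iter_inv_id _⟩
  · have h1 : |ell v x| < min σ (max (σ - ‖pj v x‖) 0) := hx
    refine ⟨rfl, ?_, h1.le⟩
    have h2 := (abs_nonneg _).trans_lt (h1.trans_le (min_le_right _ _))
    rcases lt_max_iff.1 h2 with h3 | h3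
    · exact h3.le
    · exact absurd h3 (lt_irrefl _)
  · have h2 : |ell v z| ≤ 4 * σ := hz.2
    have h3 : |t| ≤ 4 * σ := ht
    change ‖invFun id (pj v z + t • v) - z‖ ≤ 1
    have h4 : pj v z + t • v - z = (t - ell v z) • v := by
      rw [pj, sub_smul]
      abel
    rw [iter_inv_id, h4, norm_smul, Real.norm_eq_abs]
    have h5 := abs_sub t (ell v z)
    have h6 : |t - ell v z| ≤ 8 * σ := by linarith
    have h7 := mul_le_mul_of_nonneg_right h6 hv0
    nlinarith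
  · change |ell v 0| < min σ (max (σ - ‖pj v 0‖) 0)
    have h1 : ell v 0 = 0 := by simp [ell]
    have h2 : pj v 0 = 0 := by simp [pj, h1]
    rw [h1, h2, abs_zero, norm_zero, sub_zero]
    exact lt_min hσ (lt_max_of_lt_left hσ)

theorem iter_rec {X : Type} {P : ℕ → X → Prop} {R : ℕ → X → X → Prop} {x0 : X} (h0 : P 0 x0)
    (h : ∀ j x, P j x → ∃ y, P (j + 1) y ∧ R j x y) :
    ∃ f : ℕ → X, f 0 = x0 ∧ (∀ j, P j (f j)) ∧ ∀ j, R j (f j) (f (j + 1)) := by
  choose g hg using h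
  let F : ∀ j, {x // P j x} := fun j =>
    Nat.rec ⟨x0, h0⟩ (fun j y => ⟨g j y.1 y.2, (hg j y.1 y.2).1⟩) j
  exact ⟨fun j => (F j).1, rfl, fun j => (F j).2, fun j => (hg j (F j).1 (F j).2).2⟩

theorem iter_En_ne_top {u : V m → V m} (hu : TP u) (Z : Set (V m)) :
    En u (ball 0 1 \ Z) ≠ ⊤ := by
  obtain ⟨L, hL, h⟩ := hu.om_bound
  have h1 : En u (ball 0 1 \ Z) ≤ ∫⁻ _ in ball (0 : V m) 1, (1 + L) ^ m := by
    refine (lintegral_mono_set sdiff_subset).trans (lintegral_mono fun x => ?_)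
    have := (lip_le_om u one_pos x).trans (h 1 x)
    gcongr
  rw [setLIntegral_const] at h1
  exact ne_top_of_le_ne_top (ENNReal.mul_ne_top
    (ENNReal.pow_ne_top (ENNReal.add_ne_top.2 ⟨ENNReal.one_ne_top, hL⟩)) measure_ball_ne_top) h1

theorem iter_bound {A d : ℕ → ℝ≥0∞} (h : ∀ j, A (j + 1) ≤ A j + d j) (j : ℕ) :
    A j ≤ A 0 + ∑' i, d i := by
  have h1 : ∀ j, A j ≤ A 0 + ∑ i ∈ Finset.range j, d i := by
    intro j
    induction j with
    | zero => simp
    | succ j ih =>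
      rw [Finset.sum_range_succ, ← add_assoc]
      exact (h j).trans (by gcongr)
  exact (h1 j).trans (by gcongr; exact ENNReal.sum_le_tsum _)

/-- The sequence of states. -/
theorem exists_seq (hm : 2 ≤ m) : ∃ (v : V m) (s : ℕ → St m), (∀ j, St.Ok v (s j)) ∧
    (∀ x, St.k v (s 0) x = rf v x) ∧ St.U v (s 0) ⊆ ball 0 (1 / 2) ∧
    (∀ x, 1 / 2 ≤ ‖x‖ → St.k v (s 1) x = St.k v (s 0) x) ∧
    (∀ j, St.U v (s (j + 1)) ⊆ (s j).I) ∧
    (∀ j x, x ∉ (s j).I → St.k v (s (j + 2)) x = St.k v (s (j + 1)) x) ∧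
    (∀ j x, ‖St.k v (s (j + 1)) x - St.k v (s j) x‖ ≤ 3 * (1 / 2) ^ j) ∧
    (∀ j, St.Fib v (s j) ((1 / 2) ^ j)) ∧
    (∑' j, volume ((s j).I \ (s (j + 1)).I)) < volume (s 0).I ∧
    ∃ M : ℝ≥0∞, M ≠ ⊤ ∧ ∀ j, En (St.u v (s j)) (ball 0 1 \ St.U v (s j)) ≤ M := by
  obtain ⟨C, hC, hstep⟩ := step hm
  obtain ⟨v, hv, hGP⟩ := exists_GP_word m
  obtain ⟨s0, hok, hgam, hw, hU, hfib, hvol, hk⟩ := exists_init hv
  obtain ⟨δ, hδ, hδ1⟩ := ENNReal.exists_nnreal_pos_mul_lt
    (ENNReal.add_ne_top.2 ⟨hC, ENNReal.one_ne_top⟩) hvol.ne'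
  obtain ⟨e, he, he1⟩ := ENNReal.exists_pos_sum_of_countable
    (ε := δ) (ENNReal.coe_ne_zero.2 hδ.ne') ℕ
  obtain ⟨f, hf0, hP, hR⟩ := iter_rec (X := St m × Set (V m) × Set (V m))
    (P := fun j x => St.Ok v x.1 ∧ St.Gam v x.1 ∧ (∃ l, x.1.Γ = word l) ∧
      St.Fib v x.1 ((1 / 2) ^ j) ∧ IsCompact x.2.1 ∧ IsOpen x.2.2 ∧ St.U v x.1 ⊆ x.2.2)
    (R := fun j x y => y.2.2 = x.1.I ∧ (∀ z, z ∉ x.2.2 → St.k v y.1 z = St.k v x.1 z) ∧
      (∀ z, ‖St.k v y.1 z - St.k v x.1 z‖ ≤ 3 * (1 / 2) ^ j) ∧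
      St.Fold v y.1 ⊆ y.2.1 ∧ En (St.u v y.1) y.2.1 ≤ e j ∧
      En (St.u v y.1) (St.U v y.1 \ y.1.I) ≤ C * En (St.u v x.1) x.2.1 + e j ∧
      volume (x.1.I \ y.1.I) ≤ C * En (St.u v x.1) x.2.1 + e j ∧
      (St.Fold v x.1 ⊆ x.2.1 → En (St.u v y.1) (ball 0 1 \ St.U v y.1) ≤
        En (St.u v x.1) (ball 0 1 \ St.U v x.1) + (C * En (St.u v x.1) (St.U v x.1 \ x.1.I) +
          C * En (St.u v x.1) x.2.1 + e j)))
    (x0 := (s0, ∅, ball 0 (1 / 2)))
    ⟨hok, hgam, ⟨[], hw⟩, by rwa [pow_zero], isCompact_empty, isOpen_ball, hU⟩ (by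
      rintro j ⟨s, Fo, W⟩ ⟨h1, h2, h3, h4, h5, h6, h7⟩
      have hp : (0 : ℝ) < (1 / 2) ^ j := by positivity
      obtain ⟨s', Fo', g1, g2, g3, g4, g5, g6, g7, g8, g9, g10, g11, g12, g13⟩ :=
        hstep v hGP s h1 h2 h3 _ hp.le h4 Fo W h5 h6 h7 (e j) (ENNReal.coe_ne_zero.2 (he j).ne')
          ((1 / 2) ^ (j + 1)) (by positivity)
      refine ⟨(s', Fo', s.I), ⟨g1, g2, g3, g7, g8, h1.hI, g4⟩, rfl, g5, fun z => ?_, g9, g10,
        g11, g12, fun h => ?_⟩
      · refine (g6 z).trans ?_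
        rw [pow_succ]
        linarith
      · rw [← add_assoc, ← add_assoc]
        exact g13 h _ measurableSet_ball)
  set b : ℕ → ℝ≥0∞ := fun j => En (St.u v (f j).1) (f j).2.1 with hb
  set S : ℝ≥0∞ := ∑' j, (e j : ℝ≥0∞) with hS
  have hSt : S ≠ ⊤ := (he1.trans ENNReal.coe_lt_top).ne
  have hb1 : ∑' j, b (j + 1) ≤ S := ENNReal.tsum_le_tsum fun j => (hR j).2.2.2.2.1
  have hb0 : b 0 = 0 := by
    simp only [hb, hf0, En, Measure.restrict_empty, lintegral_zero_measure]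
  have hb2 : ∑' j, b j ≤ S := by
    rw [tsum_eq_zero_add' ENNReal.summable, hb0, zero_add]
    exact hb1
  have he2 : ∑' j, (e (j + 1) : ℝ≥0∞) ≤ S :=
    ENNReal.tsum_comp_le_tsum_of_injective (f := fun j : ℕ => j + 1) (add_left_injective 1)
      fun j => (e j : ℝ≥0∞)
  have hsum : ∑' j, (C * b j + e j) ≤ C * S + S := by
    rw [ENNReal.tsum_add, ENNReal.tsum_mul_left]
    gcongr
  refine ⟨v, fun j => (f j).1, fun j => (hP j).1, by simpa only [hf0] using hk,
    by simpa only [hf0] using hU, fun x hx => (hR 0).2.1 x ?_, fun j => ?_,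
    fun j x hx => (hR (j + 1)).2.1 x (by rwa [(hR j).1]), fun j => (hR j).2.2.1,
    fun j => (hP j).2.2.2.1, ?_, ?_⟩
  · rw [hf0]
    simpa using hx
  · rw [← (hR j).1]
    exact (hP (j + 1)).2.2.2.2.2.2
  · refine ((ENNReal.tsum_le_tsum fun j => (hR j).2.2.2.2.2.2.1).trans hsum).trans_lt ?_
    simp only [hf0]
    refine lt_of_le_of_lt ?_ hδ1
    rw [mul_comm (δ : ℝ≥0∞), add_mul, one_mul]
    have := he1.le
    gcongr
  · set A : ℕ → ℝ≥0∞ := fun j => En (St.u v (f j).1) (ball 0 1 \ St.U v (f j).1) with hA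
    have hAt : ∀ j, A j ≠ ⊤ := fun j => iter_En_ne_top (St.tp_u (hP j).1) _
    have h1 : ∀ j, A (j + 1 + 1) ≤ A (j + 1) + (C * (C * b j + e j) + C * b (j + 1) + e (j + 1)) :=
      fun j => ((hR (j + 1)).2.2.2.2.2.2.2 (hR j).2.2.2.1).trans (by
        have := (hR j).2.2.2.2.2.1
        gcongr)
    have h2 : ∑' j, (C * (C * b j + e j) + C * b (j + 1) + e (j + 1)) ≤
        C * (C * S + S) + C * S + S := by
      rw [ENNReal.tsum_add, ENNReal.tsum_add, ENNReal.tsum_mul_left, ENNReal.tsum_mul_left]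
      gcongr
    refine ⟨A 0 + (A 1 + (C * (C * S + S) + C * S + S)), ?_, fun j => ?_⟩
    · have := hAt 0
      have := hAt 1
      finiteness
    · rcases j with _ | j
      · exact le_self_add
      · exact ((iter_bound (A := fun j => A (j + 1)) h1 j).trans (by gcongr)).trans le_add_self

theorem exists_map (hm : 2 ≤ m) : ∃ (v : V m) (k : V m → V m) (E0 : Set (V m)), v 0 ≠ 0 ∧
    Continuous k ∧ Injective k ∧ IsClosed E0 ∧ E0 ⊆ ball 0 1 ∧ 0 < volume E0 ∧
    (∀ x ∈ E0, k x = x) ∧ (∀ x, 1 / 2 ≤ ‖x‖ → k x = rf v x) ∧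
    (∀ t : ℝ, 0 < t → ∃ (kj : V m → V m) (L : ℝ≥0), LipschitzWith L kj ∧
      ∀ x, k x = kj x ∨ (‖k x - x‖ < t ∧ ‖kj x - x‖ < t)) ∧
    ∫⁻ x in ball (0 : V m) 1 \ E0, lip k x ^ m ≠ ⊤ := by
  obtain ⟨v, s, hok, hk0, hU0, hk1, hUI, hk2, hd, hfib, hvol, M, hM, hEn⟩ := exists_seq hm
  have hd' : ∀ x j, dist (St.k v (s j) x) (St.k v (s (j + 1)) x) ≤ 3 * (1 / 2) ^ j := fun x j => by
    rw [dist_comm, dist_eq_norm]
    exact hd j x
  have hhalf : (1 / 2 : ℝ) < 1 := by norm_num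
  have hex : ∀ x, ∃ y, Tendsto (fun j => St.k v (s j) x) atTop (𝓝 y) := fun x =>
    cauchySeq_tendsto_of_complete (cauchySeq_of_le_geometric _ _ hhalf (hd' x))
  choose k hk using hex
  have hkd : ∀ j x, ‖St.k v (s j) x - k x‖ ≤ 6 * (1 / 2) ^ j := fun j x => by
    have := dist_le_of_le_geometric_of_tendsto _ _ hhalf (hd' x) (hk x) j
    rw [dist_eq_norm] at this
    exact this.trans (le_of_eq (by ring))
  have hsmall : ∀ t : ℝ, 0 < t → ∀ᶠ j : ℕ in atTop, 7 * (1 / 2 : ℝ) ^ j < t := fun t ht => by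
    have h1 := (tendsto_pow_atTop_nhds_zero_of_lt_one (by norm_num) hhalf).const_mul 7
    rw [mul_zero] at h1
    exact h1.eventually (gt_mem_nhds ht)
  have hUa : Antitone fun j => St.U v (s j) :=
    antitone_nat_of_succ_le fun j => (hUI j).trans (St.I_subset_U (hok j))
  have hoff : ∀ j x, x ∉ St.U v (s j) → k x = St.k v (s (j + 1)) x := by
    intro j x hx
    have h1 : ∀ n, St.k v (s (n + j + 1)) x = St.k v (s (j + 1)) x := by
      intro n
      induction n with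
      | zero => rw [zero_add]
      | succ n ih =>
        rw [← ih, show n + 1 + j + 1 = n + j + 2 by ring]
        exact hk2 _ x fun h => hx (hUa (Nat.le_add_left j n) (St.I_subset_U (hok _) h))
    have h2 : Tendsto (fun n => St.k v (s (n + (j + 1))) x) atTop (𝓝 (k x)) :=
      (tendsto_add_atTop_iff_nat (f := fun n => St.k v (s n) x) (j + 1)).2 (hk x)
    refine tendsto_nhds_unique h2 ?_
    simp only [← add_assoc, h1]
    exact tendsto_const_nhds
  have hon : ∀ j, ∀ x ∈ St.U v (s j), ‖k x - x‖ ≤ 7 * (1 / 2) ^ j := fun j x hx => by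
    have h1 := St.norm_k_sub_le (hok j) (hfib j) hx
    have h2 := hkd j x
    have h3 := norm_sub_le_norm_sub_add_norm_sub (k x) (St.k v (s j) x) x
    rw [norm_sub_rev] at h2
    linarith
  have hE : ∀ x ∈ ⋂ j, St.U v (s j), k x = x := fun x hx => by
    rw [← sub_eq_zero, ← norm_le_zero_iff]
    refine le_of_forall_pos_le_add fun t ht => ?_
    obtain ⟨j, hj⟩ := (hsmall t ht).exists
    have := hon j x (mem_iInter.1 hx j)
    linarith
  have hmix : ∀ x ∈ ⋂ j, St.U v (s j), ∀ y, k x = k y → y ∈ ⋂ j, St.U v (s j) := by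
    intro x hx y hxy
    refine mem_iInter.2 fun j => by_contra fun hy => hy (hUa (Nat.le_succ j) ?_)
    refine St.mem_U_of_k (hok (j + 1)) ?_
    rw [← hoff j y hy, ← hxy, hE x hx]
    exact hUI _ (mem_iInter.1 hx (j + 2))
  have hcl : ∀ j, IsClosed (St.U v (s j)) := fun j => (St.isCompact_U (hok j)).isClosed
  refine ⟨v, k, ⋂ j, St.U v (s j), (hok 0).hv, ?_, fun x y hxy => ?_, isClosed_iInter hcl,
    ((iInter_subset _ 0).trans hU0).trans (ball_subset_ball hhalf.le), ?_, hE, fun x hx => ?_,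
    fun t ht => ?_, ?_⟩
  · refine TendstoUniformly.continuous (F := fun j => St.k v (s j)) (p := atTop) ?_
      (Frequently.of_forall fun j => (St.lh_k (hok j)).tp.continuous)
    refine Metric.tendstoUniformly_iff.2 fun t ht => (hsmall t ht).mono fun j hj x => ?_
    have h1 := hkd j x
    have h2 : (0 : ℝ) < (1 / 2) ^ j := by positivity
    rw [dist_comm, dist_eq_norm]
    linarith
  · by_cases hx : x ∈ ⋂ j, St.U v (s j)
    · rw [← hE x hx, hxy, hE y (hmix x hx y hxy)]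
    · have hy : y ∉ ⋂ j, St.U v (s j) := fun hy => hx (hmix y hy x hxy.symm)
      obtain ⟨i, hi⟩ := not_forall.1 (mt mem_iInter.2 hx)
      obtain ⟨j, hj⟩ := not_forall.1 (mt mem_iInter.2 hy)
      rw [hoff (max i j) x fun h => hi (hUa (le_max_left i j) h),
        hoff (max i j) y fun h => hj (hUa (le_max_right i j) h)] at hxy
      exact (St.lh_k (hok _)).inj hxy
  · refine pos_iff_ne_zero.2 fun h0 => hvol.not_ge ?_
    have h1 : (s 0).I ⊆ (⋂ j, St.U v (s j)) ∪ ⋃ j, (s j).I \ (s (j + 1)).I := by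
      intro x hx
      refine or_iff_not_imp_right.2 fun hn => mem_iInter.2 fun j => St.I_subset_U (hok j) ?_
      induction j with
      | zero => exact hx
      | succ j ih => exact by_contra fun h => hn (mem_iUnion.2 ⟨j, ih, h⟩)
    refine (measure_mono h1).trans ((measure_union_le _ _).trans ?_)
    rw [h0, zero_add]
    exact measure_iUnion_le _
  · rw [hoff 0 x fun h => (mem_ball_zero_iff.1 (hU0 h)).not_ge hx, hk1 x hx, hk0]
  · obtain ⟨j, hj⟩ := (hsmall t ht).exists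
    obtain ⟨L, hL⟩ := (St.lh_k (hok (j + 1))).tp.lip
    refine ⟨_, L, hL, fun x => ?_⟩
    by_cases hx : x ∈ St.U v (s j)
    · refine Or.inr ⟨(hon j x hx).trans_lt hj, ?_⟩
      have h1 := St.norm_k_sub_le (hok j) (hfib j) hx
      have h2 := hd j x
      have h3 := norm_sub_le_norm_sub_add_norm_sub (St.k v (s (j + 1)) x) (St.k v (s j) x) x
      have h4 : (0 : ℝ) < (1 / 2) ^ j := by positivity
      linarith
    · exact Or.inl (hoff j x hx)
  · rw [sdiff_iInter, setLIntegral_iUnion_of_directed _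
      (Monotone.directed_le fun i j h => sdiff_subset_sdiff_right (hUa h))]
    refine ne_top_of_le_ne_top hM (iSup_le fun j => le_trans ?_ (hEn (j + 1)))
    refine le_trans (setLIntegral_mono' (measurableSet_ball.diff (hcl j).measurableSet)
      fun x hx => ?_) (lintegral_mono_set (sdiff_subset_sdiff_right (hUa (Nat.le_succ j))))
    have h1 : k =ᶠ[𝓝 x] St.u v (s (j + 1)) := by
      filter_upwards [(hcl j).isOpen_compl.mem_nhds hx.2] with y hy
      rw [hoff j y hy, St.u_eq_k (hok _) fun h => hy (hUa (Nat.le_succ j) h)]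
    rw [lip_congr h1]
    gcongr
    exact le_add_self

end BEv
end
end

-- merged part: Pool.Agent.Work.MP_f0515e_an.Sign1
section
/-! Weak derivatives of smooth maps, diffeomorphisms, and the final contradiction. -/

open Set Metric Filter Topology MeasureTheory Function
open scoped ENNReal NNReal ContDiff

noncomputable section
namespace BEv

variable {n : ℕ} {Ω : Set (Fin n → ℝ)} {g : (Fin n → ℝ) → Fin n → ℝ}
  {D : (Fin n → ℝ) → (Fin n → ℝ) →L[ℝ] (Fin n → ℝ)}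

theorem det_id_add_smulRight (l : (Fin n → ℝ) →L[ℝ] ℝ) (w : Fin n → ℝ) :
    (ContinuousLinearMap.id ℝ (Fin n → ℝ) + l.smulRight w).det = 1 + l w := by
  have h1 : LinearMap.toMatrix' ((ContinuousLinearMap.id ℝ (Fin n → ℝ) + l.smulRight w :
      (Fin n → ℝ) →L[ℝ] (Fin n → ℝ)) : (Fin n → ℝ) →ₗ[ℝ] (Fin n → ℝ)) =
      1 + Matrix.replicateCol Unit w *
        Matrix.replicateRow Unit fun j => l (Pi.single j 1) := by
    ext i j
    simp [LinearMap.toMatrix'_apply, Matrix.mul_apply, Matrix.one_apply, Pi.single_apply,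
      mul_comm]
  have h2 : l w = ∑ j, l (Pi.single j 1) * w j := by
    conv_lhs => rw [pi_eq_sum_univ' w]
    simp [mul_comm]
  rw [ContinuousLinearMap.det, ← LinearMap.det_toMatrix', h1,
    Matrix.det_one_add_replicateCol_mul_replicateRow, h2]
  rfl

theorem sign1_int {ψ : (Fin n → ℝ) → ℝ} {k : (Fin n → ℝ) → Fin n → ℝ} {K : Set (Fin n → ℝ)}
    (hψ : Continuous ψ) (hK : IsCompact K) (hs : support ψ ⊆ K) (hk : IntegrableOn k K) :
    Integrable fun x => ψ x • k x :=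
  (integrableOn_iff_integrable_of_support_subset
    ((support_smul_subset_left ψ k).trans hs)).1 (hk.continuousOn_smul hψ.continuousOn hK)

set_option linter.unusedVariables false in
/-- Where the map is `C^1`, the weak derivative is the classical one. -/
theorem IsWeakDeriv.ae_eq_fderiv (hΩ : MeasurableSet Ω) (h : IsWeakDeriv Ω g D)
    (hD : IntegrableOn D Ω) {W : Set (Fin n → ℝ)} (hW : IsOpen W) (hWΩ : W ⊆ Ω)
    (hg : ContDiffOn ℝ 1 g W) : ∀ᵐ x, x ∈ W → D x = fderiv ℝ g x := by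
  have hc : ContinuousOn (fderiv ℝ g) W := hg.continuousOn_fderiv_of_isOpen hW le_rfl
  have key : ∀ w : Fin n → ℝ, ∀ᵐ x, x ∈ W → D x w - fderiv ℝ g x w = 0 := by
    intro w
    have hDw : IntegrableOn (fun x => D x w) Ω :=
      (ContinuousLinearMap.apply ℝ (Fin n → ℝ) w).integrable_comp hD
    have hcw : ContinuousOn (fun x => fderiv ℝ g x w) W := hc.clm_apply continuousOn_const
    refine hW.ae_eq_zero_of_integral_contDiff_smul_eq_zero
      ((hDw.mono_set hWΩ).locallyIntegrableOn.sub (hcw.locallyIntegrableOn hW.measurableSet))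
      fun φ hφ hφc hφW => ?_
    have hK : IsCompact (tsupport φ) := hφc
    have hs1 : support (fun x => fderiv ℝ φ x w) ⊆ tsupport φ :=
      (subset_tsupport _).trans (tsupport_fderiv_apply_subset ℝ w)
    have hgK : IntegrableOn g (tsupport φ) :=
      (hg.continuousOn.mono hφW).integrableOn_compact hK
    have i1 : Integrable fun x => fderiv ℝ φ x w • g x :=
      sign1_int ((hφ.continuous_fderiv (by simp)).clm_apply continuous_const) hK hs1 hgK
    have i2 : Integrable fun x => φ x • fderiv ℝ g x w :=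
      sign1_int hφ.continuous hK (subset_tsupport _) ((hcw.mono hφW).integrableOn_compact hK)
    have i3 : Integrable fun x => φ x • g x :=
      sign1_int hφ.continuous hK (subset_tsupport _) hgK
    have i4 : Integrable fun x => φ x • D x w :=
      sign1_int hφ.continuous hK (subset_tsupport _) (hDw.mono_set (hφW.trans hWΩ))
    have e1 := integral_smul_fderiv_eq_neg_fderiv_smul_of_integrable i1 i2 i3
      (fun x _ => hφ.differentiable (by simp) x)
      fun x hx => (hg.contDiffAt (hW.mem_nhds (hφW hx))).differentiableAt (by simp)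
    have e2 := h φ hφ hφc (hφW.trans hWΩ) w
    rw [setIntegral_eq_integral_of_forall_compl_eq_zero fun x hx => by
        rw [notMem_support.1 fun h' => hx (hWΩ (hφW (hs1 h'))), zero_smul],
      setIntegral_eq_integral_of_forall_compl_eq_zero fun x hx => by
        rw [notMem_support.1 fun h' => hx (hWΩ (hφW (subset_tsupport _ h'))), zero_smul]] at e2
    simp only [smul_sub]
    rw [integral_sub i4 i2, e1, e2, neg_neg, sub_self]
  filter_upwards [ae_all_iff.2 fun j : Fin n => key (Pi.single j 1)] with x hx hxW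
  refine ContinuousLinearMap.coe_injective ((Pi.basisFun ℝ (Fin n)).ext fun j => ?_)
  rw [Pi.basisFun_apply]
  exact sub_eq_zero.1 (hx j hxW)

theorem IsDiffeo.sign (hΩ : IsOpen Ω) (hc : IsPreconnected Ω) (hg : IsDiffeo Ω g)
    (h : IsWeakDeriv Ω g D) (hD : IntegrableOn D Ω) :
    (∀ᵐ x, x ∈ Ω → 0 < (D x).det) ∨ (∀ᵐ x, x ∈ Ω → (D x).det < 0) := by
  obtain ⟨h1, h2, g', h3, h4⟩ := hg
  have hae := h.ae_eq_fderiv hΩ.measurableSet hD hΩ Subset.rfl (h1.of_le (by simp))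
  have hcont : ContinuousOn (fun x => (fderiv ℝ g x).det) Ω :=
    ContinuousLinearMap.continuous_det.comp_continuousOn
      (h1.continuousOn_fderiv_of_isOpen hΩ (by simp))
  have hne : ∀ x ∈ Ω, (fderiv ℝ g x).det ≠ 0 := by
    intro x hx h0
    have d1 : DifferentiableAt ℝ g x :=
      (h1.contDiffAt (hΩ.mem_nhds hx)).differentiableAt (by simp)
    have d2 : DifferentiableAt ℝ g' (g x) :=
      (h3.contDiffAt (h2.mem_nhds (mem_image_of_mem g hx))).differentiableAt (by simp)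
    have e : (g' ∘ g) =ᶠ[𝓝 x] id := by
      filter_upwards [hΩ.mem_nhds hx] with y hy using h4 hy
    have e1 : (fderiv ℝ g' (g x)).comp (fderiv ℝ g x) = ContinuousLinearMap.id ℝ _ := by
      rw [← fderiv_comp x d2 d1, e.fderiv_eq, fderiv_id]
    have e2 : (fderiv ℝ g' (g x)).det * (fderiv ℝ g x).det = 1 :=
      (LinearMap.det_comp _ _).symm.trans
        ((congrArg ContinuousLinearMap.det e1).trans LinearMap.det_id)
    rw [h0, mul_zero] at e2
    exact zero_ne_one e2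
  by_cases hp : ∀ x ∈ Ω, 0 < (fderiv ℝ g x).det
  · left
    filter_upwards [hae] with x hx hxΩ
    rw [hx hxΩ]
    exact hp x hxΩ
  · right
    push Not at hp
    obtain ⟨a, ha, ha'⟩ := hp
    filter_upwards [hae] with x hx hxΩ
    rw [hx hxΩ]
    by_contra hn
    obtain ⟨y, hy, hy0⟩ := hc.intermediate_value ha hxΩ hcont ⟨ha', not_lt.1 hn⟩
    exact hne y hy hy0

theorem not_approximable {Kind : Set (Fin n → ℝ) → ((Fin n → ℝ) → Fin n → ℝ) → Prop}
    {p : ℝ≥0∞} (hp : 1 ≤ p) (hΩ : MeasurableSet Ω) (hfin : volume Ω ≠ ⊤)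
    {f : (Fin n → ℝ) → Fin n → ℝ} (hf : MemLp D p (volume.restrict Ω))
    (hK : ∀ g Dg, Kind Ω g → IsWeakDeriv Ω g Dg → IntegrableOn Dg Ω →
      (∀ᵐ x, x ∈ Ω → 0 < (Dg x).det) ∨ (∀ᵐ x, x ∈ Ω → (Dg x).det < 0))
    (h1 : 0 < volume {x ∈ Ω | 0 < (D x).det}) (h2 : 0 < volume {x ∈ Ω | (D x).det < 0}) :
    ¬ Approximable Kind p Ω f D := by
  rintro ⟨g, Dg, hg, hlim⟩
  have : IsFiniteMeasure (volume.restrict Ω) := isFiniteMeasure_restrict.2 hfin
  have hlim' : Tendsto (fun j => eLpNorm (Dg j - D) p (volume.restrict Ω)) atTop (𝓝 0) :=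
    tendsto_of_tendsto_of_tendsto_of_le_of_le tendsto_const_nhds hlim (fun _ => zero_le)
      fun _ => le_add_self
  obtain ⟨ns, -, hns⟩ := (tendstoInMeasure_of_tendsto_eLpNorm (zero_lt_one.trans_le hp).ne'
    (fun j => (hg j).2.2.1.1) hf.1 hlim').exists_seq_tendsto_ae
  rw [ae_restrict_iff' hΩ] at hns
  have hs := fun j => hK (g j) (Dg j) (hg j).1 (hg j).2.2.2 ((hg j).2.2.1.integrable hp)
  have hP : ∀ᵐ x, ∀ j, (∀ᵐ y, y ∈ Ω → 0 < (Dg j y).det) → x ∈ Ω → 0 < (Dg j x).det := by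
    refine ae_all_iff.2 fun j => ?_
    by_cases hj : ∀ᵐ y, y ∈ Ω → 0 < (Dg j y).det
    · exact hj.mono fun x hx _ => hx
    · exact Eventually.of_forall fun x h => absurd h hj
  have hN : ∀ᵐ x, ∀ j, (∀ᵐ y, y ∈ Ω → (Dg j y).det < 0) → x ∈ Ω → (Dg j x).det < 0 := by
    refine ae_all_iff.2 fun j => ?_
    by_cases hj : ∀ᵐ y, y ∈ Ω → (Dg j y).det < 0
    · exact hj.mono fun x hx _ => hx
    · exact Eventually.of_forall fun x h => absurd h hj
  obtain ⟨x, ⟨hx, hx'⟩, hx1, hx2⟩ := Measure.exists_mem_of_measure_ne_zero_of_ae h1.ne'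
    (ae_restrict_of_ae (hns.and hN))
  obtain ⟨y, ⟨hy, hy'⟩, hy1, hy2⟩ := Measure.exists_mem_of_measure_ne_zero_of_ae h2.ne'
    (ae_restrict_of_ae (hns.and hP))
  have t1 := ((ContinuousLinearMap.continuous_det.tendsto _).comp (hx1 hx)).eventually
    (lt_mem_nhds hx')
  have t2 := ((ContinuousLinearMap.continuous_det.tendsto _).comp (hy1 hy)).eventually
    (gt_mem_nhds hy')
  obtain ⟨i, hi1, hi2⟩ := (t1.and t2).exists
  rcases hs (ns i) with h | h
  · exact lt_asymm (hy2 _ h hy) hi2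
  · exact lt_asymm (hx2 _ h hx) hi1

end BEv
end
end

-- merged part: Pool.Agent.Work.MP_f0515e_an.Sign2
section
/-! The Jacobian of a piecewise affine homeomorphism has one sign. -/

open Set Metric Filter Topology MeasureTheory Function
open scoped ENNReal NNReal ContDiff

noncomputable section
namespace BEv

variable {n : ℕ} {Ω : Set (Fin n → ℝ)} {g : (Fin n → ℝ) → Fin n → ℝ}
  {D : (Fin n → ℝ) → (Fin n → ℝ) →L[ℝ] (Fin n → ℝ)}

theorem sign2_dense {φ : (Fin n → ℝ) →L[ℝ] ℝ} (hφ : φ ≠ 0) (c : ℝ) :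
    Dense {x | φ x + c ≠ 0} := by
  obtain ⟨v, hv⟩ : ∃ v, φ v ≠ 0 := by
    by_contra h
    push Not at h
    exact hφ (ContinuousLinearMap.ext h)
  intro x
  by_cases hx : φ x + c = 0
  · have ht : Tendsto (fun t : ℝ => x + t • v) (𝓝[≠] 0) (𝓝 x) := by
      have : Continuous fun t : ℝ => x + t • v := by fun_prop
      have h2 := this.tendsto 0
      rw [zero_smul, add_zero] at h2
      exact h2.mono_left nhdsWithin_le_nhds
    refine mem_closure_of_tendsto ht (eventually_nhdsWithin_of_forall fun t ht' => ?_)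
    change φ (x + t • v) + c ≠ 0
    rw [map_add, map_smul, smul_eq_mul, add_right_comm, hx, zero_add]
    exact mul_ne_zero ht' hv
  · exact subset_closure hx

theorem sign2_avoid {κ : Type} [Countable κ] (φ : κ → (Fin n → ℝ) →L[ℝ] ℝ) (c : κ → ℝ)
    {U : Set (Fin n → ℝ)} (hU : IsOpen U) (hne : U.Nonempty) :
    ∃ x ∈ U, ∀ k, φ k ≠ 0 → φ k x + c k ≠ 0 := by
  have hd : Dense (⋂ k : {k // φ k ≠ 0}, {x | φ k.1 x + c k.1 ≠ 0}) :=
    dense_iInter_of_isOpen (fun k => isOpen_ne_fun (by fun_prop) continuous_const)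
      fun k => sign2_dense k.2 _
  obtain ⟨x, hx, hx'⟩ := hd.inter_open_nonempty U hU hne
  exact ⟨x, hx, fun k hk => mem_iInter.1 hx' ⟨k, hk⟩⟩

theorem sign2_segment {κ : Type} [Countable κ] (φ : κ → (Fin n → ℝ) →L[ℝ] ℝ) (c : κ → ℝ)
    {U U' : Set (Fin n → ℝ)} (hU : IsOpen U) (hne : U.Nonempty) (hU' : IsOpen U')
    (hne' : U'.Nonempty) :
    ∃ x ∈ U, ∃ y ∈ U', ∀ z ∈ segment ℝ x y, ∀ k k', φ k ≠ 0 → φ k z + c k = 0 →
      φ k' z + c k' = 0 → ∃ a : ℝ, φ k' = a • φ k := by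
  obtain ⟨x, hx, hx'⟩ := sign2_avoid φ c hU hne
  obtain ⟨y, hy, hy'⟩ := sign2_avoid
    (fun p : κ × κ => (φ p.1 x + c p.1) • φ p.2 - (φ p.2 x + c p.2) • φ p.1)
    (fun p : κ × κ => (φ p.1 x + c p.1) * c p.2 - (φ p.2 x + c p.2) * c p.1) hU' hne'
  refine ⟨x, hx, y, hy, ?_⟩
  rintro _ ⟨s, t, -, -, hst, rfl⟩ k k' hk h1 h2
  have h0 := hx' k hk
  by_cases h3 : (φ k x + c k) • φ k' - (φ k' x + c k') • φ k = 0
  · refine ⟨(φ k x + c k)⁻¹ * (φ k' x + c k'), ?_⟩
    rw [sub_eq_zero] at h3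
    rw [mul_smul, ← h3, smul_smul, inv_mul_cancel₀ h0, one_smul]
  · exfalso
    have h4 := hy' (k, k') h3
    simp only [ContinuousLinearMap.sub_apply, ContinuousLinearMap.smul_apply, smul_eq_mul,
      map_add, map_smul] at h1 h2 h4
    obtain rfl : s = 1 - t := by linarith
    have h5 : t * ((φ k x + c k) * φ k' y - (φ k' x + c k') * φ k y +
        ((φ k x + c k) * c k' - (φ k' x + c k') * c k)) = 0 := by
      linear_combination (φ k x + c k) * h2 - (φ k' x + c k') * h1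
    obtain rfl : t = 0 := (mul_eq_zero.1 h5).resolve_right h4
    exact h0 (by linarith)

/-- The data of a piecewise affine injective map. -/
structure Sign2Data (Ω : Set (Fin n → ℝ)) (g : (Fin n → ℝ) → Fin n → ℝ) {ι : Type}
    (K : ι → Set (Fin n → ℝ)) (L : ι → (Fin n → ℝ) →L[ℝ] (Fin n → ℝ)) (b : ι → Fin n → ℝ) :
    Prop where
  op : IsOpen Ω
  inj : InjOn g Ω
  conv : ∀ i, Convex ℝ (K i)
  cl : ∀ i, IsClosed (K i)
  int : ∀ i, (interior (K i)).Nonempty
  sub : ∀ i, K i ⊆ Ω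
  cov : ∀ x ∈ Ω, ∃ i, x ∈ K i
  fin : ∀ x ∈ Ω, ∃ t ∈ 𝓝 x, {i | (K i ∩ t).Nonempty}.Finite
  eq : ∀ i, ∀ x ∈ K i, g x = L i x + b i

variable {ι : Type} {K : ι → Set (Fin n → ℝ)} {L : ι → (Fin n → ℝ) →L[ℝ] (Fin n → ℝ)}
  {b : ι → Fin n → ℝ}

theorem Sign2Data.det_ne (h : Sign2Data Ω g K L b) (i : ι) : (L i).det ≠ 0 := by
  intro hd
  obtain ⟨v, hv, hv0⟩ := (Submodule.ne_bot_iff _).1 (LinearMap.det_eq_zero_iff_ker_ne_bot.1 hd)
  have hv' : L i v = 0 := hv
  obtain ⟨p, hp⟩ := h.int i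
  have ht : Tendsto (fun t : ℝ => p + t • v) (𝓝[≠] 0) (𝓝 p) := by
    have : Continuous fun t : ℝ => p + t • v := by fun_prop
    have h2 := this.tendsto 0
    rw [zero_smul, add_zero] at h2
    exact h2.mono_left nhdsWithin_le_nhds
  obtain ⟨t, ht1, ht2⟩ :=
    ((ht.eventually (mem_interior_iff_mem_nhds.1 hp)).and self_mem_nhdsWithin).exists
  have hp' := interior_subset hp
  have := h.inj (h.sub i ht1) (h.sub i hp') (by
    rw [h.eq i _ ht1, h.eq i _ hp', map_add, map_smul, hv', smul_zero, add_zero])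
  rw [add_eq_left, smul_eq_zero] at this
  exact this.elim ht2 hv0

theorem Sign2Data.ball (h : Sign2Data Ω g K L b) {z : Fin n → ℝ} (hz : z ∈ Ω) :
    ∃ r > 0, ball z r ⊆ Ω ∧ {i | z ∈ K i}.Finite ∧ ∀ i, (K i ∩ ball z r).Nonempty → z ∈ K i := by
  obtain ⟨t, ht, hf⟩ := h.fin z hz
  have hc : IsClosed (⋃ i ∈ {i | (K i ∩ t).Nonempty ∧ z ∉ K i}, K i) :=
    (hf.subset fun i hi => hi.1).isClosed_biUnion fun i _ => h.cl i
  have hz' : z ∈ (⋃ i ∈ {i | (K i ∩ t).Nonempty ∧ z ∉ K i}, K i)ᶜ := fun hh => by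
    obtain ⟨i, hi, hi'⟩ := mem_iUnion₂.1 hh
    exact hi.2 hi'
  obtain ⟨r, hr, hb⟩ := Metric.mem_nhds_iff.1
    (inter_mem (h.op.mem_nhds hz) (inter_mem ht (hc.isOpen_compl.mem_nhds hz')))
  refine ⟨r, hr, fun x hx => (hb hx).1, hf.subset fun i hi => ⟨z, hi, mem_of_mem_nhds ht⟩, ?_⟩
  rintro i ⟨x, hx, hx'⟩
  by_contra hi
  exact (hb hx').2.2 (mem_iUnion₂.2 ⟨i, ⟨⟨x, hx, (hb hx').2.1⟩, hi⟩, hx⟩)

theorem Sign2Data.step (h : Sign2Data Ω g K L b) {z v : Fin n → ℝ} {i : ι} (hz : z ∈ K i)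
    (hv : z + v ∈ K i) : g (z + v) = g z + L i v := by
  rw [h.eq i _ hv, h.eq i _ hz, map_add]
  abel

theorem Sign2Data.half (h : Sign2Data Ω g K L b) {z : Fin n → ℝ} {r : ℝ} (hr : Metric.ball z r ⊆ Ω)
    (hf : {i | z ∈ K i}.Finite) (hb : ∀ i, (K i ∩ Metric.ball z r).Nonempty → z ∈ K i)
    {φ : (Fin n → ℝ) →L[ℝ] ℝ}
    (hφ : ∀ i j, z ∈ K i → z ∈ K j → ∃ w, ∀ v, L i v = L j v + φ v • w) {i : ι}
    {u : Fin n → ℝ} (hu : ‖u‖ < r) (hu' : 0 < φ u) (hi : z + u ∈ K i) {v : Fin n → ℝ}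
    (hv : ‖v‖ < r) (hv' : 0 < φ v) : g (z + v) = g z + L i v := by
  have hm : ∀ v : Fin n → ℝ, ‖v‖ < r → z + v ∈ Metric.ball z r := fun v hv => by
    rwa [mem_ball, dist_eq_norm, add_sub_cancel_left]
  have hconv : Convex ℝ (Metric.ball (0 : Fin n → ℝ) r ∩ {v | 0 < φ v}) :=
    (convex_ball _ _).inter (convex_halfSpace_gt φ.isLinear 0)
  have hcl : ∀ p : ι → Prop, IsClosed (⋃ j ∈ {j | z ∈ K j ∧ p j}, (fun v => z + v) ⁻¹' K j) :=
    fun p => (hf.subset fun j hj => hj.1).isClosed_biUnion fun j _ =>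
      (h.cl j).preimage (by fun_prop)
  have hzi : z ∈ K i := hb i ⟨_, hi, hm u hu⟩
  obtain ⟨j, hj⟩ := h.cov _ (hr (hm v hv))
  have hzj : z ∈ K j := hb j ⟨_, hj, hm v hv⟩
  suffices L j = L i by rw [← this, h.step hzj hj]
  by_contra hne
  obtain ⟨y, ⟨hy1, hy2⟩, hy3, hy4⟩ := isPreconnected_closed_iff.1 hconv.isPreconnected _ _
    (hcl fun j => L j = L i) (hcl fun j => L j ≠ L i)
    (fun y hy => by
      have hy' := hm y (mem_ball_zero_iff.1 hy.1)
      obtain ⟨k, hk⟩ := h.cov _ (hr hy')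
      have hzk : z ∈ K k := hb k ⟨_, hk, hy'⟩
      by_cases e : L k = L i
      · exact Or.inl (mem_iUnion₂.2 ⟨k, ⟨hzk, e⟩, hk⟩)
      · exact Or.inr (mem_iUnion₂.2 ⟨k, ⟨hzk, e⟩, hk⟩))
    ⟨u, ⟨mem_ball_zero_iff.2 hu, hu'⟩, mem_iUnion₂.2 ⟨i, ⟨hzi, rfl⟩, hi⟩⟩
    ⟨v, ⟨mem_ball_zero_iff.2 hv, hv'⟩, mem_iUnion₂.2 ⟨j, ⟨hzj, hne⟩, hj⟩⟩
  obtain ⟨k, ⟨hk1, hk2⟩, hk3⟩ := mem_iUnion₂.1 hy3
  obtain ⟨l, ⟨hl1, hl2⟩, hl3⟩ := mem_iUnion₂.1 hy4
  obtain ⟨w, hw⟩ := hφ l k hl1 hk1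
  have e1 := (h.step hl1 hl3).symm.trans (h.step hk1 hk3)
  rw [add_right_inj, hw y, add_eq_left, smul_eq_zero] at e1
  obtain rfl : w = 0 := e1.resolve_left (ne_of_gt hy2)
  exact hl2 (ContinuousLinearMap.ext fun v => by rw [hw v, hk2, smul_zero, add_zero])

theorem sign2_small (u : Fin n → ℝ) {r : ℝ} (hr : 0 < r) :
    ∃ e : ℝ, 0 < e ∧ e ≤ 1 ∧ ‖e • u‖ < r := by
  have hc : Continuous fun e : ℝ => ‖e • u‖ := by fun_prop
  have h1 : ∀ᶠ e in 𝓝 (0 : ℝ), ‖e • u‖ < r := hc.continuousAt.eventually_lt continuousAt_const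
    (by simpa using hr)
  have h2 : ∀ᶠ e in 𝓝 (0 : ℝ), e < 1 := eventually_lt_nhds one_pos
  obtain ⟨e, ⟨he1, he2⟩, he3⟩ :=
    (((h1.and h2).filter_mono nhdsWithin_le_nhds).and (self_mem_nhdsWithin (s := Ioi 0))).exists
  exact ⟨e, he3, he2.le, he1⟩

theorem Sign2Data.dir (h : Sign2Data Ω g K L b) {z : Fin n → ℝ} {r : ℝ} (hr : 0 < r) {i : ι}
    (hz : z ∈ K i) {φ : (Fin n → ℝ) →L[ℝ] ℝ} (hφ : φ ≠ 0) :
    ∃ u, ‖u‖ < r ∧ φ u ≠ 0 ∧ z + u ∈ K i := by
  obtain ⟨p, hp, hp'⟩ := (sign2_dense hφ (-φ z)).inter_open_nonempty _ isOpen_interior (h.int i)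
  obtain ⟨e, he0, he1, he⟩ := sign2_small (p - z) hr
  refine ⟨_, he, ?_, (h.conv i).add_smul_sub_mem hz (interior_subset hp) ⟨he0.le, he1⟩⟩
  rw [map_smul, map_sub, smul_eq_mul, sub_eq_add_neg]
  exact mul_ne_zero he0.ne' hp'

theorem Sign2Data.fold (h : Sign2Data Ω g K L b) {z : Fin n → ℝ} {r : ℝ} (hr0 : 0 < r)
    (hr : Metric.ball z r ⊆ Ω)
    (hf : {i | z ∈ K i}.Finite) (hb : ∀ i, (K i ∩ Metric.ball z r).Nonempty → z ∈ K i)
    {φ : (Fin n → ℝ) →L[ℝ] ℝ}
    (hφ : ∀ i j, z ∈ K i → z ∈ K j → ∃ w, ∀ v, L i v = L j v + φ v • w) {i j : ι}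
    (hi : z ∈ K i) (hj : z ∈ K j) (di : 0 < (L i).det) (dj : (L j).det < 0)
    {u u' : Fin n → ℝ} (hu : ‖u‖ < r) (hu' : 0 < φ u) (hui : z + u ∈ K i)
    (hv : ‖u'‖ < r) (hv' : φ u' ≠ 0) (huj : z + u' ∈ K j) : False := by
  have hm : ∀ v : Fin n → ℝ, ‖v‖ < r → z + v ∈ Ω := fun v hv => hr (by
    rwa [mem_ball, dist_eq_norm, add_sub_cancel_left])
  obtain ⟨w, hw⟩ := hφ i j hi hj
  rcases hv'.lt_or_gt with hneg | hpos
  · have hφ' : ∀ i j, z ∈ K i → z ∈ K j → ∃ w, ∀ v, L i v = L j v + (-φ) v • w := by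
      intro i j hi hj
      obtain ⟨w, hw⟩ := hφ i j hi hj
      exact ⟨-w, fun v => by rw [hw v, ContinuousLinearMap.neg_apply, neg_smul_neg]⟩
    have hs : Surjective (L j) := by
      have : IsUnit ((L j : (Fin n → ℝ) →ₗ[ℝ] (Fin n → ℝ))) :=
        (LinearMap.isUnit_iff_isUnit_det _).2 (isUnit_iff_ne_zero.2 dj.ne)
      exact ((Module.End.isUnit_iff _).1 this).2
    obtain ⟨w', rfl⟩ := hs w
    have e1 : L i = (L j).comp (ContinuousLinearMap.id ℝ (Fin n → ℝ) + φ.smulRight w') :=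
      ContinuousLinearMap.ext fun v => by simp [hw v]
    have e2 : (L i).det = (L j).det * (1 + φ w') := by
      rw [← det_id_add_smulRight, e1]
      exact LinearMap.det_comp _ _
    have e3 : 1 + φ w' < 0 := by
      rw [e2] at di
      exact (mul_pos_iff.1 di).elim (fun hh => absurd hh.1 dj.not_gt) fun hh => hh.2
    obtain ⟨e, he0, he1, he⟩ := sign2_small (u + φ u • w') hr0
    have hn : ‖e • u‖ < r := by
      rw [norm_smul, Real.norm_eq_abs, abs_of_pos he0]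
      exact (mul_le_of_le_one_left (norm_nonneg _) he1).trans_lt hu
    have p1 : 0 < φ (e • u) := by
      rw [map_smul, smul_eq_mul]
      positivity
    have p2 : φ (e • (u + φ u • w')) < 0 := by
      have : φ (e • (u + φ u • w')) = e * φ u * (1 + φ w') := by
        simp only [map_smul, map_add, smul_eq_mul]
        ring
      rw [this]
      exact mul_neg_of_pos_of_neg (by positivity) e3
    have q1 := h.half hr hf hb hφ hu hu' hui hn p1
    have q2 := h.half hr hf hb hφ' hv (by simpa using hneg) huj he (neg_pos.2 p2)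
    have q3 : L j (e • (u + φ u • w')) = L i (e • u) := by
      rw [map_smul, map_smul, hw u, map_add, map_smul]
    have := h.inj (hm _ hn) (hm _ he) (by rw [q1, q2, q3])
    rw [add_right_inj] at this
    rw [← this] at p2
    exact absurd p1 p2.not_gt
  · have q1 := h.half hr hf hb hφ hv hpos huj hu hu'
    rw [h.step hi hui, add_right_inj, hw u, add_eq_left, smul_eq_zero] at q1
    obtain rfl : w = 0 := q1.resolve_left hu'.ne'
    have : L i = L j := ContinuousLinearMap.ext fun v => by rw [hw v, smul_zero, add_zero]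
    rw [this] at di
    exact absurd di dj.not_gt

theorem Sign2Data.no_mix [Countable ι] (h : Sign2Data Ω g K L b) (hc : Convex ℝ Ω) {i j : ι}
    (di : 0 < (L i).det) (dj : (L j).det < 0) : False := by
  obtain ⟨x, hx, y, hy, hs⟩ := sign2_segment
    (fun p : ι × ι × Fin n => (ContinuousLinearMap.proj p.2.2).comp (L p.1 - L p.2.1))
    (fun p : ι × ι × Fin n => (b p.1 - b p.2.1) p.2.2) isOpen_interior (h.int i) isOpen_interior
    (h.int j)
  have hx' := interior_subset hx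
  have hy' := interior_subset hy
  have hsub : segment ℝ x y ⊆ Ω := hc.segment_subset (h.sub i hx') (h.sub j hy')
  obtain ⟨z, hz, hz1, hz2⟩ := isPreconnected_closed_iff.1 (convex_segment x y).isPreconnected _ _
    (isClosed_closure (s := ⋃ k ∈ {k | 0 < (L k).det}, K k))
    (isClosed_closure (s := ⋃ k ∈ {k | (L k).det < 0}, K k))
    (fun z hz => by
      obtain ⟨k, hk⟩ := h.cov z (hsub hz)
      rcases (h.det_ne k).lt_or_gt with e | e
      · exact Or.inr (subset_closure (mem_iUnion₂.2 ⟨k, e, hk⟩))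
      · exact Or.inl (subset_closure (mem_iUnion₂.2 ⟨k, e, hk⟩)))
    ⟨x, left_mem_segment _ _ _, subset_closure (mem_iUnion₂.2 ⟨i, di, hx'⟩)⟩
    ⟨y, right_mem_segment _ _ _, subset_closure (mem_iUnion₂.2 ⟨j, dj, hy'⟩)⟩
  obtain ⟨r, hr0, hr, hf, hb⟩ := h.ball (hsub hz)
  obtain ⟨p, hp, hp'⟩ := mem_closure_iff.1 hz1 _ isOpen_ball (mem_ball_self hr0)
  obtain ⟨q, hq, hq'⟩ := mem_closure_iff.1 hz2 _ isOpen_ball (mem_ball_self hr0)
  obtain ⟨i', di', hi'⟩ := mem_iUnion₂.1 hp'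
  obtain ⟨j', dj', hj'⟩ := mem_iUnion₂.1 hq'
  have zi := hb i' ⟨p, hi', hp⟩
  have zj := hb j' ⟨q, hj', hq⟩
  have hvan : ∀ a a' k, z ∈ K a → z ∈ K a' →
      ((ContinuousLinearMap.proj k : (Fin n → ℝ) →L[ℝ] ℝ).comp (L a - L a')) z +
        (b a - b a') k = 0 := by
    intro a a' k ha ha'
    have := congrFun ((h.eq a z ha).symm.trans (h.eq a' z ha')) k
    simp only [Pi.add_apply] at this
    simp only [ContinuousLinearMap.comp_apply, ContinuousLinearMap.sub_apply,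
      ContinuousLinearMap.proj_apply, Pi.sub_apply]
    linarith
  obtain ⟨k, hk⟩ : ∃ k, (ContinuousLinearMap.proj k : (Fin n → ℝ) →L[ℝ] ℝ).comp (L i' - L j') ≠ 0 := by
    by_contra hh
    push Not at hh
    have : L i' = L j' := ContinuousLinearMap.ext fun v => funext fun k => by
      have := DFunLike.congr_fun (hh k) v
      simpa [sub_eq_zero] using this
    have di'' : 0 < (L i').det := di'
    rw [this] at di''
    exact absurd di'' (show (L j').det < 0 from dj').not_gt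
  obtain ⟨φ, hφe⟩ : ∃ φ, φ = (ContinuousLinearMap.proj k : (Fin n → ℝ) →L[ℝ] ℝ).comp
    (L i' - L j') := ⟨_, rfl⟩
  have hφ : ∀ a a', z ∈ K a → z ∈ K a' → ∃ w, ∀ v, L a v = L a' v + φ v • w := by
    intro a a' ha ha'
    choose w hw using fun k' => hs z hz (i', j', k) (a, a', k') hk (hvan _ _ _ zi zj)
      (hvan _ _ _ ha ha')
    refine ⟨w, fun v => funext fun k' => ?_⟩
    have := DFunLike.congr_fun (hw k') v
    rw [← hφe] at this
    simp only [ContinuousLinearMap.comp_apply, ContinuousLinearMap.sub_apply,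
      ContinuousLinearMap.proj_apply, Pi.sub_apply, ContinuousLinearMap.smul_apply,
      smul_eq_mul] at this
    simp only [Pi.add_apply, Pi.smul_apply, smul_eq_mul]
    linarith
  rw [← hφe] at hk
  obtain ⟨u, hu1, hu2, hu3⟩ := h.dir hr0 zi hk
  obtain ⟨u', hv1, hv2, hv3⟩ := h.dir hr0 zj hk
  rcases hu2.lt_or_gt with hneg | hpos
  · refine h.fold (φ := -φ) hr0 hr hf hb (fun a a' ha ha' => ?_) zi zj di' dj' hu1
      (by simpa using hneg) hu3 hv1 (by simpa using hv2) hv3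
    obtain ⟨w, hw⟩ := hφ a a' ha ha'
    exact ⟨-w, fun v => by rw [hw v, ContinuousLinearMap.neg_apply, neg_smul_neg]⟩
  · exact h.fold hr0 hr hf hb hφ zi zj di' dj' hu1 hpos hu3 hv1 hv2 hv3

theorem Sign2Data.ae [Countable ι] (h : Sign2Data Ω g K L b) (hw : IsWeakDeriv Ω g D)
    (hD : IntegrableOn D Ω) : ∀ᵐ x, x ∈ Ω → ∃ i, D x = L i := by
  have h1 : ∀ᵐ x, ∀ i, x ∈ interior (K i) → D x = fderiv ℝ g x := by
    refine ae_all_iff.2 fun i => hw.ae_eq_fderiv h.op.measurableSet hD isOpen_interior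
      (interior_subset.trans (h.sub i)) ?_
    refine ContDiffOn.congr (f := fun x => L i x + b i) ?_ fun x hx => h.eq i x (interior_subset hx)
    exact ((L i).contDiff.add contDiff_const).contDiffOn
  have h2 : ∀ᵐ x, ∀ i, x ∉ frontier (K i) :=
    ae_all_iff.2 fun i => compl_mem_ae_iff.2 ((h.conv i).addHaar_frontier volume)
  filter_upwards [h1, h2] with x hx1 hx2 hx
  obtain ⟨i, hi⟩ := h.cov x hx
  have hi' : x ∈ interior (K i) := by
    by_contra hh
    exact hx2 i ⟨subset_closure hi, hh⟩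
  refine ⟨i, (hx1 i hi').trans ?_⟩
  have e : g =ᶠ[𝓝 x] fun x => L i x + b i :=
    eventually_of_mem (mem_interior_iff_mem_nhds.1 hi') fun y hy => h.eq i y hy
  rw [e.fderiv_eq]
  exact ((L i).hasFDerivAt.add_const (b i)).fderiv

theorem IsPAHomeo.sign (hΩ : IsOpen Ω) (hc : Convex ℝ Ω) (hg : IsPAHomeo Ω g)
    (h : IsWeakDeriv Ω g D) (hD : IntegrableOn D Ω) :
    (∀ᵐ x, x ∈ Ω → 0 < (D x).det) ∨ (∀ᵐ x, x ∈ Ω → (D x).det < 0) := by
  obtain ⟨hemb, S, hS, hcov, hfin, hA⟩ := hg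
  have := hS.to_subtype
  choose A hA using fun σ : S => hA σ.1 σ.2
  have hd : Sign2Data Ω g (fun σ : S => convexHull ℝ (range σ.1.points))
      (fun σ => LinearMap.toContinuousLinearMap (A σ).linear) (fun σ => A σ 0) :=
    { op := hΩ
      inj := fun x hx y hy e => congrArg Subtype.val (hemb.injective (a₁ := ⟨x, hx⟩) (a₂ := ⟨y, hy⟩) e)
      conv := fun _ => convex_convexHull _ _
      cl := fun σ => ((finite_range _).isCompact_convexHull ℝ).isClosed
      int := fun σ => by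
        rw [interior_convexHull_nonempty_iff_affineSpan_eq_top]
        exact σ.1.span_eq_top (by simp)
      sub := fun σ => hcov ▸ subset_iUnion₂ (s := fun σ _ => convexHull ℝ (range σ.points)) σ.1 σ.2
      cov := fun x hx => by
        rw [← hcov] at hx
        obtain ⟨σ, hσ, hx'⟩ := mem_iUnion₂.1 hx
        exact ⟨⟨σ, hσ⟩, hx'⟩
      fin := fun x hx => by
        obtain ⟨t, ht, hf⟩ := hfin x hx
        exact ⟨t, ht, (hf.preimage Subtype.val_injective.injOn).subset fun σ hσ => ⟨σ.2, hσ⟩⟩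
      eq := fun σ x hx => by
        rw [hA σ hx]
        exact congrFun (A σ).decomp x }
  have hae := hd.ae h hD
  by_cases hp : ∀ σ : S, 0 < (LinearMap.toContinuousLinearMap (A σ).linear).det
  · left
    filter_upwards [hae] with x hx hx'
    obtain ⟨σ, hσ⟩ := hx hx'
    exact hσ ▸ hp σ
  · right
    push Not at hp
    obtain ⟨τ, hτ⟩ := hp
    have hτ' := lt_of_le_of_ne hτ (hd.det_ne τ)
    filter_upwards [hae] with x hx hx'
    obtain ⟨σ, hσ⟩ := hx hx'
    rw [hσ]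
    exact (hd.det_ne σ).lt_or_gt.resolve_right fun hh => hd.no_mix hc hh hτ'

end BEv
end
end

-- merged part: Pool.Agent.Work.MP_f0515e_an.Final
section
/-! Assembly. -/

open Set Metric Filter Topology MeasureTheory Function
open scoped ENNReal NNReal

noncomputable section
namespace BEv

/-- The linear functional `ell v` as a continuous linear map. -/
def ellL {m : ℕ} (v : V m) : V m →L[ℝ] ℝ := (v 0)⁻¹ • ContinuousLinearMap.proj 0

theorem ellL_apply {m : ℕ} (v z : V m) : ellL v z = ell v z := by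
  simp [ellL, ell, div_eq_inv_mul]

/-- The reflection as a continuous linear map. -/
def rfL {m : ℕ} (v : V m) : V m →L[ℝ] V m :=
  ContinuousLinearMap.id ℝ (V m) + ((-2 : ℝ) • ellL v).smulRight v

theorem rfL_apply {m : ℕ} (v z : V m) : rfL v z = rf v z := by
  simp only [rfL, rf, ContinuousLinearMap.add_apply, ContinuousLinearMap.id_apply,
    ContinuousLinearMap.smulRight_apply, ContinuousLinearMap.smul_apply, ellL_apply, smul_eq_mul]
  rw [sub_eq_add_neg, ← neg_smul]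
  congr 2
  ring

theorem det_rfL {m : ℕ} {v : V m} (hv : v 0 ≠ 0) : (rfL v).det = -1 := by
  rw [rfL, det_id_add_smulRight]
  simp only [ContinuousLinearMap.smul_apply, ellL_apply, smul_eq_mul, ell]
  rw [div_self hv]
  norm_num

theorem main (m : ℕ) (hm : 2 ≤ m) (p : ℝ≥0∞) (hp1 : 1 ≤ p) (hpm : p ≤ m) :
    ∃ (f : (Fin (2 * m + 1) → ℝ) → Fin (2 * m + 1) → ℝ)
      (D : (Fin (2 * m + 1) → ℝ) → (Fin (2 * m + 1) → ℝ) →L[ℝ] (Fin (2 * m + 1) → ℝ)),
      IsEmbedding (fun x : ball (0 : Fin (2 * m + 1) → ℝ) 1 => f x) ∧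
      MemW1p p (ball 0 1) f D ∧
      0 < volume {x ∈ ball (0 : Fin (2 * m + 1) → ℝ) 1 | 0 < (D x).det} ∧
      0 < volume {x ∈ ball (0 : Fin (2 * m + 1) → ℝ) 1 | (D x).det < 0} ∧
      ¬ Approximable IsDiffeo p (ball 0 1) f D ∧ ¬ Approximable IsPAHomeo p (ball 0 1) f D := by
  obtain ⟨v, k, E0, hv, hk, hinj, hE0, hEb, hEpos, hid, hrf, htr, hen⟩ := exists_map hm
  have hW : MemW1p (m : ℝ≥0∞) (ball (0 : V m) 1) k (wD k) :=
    memW1p_of_trunc (by omega) hk hE0.measurableSet hid htr hen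
  have hfin : volume (ball (0 : V m) 1) ≠ ⊤ := measure_ball_lt_top.ne
  haveI : IsFiniteMeasure (volume.restrict (ball (0 : V m) 1)) :=
    isFiniteMeasure_restrict.2 hfin
  have hWp : MemW1p p (ball (0 : V m) 1) k (wD k) :=
    ⟨hW.1.mono_exponent hpm, hW.2.1.mono_exponent hpm, hW.2.2⟩
  have hemb : IsEmbedding (fun x : ball (0 : V m) 1 => k x) := by
    haveI : CompactSpace (closedBall (0 : V m) 1) :=
      isCompact_iff_compactSpace.1 (isCompact_closedBall _ _)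
    have h1 : IsEmbedding (fun x : closedBall (0 : V m) 1 => k x) :=
      ((hk.comp continuous_subtype_val).isClosedEmbedding
        (hinj.comp Subtype.val_injective)).isEmbedding
    exact h1.comp (IsEmbedding.inclusion (ball_subset_closedBall))
  have hpos : 0 < volume {x ∈ ball (0 : V m) 1 | 0 < (wD k x).det} := by
    refine lt_of_lt_of_le hEpos (measure_mono fun x hx => ⟨hEb hx, ?_⟩)
    simp only [wD, hid x hx, if_true]
    have : (ContinuousLinearMap.id ℝ (V m)).det = 1 := by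
      simp [ContinuousLinearMap.det]
    rw [this]; exact one_pos
  have hneg : 0 < volume {x ∈ ball (0 : V m) 1 | (wD k x).det < 0} := by
    have hO : IsOpen {x : V m | 1 / 2 < ‖x‖ ∧ ‖x‖ < 1 ∧ 0 < x 0} :=
      (isOpen_lt continuous_const continuous_norm).inter
        ((isOpen_lt continuous_norm continuous_const).inter
          (isOpen_lt continuous_const (continuous_apply 0)))
    have hne : {x : V m | 1 / 2 < ‖x‖ ∧ ‖x‖ < 1 ∧ 0 < x 0}.Nonempty := by
      refine ⟨fun _ => 3 / 4, ?_⟩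
      have : ‖(fun _ => 3 / 4 : V m)‖ = 3 / 4 := by
        rw [pi_norm_const]; norm_num
      simp only [mem_setOf_eq, this]
      norm_num
    refine lt_of_lt_of_le (hO.measure_pos volume hne) (measure_mono fun x hx => ⟨?_, ?_⟩)
    · simpa using hx.2.1
    · have hev : k =ᶠ[𝓝 x] rfL v := by
        filter_upwards [(isOpen_lt continuous_const continuous_norm).mem_nhds hx.1] with y hy
        rw [rfL_apply]; exact hrf y (le_of_lt hy)
      have hne : k x ≠ x := by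
        rw [hrf x hx.1.le]
        intro h
        have h0 := congrFun h 0
        simp only [rf, ell, Pi.sub_apply, Pi.smul_apply, smul_eq_mul] at h0
        have : 2 * (x 0 / v 0) * v 0 = 2 * x 0 := by field_simp
        have h2 := hx.2.2
        linarith
      simp only [wD, hne, if_false]
      rw [hev.fderiv_eq, ContinuousLinearMap.fderiv, det_rfL hv]
      norm_num
  refine ⟨k, wD k, hemb, hWp, hpos, hneg, ?_, ?_⟩
  · exact not_approximable hp1 measurableSet_ball hfin hWp.2.1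
      (fun g Dg h1 h2 h3 => h1.sign isOpen_ball (convex_ball _ _).isPreconnected h2 h3) hpos hneg
  · exact not_approximable hp1 measurableSet_ball hfin hWp.2.1
      (fun g Dg h1 h2 h3 => h1.sign isOpen_ball (convex_ball _ _) h2 h3) hpos hneg

end BEv
end
end
end
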