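import Pool.Agent.Work.MP_f0515e_an.LL2

/-! Accretive maps for the sup norm give homeomorphisms. -/

open Set Metric Filter Topology MeasureTheory Function
open scoped ENNReal NNReal

noncomputable section
namespace BEv

variable {ι : Type} [Fintype ι] {Φ : (ι → ℝ) → ι → ℝ} {η : (ι → ℝ) → ℝ}

theorem Accr.loc (h : Accr Φ) (hη : ∀ x y, |η x - η y| ≤ ‖x - y‖) : Accr (BEv.loc η Φ) := by
  intro x y i hi
  have h1 := abs_le.1 (hη x y)
  exact max_le_max (by linarith [h1.2]) (min_le_min (h x y i hi) (by linarith [h1.1]))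

theorem TP.loc (h : TP Φ) (hη : TP η) : TP (BEv.loc η Φ) :=
  TP.pi fun i => ((TP.id'.apply i).sub hη).max ((h.apply i).min ((TP.id'.apply i).add hη))

theorem TP.mix (h : TP Φ) (c : ℝ) : TP (BEv.mix c Φ) :=
  (TP.id'.const_smul c).add (h.const_smul (1 - c))

theorem loc_eq_of_le {x : ι → ℝ} (h : ∀ i, |Φ x i - x i| ≤ η x) : loc η Φ x = Φ x := by
  funext i
  have h1 := abs_le.1 (h i)
  rw [loc, min_eq_left (by linarith [h1.2]), max_eq_right (by linarith [h1.1])]

theorem loc_eq_self {x : ι → ℝ} (h : η x = 0) : loc η Φ x = x := by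
  funext i
  rw [loc, h, sub_zero, add_zero, max_eq_left (min_le_right _ _)]

theorem abs_loc_sub_le {x : ι → ℝ} (h : 0 ≤ η x) (i : ι) :
    |loc η Φ x i - x i| ≤ |Φ x i - x i| := by
  have h1 := le_abs_self (Φ x i - x i)
  have h2 := neg_abs_le (Φ x i - x i)
  have h3 := abs_nonneg (Φ x i - x i)
  rw [loc, abs_le]
  constructor
  · have : x i - |Φ x i - x i| ≤ max (x i - η x) (min (Φ x i) (x i + η x)) :=
      le_max_of_le_right (le_min (by linarith) (by linarith))
    linarith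
  · have : max (x i - η x) (min (Φ x i) (x i + η x)) ≤ x i + |Φ x i - x i| :=
      max_le (by linarith) (min_le_of_left_le (by linarith))
    linarith

theorem mix_sub (c : ℝ) (x : ι → ℝ) (i : ι) : mix c Φ x i - x i = (1 - c) * (Φ x i - x i) := by
  simp only [mix, Pi.add_apply, Pi.smul_apply, smul_eq_mul]
  ring

theorem accr_exists (v : ι → ℝ) (hv : 0 < ‖v‖) : ∃ i, ‖v‖ ≤ |v i| := by
  by_contra hn
  exact lt_irrefl _ ((pi_norm_lt_iff hv).2 fun i => lt_of_not_ge fun hi => hn ⟨i, hi⟩)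

theorem accr_exp (h : Accr Φ) {a b : ℝ} (ha : 0 ≤ a) (hb : 0 ≤ b) (x y : ι → ℝ) :
    a * ‖x - y‖ ≤ ‖(a • x + b • Φ x) - (a • y + b • Φ y)‖ := by
  have key : ∀ (x y : ι → ℝ) (i : ι), ‖x - y‖ ≤ x i - y i →
      a * ‖x - y‖ ≤ ‖(a • x + b • Φ x) - (a • y + b • Φ y)‖ := fun x y i hi => by
    refine le_trans ?_ ((Real.le_norm_self _).trans
      (norm_le_pi_norm ((a • x + b • Φ x) - (a • y + b • Φ y)) i))
    simp only [Pi.sub_apply, Pi.add_apply, Pi.smul_apply, smul_eq_mul]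
    nlinarith [mul_le_mul_of_nonneg_left hi ha, mul_le_mul_of_nonneg_left (h x y i hi) hb]
  rcases (norm_nonneg (x - y)).eq_or_lt with h0 | h0
  · rw [← h0, mul_zero]
    exact norm_nonneg _
  obtain ⟨i, hi⟩ := accr_exists _ h0
  rcases le_abs'.1 hi with h1 | h1
  · rw [norm_sub_rev, norm_sub_rev (a • x + b • Φ x)]
    refine key y x i ?_
    rw [norm_sub_rev]
    rw [Pi.sub_apply] at h1
    linarith
  · exact key x y i h1

theorem accr_step (h : Accr Φ) {L : ℝ≥0} (hl : LipschitzWith L Φ) {a b s : ℝ} (ha : 0 < a)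
    (hb : 0 ≤ b) (hs : 0 ≤ s) (hL : s * L ≤ a / 2)
    (hsurj : Surjective fun x => a • x + b • Φ x) :
    Surjective fun x => a • x + (b + s) • Φ x := by
  intro y
  choose g hg using hsurj
  have hc : ContractingWith (1 / 2 : ℝ≥0) fun x => g (y - s • Φ x) := by
    refine ⟨by norm_num, LipschitzWith.of_dist_le_mul fun u v => ?_⟩
    have h1 := accr_exp h ha.le hb (g (y - s • Φ u)) (g (y - s • Φ v))
    have h2 := hl.dist_le_mul v u
    have e1 := hg (y - s • Φ u)
    have e2 := hg (y - s • Φ v)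
    simp only at e1 e2
    rw [e1, e2, sub_sub_sub_cancel_left, ← smul_sub, norm_smul, Real.norm_of_nonneg hs] at h1
    rw [dist_eq_norm, dist_comm] at h2
    rw [dist_eq_norm]
    have h3 : s * ‖Φ v - Φ u‖ ≤ a / 2 * dist u v :=
      (mul_le_mul_of_nonneg_left h2 hs).trans (by
        rw [← mul_assoc]
        exact mul_le_mul_of_nonneg_right hL dist_nonneg)
    refine le_of_mul_le_mul_left (h1.trans (h3.trans (le_of_eq ?_))) ha
    push_cast
    ring
  refine ⟨hc.fixedPoint _, ?_⟩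
  have e := hc.fixedPoint_isFixedPt
  have e1 := hg (y - s • Φ (hc.fixedPoint _))
  simp only [IsFixedPt] at e e1
  rw [e] at e1
  simp only
  rw [add_smul, ← add_assoc, e1, sub_add_cancel]

theorem Accr.expanding (h : Accr Φ) {c : ℝ} (h0 : 0 ≤ c) (h1 : c ≤ 1) (x y : ι → ℝ) :
    c * ‖x - y‖ ≤ ‖mix c Φ x - mix c Φ y‖ :=
  accr_exp h h0 (sub_nonneg.2 h1) x y

theorem Accr.surjective (h : Accr Φ) (hl : ∃ L : ℝ≥0, LipschitzWith L Φ) {c : ℝ} (h0 : 0 < c)
    (h1 : c ≤ 1) : Surjective (mix c Φ) := by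
  obtain ⟨L, hl⟩ := hl
  have hL : (0 : ℝ) ≤ L := L.2
  set δ : ℝ := c / (2 * (L + 1)) with hδ
  have hδ0 : 0 < δ := by positivity
  have hδ1 : δ * (L + 1) = c / 2 := by
    rw [hδ]
    field_simp
  have key : ∀ (n : ℕ) (b : ℝ), 0 ≤ b → b ≤ n * δ → Surjective fun x => c • x + b • Φ x := by
    intro n
    induction n with
    | zero =>
      intro b hb hb' y
      have : b = 0 := le_antisymm (by simpa using hb') hb
      exact ⟨c⁻¹ • y, by simp [this, smul_smul, h0.ne']⟩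
    | succ n ih =>
      intro b hb hb'
      rcases le_total b (n * δ) with h2 | h2
      · exact ih b hb h2
      · have h3 : b - n * δ ≤ δ := by
          push_cast at hb'
          linarith
        have := accr_step h hl h0 (b := n * δ) (s := b - n * δ) (by positivity) (by linarith)
          (by nlinarith [mul_le_mul_of_nonneg_right h3 hL]) (ih _ (by positivity) le_rfl)
        rwa [add_sub_cancel] at this
  obtain ⟨n, hn⟩ := exists_nat_ge ((1 - c) / δ)
  exact key n (1 - c) (sub_nonneg.2 h1) ((div_le_iff₀ hδ0).1 hn)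

theorem Accr.lh (h : Accr Φ) (ht : TP Φ) {c : ℝ} (h0 : 0 < c) (h1 : c ≤ 1) :
    LH (mix c Φ) :=
  LH.of_expanding (ht.mix c) (h.surjective ht.lip h0 h1) h0 (h.expanding h0.le h1)

theorem Accr.inv_lip (h : Accr Φ) (ht : TP Φ) {c : ℝ} (h0 : 0 < c) (h1 : c ≤ 1) (x y : ι → ℝ) :
    ‖invFun (mix c Φ) x - invFun (mix c Φ) y‖ ≤ 1 / c * ‖x - y‖ := by
  have h2 := h.expanding h0.le h1 (invFun (mix c Φ) x) (invFun (mix c Φ) y)
  rw [(h.lh ht h0 h1).ri, (h.lh ht h0 h1).ri] at h2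
  rw [one_div, inv_mul_eq_div, le_div_iff₀ h0, mul_comm]
  exact h2

theorem LL.loc {x : ι → ℝ} {c c' : ℝ} (h : LL Φ x c) (hη : LL η x c') (hc' : 0 ≤ c')
    (hc : 1 + c' ≤ c) : LL (BEv.loc η Φ) x c :=
  LL.pi (by linarith) fun i => ((((LL.id' x).apply i).sub hη).mono hc).max
    ((h.apply i).min ((((LL.id' x).apply i).add hη).mono hc))

theorem LL.mix {x : ι → ℝ} {c a : ℝ} (h : LL Φ x c) (hc : 1 ≤ c) (h0 : 0 ≤ a) (h1 : a ≤ 1) :
    LL (BEv.mix a Φ) x c := by
  refine (((LL.id' x).const_smul a).add (h.const_smul (1 - a))).mono ?_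
  rw [abs_of_nonneg h0, abs_of_nonneg (sub_nonneg.2 h1)]
  nlinarith [mul_le_mul_of_nonneg_left hc h0]

/-- Median trick. -/
theorem Accr.ll_loc_inv (h : Accr Φ) (ht : TP Φ) {c c' : ℝ} (h0 : 0 < c) (h1 : c ≤ 1)
    (hc' : 0 ≤ c') {y : ι → ℝ} (hη : LL η (invFun (mix c Φ) y) c') :
    LL (fun z => mix c (BEv.loc η Φ) (invFun (mix c Φ) z)) y ((1 + c') / c) := by
  have hb : 0 ≤ 1 - c := sub_nonneg.2 h1
  have hw : LL (invFun (mix c Φ)) y (1 / c) := LL.of_forall (h.inv_lip ht h0 h1) y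
  have he : LL (fun z => (1 - c) * η (invFun (mix c Φ) z)) y (|1 - c| * (c' * (1 / c))) :=
    (hη.comp hw hc').const_mul (1 - c)
  have hle : 1 / c + |1 - c| * (c' * (1 / c)) ≤ (1 + c') / c := by
    rw [abs_of_nonneg hb]
    have : 0 ≤ c * (c' * (1 / c)) := by positivity
    have e : (1 + c') / c = 1 / c + c' * (1 / c) := by ring
    rw [e]
    linarith
  have h2 : 1 ≤ (1 + c') / c := by
    rw [le_div_iff₀ h0]
    linarith
  refine LL.pi (by linarith) fun i => ?_
  have e : (fun z => mix c (BEv.loc η Φ) (invFun (mix c Φ) z) i) = fun z =>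
      max (invFun (mix c Φ) z i - (1 - c) * η (invFun (mix c Φ) z))
        (min (z i) (invFun (mix c Φ) z i + (1 - c) * η (invFun (mix c Φ) z))) := by
    funext z
    have e1 := congrFun ((h.lh ht h0 h1).ri z) i
    generalize invFun (mix c Φ) z = w at e1 ⊢
    rw [← e1]
    simp only [mix, BEv.loc, Pi.add_apply, Pi.smul_apply, smul_eq_mul]
    rw [mul_max_of_nonneg _ _ hb, mul_min_of_nonneg _ _ hb, ← max_add_add_left,
      ← min_add_add_left]
    congr 1
    · ring
    · congr 1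
      ring
  rw [e]
  exact (((hw.apply i).sub he).mono hle).max
    ((((LL.id' y).apply i).mono h2).min (((hw.apply i).add he).mono hle))

/-- Fibrewise version: the coordinates in `T` are frozen. -/
theorem Accr.fibre_bijective [DecidableEq ι] (h : Accr Φ) (hl : ∃ L : ℝ≥0, LipschitzWith L Φ)
    (T : Finset ι) (hη : ∀ x y, (∀ i ∈ T, x i = y i) → |η x - η y| ≤ ‖x - y‖) :
    Bijective (fun y : ι → ℝ => fun i => if i ∈ T then y i else mix (1 / 2) (BEv.loc η Φ) y i) := by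
  obtain ⟨L, hl⟩ := hl
  let P : (ι → ℝ) → (ι → ℝ) → ι → ℝ := fun c0 y i => if i ∈ T then c0 i else y i
  let Ψ : (ι → ℝ) → (ι → ℝ) → ι → ℝ := fun c0 y i =>
    if i ∈ T then y i else BEv.loc η Φ (P c0 y) i
  have hP : ∀ c0 x y, ‖P c0 x - P c0 y‖ ≤ ‖x - y‖ := fun c0 x y =>
    (pi_norm_le_iff_of_nonneg (norm_nonneg _)).2 fun i => by
      by_cases hi : i ∈ T
      · simp [P, hi]
      · simpa [P, hi] using norm_le_pi_norm (x - y) i
  have hη' : ∀ c0 x y, |η (P c0 x) - η (P c0 y)| ≤ ‖x - y‖ := fun c0 x y =>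
    (hη _ _ fun i hi => by simp [P, hi]).trans (hP c0 x y)
  have hA : ∀ c0, Accr (Ψ c0) := fun c0 x y i hi => by
    by_cases hT : i ∈ T
    · simp only [Ψ, if_pos hT]
      linarith [norm_nonneg (x - y)]
    · have e : ∀ z, P c0 z i = z i := fun z => if_neg hT
      have h1 := abs_le.1 (hη' c0 x y)
      simp only [Ψ, if_neg hT, BEv.loc, e]
      exact max_le_max (by linarith [h1.2]) (min_le_min
        (h _ _ i (by rw [e, e]; exact (hP c0 x y).trans hi)) (by linarith [h1.1]))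
  have hL : ∀ c0, LipschitzWith (L + 2) (Ψ c0) := fun c0 =>
    LipschitzWith.of_dist_le_mul fun x y => by
      have h0 := norm_nonneg (x - y)
      have hL0 : (0 : ℝ) ≤ L := L.2
      have hLm := mul_nonneg hL0 h0
      rw [dist_eq_norm, dist_eq_norm]
      push_cast
      refine (pi_norm_le_iff_of_nonneg (by positivity)).2 fun i => ?_
      have h2 : |x i - y i| ≤ ‖x - y‖ := norm_le_pi_norm (x - y) i
      rw [Pi.sub_apply, Real.norm_eq_abs]
      by_cases hT : i ∈ T
      · simp only [Ψ, if_pos hT]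
        linarith
      · have e : ∀ z, P c0 z i = z i := fun z => if_neg hT
        have h1 := abs_le.1 (hη' c0 x y)
        have h3 := abs_le.1 h2
        have h4 : |Φ (P c0 x) i - Φ (P c0 y) i| ≤ L * ‖x - y‖ := by
          have h5 := hl.dist_le_mul (P c0 x) (P c0 y)
          rw [dist_eq_norm, dist_eq_norm] at h5
          exact (norm_le_pi_norm (Φ (P c0 x) - Φ (P c0 y)) i).trans
            (h5.trans (mul_le_mul_of_nonneg_left (hP c0 x y) hL0))
        simp only [Ψ, if_neg hT, BEv.loc, e]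
        refine (abs_max_sub_max_le_max _ _ _ _).trans (max_le ?_
          ((abs_min_sub_min_le_max _ _ _ _).trans (max_le (by linarith) ?_)))
        · rw [abs_le]
          constructor <;> linarith [h1.1, h1.2, h3.1, h3.2]
        · rw [abs_le]
          constructor <;> linarith [h1.1, h1.2, h3.1, h3.2]
  have hT : ∀ c0 y, ∀ i ∈ T, mix (1 / 2) (Ψ c0) y i = y i := fun c0 y i hi => by
    simp only [mix, Ψ, Pi.add_apply, Pi.smul_apply, smul_eq_mul, if_pos hi]
    ring
  have hE : ∀ c0 y, (∀ i ∈ T, y i = c0 i) → mix (1 / 2) (Ψ c0) y =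
      fun i => if i ∈ T then y i else mix (1 / 2) (BEv.loc η Φ) y i := fun c0 y hy => by
    have e : P c0 y = y := funext fun i => by
      by_cases hi : i ∈ T
      · simp only [P, if_pos hi, hy i hi]
      · simp only [P, if_neg hi]
    funext i
    by_cases hi : i ∈ T
    · rw [if_pos hi, hT c0 y i hi]
    · simp only [if_neg hi, mix, Ψ, Pi.add_apply, Pi.smul_apply, e]
  constructor
  · intro x y hxy
    have h1 : ∀ i ∈ T, y i = x i := fun i hi => by
      have := congrFun hxy i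
      simp only [if_pos hi] at this
      exact this.symm
    have h2 := (hA x).expanding (c := 1 / 2) (by norm_num) (by norm_num) x y
    rw [hE x x fun _ _ => rfl, hE x y h1] at h2
    simp only at hxy
    rw [hxy, sub_self, norm_zero] at h2
    exact sub_eq_zero.1 (norm_le_zero_iff.1 (by linarith))
  · intro z
    obtain ⟨y, hy⟩ := (hA z).surjective ⟨_, hL z⟩ (c := 1 / 2) (by norm_num) (by norm_num) z
    refine ⟨y, ?_⟩
    rw [hE z y fun i hi => by rw [← hT z y i hi, hy]] at hy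
    exact hy

/-- Gluing bijections along disjoint blocks. -/
theorem glue_bijective {X κ : Type} {f f0 : X → X} (D : Finset κ) (B : κ → Set X)
    (fa fb : κ → X → X) (h0 : Bijective f0) (ha : ∀ a ∈ D, Bijective (fa a))
    (hb : ∀ a ∈ D, Bijective (fb a)) (hd : ∀ a ∈ D, ∀ b ∈ D, a ≠ b → Disjoint (B a) (B b))
    (h1 : ∀ a ∈ D, ∀ x ∈ B a, f x = fa a x) (h2 : ∀ a ∈ D, ∀ x ∈ B a, f0 x = fb a x)
    (h3 : ∀ a ∈ D, ∀ x, x ∉ B a → fa a x = fb a x)
    (h4 : ∀ x, (∀ a ∈ D, x ∉ B a) → f x = f0 x) : Bijective f := by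
  have key : ∀ (g g' : X → X) (S : Set X), Injective g → Surjective g' →
      (∀ x, x ∉ S → g x = g' x) → ∀ x ∈ S, ∃ x' ∈ S, g' x' = g x := by
    intro g g' S hg hg' hS x hx
    obtain ⟨x', e⟩ := hg' (g x)
    refine ⟨x', by_contra fun hn => hn ?_, e⟩
    rw [← hS x' hn] at e
    rwa [hg e]
  have k1 : ∀ a ∈ D, ∀ x ∈ B a, ∃ x' ∈ B a, f0 x' = f x := fun a haD x hx => by
    obtain ⟨x', h5, h6⟩ := key _ _ (B a) (ha a haD).1 (hb a haD).2 (h3 a haD) x hx
    exact ⟨x', h5, by rw [h2 a haD x' h5, h6, h1 a haD x hx]⟩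
  have k2 : ∀ x y, f x = f y → (∀ a ∈ D, y ∉ B a) → ∀ a ∈ D, x ∉ B a := by
    intro x y e hy a haD hx
    obtain ⟨x', h5, h6⟩ := k1 a haD x hx
    rw [e, h4 y hy] at h6
    exact hy a haD (h0.1 h6 ▸ h5)
  constructor
  · intro x y e
    by_cases hx : ∀ a ∈ D, x ∉ B a
    · have hy := k2 y x e.symm hx
      exact h0.1 (by rw [← h4 x hx, ← h4 y hy, e])
    · have hy : ¬ ∀ a ∈ D, y ∉ B a := fun hy => hx (k2 x y e hy)
      push Not at hx hy
      obtain ⟨a, haD, hx⟩ := hx
      obtain ⟨b, hbD, hy⟩ := hy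
      obtain ⟨x', h5, h6⟩ := k1 a haD x hx
      obtain ⟨y', h7, h8⟩ := k1 b hbD y hy
      have e' : x' = y' := h0.1 (by rw [h6, h8, e])
      have hab : a = b := by_contra fun hn =>
        Set.disjoint_left.1 (hd a haD b hbD hn) h5 (e' ▸ h7)
      subst hab
      exact (ha a haD).1 (by rw [← h1 a haD x hx, ← h1 a haD y hy, e])
  · intro z
    obtain ⟨x, rfl⟩ := h0.2 z
    by_cases hx : ∀ a ∈ D, x ∉ B a
    · exact ⟨x, h4 x hx⟩
    · push Not at hx
      obtain ⟨a, haD, hx⟩ := hx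
      obtain ⟨x', h5, h6⟩ := key _ _ (B a) (hb a haD).1 (ha a haD).2
        (fun x hx => (h3 a haD x hx).symm) x hx
      exact ⟨x', by rw [h1 a haD x' h5, h6, h2 a haD x hx]⟩

end BEv
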