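import Pool.Agent.Work.MP_f0515e_an.Accr

/-! One-variable periodic tools, the median, and the generic periodic maps `per`. -/

open Set Metric Filter Topology MeasureTheory Function
open scoped ENNReal NNReal

noncomputable section
namespace BEv

variable {m : ℕ}

theorem dd_nonneg (t : ℝ) : 0 ≤ dd t :=
  abs_nonneg _

theorem dd_le_half (t : ℝ) : dd t ≤ 1 / 2 :=
  abs_sub_round t

theorem dd_le (t : ℝ) (k : ℤ) : dd t ≤ |t - k| :=
  round_le t k

theorem per1_far {k k' : ℤ} (h : k ≠ k') : (k : ℝ) + 1 ≤ k' ∨ (k' : ℝ) + 1 ≤ k := by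
  rcases lt_or_gt_of_ne h with h | h
  · exact Or.inl (by exact_mod_cast h)
  · exact Or.inr (by exact_mod_cast h)

theorem dd_eq {t : ℝ} {k : ℤ} (h : |t - k| ≤ 1 / 2) : dd t = |t - k| := by
  refine le_antisymm (dd_le t k) ?_
  by_cases hk : round t = k
  · rw [dd, hk]
  · obtain ⟨h1, h2⟩ := abs_le.1 h
    rcases per1_far hk with h3 | h3
    · exact h.trans (le_abs.2 (Or.inl (by linarith)))
    · exact h.trans (le_abs.2 (Or.inr (by linarith)))

theorem abs_dd_sub_le (s t : ℝ) : |dd s - dd t| ≤ |s - t| := by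
  have key : ∀ s t : ℝ, dd s - dd t ≤ |s - t| := fun s t => by
    have h1 := dd_le s (round t)
    have h2 := abs_sub_le s t (round t)
    unfold dd at *
    linarith
  exact abs_sub_le_iff.2 ⟨key s t, abs_sub_comm s t ▸ key t s⟩

theorem dd_sub_half (t : ℝ) : dd (t - 1 / 2) = 1 / 2 - dd t := by
  obtain ⟨h1, h2⟩ := abs_le.1 (dd_le_half t)
  rcases le_total (round t : ℝ) t with h | h
  · rw [dd_eq (k := round t) (abs_le.2 ⟨by linarith, by linarith⟩), abs_of_nonpos (by linarith),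
      dd, abs_of_nonneg (by linarith)]
    ring
  · rw [dd_eq (k := round t - 1) (abs_le.2 ⟨by push_cast; linarith, by push_cast; linarith⟩),
      abs_of_nonneg (by push_cast; linarith), dd, abs_of_nonpos (by linarith)]
    push_cast
    ring

theorem dd_eq_zero_iff {t : ℝ} : dd t = 0 ↔ ∃ k : ℤ, t = k := by
  constructor
  · exact fun h => ⟨round t, sub_eq_zero.1 (abs_eq_zero.1 h)⟩
  · rintro ⟨k, rfl⟩
    simp [dd]

theorem per1_fin {E : Type} [NormedAddCommGroup E] [NormedSpace ℝ E] {t : E → ℝ} (ht : TP t)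
    (R : ℝ) : ∃ K : Set ℤ, K.Finite ∧ ∀ x ∈ closedBall (0 : E) R, round (t x) ∈ K := by
  obtain ⟨L, hL, h⟩ := ht.exists_bound
  obtain ⟨N, hN⟩ := exists_nat_ge (|t 0| + L * R + 1 / 2)
  refine ⟨Icc (-N) N, finite_Icc _ _, fun x hx => ?_⟩
  have h1 : ‖x - 0‖ ≤ R := mem_closedBall_iff_norm.1 hx
  have h2 := (h x 0).trans (mul_le_mul_of_nonneg_left h1 (by linarith))
  obtain ⟨a1, a2⟩ := abs_le.1 h2
  obtain ⟨b1, b2⟩ := abs_le.1 (abs_sub_round (t x))
  have c1 := le_abs_self (t 0)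
  have c2 := neg_abs_le (t 0)
  constructor
  · exact_mod_cast (show -(N : ℝ) ≤ round (t x) by linarith)
  · exact_mod_cast (show (round (t x) : ℝ) ≤ N by linarith)

theorem tp_dd : TP dd := by
  refine TP.of_select ⟨1, LipschitzWith.of_dist_le_mul fun s t => ?_⟩ fun R => ?_
  · simpa [Real.dist_eq] using abs_dd_sub_le s t
  · obtain ⟨K, hK, h⟩ := per1_fin (TP.id' (E := ℝ)) R
    refine ⟨(fun (k : ℤ) (x : ℝ) => |x - k|) '' K, hK.image _, ?_,
      fun x hx => ⟨_, ⟨_, h x hx, rfl⟩, rfl⟩⟩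
    rintro _ ⟨k, -, rfl⟩
    exact (TP.id'.sub (TP.const _)).abs

theorem abs_oext_sub (D : ℝ → ℝ) (t : ℝ) : |oext D t - t| = |D (dd t) - dd t| := by
  unfold oext
  split_ifs with h
  · congr 1
    rw [dd, abs_of_nonneg (by linarith)]
    ring
  · rw [← abs_neg]
    congr 1
    rw [show dd t = round t - t by rw [dd, abs_of_nonpos (by linarith), neg_sub]]
    ring

theorem oext_congr {D D' : ℝ → ℝ} {t : ℝ} (h : D (dd t) = D' (dd t)) :
    oext D t = oext D' t := by
  rw [oext, oext, h]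

theorem abs_oext_sub_oext (D D' : ℝ → ℝ) (t : ℝ) :
    |oext D t - oext D' t| = |D (dd t) - D' (dd t)| := by
  unfold oext
  split_ifs with h
  · rw [add_sub_add_left_eq_sub]
  · rw [add_sub_add_left_eq_sub, neg_sub_neg, abs_sub_comm]

theorem per1_abs {D : ℝ → ℝ} (h : Adm D) (t : ℝ) : |oext D t - round t| = D (dd t) := by
  have h0 := (h.2.2 _ (dd_nonneg t) (dd_le_half t)).1
  rw [oext, add_sub_cancel_left]
  split_ifs
  · exact abs_of_nonneg h0
  · rw [abs_neg, abs_of_nonneg h0]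

theorem per1_half {D : ℝ → ℝ} (h : Adm D) (t : ℝ) : |oext D t - round t| ≤ 1 / 2 := by
  rw [per1_abs h]
  exact (h.2.2 _ (dd_nonneg t) (dd_le_half t)).2

theorem per1_eq {D : ℝ → ℝ} (h : Adm D) {t : ℝ} {k : ℤ} (ht : |t - k| ≤ 1 / 2) :
    oext D t = k + (if (k : ℝ) ≤ t then D (t - k) else -D (k - t)) := by
  by_cases hk : round t = k
  · rw [oext, dd, hk]
    split_ifs with h1
    · rw [abs_of_nonneg (by linarith)]
    · rw [abs_of_nonpos (by linarith), neg_sub]
  · obtain ⟨a1, a2⟩ := abs_le.1 ht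
    obtain ⟨b1, b2⟩ := abs_le.1 (dd_le_half t)
    rw [oext, dd_eq ht]
    rcases per1_far hk with h3 | h3
    · rw [if_pos (by linarith), if_neg (by linarith), abs_of_nonpos (by linarith), neg_sub,
        show (k : ℝ) - t = 1 / 2 by linarith, h.2.1]
      linarith
    · rw [if_neg (by linarith), if_pos (by linarith), abs_of_nonneg (by linarith),
        show t - (k : ℝ) = 1 / 2 by linarith, h.2.1]
      linarith

theorem dd_oext {D : ℝ → ℝ} (h : Adm D) (t : ℝ) : dd (oext D t) = D (dd t) := by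
  rw [dd_eq (per1_half h t), per1_abs h]

theorem oext_oext {D D' : ℝ → ℝ} (h : Adm D) (h' : Adm D') (t : ℝ) :
    oext D' (oext D t) = oext (fun d => D' (D d)) t := by
  have h0 := (h.2.2 _ (dd_nonneg t) (dd_le_half t)).1
  rw [per1_eq h' (per1_half h t)]
  unfold oext
  by_cases h1 : (round t : ℝ) ≤ t
  · rw [if_pos h1, if_pos h1, if_pos (by linarith), add_sub_cancel_left]
  · rw [if_neg h1, if_neg h1]
    rcases h0.eq_or_lt with h2 | h2
    · simp [← h2, h'.1]
    · rw [if_neg (by linarith)]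
      congr 3
      ring

/-- Formula on the cell around an integer. -/
theorem oext_eq {D : ℝ → ℝ} (h : Adm D) {t : ℝ} {k : ℤ} (ht : |t - k| ≤ 1 / 2) :
    oext D t = k + (if (k : ℝ) ≤ t then D (t - k) else -D (k - t)) :=
  per1_eq h ht

theorem per1_cell {D : ℝ → ℝ} (h : Adm D) {L : ℝ}
    (hD : ∀ d d', 0 ≤ d → d ≤ 1 / 2 → 0 ≤ d' → d' ≤ 1 / 2 → |D d - D d'| ≤ L * |d - d'|)
    {s t : ℝ} {k : ℤ} (hs : |s - k| ≤ 1 / 2) (ht : |t - k| ≤ 1 / 2) (hts : t ≤ s) :
    |oext D s - oext D t| ≤ L * (s - t) := by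
  obtain ⟨a1, a2⟩ := abs_le.1 hs
  obtain ⟨b1, b2⟩ := abs_le.1 ht
  rw [oext_eq h hs, oext_eq h ht, add_sub_add_left_eq_sub]
  split_ifs with h1 h2 h2
  · have := hD (s - k) (t - k) (by linarith) a2 (by linarith) b2
    rwa [sub_sub_sub_cancel_right, abs_of_nonneg (sub_nonneg.2 hts)] at this
  · have c1 := hD (s - k) 0 (by linarith) a2 le_rfl (by norm_num)
    have c2 := hD (k - t) 0 (by linarith) (by linarith) le_rfl (by norm_num)
    rw [h.1, sub_zero, sub_zero, abs_of_nonneg (a := s - k) (by linarith)] at c1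
    rw [h.1, sub_zero, sub_zero, abs_of_nonneg (a := k - t) (by linarith)] at c2
    rw [sub_neg_eq_add]
    refine (abs_add_le _ _).trans ?_
    linarith
  · linarith
  · have := hD (k - t) (k - s) (by linarith) (by linarith) (by linarith) (by linarith)
    rwa [sub_sub_sub_cancel_left, abs_of_nonneg (sub_nonneg.2 hts), ← neg_sub_neg] at this

theorem per1_round {s t : ℝ} (h : t ≤ s) : round t ≤ round s := by
  rw [round_eq, round_eq]
  exact Int.floor_mono (by linarith)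

theorem oext_lip {D : ℝ → ℝ} (h : Adm D) {L : ℝ} (hL : 1 ≤ L)
    (hD : ∀ d d', 0 ≤ d → d ≤ 1 / 2 → 0 ≤ d' → d' ≤ 1 / 2 → |D d - D d'| ≤ L * |d - d'|)
    (s t : ℝ) : |oext D s - oext D t| ≤ L * |s - t| := by
  wlog hts : t ≤ s generalizing s t
  · rw [abs_sub_comm, abs_sub_comm s]
    exact this t s (le_of_not_ge hts)
  rw [abs_of_nonneg (sub_nonneg.2 hts)]
  rcases (per1_round hts).eq_or_lt with hk | hk
  · exact per1_cell h hD (dd_le_half s) (hk ▸ dd_le_half t) hts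
  have hk' : (round t : ℝ) + 1 ≤ round s := by exact_mod_cast hk
  obtain ⟨a1, a2⟩ := abs_le.1 (dd_le_half s)
  obtain ⟨b1, b2⟩ := abs_le.1 (dd_le_half t)
  have e1 : |(round s : ℝ) - 1 / 2 - round s| ≤ 1 / 2 := abs_le.2 ⟨by linarith, by linarith⟩
  have e2 : |(round t : ℝ) + 1 / 2 - round t| ≤ 1 / 2 := abs_le.2 ⟨by linarith, by linarith⟩
  have c1 := (abs_le.1 (per1_cell h hD (dd_le_half s) e1 (by linarith))).2
  have c2 := (abs_le.1 (per1_cell h hD e2 (dd_le_half t) (by linarith))).2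
  rw [oext_eq h e1, if_neg (by linarith), sub_sub_cancel, h.2.1] at c1
  rw [oext_eq h e2, if_pos (by linarith), add_sub_cancel_left, h.2.1] at c2
  have d1 := (abs_le.1 (per1_half h s)).1
  have d2 := (abs_le.1 (per1_half h t)).2
  have d3 := le_mul_of_one_le_left (show (0 : ℝ) ≤ round s - round t - 1 by linarith) hL
  rw [abs_of_nonneg (by linarith)]
  linarith

theorem oext_mono {D D' : ℝ → ℝ} (h : Adm D) (h' : Adm D') {s t : ℝ} (hst : t ≤ s)
    (h1 : ∀ d d', 0 ≤ d' → d ≤ 1 / 2 → s - t ≤ d - d' → D' d' ≤ D d)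
    (h2 : ∀ d d', 0 ≤ d → d' ≤ 1 / 2 → s - t ≤ d' - d → D d ≤ D' d') :
    oext D' t ≤ oext D s := by
  rcases (per1_round hst).eq_or_lt with hk | hk
  · have hs := dd_le_half s
    have ht : |t - round s| ≤ 1 / 2 := hk ▸ dd_le_half t
    obtain ⟨a1, a2⟩ := abs_le.1 hs
    obtain ⟨b1, b2⟩ := abs_le.1 ht
    rw [oext_eq h hs, oext_eq h' ht]
    refine add_le_add le_rfl ?_
    split_ifs with c1 c2 c2
    · exact h1 _ _ (by linarith) a2 (by linarith)
    · linarith
    · have d1 := (h.2.2 (s - round s) (by linarith) a2).1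
      have d2 := (h'.2.2 (round s - t) (by linarith) (by linarith)).1
      linarith
    · exact neg_le_neg (h2 _ _ (by linarith) (by linarith) (by linarith))
  · have hk' : (round t : ℝ) + 1 ≤ round s := by exact_mod_cast hk
    have d1 := (abs_le.1 (per1_half h s)).1
    have d2 := (abs_le.1 (per1_half h' t)).2
    linarith

/-- Piecewise affinity of the extension with a parameter. -/
theorem tp_oext {E : Type} [NormedAddCommGroup E] [NormedSpace ℝ E] {D : E → ℝ → ℝ}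
    {t : E → ℝ} (ht : TP t) (hD : TP (fun x => D x (dd (t x))))
    (hl : ∃ L : ℝ≥0, LipschitzWith L (fun x => oext (D x) (t x))) :
    TP (fun x => oext (D x) (t x)) := by
  refine TP.of_select hl fun R => ?_
  obtain ⟨K, hK, h⟩ := per1_fin ht R
  refine ⟨(fun (k : ℤ) (x : E) => k + D x (dd (t x))) '' K ∪
    (fun (k : ℤ) (x : E) => k + -D x (dd (t x))) '' K, (hK.image _).union (hK.image _), ?_,
    fun x hx => ?_⟩
  · rintro _ (⟨k, -, rfl⟩ | ⟨k, -, rfl⟩)
    · exact (TP.const _).add hD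
    · exact (TP.const _).add hD.neg
  · by_cases h1 : (round (t x) : ℝ) ≤ t x
    · exact ⟨_, Or.inl ⟨_, h x hx, rfl⟩, by rw [oext, if_pos h1]⟩
    · exact ⟨_, Or.inr ⟨_, h x hx, rfl⟩, by rw [oext, if_neg h1]⟩

theorem norm_pr_le (T : Finset (Fin (2 * m + 1))) (x : V m) : ‖pr T x‖ ≤ ‖x‖ := by
  refine (pi_norm_le_iff_of_nonneg (norm_nonneg _)).2 fun i => ?_
  unfold pr
  split_ifs
  · exact norm_le_pi_norm x i
  · rw [norm_zero]
    exact norm_nonneg _

theorem pr_sub (T : Finset (Fin (2 * m + 1))) (x y : V m) : pr T (x - y) = pr T x - pr T y := by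
  funext i
  simp only [pr, Pi.sub_apply]
  split_ifs
  · rfl
  · rw [sub_zero]

theorem norm_pr_le_iff {T : Finset (Fin (2 * m + 1))} {x : V m} {c : ℝ} (hc : 0 ≤ c) :
    ‖pr T x‖ ≤ c ↔ ∀ i ∈ T, |x i| ≤ c := by
  rw [pi_norm_le_iff_of_nonneg hc]
  refine forall_congr' fun i => ?_
  unfold pr
  by_cases h : i ∈ T <;> simp [h, hc]

theorem abs_le_norm_pr {T : Finset (Fin (2 * m + 1))} (x : V m) {i : Fin (2 * m + 1)}
    (hi : i ∈ T) : |x i| ≤ ‖pr T x‖ :=
  (norm_pr_le_iff (norm_nonneg _)).1 le_rfl i hi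

theorem TP.pr {E : Type} [NormedAddCommGroup E] [NormedSpace ℝ E] {f : E → V m} (hf : TP f)
    (T : Finset (Fin (2 * m + 1))) : TP (fun x => BEv.pr T (f x)) := by
  refine TP.pi fun i => ?_
  unfold BEv.pr
  split_ifs
  · exact hf.apply i
  · exact TP.const _

theorem per1_pr (T : Finset (Fin (2 * m + 1))) (x y : V m) : |‖pr T x‖ - ‖pr T y‖| ≤ ‖x - y‖ := by
  refine (abs_norm_sub_norm_le _ _).trans ?_
  rw [← pr_sub]
  exact norm_pr_le _ _

theorem abs_ta_sub_le (a x y : V m) : |ta a x - ta a y| ≤ ‖x - y‖ :=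
  (per1_pr (TT a) (x - a) (y - a)).trans_eq (congrArg _ (sub_sub_sub_cancel_right x y a))

theorem abs_na_sub_le (a x y : V m) : |na a x - na a y| ≤ ‖x - y‖ :=
  (per1_pr (TT a)ᶜ (x - a) (y - a)).trans_eq (congrArg _ (sub_sub_sub_cancel_right x y a))

theorem tp_ta (a : V m) : TP (ta a) :=
  ((TP.id'.sub (TP.const a)).pr (TT a)).norm_pi

theorem tp_na (a : V m) : TP (na a) :=
  ((TP.id'.sub (TP.const a)).pr (TT a)ᶜ).norm_pi

theorem norm_sub_eq_max (a y : V m) : ‖y - a‖ = max (ta a y) (na a y) := by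
  refine le_antisymm ?_ (max_le (norm_pr_le _ _) (norm_pr_le _ _))
  refine (pi_norm_le_iff_of_nonneg (le_max_of_le_left (norm_nonneg _))).2 fun i => ?_
  by_cases h : i ∈ TT a
  · exact le_max_of_le_left (abs_le_norm_pr _ h)
  · exact le_max_of_le_right (abs_le_norm_pr _ (Finset.mem_compl.2 h))

theorem mu_nonneg (x : V m) : 0 ≤ mu x :=
  le_cmin _ _ _ (by norm_num) fun _ _ => norm_nonneg _

theorem mu_le_half (x : V m) : mu x ≤ 1 / 2 :=
  cmin_le_cap _ _ _

theorem mu_le_iff {x : V m} {t : ℝ} (ht : 0 ≤ t) :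
    mu x ≤ t ↔ ∃ S : Finset (Fin (2 * m + 1)), S.card = m + 1 ∧ ∀ i ∈ S, dd (x i) ≤ t := by
  constructor
  · intro h
    rcases cmin_eq (Finset.powersetCard (m + 1) Finset.univ) (1 / 2)
      (fun S => ‖pr S (fun i => dd (x i))‖) with h1 | ⟨S, hS, h1⟩
    · obtain ⟨S, -, hS⟩ := Finset.exists_subset_card_eq
        (s := (Finset.univ : Finset (Fin (2 * m + 1)))) (n := m + 1) (by simp; omega)
      exact ⟨S, hS, fun i _ => (dd_le_half _).trans (h1.symm.le.trans h)⟩
    · refine ⟨S, (Finset.mem_powersetCard.1 hS).2, fun i hi => ?_⟩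
      exact (le_abs_self _).trans ((norm_pr_le_iff ht).1 (h1.symm.le.trans h) i hi)
  · rintro ⟨S, hS, h⟩
    refine (cmin_le _ _ _ (Finset.mem_powersetCard.2 ⟨Finset.subset_univ _, hS⟩)).trans ?_
    exact (norm_pr_le_iff ht).2 fun i hi => by
      rw [abs_of_nonneg (dd_nonneg _)]
      exact h i hi

/-- At least `m + 1` coordinates are at distance at least the median. -/
theorem exists_ge_mu (x : V m) :
    ∃ S : Finset (Fin (2 * m + 1)), S.card = m + 1 ∧ ∀ i ∈ S, mu x ≤ dd (x i) := by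
  have h1 : (Finset.univ.filter fun i => dd (x i) < mu x).card ≤ m := by
    by_contra h
    obtain ⟨S, h2, hS⟩ := Finset.exists_subset_card_eq (n := m + 1) (not_le.1 h)
    obtain ⟨i, hi, h3⟩ := S.exists_max_image (fun i => dd (x i))
      (Finset.card_pos.1 (by omega))
    exact absurd ((mu_le_iff (dd_nonneg _)).2 ⟨S, hS, h3⟩)
      (not_le.2 (Finset.mem_filter.1 (h2 hi)).2)
  obtain ⟨S, h2, hS⟩ := Finset.exists_subset_card_eq
    (s := (Finset.univ.filter fun i => dd (x i) < mu x)ᶜ) (n := m + 1) (by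
      rw [Finset.card_compl, Fintype.card_fin]
      omega)
  exact ⟨S, hS, fun i hi => by simpa using h2 hi⟩

theorem abs_mu_sub_le (x y : V m) : |mu x - mu y| ≤ ‖x - y‖ := by
  refine abs_cmin_sub_le _ _ _ (by simp) fun S _ => (per1_pr S _ _).trans ?_
  exact (pi_norm_le_iff_of_nonneg (norm_nonneg _)).2 fun i =>
    (abs_dd_sub_le _ _).trans (norm_le_pi_norm (x - y) i)

theorem tp_mu : TP (mu : V m → ℝ) :=
  TP.cmin _ (TP.const _) fun S _ =>
    ((TP.pi (f := fun (x : V m) i => dd (x i)) fun i => tp_dd.comp (TP.id'.apply i)).pr S).norm_pi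

theorem mu_eq_zero_iff {x : V m} : mu x = 0 ↔ (TT x).card ≤ m := by
  rw [← (mu_nonneg x).ge_iff_eq', mu_le_iff le_rfl]
  have hc : (TT x)ᶜ.card = 2 * m + 1 - (TT x).card := by rw [Finset.card_compl, Fintype.card_fin]
  have hm : ∀ i, i ∈ (TT x)ᶜ ↔ dd (x i) ≤ 0 := fun i => by
    rw [(dd_nonneg _).ge_iff_eq']
    simp [TT]
  constructor
  · rintro ⟨S, hS, h⟩
    have := Finset.card_le_card (show S ⊆ (TT x)ᶜ from fun i hi => (hm i).2 (h i hi))
    omega
  · intro h
    obtain ⟨S, h2, hS⟩ := Finset.exists_subset_card_eq (s := (TT x)ᶜ) (n := m + 1) (by omega)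
    exact ⟨S, hS, fun i hi => (hm i).1 (h2 hi)⟩

theorem be_nonneg (x : V m) : 0 ≤ be x :=
  mu_nonneg _

theorem be_le_half (x : V m) : be x ≤ 1 / 2 :=
  mu_le_half _

theorem abs_be_sub_le (x y : V m) : |be x - be y| ≤ ‖x - y‖ :=
  (abs_mu_sub_le (x - hlf) (y - hlf)).trans_eq (congrArg _ (sub_sub_sub_cancel_right x y hlf))

theorem tp_be : TP (be : V m → ℝ) :=
  tp_mu.comp (TP.id'.sub (TP.const hlf))

end BEv
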