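import Pool.Agent.Work.MP_f0515e_an.Per1

-- merged part: Pool.Agent.Work.MP_f0515e_an.Meas1
section
/-! Measure tools: transport under expanding maps, the weight, cell averaging, counting. -/

open Set Metric Filter Topology MeasureTheory Function
open scoped ENNReal NNReal

noncomputable section
namespace BEv

variable {m : ℕ}

theorem meas1_vol {n : ℕ} {f : (Fin n → ℝ) → Fin n → ℝ} {W : Set (Fin n → ℝ)}
    {c : Fin n → ℝ} (hc : ∀ i, 0 < c i) {L : ℝ} (hL : 0 ≤ L)
    (h : ∀ x ∈ W, ∀ y ∈ W, ∀ i, c i * |x i - y i| ≤ L * ‖f x - f y‖) :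
    ENNReal.ofReal (∏ i, c i) * volume W ≤ ENNReal.ofReal (L ^ n) * volume (f '' W) := by
  classical
  let D : (Fin n → ℝ) →ₗ[ℝ] (Fin n → ℝ) := Matrix.toLin' (Matrix.diagonal c)
  have hD : ∀ x i, D x i = c i * x i := fun x i => by
    simp [D, Matrix.mulVec_diagonal]
  have hdet : LinearMap.det D = ∏ i, c i := by
    simp only [D, LinearMap.det_toLin', Matrix.det_diagonal]
  have hp : 0 < ∏ i, c i := Finset.prod_pos fun i _ => hc i
  have h1 : volume (D '' W) = ENNReal.ofReal (∏ i, c i) * volume W := by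
    rw [Measure.addHaar_image_linearMap, hdet, abs_of_pos hp]
  let g : (Fin n → ℝ) → Fin n → ℝ := fun y => D (invFunOn f W y)
  have hmem : ∀ y ∈ f '' W, invFunOn f W y ∈ W ∧ f (invFunOn f W y) = y := fun y hy =>
    invFunOn_pos hy
  have hg : LipschitzOnWith L.toNNReal g (f '' W) := by
    refine LipschitzOnWith.of_dist_le_mul fun y hy z hz => ?_
    rw [Real.coe_toNNReal L hL, dist_pi_le_iff (mul_nonneg hL dist_nonneg)]
    intro i
    have h2 := h _ (hmem y hy).1 _ (hmem z hz).1 i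
    rw [(hmem y hy).2, (hmem z hz).2] at h2
    rw [Real.dist_eq, dist_eq_norm]
    simp only [g, hD]
    rw [← mul_sub, abs_mul, abs_of_pos (hc i)]
    exact h2
  have hsub : D '' W ⊆ g '' (f '' W) := by
    rintro _ ⟨x, hx, rfl⟩
    refine ⟨f x, mem_image_of_mem f hx, ?_⟩
    have h3 := hmem (f x) (mem_image_of_mem f hx)
    have h4 : invFunOn f W (f x) = x := by
      funext i
      have h5 := h _ h3.1 _ hx i
      rw [h3.2, sub_self, norm_zero, mul_zero] at h5
      have h6 : |invFunOn f W (f x) i - x i| ≤ 0 := by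
        by_contra hne
        have := mul_pos (hc i) (not_le.mp hne)
        linarith
      exact sub_eq_zero.mp (abs_nonpos_iff.mp h6)
    simp only [g, h4]
  have h7 := hg.hausdorffMeasure_image_le (d := (Fintype.card (Fin n) : ℝ)) (Nat.cast_nonneg _)
  rw [hausdorffMeasure_pi_real, ENNReal.rpow_natCast, Fintype.card_fin] at h7
  rw [← h1, ENNReal.ofReal_pow hL]
  exact (measure_mono hsub).trans h7

/-- Transport of integrals under a map which expands each coordinate by a given factor. -/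
theorem lintegral_transport {n : ℕ} {f : (Fin n → ℝ) → Fin n → ℝ} (hf : Measurable f)
    {Z B : Set (Fin n → ℝ)} (hZ : MeasurableSet Z) (hB : MeasurableSet B) (hZB : MapsTo f Z B)
    {c : Fin n → ℝ} (hc : ∀ i, 0 < c i) {L : ℝ} (hL : 0 ≤ L)
    (h : ∀ x ∈ Z, ∀ y ∈ Z, ∀ i, c i * |x i - y i| ≤ L * ‖f x - f y‖)
    {Φ : (Fin n → ℝ) → ℝ≥0∞} (hΦ : Measurable Φ) :
    ENNReal.ofReal (∏ i, c i) * ∫⁻ x in Z, Φ (f x) ≤ ENNReal.ofReal (L ^ n) * ∫⁻ y in B, Φ y := by
  have hle : ENNReal.ofReal (∏ i, c i) • Measure.map f (volume.restrict Z) ≤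
      ENNReal.ofReal (L ^ n) • volume.restrict B := by
    rw [Measure.le_iff]
    intro A hA
    rw [Measure.smul_apply, Measure.smul_apply, Measure.map_apply hf hA,
      Measure.restrict_apply (hf hA), Measure.restrict_apply hA, smul_eq_mul, smul_eq_mul]
    refine (meas1_vol (f := f) (W := f ⁻¹' A ∩ Z) hc hL
      fun x hx y hy i => h x hx.2 y hy.2 i).trans ?_
    gcongr
    rintro _ ⟨x, hx, rfl⟩
    exact ⟨hx.1, hZB hx.2⟩
  have h1 := lintegral_mono' hle (le_refl Φ)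
  rwa [lintegral_smul_measure, lintegral_smul_measure, lintegral_map hΦ hf, smul_eq_mul,
    smul_eq_mul] at h1

theorem measurable_wt : Measurable (wt : V m → ℝ≥0∞) :=
  (ENNReal.measurable_ofReal.comp (tp_mu (m := m)).continuous.measurable).inv.pow_const m

theorem meas1_line (a : ℝ) {t : ℝ} (ht : 0 ≤ t) :
    volume ({s : ℝ | dd s ≤ t} ∩ Icc (a - 1) (a + 1)) ≤ 8 * ENNReal.ofReal t := by
  have hsub : {s : ℝ | dd s ≤ t} ∩ Icc (a - 1) (a + 1) ⊆
      ⋃ k ∈ Finset.Icc (⌊a⌋ - 1) (⌊a⌋ + 2), Icc ((k : ℝ) - t) ((k : ℝ) + t) := by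
    rintro s ⟨hs, hs1, hs2⟩
    have h1 : |s - round s| ≤ t := hs
    have h2 := abs_sub_round s
    have h3 := Int.floor_le a
    have h4 := Int.lt_floor_add_one a
    rw [abs_le] at h1 h2
    simp only [mem_iUnion, Finset.mem_Icc, mem_Icc]
    refine ⟨round s, ⟨?_, ?_⟩, by linarith [h1.2], by linarith [h1.1]⟩
    · have h5 : ((⌊a⌋ - 2 : ℤ) : ℝ) < (round s : ℝ) := by
        push_cast
        linarith [h2.2]
      have := Int.cast_lt.mp h5
      omega
    · have h5 : (round s : ℝ) < ((⌊a⌋ + 3 : ℤ) : ℝ) := by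
        push_cast
        linarith [h2.1]
      have := Int.cast_lt.mp h5
      omega
  refine (measure_mono hsub).trans ((measure_biUnion_finset_le _ _).trans ?_)
  have h6 : ∀ k : ℤ, volume (Icc ((k : ℝ) - t) ((k : ℝ) + t)) = 2 * ENNReal.ofReal t := by
    intro k
    rw [Real.volume_Icc, show (k : ℝ) + t - (k - t) = 2 * t by ring,
      ENNReal.ofReal_mul (by norm_num), ENNReal.ofReal_ofNat]
  simp only [h6, Finset.sum_const, Int.card_Icc, nsmul_eq_mul]
  rw [show (⌊a⌋ + 2 + 1 - (⌊a⌋ - 1)).toNat = 4 by omega, ← mul_assoc]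
  norm_num

theorem meas1_box (p : V m) {t : ℝ} (ht : 0 ≤ t) (S : Finset (Fin (2 * m + 1))) :
    volume (Set.pi univ fun i => (if i ∈ S then {s : ℝ | dd s ≤ t} else univ) ∩
      Icc (p i - 1) (p i + 1)) ≤ 8 ^ (2 * m + 1) * ENNReal.ofReal t ^ S.card := by
  classical
  rw [volume_pi_pi]
  have h1 : ∀ i, volume ((if i ∈ S then {s : ℝ | dd s ≤ t} else univ) ∩
      Icc (p i - 1) (p i + 1)) ≤ 8 * (if i ∈ S then ENNReal.ofReal t else 1) := by
    intro i
    split_ifs with hi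
    · exact meas1_line (p i) ht
    · rw [univ_inter, Real.volume_Icc, show p i + 1 - (p i - 1) = 2 by ring, ENNReal.ofReal_ofNat]
      norm_num
  refine (Finset.prod_le_prod' fun i _ => h1 i).trans (le_of_eq ?_)
  rw [Finset.prod_mul_distrib, Finset.prod_const, Finset.prod_ite_mem, Finset.univ_inter,
    Finset.prod_const, Finset.card_univ, Fintype.card_fin]

theorem volume_mu_le (m : ℕ) : ∃ C : ℝ, 0 ≤ C ∧ ∀ (p : V m) (t : ℝ), 0 ≤ t →
    volume ({x | mu x ≤ t} ∩ closedBall p 1) ≤ ENNReal.ofReal (C * t ^ (m + 1)) := by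
  classical
  let F : Finset (Finset (Fin (2 * m + 1))) := Finset.powersetCard (m + 1) Finset.univ
  refine ⟨F.card * 8 ^ (2 * m + 1), by positivity, fun p t ht => ?_⟩
  have hsub : {x | mu x ≤ t} ∩ closedBall p 1 ⊆ ⋃ S ∈ F,
      Set.pi univ fun i => (if i ∈ S then {s : ℝ | dd s ≤ t} else univ) ∩
        Icc (p i - 1) (p i + 1) := by
    rintro x ⟨hx, hb⟩
    obtain ⟨S, hS, hS'⟩ := (mu_le_iff ht).mp hx
    simp only [mem_iUnion]
    refine ⟨S, Finset.mem_powersetCard.mpr ⟨Finset.subset_univ S, hS⟩, fun i _ => ⟨?_, ?_⟩⟩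
    · split_ifs with hi
      · exact hS' i hi
      · exact mem_univ _
    · have h1 : dist (x i) (p i) ≤ 1 := (dist_le_pi_dist x p i).trans hb
      rw [Real.dist_eq, abs_le] at h1
      exact ⟨by linarith [h1.1], by linarith [h1.2]⟩
  refine (measure_mono hsub).trans ((measure_biUnion_finset_le _ _).trans ?_)
  refine (Finset.sum_le_card_nsmul _ _ (8 ^ (2 * m + 1) * ENNReal.ofReal t ^ (m + 1))
    fun S hS => ?_).trans (le_of_eq ?_)
  · have h2 := meas1_box p ht S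
    rwa [(Finset.mem_powersetCard.mp hS).2] at h2
  · rw [nsmul_eq_mul, ENNReal.ofReal_mul (by positivity), ENNReal.ofReal_mul (by positivity),
      ENNReal.ofReal_pow ht, ENNReal.ofReal_pow (by norm_num), ENNReal.ofReal_natCast,
      ENNReal.ofReal_ofNat, mul_assoc]

theorem meas1_wt_le (x : V m) : wt x ≤ ∑' k : ℕ,
    indicator {y : V m | mu y ≤ (1 / 2) ^ k} (fun _ => ENNReal.ofReal ((2 ^ (k + 1)) ^ m)) x := by
  rcases (mu_nonneg x).eq_or_lt with h0 | h0
  · have h1 : ∑' _ : ℕ, (1 : ℝ≥0∞) = ⊤ := ENNReal.tsum_const_eq_top_of_ne_zero one_ne_zero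
    refine le_top.trans (h1.symm.le.trans (ENNReal.tsum_le_tsum fun k => ?_))
    have h2 : x ∈ {y : V m | mu y ≤ (1 / 2) ^ k} := by
      show mu x ≤ _
      rw [← h0]
      positivity
    rw [indicator_of_mem h2, ← ENNReal.ofReal_one]
    exact ENNReal.ofReal_le_ofReal (one_le_pow₀ (one_le_pow₀ (by norm_num)))
  · obtain ⟨k, hk1, hk2⟩ := exists_nat_pow_near_of_lt_one h0
      ((mu_le_half x).trans (by norm_num)) (by norm_num : (0 : ℝ) < 1 / 2) (by norm_num)
    refine le_trans ?_ (ENNReal.le_tsum k)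
    rw [indicator_of_mem (show x ∈ {y : V m | mu y ≤ (1 / 2) ^ k} from hk2),
      ENNReal.ofReal_pow (by positivity)]
    unfold wt
    gcongr
    rw [← ENNReal.ofReal_inv_of_pos h0]
    refine ENNReal.ofReal_le_ofReal ?_
    rw [inv_le_comm₀ h0 (by positivity), ← inv_pow, ← one_div]
    exact hk1.le

theorem lintegral_wt_unit (m : ℕ) : ∃ C : ℝ≥0∞, C ≠ ⊤ ∧ ∀ p : V m,
    ∫⁻ x in closedBall p 1, wt x ≤ C := by
  obtain ⟨C, hC, h⟩ := volume_mu_le m
  have hs : Summable fun k : ℕ => C * 2 ^ m * (1 / 2 : ℝ) ^ k :=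
    summable_geometric_two.mul_left _
  refine ⟨∑' k : ℕ, ENNReal.ofReal (C * 2 ^ m * (1 / 2 : ℝ) ^ k), ?_, fun p => ?_⟩
  · rw [← ENNReal.ofReal_tsum_of_nonneg (fun k => by positivity) hs]
    exact ENNReal.ofReal_ne_top
  · have hm : ∀ k : ℕ, MeasurableSet {y : V m | mu y ≤ (1 / 2) ^ k} := fun k =>
      measurableSet_le (tp_mu (m := m)).continuous.measurable measurable_const
    refine (lintegral_mono fun x => meas1_wt_le x).trans ?_
    rw [lintegral_tsum fun k => (measurable_const.indicator (hm k)).aemeasurable]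
    refine ENNReal.tsum_le_tsum fun k => ?_
    rw [lintegral_indicator_const (hm k), Measure.restrict_apply (hm k)]
    refine (mul_le_mul_right (h p _ (by positivity)) _).trans (le_of_eq ?_)
    rw [← ENNReal.ofReal_mul (by positivity)]
    congr 1
    have h2 : ((2 : ℝ) ^ k) ^ m * ((1 / 2) ^ k) ^ m = 1 := by
      rw [← mul_pow, ← mul_pow]
      norm_num
    calc ((2 : ℝ) ^ (k + 1)) ^ m * (C * ((1 / 2) ^ k) ^ (m + 1))
        = C * 2 ^ m * (1 / 2) ^ k * ((2 ^ k) ^ m * ((1 / 2) ^ k) ^ m) := by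
          rw [pow_succ 2 k, mul_pow, pow_succ ((1 / 2 : ℝ) ^ k) m]
          ring
      _ = C * 2 ^ m * (1 / 2) ^ k := by rw [h2, mul_one]

theorem meas1_cover (p : V m) (R : ℝ) :
    ∃ F : Finset (V m), closedBall p R ⊆ ⋃ q ∈ F, closedBall q 1 := by
  obtain ⟨t, -, ht, hsub⟩ := finite_cover_balls_of_compact (isCompact_closedBall p R) zero_lt_one
  refine ⟨ht.toFinset, fun x hx => ?_⟩
  obtain ⟨q, hq, hxq⟩ := mem_iUnion₂.mp (hsub hx)
  exact mem_iUnion₂.mpr ⟨q, ht.mem_toFinset.mpr hq, ball_subset_closedBall hxq⟩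

theorem meas1_lintegral_biUnion (F : Finset (V m)) (s : V m → Set (V m)) (g : V m → ℝ≥0∞) :
    ∫⁻ x in ⋃ q ∈ F, s q, g x ≤ ∑ q ∈ F, ∫⁻ x in s q, g x := by
  classical
  induction F using Finset.induction_on with
  | empty => simp
  | insert a F ha ih =>
    rw [Finset.set_biUnion_insert, Finset.sum_insert ha]
    exact (lintegral_union_le _ _ _).trans (add_le_add le_rfl ih)

theorem lintegral_wt_ne_top (p : V m) (R : ℝ) : ∫⁻ x in closedBall p R, wt x ≠ ⊤ := by
  obtain ⟨C, hC, h⟩ := lintegral_wt_unit m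
  obtain ⟨F, hF⟩ := meas1_cover p R
  refine ne_top_of_le_ne_top ?_ ((lintegral_mono_set hF).trans
    ((meas1_lintegral_biUnion F _ _).trans (Finset.sum_le_sum fun q _ => h q)))
  exact ENNReal.sum_ne_top.mpr fun _ _ => hC

theorem meas1_preimage (h : V m) (R : ℝ) :
    (fun x : V m => x - h) ⁻¹' closedBall (-h) R = closedBall 0 R := by
  ext x
  simp [dist_eq_norm]

theorem lintegral_wt_sub_ne_top (R : ℝ) :
    ∫⁻ x in closedBall (0 : V m) R, wt (x - hlf) ≠ ⊤ := by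
  have h1 := (measurePreserving_sub_right (volume : Measure (V m)) hlf).setLIntegral_comp_preimage
    (s := closedBall (-hlf) R) measurableSet_closedBall (measurable_wt (m := m))
  rw [meas1_preimage] at h1
  rw [h1]
  exact lintegral_wt_ne_top _ _

theorem meas1_be_le (R : ℝ) : ∃ C : ℝ, 0 ≤ C ∧ ∀ t : ℝ, 0 ≤ t →
    volume ({x : V m | be x ≤ t} ∩ closedBall 0 R) ≤ ENNReal.ofReal (C * t ^ (m + 1)) := by
  obtain ⟨C, hC, h⟩ := volume_mu_le m
  obtain ⟨F, hF⟩ := meas1_cover (-hlf : V m) R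
  refine ⟨F.card * C, by positivity, fun t ht => ?_⟩
  have h1 : {x : V m | be x ≤ t} ∩ closedBall 0 R =
      (fun x : V m => x - hlf) ⁻¹' ({x | mu x ≤ t} ∩ closedBall (-hlf) R) := by
    rw [preimage_inter, meas1_preimage]
    rfl
  have h2 : {x : V m | mu x ≤ t} ∩ closedBall (-hlf) R ⊆
      ⋃ q ∈ F, {x : V m | mu x ≤ t} ∩ closedBall q 1 := by
    rintro x ⟨hx, hb⟩
    obtain ⟨q, hq, hxq⟩ := mem_iUnion₂.mp (hF hb)
    exact mem_iUnion₂.mpr ⟨q, hq, hx, hxq⟩
  rw [h1, (measurePreserving_sub_right (volume : Measure (V m)) hlf).measure_preimage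
    ((measurableSet_le (tp_mu (m := m)).continuous.measurable measurable_const).inter
      measurableSet_closedBall).nullMeasurableSet]
  refine (measure_mono h2).trans ((measure_biUnion_finset_le _ _).trans ?_)
  refine (Finset.sum_le_card_nsmul _ _ _ fun q _ => h q t ht).trans (le_of_eq ?_)
  rw [nsmul_eq_mul, mul_assoc, ENNReal.ofReal_mul (Nat.cast_nonneg _), ENNReal.ofReal_natCast]

theorem ae_be_pos : ∀ᵐ x : V m, 0 < be x := by
  rw [ae_iff]
  have h1 : {x : V m | ¬0 < be x} ⊆ ⋃ n : ℕ, {x : V m | be x ≤ 0} ∩ closedBall 0 n := by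
    intro x hx
    obtain ⟨n, hn⟩ := exists_nat_ge ‖x‖
    exact mem_iUnion.mpr ⟨n, not_lt.mp hx, mem_closedBall_zero_iff.mpr hn⟩
  refine measure_mono_null h1 (measure_iUnion_null fun n => ?_)
  obtain ⟨C, -, h⟩ := meas1_be_le (m := m) n
  have h2 := h 0 le_rfl
  rw [zero_pow (Nat.succ_ne_zero m), mul_zero, ENNReal.ofReal_zero] at h2
  exact le_antisymm h2 bot_le

theorem volume_be_le (R : ℝ) : ∃ C : ℝ, 0 ≤ C ∧ ∀ t : ℝ, 0 ≤ t →
    volume ({x : V m | be x ≤ t} ∩ closedBall 0 R) ≤ ENNReal.ofReal (C * t ^ (m + 1)) :=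
  meas1_be_le R

end BEv
end
end

-- merged part: Pool.Agent.Work.MP_f0515e_an.Meas1b
section
/-! Cell averaging and counting. -/

open Set Metric Filter Topology MeasureTheory Function
open scoped ENNReal NNReal

noncomputable section
namespace BEv

variable {m : ℕ}

/-- The unit cell with corner `q`. -/
def meas1b_cell {n : ℕ} (q : Fin n → ℤ) : Set (Fin n → ℝ) :=
  Set.pi univ fun i => Ico (q i : ℝ) (q i + 1)

theorem meas1b_mem {n : ℕ} {q : Fin n → ℤ} {x : Fin n → ℝ} :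
    x ∈ meas1b_cell q ↔ ∀ i, (q i : ℝ) ≤ x i ∧ x i < q i + 1 := by
  simp [meas1b_cell]

theorem meas1b_floor {n : ℕ} (x : Fin n → ℝ) : x ∈ meas1b_cell fun i => ⌊x i⌋ :=
  meas1b_mem.2 fun i => ⟨Int.floor_le _, Int.lt_floor_add_one _⟩

theorem meas1b_eq {n : ℕ} {q : Fin n → ℤ} {x : Fin n → ℝ} (h : x ∈ meas1b_cell q) :
    q = fun i => ⌊x i⌋ :=
  funext fun i => (Int.floor_eq_iff.2 (meas1b_mem.1 h i)).symm

theorem meas1b_meas {n : ℕ} (q : Fin n → ℤ) : MeasurableSet (meas1b_cell q) :=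
  MeasurableSet.univ_pi fun _ => measurableSet_Ico

theorem meas1b_vol {n : ℕ} (q : Fin n → ℤ) : volume (meas1b_cell q) = 1 := by
  rw [meas1b_cell, Real.volume_pi_Ico]
  simp

theorem meas1b_disj {n : ℕ} : Pairwise (Disjoint on (meas1b_cell (n := n))) :=
  fun _ _ h => Set.disjoint_left.2 fun _ hx hx' => h ((meas1b_eq hx).trans (meas1b_eq hx').symm)

theorem meas1b_dist {n : ℕ} {q : Fin n → ℤ} {x y : Fin n → ℝ} (hx : x ∈ meas1b_cell q)
    (hy : y ∈ meas1b_cell q) : ‖x - y‖ < 1 := by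
  rw [pi_norm_lt_iff one_pos]
  intro i
  have h1 := meas1b_mem.1 hx i
  have h2 := meas1b_mem.1 hy i
  rw [Pi.sub_apply, Real.norm_eq_abs, abs_lt]
  constructor <;> linarith [h1.1, h1.2, h2.1, h2.2]

theorem meas1b_corner {n : ℕ} (q : Fin n → ℤ) : (fun i => (q i : ℝ)) ∈ meas1b_cell q :=
  meas1b_mem.2 fun _ => ⟨le_rfl, lt_add_one _⟩

theorem meas1b_avg {n : ℕ} (q : Fin n → ℤ) {c : ℝ≥0∞} {F : (Fin n → ℝ) → ℝ≥0∞}
    (h : ∀ y ∈ meas1b_cell q, c ≤ F y) : c ≤ ∫⁻ y in meas1b_cell q, F y := by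
  calc c = ∫⁻ _ in meas1b_cell q, c := by rw [setLIntegral_const, meas1b_vol, mul_one]
    _ ≤ _ := setLIntegral_mono' (meas1b_meas q) h

theorem meas1b_inter {n : ℕ} (Z : Set (Fin n → ℝ)) : Z = ⋃ q, Z ∩ meas1b_cell q := by
  ext x
  simp only [mem_iUnion, mem_inter_iff]
  exact ⟨fun h => ⟨_, h, meas1b_floor x⟩, fun ⟨_, h, _⟩ => h⟩

/-- Cell averaging of the weight. -/
theorem lintegral_mul_wt_le (m : ℕ) : ∃ C : ℝ≥0∞, C ≠ ⊤ ∧ ∀ (Z Z' : Set (V m))
    (F F' : V m → ℝ≥0∞), MeasurableSet Z → MeasurableSet Z' →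
    (∀ x ∈ Z, ∀ y, ‖x - y‖ < 1 → y ∈ Z' ∧ F x ≤ F' y) →
    ∫⁻ x in Z, F x * wt (x - hlf) ≤ C * ∫⁻ y in Z', F' y := by
  obtain ⟨C, hC, hw⟩ := lintegral_wt_unit m
  refine ⟨C, hC, fun Z Z' F F' hZ hZ' h => ?_⟩
  have hm : Measurable fun x : V m => wt (x - hlf) :=
    measurable_wt.comp (measurable_id.sub_const _)
  have hcell : ∀ q : Fin (2 * m + 1) → ℤ, ∫⁻ x in meas1b_cell q, wt (x - hlf) ≤ C := by
    intro q
    refine le_trans ?_ (hw ((fun i => (q i : ℝ)) - hlf))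
    rw [← (measurePreserving_sub_right volume (hlf : V m)).setLIntegral_comp_preimage
      measurableSet_closedBall measurable_wt]
    refine lintegral_mono_set fun x hx => ?_
    rw [mem_preimage, mem_closedBall, dist_eq_norm, sub_sub_sub_cancel_right]
    exact (meas1b_dist hx (meas1b_corner q)).le
  rw [meas1b_inter Z, meas1b_inter Z', lintegral_iUnion (s := fun q => Z' ∩ meas1b_cell q)
    (fun q => hZ'.inter (meas1b_meas q))
    (fun q q' hq => (meas1b_disj hq).mono inter_subset_right inter_subset_right),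
    ← ENNReal.tsum_mul_left]
  refine (lintegral_iUnion_le _ _).trans (ENNReal.tsum_le_tsum fun q => ?_)
  obtain ⟨c, hc⟩ : ∃ c, c = ∫⁻ y in Z' ∩ meas1b_cell q, F' y := ⟨_, rfl⟩
  have hF : ∀ x ∈ Z ∩ meas1b_cell q, F x ≤ c := by
    intro x hx
    have : Z' ∩ meas1b_cell q = meas1b_cell q :=
      inter_eq_right.2 fun y hy => (h x hx.1 y (meas1b_dist hx.2 hy)).1
    rw [hc, this]
    exact meas1b_avg q fun y hy => (h x hx.1 y (meas1b_dist hx.2 hy)).2
  rw [← hc]
  calc ∫⁻ x in Z ∩ meas1b_cell q, F x * wt (x - hlf)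
      ≤ ∫⁻ x in Z ∩ meas1b_cell q, c * wt (x - hlf) :=
        setLIntegral_mono' (hZ.inter (meas1b_meas q)) fun x hx => mul_le_mul_left (hF x hx) _
    _ = c * ∫⁻ x in Z ∩ meas1b_cell q, wt (x - hlf) := lintegral_const_mul _ hm
    _ ≤ c * C := mul_le_mul_right ((lintegral_mono_set inter_subset_right).trans (hcell q)) _
    _ = C * c := mul_comm _ _

theorem meas1b_finite {n : ℕ} {A : Set (Fin n → ℝ)} (hA : IsCompact A) :
    {q : Fin n → ℤ | (A ∩ meas1b_cell q).Nonempty}.Finite := by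
  obtain ⟨R, hR⟩ := hA.isBounded.exists_norm_le
  refine (Set.Finite.pi' fun _ : Fin n => Set.finite_Icc ⌊-R⌋ ⌊R⌋).subset ?_
  rintro q ⟨x, hx, hq⟩ i
  have h1 := abs_le.1 ((norm_le_pi_norm x i).trans (hR x hx))
  rw [meas1b_eq hq]
  exact ⟨Int.floor_mono h1.1, Int.floor_mono h1.2⟩

/-- A small net of the image of the skeleton. -/
theorem exists_net (m : ℕ) : ∃ C : ℝ≥0∞, C ≠ ⊤ ∧ ∀ u : V m → V m, TP u → ∀ A : Set (V m),
    IsCompact A → ∃ F2 : Finset (V m), (∀ x ∈ A, mu x = 0 → ∃ p ∈ F2, ‖u x - p‖ ≤ 1) ∧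
      (F2.card : ℝ≥0∞) ≤ C * ∫⁻ x in cthickening 3 A, (1 + om u 3 x) ^ m := by
  classical
  obtain ⟨P, hP⟩ : ∃ P, P = Finset.powersetCard m (Finset.univ : Finset (Fin (2 * m + 1))) :=
    ⟨_, rfl⟩
  refine ⟨P.card * 2 ^ m, ENNReal.mul_ne_top (ENNReal.natCast_ne_top _) (by simp),
    fun u hu A hA => ?_⟩
  obtain ⟨L, hL, hom⟩ := hu.om_bound
  have hfin : ∀ r x, om u r x ≠ ⊤ := fun r x => ne_top_of_le_ne_top hL (hom r x)
  obtain ⟨Qs, hQs⟩ : ∃ Qs : Finset (Fin (2 * m + 1) → ℤ),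
      ∀ q, q ∈ Qs ↔ (A ∩ meas1b_cell q).Nonempty :=
    ⟨(meas1b_finite hA).toFinset, fun q => by simp⟩
  obtain ⟨M, hM⟩ : ∃ M : (Fin (2 * m + 1) → ℤ) → ℕ,
      ∀ q, M q = ⌈(om u 2 fun i => (q i : ℝ)).toReal⌉₊ + 1 := ⟨_, fun _ => rfl⟩
  refine ⟨Qs.biUnion fun q => P.biUnion fun T =>
    (Fintype.piFinset fun i => if i ∈ T then Finset.range (M q) else {0}).image
      fun j => u fun i => (q i : ℝ) + (j i : ℝ) / M q, fun x hx hmu => ?_, ?_⟩
  · obtain ⟨S, hS, hS'⟩ := (mu_le_iff le_rfl).1 hmu.le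
    obtain ⟨q, hq⟩ : ∃ q, x ∈ meas1b_cell q := ⟨_, meas1b_floor x⟩
    have hq' := meas1b_mem.1 hq
    have hM0 : (0 : ℝ) < M q := by
      rw [hM]
      positivity
    have hM1 : (1 : ℝ) ≤ M q := by
      rw [hM]
      push_cast
      linarith [Nat.cast_nonneg (α := ℝ) ⌈(om u 2 fun i => (q i : ℝ)).toReal⌉₊]
    have hMw : (om u 2 fun i => (q i : ℝ)).toReal ≤ M q := by
      rw [hM]
      push_cast
      linarith [Nat.le_ceil (om u 2 fun i => (q i : ℝ)).toReal]
    have hnn : ∀ i, 0 ≤ (x i - q i) * M q := fun i => mul_nonneg (by linarith [(hq' i).1]) hM0.le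
    have hd : ‖x - fun i => (q i : ℝ) + (⌊(x i - q i) * M q⌋₊ : ℝ) / M q‖ ≤ 1 / M q := by
      rw [pi_norm_le_iff_of_nonneg (by positivity)]
      intro i
      have e : x i - ((q i : ℝ) + (⌊(x i - q i) * M q⌋₊ : ℝ) / M q) =
          ((x i - q i) * M q - ⌊(x i - q i) * M q⌋₊) / M q := by
        field_simp
        ring
      have h1 := Nat.floor_le (hnn i)
      have h2 := Nat.lt_floor_add_one ((x i - q i) * M q)
      rw [Pi.sub_apply, Real.norm_eq_abs, e, abs_of_nonneg (div_nonneg (by linarith) hM0.le)]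
      exact div_le_div_of_nonneg_right (by linarith) hM0.le
    refine ⟨u fun i => (q i : ℝ) + (⌊(x i - q i) * M q⌋₊ : ℝ) / M q, ?_, ?_⟩
    · refine Finset.mem_biUnion.2 ⟨q, (hQs q).2 ⟨x, hx, hq⟩, Finset.mem_biUnion.2 ⟨Sᶜ, ?_,
        Finset.mem_image.2 ⟨fun i => ⌊(x i - q i) * M q⌋₊, ?_, rfl⟩⟩⟩
      · rw [hP, Finset.mem_powersetCard, Finset.card_compl, hS, Fintype.card_fin]
        exact ⟨Finset.subset_univ _, by omega⟩
      · rw [Fintype.mem_piFinset]
        intro i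
        split_ifs with hi
        · rw [Finset.mem_range, Nat.floor_lt (hnn i)]
          exact mul_lt_of_lt_one_left hM0 (by linarith [(hq' i).2])
        · obtain ⟨k, hk⟩ := dd_eq_zero_iff.1
            (le_antisymm (hS' i (by simpa using hi)) (dd_nonneg _))
          have : q i = k := by
            rw [meas1b_eq hq]
            simp [hk]
          simp [hk, this]
    · have hx1 := meas1b_dist hq (meas1b_corner q)
      have hM2 : 1 / (M q : ℝ) ≤ 1 := (div_le_one hM0).2 hM1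
      have hb1 : x ∈ ball (fun i => (q i : ℝ)) 2 := by
        rw [mem_ball, dist_eq_norm]
        linarith
      have hb2 : (fun i => (q i : ℝ) + (⌊(x i - q i) * M q⌋₊ : ℝ) / M q) ∈
          ball (fun i => (q i : ℝ)) 2 := by
        rw [mem_ball]
        have := dist_triangle_left (fun i => (q i : ℝ) + (⌊(x i - q i) * M q⌋₊ : ℝ) / M q)
          (fun i => (q i : ℝ)) x
        rw [dist_eq_norm x, dist_eq_norm x] at this
        linarith
      refine (norm_sub_le_om (hfin _ _) hb1 hb2).trans ?_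
      calc _ ≤ (M q : ℝ) * (1 / M q) := mul_le_mul hMw hd (norm_nonneg _) hM0.le
        _ = 1 := by field_simp
  · have h1 : ∀ q, ((P.biUnion fun T =>
        (Fintype.piFinset fun i => if i ∈ T then Finset.range (M q) else {0}).image
          fun j => u fun i => (q i : ℝ) + (j i : ℝ) / M q).card) ≤ P.card * M q ^ m := by
      intro q
      refine Finset.card_biUnion_le_card_mul _ _ _ fun T hT => Finset.card_image_le.trans ?_
      rw [hP, Finset.mem_powersetCard] at hT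
      rw [Fintype.card_piFinset]
      simp only [apply_ite Finset.card, Finset.card_range, Finset.card_singleton]
      rw [Finset.prod_ite_mem, Finset.univ_inter, Finset.prod_const, hT.2]
    have h2 : ∀ q, ((M q : ℝ≥0∞)) ^ m ≤ 2 ^ m * ∫⁻ x in meas1b_cell q, (1 + om u 3 x) ^ m := by
      intro q
      have h3 : (M q : ℝ≥0∞) ≤ 2 * (1 + om u 2 fun i => (q i : ℝ)) := by
        rw [← ENNReal.ofReal_toReal (hfin 2 fun i => (q i : ℝ)), hM]
        generalize hw : (om u 2 fun i => (q i : ℝ)).toReal = w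
        have hw0 : 0 ≤ w := hw ▸ ENNReal.toReal_nonneg
        rw [← ENNReal.ofReal_natCast, ← ENNReal.ofReal_one, ← ENNReal.ofReal_add zero_le_one hw0,
          ← ENNReal.ofReal_ofNat 2, ← ENNReal.ofReal_mul (by norm_num)]
        refine ENNReal.ofReal_le_ofReal ?_
        push_cast
        linarith [Nat.ceil_lt_add_one hw0]
      refine (pow_le_pow_left' h3 m).trans ?_
      rw [mul_pow]
      refine mul_le_mul_right (meas1b_avg q fun y hy => ?_) _
      refine pow_le_pow_left' (add_le_add_right (om_mono u fun z hz => ?_) _) m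
      rw [mem_ball] at hz ⊢
      have := dist_triangle_right z y (fun i => (q i : ℝ))
      rw [dist_eq_norm y] at this
      linarith [meas1b_dist hy (meas1b_corner q)]
    have h4 : ∑ q ∈ Qs, ∫⁻ x in meas1b_cell q, (1 + om u 3 x) ^ m ≤
        ∫⁻ x in cthickening 3 A, (1 + om u 3 x) ^ m := by
      rw [← lintegral_biUnion_finset (fun q _ q' _ h => meas1b_disj h) fun q _ => meas1b_meas q]
      refine lintegral_mono_set (iUnion₂_subset fun q hq y hy => ?_)
      obtain ⟨a, ha, ha'⟩ := (hQs q).1 hq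
      refine mem_cthickening_of_dist_le y a 3 A ha ?_
      rw [dist_eq_norm]
      linarith [meas1b_dist hy ha']
    calc _ ≤ ((∑ q ∈ Qs, P.card * M q ^ m : ℕ) : ℝ≥0∞) := by
          exact_mod_cast Finset.card_biUnion_le.trans (Finset.sum_le_sum fun q _ => h1 q)
      _ = P.card * ∑ q ∈ Qs, (M q : ℝ≥0∞) ^ m := by
          push_cast
          rw [Finset.mul_sum]
      _ ≤ P.card * ∑ q ∈ Qs, 2 ^ m * ∫⁻ x in meas1b_cell q, (1 + om u 3 x) ^ m :=
          mul_le_mul_right (Finset.sum_le_sum fun q _ => h2 q) _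
      _ ≤ _ := by
          rw [← Finset.mul_sum, ← mul_assoc]
          exact mul_le_mul_right h4 _

end BEv
end
end
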