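import Pool.Agent.Work.MP_f0515e_an.Per1

/-! The generic periodic maps and the logarithmic profile. -/

open Set Metric Filter Topology MeasureTheory Function
open scoped ENNReal NNReal

noncomputable section
namespace BEv

variable {m : ℕ}

/-- Hypotheses on the cap function. -/
structure Cap (cap : ℝ → ℝ) (h : ℝ) : Prop where
  h0 : 0 ≤ h
  tp : TP cap
  mono : Monotone cap
  lip : ∀ d d', |cap d - cap d'| ≤ |d - d'|
  ge : ∀ d, 0 ≤ d → d ≤ 1 / 2 → d ≤ cap d ∧ cap d ≤ 1 / 2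

theorem per1b_le_cap (cap : ℝ → ℝ) (h : ℝ) (K : ℕ) (c d : ℝ) : QQ cap h K c d ≤ cap d :=
  (cmin_le_cap _ _ _).trans (min_le_left _ _)

theorem per1b_le_pow (cap : ℝ → ℝ) (h : ℝ) (K : ℕ) (c d : ℝ) : QQ cap h K c d ≤ 2 ^ K * d :=
  (cmin_le_cap _ _ _).trans (min_le_right _ _)

theorem per1b_le_term (cap : ℝ → ℝ) (h : ℝ) {K k : ℕ} (hk : k < K) (c d : ℝ) :
    QQ cap h K c d ≤ 2 ^ k * d + max (h - 2 ^ k * c) 0 :=
  cmin_le (Finset.range K) _ (fun k => 2 ^ k * d + max (h - 2 ^ k * c) 0) (Finset.mem_range.2 hk)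

theorem per1b_le_QQ {cap : ℝ → ℝ} {h : ℝ} {K : ℕ} {c d a : ℝ} (h1 : a ≤ cap d)
    (h2 : a ≤ 2 ^ K * d) (h3 : ∀ k < K, a ≤ 2 ^ k * d + max (h - 2 ^ k * c) 0) :
    a ≤ QQ cap h K c d :=
  le_cmin _ _ _ (le_min h1 h2) fun k hk => h3 k (Finset.mem_range.1 hk)

theorem per1b_pow_le {k K : ℕ} (h : k ≤ K) : (2 : ℝ) ^ k ≤ 2 ^ K :=
  pow_le_pow_right₀ one_le_two h

theorem per1b_one_le (k : ℕ) : (1 : ℝ) ≤ 2 ^ k := one_le_pow₀ one_le_two

theorem le_QQ {cap : ℝ → ℝ} {h : ℝ} (hc : Cap cap h) (K : ℕ) (c : ℝ) {d : ℝ} (h0 : 0 ≤ d)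
    (h1 : d ≤ 1 / 2) : d ≤ QQ cap h K c d ∧ QQ cap h K c d ≤ cap d := by
  refine ⟨per1b_le_QQ (hc.ge d h0 h1).1 (le_mul_of_one_le_left h0 (per1b_one_le K))
    fun k _ => ?_, per1b_le_cap _ _ _ _ _⟩
  have h2 := le_mul_of_one_le_left h0 (per1b_one_le k)
  have h3 := le_max_right (h - 2 ^ k * c) 0
  linarith

theorem adm_QQ {cap : ℝ → ℝ} {h : ℝ} (hc : Cap cap h) (K : ℕ) (c : ℝ) :
    Adm (QQ cap h K c) := by
  refine ⟨le_antisymm ?_ (le_QQ hc K c le_rfl (by norm_num)).1,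
    le_antisymm ?_ (le_QQ hc K c (by norm_num) le_rfl).1, fun d h0 h1 =>
    ⟨h0.trans (le_QQ hc K c h0 h1).1, (le_QQ hc K c h0 h1).2.trans (hc.ge d h0 h1).2⟩⟩
  · simpa using per1b_le_pow cap h K c 0
  · exact (per1b_le_cap _ _ _ _ _).trans (hc.ge _ (by norm_num) le_rfl).2

theorem QQ_nested {cap : ℝ → ℝ} {h : ℝ} {K K1 : ℕ} (hK : K1 ≤ K) {c d : ℝ} (hd : 0 ≤ d)
    (hc0 : 0 ≤ c) (hc : h ≤ 2 ^ K1 * c) : QQ cap h K c d = QQ cap h K1 c d := by
  refine le_antisymm (per1b_le_QQ (per1b_le_cap _ _ _ _ _) ?_ fun k hk =>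
    per1b_le_term _ _ (hk.trans_le hK) _ _) (per1b_le_QQ (per1b_le_cap _ _ _ _ _)
    ((per1b_le_pow _ _ _ _ _).trans (mul_le_mul_of_nonneg_right (per1b_pow_le hK) hd))
    fun k _ => ?_)
  · rcases hK.eq_or_lt with e | e
    · rw [e]
      exact per1b_le_pow _ _ _ _ _
    · have h1 := per1b_le_term cap h e c d
      rwa [max_eq_right (by linarith), add_zero] at h1
  · rcases lt_or_ge k K1 with e | e
    · exact per1b_le_term _ _ e _ _
    · have h1 := per1b_le_pow cap h K1 c d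
      have h2 := mul_le_mul_of_nonneg_right (per1b_pow_le e) hd
      have h3 := le_max_right (h - 2 ^ k * c) 0
      linarith

theorem per1b_mono {cap : ℝ → ℝ} {h : ℝ} (hc : Cap cap h) (K : ℕ) {c c' d d' : ℝ}
    (hd : |c - c'| ≤ d - d') : QQ cap h K c' d' ≤ QQ cap h K c d := by
  have h0 : d' ≤ d := by linarith [abs_nonneg (c - c')]
  refine per1b_le_QQ ((per1b_le_cap _ _ _ _ _).trans (hc.mono h0))
    ((per1b_le_pow _ _ _ _ _).trans (mul_le_mul_of_nonneg_left h0 (by positivity)))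
    fun k hk => (per1b_le_term _ _ hk _ _).trans ?_
  have h1 : (0 : ℝ) ≤ 2 ^ k := by positivity
  have h2 : 2 ^ k * (c - c') ≤ 2 ^ k * (d - d') :=
    mul_le_mul_of_nonneg_left ((le_abs_self _).trans hd) h1
  have h3 : 2 ^ k * d' ≤ 2 ^ k * d := mul_le_mul_of_nonneg_left h0 h1
  have h4 := le_max_left (h - 2 ^ k * c) 0
  have h5 := le_max_right (h - 2 ^ k * c) 0
  rcases max_cases (h - 2 ^ k * c') 0 with e | e <;> rw [e.1] <;> nlinarith

theorem per1b_lip_d {cap : ℝ → ℝ} {h : ℝ} (hc : Cap cap h) (K : ℕ) (c d d' : ℝ) :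
    |QQ cap h K c d - QQ cap h K c d'| ≤ 2 ^ K * |d - d'| := by
  have h0 : ∀ k ≤ K, |2 ^ k * d - 2 ^ k * d'| ≤ (2 : ℝ) ^ K * |d - d'| := fun k hk => by
    rw [← mul_sub, abs_mul, abs_of_nonneg (by positivity : (0 : ℝ) ≤ 2 ^ k)]
    exact mul_le_mul_of_nonneg_right (per1b_pow_le hk) (abs_nonneg _)
  refine abs_cmin_sub_le _ _ _ ((abs_min_sub_min_le_max _ _ _ _).trans (max_le ?_ (h0 K le_rfl)))
    fun k hk => ?_
  · exact (hc.lip d d').trans (le_mul_of_one_le_left (abs_nonneg _) (per1b_one_le K))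
  · rw [add_sub_add_right_eq_sub]
    exact h0 k (Finset.mem_range.1 hk).le

theorem per1b_lip_c (cap : ℝ → ℝ) (h : ℝ) (K : ℕ) (c c' d : ℝ) :
    |QQ cap h K c d - QQ cap h K c' d| ≤ 2 ^ K * |c - c'| := by
  refine abs_cmin_sub_le _ _ _ (by rw [sub_self, abs_zero]; positivity) fun k hk => ?_
  rw [add_sub_add_left_eq_sub]
  refine (abs_max_sub_max_le_abs _ _ _).trans ?_
  rw [show h - 2 ^ k * c - (h - 2 ^ k * c') = 2 ^ k * (c' - c) by ring, abs_mul,
    abs_of_nonneg (by positivity : (0 : ℝ) ≤ 2 ^ k), abs_sub_comm]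
  exact mul_le_mul_of_nonneg_right (per1b_pow_le (Finset.mem_range.1 hk).le) (abs_nonneg _)

theorem per1b_lip_i {cap : ℝ → ℝ} {h : ℝ} (hc : Cap cap h) (K : ℕ) (x y : V m)
    (i : Fin (2 * m + 1)) : |per cap h K x i - per cap h K y i| ≤ 2 ^ (K + 1) * ‖x - y‖ := by
  have h1 := oext_lip (adm_QQ hc K (mu x)) (per1b_one_le K)
    (fun d d' _ _ _ _ => per1b_lip_d hc K (mu x) d d') (x i) (y i)
  have h2 := (abs_oext_sub_oext (QQ cap h K (mu x)) (QQ cap h K (mu y)) (y i)).trans_le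
    (per1b_lip_c cap h K _ _ _)
  have h3 : |x i - y i| ≤ ‖x - y‖ := norm_le_pi_norm (x - y) i
  have h4 := abs_mu_sub_le x y
  have h5 : (0 : ℝ) ≤ 2 ^ K := by positivity
  have h6 := mul_le_mul_of_nonneg_left h3 h5
  have h7 := mul_le_mul_of_nonneg_left h4 h5
  have h8 := abs_sub_le (oext (QQ cap h K (mu x)) (x i)) (oext (QQ cap h K (mu x)) (y i))
    (oext (QQ cap h K (mu y)) (y i))
  change |oext (QQ cap h K (mu x)) (x i) - oext (QQ cap h K (mu y)) (y i)| ≤ _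
  rw [pow_succ]
  linarith

theorem accr_per {cap : ℝ → ℝ} {h : ℝ} (hc : Cap cap h) (K : ℕ) :
    Accr (per cap h K : V m → V m) := by
  intro x y i hi
  have h1 := (abs_mu_sub_le x y).trans hi
  refine oext_mono (adm_QQ hc K (mu x)) (adm_QQ hc K (mu y))
    (by linarith [norm_nonneg (x - y)]) (fun d d' _ _ hd => per1b_mono hc K (h1.trans hd))
    fun d d' _ _ hd => per1b_mono hc K ?_
  rw [abs_sub_comm]
  exact h1.trans hd

theorem per_lip {cap : ℝ → ℝ} {h : ℝ} (hc : Cap cap h) (K : ℕ) (x y : V m) :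
    ‖per cap h K x - per cap h K y‖ ≤ 2 ^ (K + 1) * ‖x - y‖ := by
  exact (pi_norm_le_iff_of_nonneg (by positivity)).2 fun i => per1b_lip_i hc K x y i

theorem tp_per {cap : ℝ → ℝ} {h : ℝ} (hc : Cap cap h) (K : ℕ) :
    TP (per cap h K : V m → V m) := by
  refine TP.pi fun i => ?_
  have hi : TP (fun x : V m => x i) := TP.id'.apply i
  have hd : TP (fun x : V m => dd (x i)) := tp_dd.comp hi
  refine tp_oext (D := fun x : V m => QQ cap h K (mu x)) hi ?_ ⟨2 ^ (K + 1), ?_⟩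
  · exact TP.cmin (Finset.range K)
      (f := fun k (x : V m) => 2 ^ k * dd (x i) + max (h - 2 ^ k * mu x) 0)
      ((hc.tp.comp hd).min (hd.const_mul _)) fun k _ =>
      (hd.const_mul _).add (((TP.const h).sub (tp_mu.const_mul _)).max (TP.const 0))
  · refine LipschitzWith.of_dist_le_mul fun x y => ?_
    rw [Real.dist_eq, dist_eq_norm]
    exact_mod_cast per1b_lip_i hc K x y i

theorem per_nested {cap : ℝ → ℝ} {h : ℝ} {K K1 : ℕ} (hK : K1 ≤ K) {x : V m}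
    (hx : h ≤ 2 ^ K1 * mu x) : per cap h K x = per cap h K1 x := by
  funext i
  exact oext_congr (QQ_nested hK (dd_nonneg _) (mu_nonneg _) hx)

/-- Local Lipschitz bound, uniform in `K`. -/
theorem ll_per {cap : ℝ → ℝ} {h : ℝ} (hc : Cap cap h) (K : ℕ) {x : V m} (hx : 0 < mu x) :
    LL (per cap h K : V m → V m) x (max 1 (4 * h) / mu x) := by
  have hex : ∃ n : ℕ, h < 2 ^ n * mu x := by
    obtain ⟨n, hn⟩ := pow_unbounded_of_one_lt (h / mu x) (one_lt_two (α := ℝ))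
    exact ⟨n, (div_lt_iff₀ hx).1 hn⟩
  classical
  have hK1 := Nat.find_spec hex
  have hb : (2 : ℝ) ^ (Nat.find hex + 1) ≤ max 1 (4 * h) / mu x := by
    rw [le_div_iff₀ hx]
    rcases hn : Nat.find hex with _ | j
    · refine le_trans ?_ (le_max_left _ _)
      have := mu_le_half x
      norm_num
      linarith
    · refine le_trans ?_ (le_max_right _ _)
      have := not_lt.1 (Nat.find_min hex (show j < Nat.find hex by omega))
      rw [pow_succ, pow_succ]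
      linarith
  generalize Nat.find hex = K1 at hK1 hb
  have hev : ∀ᶠ y in 𝓝 x, h < 2 ^ K1 * mu y :=
    (tp_mu.continuous.const_mul _).continuousAt.eventually (lt_mem_nhds hK1)
  rcases le_total K K1 with e | e
  · exact (LL.of_forall (per_lip hc K) x).mono
      ((per1b_pow_le (Nat.succ_le_succ e)).trans hb)
  · exact ((LL.of_forall (per_lip hc K1) x).mono hb).congr
      (hev.mono fun y hy => per_nested e hy.le)

theorem Lam_nonneg (ρ : ℝ) (N : ℕ) (t : ℝ) : 0 ≤ Lam ρ N t := by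
  exact div_nonneg (Finset.sum_nonneg fun _ _ => le_max_left _ _) (Nat.cast_nonneg N)

theorem Lam_le_one (ρ : ℝ) (N : ℕ) (t : ℝ) : Lam ρ N t ≤ 1 := by
  refine div_le_one_of_le₀ ?_ (Nat.cast_nonneg N)
  refine (Finset.sum_le_card_nsmul _ _ 1 fun j _ => max_le zero_le_one (min_le_right _ _)).trans ?_
  simp

theorem Lam_eq_zero {ρ t : ℝ} {N : ℕ} (hρ : 0 < ρ) (ht : t ≤ ρ / 2 ^ N) : Lam ρ N t = 0 := by
  rw [Lam, Finset.sum_eq_zero, zero_div]
  intro j hj
  refine max_eq_left ((min_le_left _ _).trans ?_)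
  rw [sub_nonpos, div_le_one hρ]
  rw [le_div_iff₀ (by positivity)] at ht
  rcases le_total t 0 with h0 | h0
  · exact (mul_nonpos_of_nonneg_of_nonpos (by positivity) h0).trans hρ.le
  · have h1 := mul_le_mul_of_nonneg_right
      (per1b_pow_le (show j + 1 ≤ N from Finset.mem_range.1 hj)) h0
    linarith

theorem per1b_term_one {ρ t : ℝ} {j : ℕ} (hρ : 0 < ρ) (ht : ρ ≤ 2 ^ j * t) :
    max 0 (min (2 ^ (j + 1) * t / ρ - 1) 1) = 1 := by
  rw [min_eq_right, max_eq_right zero_le_one]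
  rw [le_sub_iff_add_le, le_div_iff₀ hρ, pow_succ]
  linarith

theorem Lam_eq_one {ρ t : ℝ} {N : ℕ} (hρ : 0 < ρ) (hN : 1 ≤ N) (ht : ρ ≤ t) :
    Lam ρ N t = 1 := by
  have h0 : (N : ℝ) ≠ 0 := Nat.cast_ne_zero.2 (by omega)
  rw [Lam, Finset.sum_congr rfl fun j _ => per1b_term_one hρ
    (ht.trans (le_mul_of_one_le_left (hρ.le.trans ht) (per1b_one_le j)))]
  simp [h0]

theorem tp_Lam (ρ : ℝ) (N : ℕ) : TP (Lam ρ N) := by
  exact (TP.sum (Finset.range N) (f := fun j (t : ℝ) => max 0 (min (2 ^ (j + 1) * t / ρ - 1) 1))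
    fun j _ => (TP.const 0).max
      ((((TP.id'.const_mul _).div_const ρ).sub (TP.const 1)).min (TP.const 1))).div_const N

theorem lam_nonneg {ρ : ℝ} (hρ : 0 < ρ) (N : ℕ) (t : ℝ) : 0 ≤ lam ρ N t := by
  unfold lam
  split_ifs with h
  · have : 0 < t := lt_of_lt_of_le (by positivity) h.1
    positivity
  · exact le_rfl

theorem measurable_lam (ρ : ℝ) (N : ℕ) : Measurable (lam ρ N) := by
  exact Measurable.ite (measurableSet_Icc (a := ρ / 2 ^ N) (b := ρ)) (by fun_prop)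
    measurable_const

theorem per1b_geom {A : ℝ} (hA : 0 ≤ A) (N : ℕ) :
    ∑ j ∈ Finset.range N, (if (2 : ℝ) ^ j < A then (2 : ℝ) ^ j else 0) ≤ 2 * A := by
  have h1 : ∀ n : ℕ, ∑ j ∈ Finset.range n, (if (2 : ℝ) ^ j < A then (2 : ℝ) ^ j else 0) ≤
      2 ^ n := fun n => by
    induction n with
    | zero => simp
    | succ n ih =>
      rw [Finset.sum_range_succ, pow_succ]
      have : (0 : ℝ) ≤ 2 ^ n := by positivity
      split_ifs <;> linarith
  induction N with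
  | zero => simpa using hA
  | succ n ih =>
    rw [Finset.sum_range_succ]
    split_ifs with h
    · linarith [h1 n]
    · linarith

theorem per1b_term_lip {ρ : ℝ} (hρ : 0 < ρ) (j : ℕ) (y z : ℝ) :
    |max 0 (min (2 ^ (j + 1) * y / ρ - 1) 1) - max 0 (min (2 ^ (j + 1) * z / ρ - 1) 1)| ≤
      2 ^ j * (2 / ρ * |y - z|) := by
  rw [max_comm 0, max_comm 0]
  refine (abs_max_sub_max_le_abs _ _ _).trans ((abs_min_sub_min_le_max _ _ _ _).trans
    (max_le (le_of_eq ?_) (by rw [sub_self, abs_zero]; positivity)))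
  rw [show 2 ^ (j + 1) * y / ρ - 1 - (2 ^ (j + 1) * z / ρ - 1) = 2 ^ j * (2 / ρ) * (y - z) by ring,
    abs_mul, abs_of_nonneg (by positivity), mul_assoc]

theorem ll_Lam {ρ : ℝ} {N : ℕ} (hρ : 0 < ρ) (hN : 1 ≤ N) (t : ℝ) :
    LL (Lam ρ N) t (lam ρ N t) := by
  by_cases h1 : t < ρ / 2 ^ N
  · rw [lam, if_neg fun h => h1.not_ge h.1]
    exact (LL.const (0 : ℝ) t).congr
      ((eventually_lt_nhds h1).mono fun y hy => Lam_eq_zero hρ hy.le)
  by_cases h2 : ρ < t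
  · rw [lam, if_neg fun h => h2.not_ge h.2]
    exact (LL.const (1 : ℝ) t).congr
      ((eventually_gt_nhds h2).mono fun y hy => Lam_eq_one hρ hN hy.le)
  rw [lam, if_pos ⟨not_lt.1 h1, not_lt.1 h2⟩]
  have ht : 0 < t := lt_of_lt_of_le (by positivity) (not_lt.1 h1)
  have hN0 : (0 : ℝ) < N := Nat.cast_pos.2 (by omega)
  refine LL.of_nhds (Ioi_mem_nhds (half_lt_self ht)) fun y hy z hz => ?_
  have hy' : t / 2 < y := hy
  have hz' : t / 2 < z := hz
  rw [Real.norm_eq_abs, Real.norm_eq_abs, Lam, Lam, ← sub_div, ← Finset.sum_sub_distrib, abs_div,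
    abs_of_pos hN0, div_le_iff₀ hN0]
  refine (Finset.abs_sum_le_sum_abs _ _).trans ((Finset.sum_le_sum (g := fun j =>
    (if (2 : ℝ) ^ j < 2 * ρ / t then (2 : ℝ) ^ j else 0) * (2 / ρ * |y - z|))
    fun j _ => ?_).trans ?_)
  · split_ifs with h
    · exact per1b_term_lip hρ j y z
    · rw [not_lt, div_le_iff₀ ht] at h
      have h3 : (0 : ℝ) < 2 ^ j := by positivity
      rw [per1b_term_one hρ (by nlinarith), per1b_term_one hρ (by nlinarith), sub_self, abs_zero,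
        zero_mul]
  · rw [← Finset.sum_mul]
    refine (mul_le_mul_of_nonneg_right (per1b_geom (by positivity) N) (by positivity)).trans
      (le_of_eq ?_)
    field_simp
    ring

end BEv
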