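import Pool.Agent.Work.MP_f0515e_an.LL

/-! Almost everywhere statements for piecewise affine maps. -/

open Set Metric Filter Topology MeasureTheory Function
open scoped ENNReal NNReal

noncomputable section
namespace BEv

variable {E F G : Type} [NormedAddCommGroup E] [NormedSpace ℝ E] [NormedAddCommGroup F]
  [NormedSpace ℝ F] [NormedAddCommGroup G] [NormedSpace ℝ G]

/-- As the radius shrinks, fattened energies converge down to the energy. -/
theorem exists_fat_le {m : ℕ} {u : V m → V m} (hu : TP u) {A B : Set (V m)} (hA : IsCompact A)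
    (hB : MeasurableSet B) {ε : ℝ≥0∞} (hε : ε ≠ 0) :
    ∃ r > 0, ∫⁻ x in cthickening r A \ B, (1 + om u r x) ^ m ≤ En u (A \ B) + ε := by
  obtain ⟨L, hL, hom⟩ := hu.om_bound
  by_cases hI : En u (A \ B) = ⊤
  · exact ⟨1, one_pos, by rw [hI, top_add]; exact le_top⟩
  have hm : ∀ r : ℝ, MeasurableSet (cthickening r A \ B) := fun r =>
    isClosed_cthickening.measurableSet.diff hB
  have h0 : Tendsto (fun n : ℕ => 1 / ((n : ℝ) + 1)) atTop (𝓝 0) :=
    tendsto_one_div_add_atTop_nhds_zero_nat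
  have h1 : ∀ n : ℕ, 1 / ((n : ℝ) + 1) ≤ 1 := fun n => by
    rw [div_le_one (by positivity)]
    linarith [n.cast_nonneg (α := ℝ)]
  have key := tendsto_lintegral_of_dominated_convergence (μ := volume)
    (F := fun (n : ℕ) => indicator (cthickening (1 / ((n : ℝ) + 1)) A \ B)
      fun x => (1 + om u (1 / ((n : ℝ) + 1)) x) ^ m)
    (f := indicator (A \ B) fun x => (1 + lip u x) ^ m)
    (indicator (cthickening 1 A) fun _ => (1 + L) ^ m)
    (fun n => (((measurable_om u _).const_add 1).pow_const m).indicator (hm _))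
    (fun n => Eventually.of_forall fun x => by
      refine indicator_le' (fun y hy => ?_) (fun y _ => zero_le) x
      rw [indicator_of_mem (cthickening_mono (h1 n) A hy.1)]
      gcongr
      exact hom _ _)
    (by
      rw [lintegral_indicator_const isClosed_cthickening.measurableSet]
      exact ENNReal.mul_ne_top (ENNReal.pow_ne_top (ENNReal.add_ne_top.2 ⟨ENNReal.one_ne_top, hL⟩))
        (hA.cthickening (r := 1)).measure_lt_top.ne)
    (Eventually.of_forall fun x => by
      by_cases hx : x ∈ A \ B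
      · have e : ∀ n : ℕ, x ∈ cthickening (1 / ((n : ℝ) + 1)) A \ B := fun n =>
          ⟨self_subset_cthickening A hx.1, hx.2⟩
        simp only [indicator_of_mem (e _), indicator_of_mem hx]
        have a : Antitone fun n : ℕ => om u (1 / ((n : ℝ) + 1)) x := fun a b hab =>
          om_mono u (ball_subset_ball (Nat.one_div_le_one_div hab))
        exact ((ENNReal.continuous_pow m).tendsto _).comp
          (tendsto_const_nhds.add (tendsto_atTop_iInf a))
      · rw [indicator_of_notMem hx]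
        refine tendsto_const_nhds.congr' ?_
        by_cases hb : x ∈ B
        · exact Eventually.of_forall fun n => (indicator_of_notMem (fun h => h.2 hb) _).symm
        have ha : x ∉ closure A := by
          rw [hA.isClosed.closure_eq]
          exact fun h => hx ⟨h, hb⟩
        have h2 := ENNReal.tendsto_ofReal h0
        rw [ENNReal.ofReal_zero] at h2
        filter_upwards [h2.eventually_lt_const (infEDist_pos_iff_notMem_closure.2 ha)] with n hn
        exact (indicator_of_notMem (fun h => absurd (mem_cthickening_iff.1 h.1) (not_le.2 hn))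
          _).symm)
  simp only [lintegral_indicator (hm _), lintegral_indicator (hA.measurableSet.diff hB)] at key
  obtain ⟨n, hn⟩ := (key.eventually_lt_const (ENNReal.lt_add_right hI hε)).exists
  exact ⟨_, by positivity, hn.le⟩

theorem ll2_null {n : ℕ} (A : ((Fin n → ℝ) →L[ℝ] F) × F) :
    ∀ᵐ x, A.1 x + A.2 ≠ 0 ∨ ∀ y, A.1 y + A.2 = 0 := by
  by_cases h : ∀ y, A.1 y + A.2 = 0
  · exact Eventually.of_forall fun _ => Or.inr h
  let s : AffineSubspace ℝ (Fin n → ℝ) := ⟨{x | A.1 x + A.2 = 0}, fun c p q w hp hq hw => by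
    have hp : A.1 p = -A.2 := eq_neg_of_add_eq_zero_left hp
    have hq : A.1 q = -A.2 := eq_neg_of_add_eq_zero_left hq
    have hw : A.1 w + A.2 = 0 := hw
    show A.1 (c • (p - q) + w) + A.2 = 0
    rw [map_add, map_smul, map_sub, hp, hq, sub_self, smul_zero, zero_add, hw]⟩
  have hs : s ≠ ⊤ := fun e => h fun y => (e ▸ AffineSubspace.mem_top ℝ _ y : y ∈ s)
  filter_upwards [measure_eq_zero_iff_ae_notMem.1 (Measure.addHaar_affineSubspace volume s hs)]
    with x hx using Or.inl hx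

/-- The zero set of a `TP` map is, up to a null set, open. -/
theorem TP.ae_ne_or {n : ℕ} {f : (Fin n → ℝ) → F} (hf : TP f) :
    ∀ᵐ x, f x ≠ 0 ∨ ∀ᶠ y in 𝓝 x, f y = 0 := by
  choose S hS hp using hf.pa
  have h1 : ∀ᵐ x, ∀ R : ℕ, ∀ A ∈ S R, A.1 x + A.2 ≠ 0 ∨ ∀ y, A.1 y + A.2 = 0 :=
    ae_all_iff.2 fun R => (ae_ball_iff (hS R).countable).2 fun A _ => ll2_null A
  filter_upwards [h1] with x hx
  refine or_iff_not_imp_left.2 fun h0 => ?_
  have h0 := not_not.1 h0
  obtain ⟨R, hR⟩ := exists_nat_gt ‖x‖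
  have h2 : ∀ᶠ y in 𝓝 x, ∀ A ∈ S R, f y = A.1 y + A.2 → f y = 0 := by
    refine (eventually_all_finite (hS R)).2 fun A hA => ?_
    rcases hx R A hA with h | h
    · have c : ContinuousAt (fun y => f y - (A.1 y + A.2)) x :=
        (hf.continuous.sub (A.1.continuous.add continuous_const)).continuousAt
      filter_upwards [c.eventually_ne (y := 0) (by rwa [h0, zero_sub, neg_ne_zero])] with y hy e
      exact absurd (sub_eq_zero.2 e) hy
    · exact Eventually.of_forall fun y e => e.trans (h y)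
  filter_upwards [h2, closedBall_mem_nhds_of_mem (mem_ball_zero_iff.2 hR)] with y hy hb
  obtain ⟨A, hA, e⟩ := hp R y hb
  exact hy A hA e

/-- Tangential lemma. -/
theorem TP.ae_tangential {n : ℕ} {Θ : F → G} {r : (Fin n → ℝ) → F} (hΘ : TP Θ) (hr : TP r) :
    ∀ᵐ x, ∃ L : ℝ, 0 ≤ L ∧ ∃ e : ℝ, 0 < e ∧ ∀ (g : (Fin n → ℝ) → F) (c c' : ℝ),
      LL (fun y => Θ (r y)) x c → LL (fun y => g y - r y) x c' → ‖g x - r x‖ < e →
      LL (fun y => Θ (g y)) x (c + L * c') := by
  choose S hS hp using hΘ.pa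
  have h1 : ∀ᵐ x, ∀ R : ℕ, ∀ A ∈ S R, ∀ B ∈ S R, (A.1 - B.1) (r x) + (A.2 - B.2) ≠ 0 ∨
      ∀ᶠ y in 𝓝 x, (A.1 - B.1) (r y) + (A.2 - B.2) = 0 :=
    ae_all_iff.2 fun R => (ae_ball_iff (hS R).countable).2 fun A _ =>
      (ae_ball_iff (hS R).countable).2 fun B _ =>
        (((TP.clm (A.1 - B.1)).comp hr).add (TP.const _)).ae_ne_or
  filter_upwards [h1] with x hx
  obtain ⟨R, hR⟩ := exists_nat_gt ‖r x‖
  let T := {A ∈ S R | Θ (r x) = A.1 (r x) + A.2}
  have hT : T.Finite := (hS R).subset (sep_subset _ _)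
  have h2 : ∀ᶠ w in 𝓝 (r x), ∀ A ∈ S R, Θ w = A.1 w + A.2 → A ∈ T := by
    refine (eventually_all_finite (hS R)).2 fun A hA => ?_
    by_cases h : Θ (r x) = A.1 (r x) + A.2
    · exact Eventually.of_forall fun _ _ => ⟨hA, h⟩
    · have c : ContinuousAt (fun y => Θ y - (A.1 y + A.2)) (r x) :=
        (hΘ.continuous.sub (A.1.continuous.add continuous_const)).continuousAt
      filter_upwards [c.eventually_ne (y := 0) (sub_ne_zero.2 h)] with y hy e
      exact absurd (sub_eq_zero.2 e) hy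
  have h3 : ∀ᶠ w in 𝓝 (r x), ∃ A ∈ T, Θ w = A.1 w + A.2 := by
    filter_upwards [h2, closedBall_mem_nhds_of_mem (mem_ball_zero_iff.2 hR)] with w hw hb
    obtain ⟨A, hA, e⟩ := hp R w hb
    exact ⟨A, hw A hA e, e⟩
  have h4 : ∀ᶠ y in 𝓝 x, ∀ A ∈ T, Θ (r y) = A.1 (r y) + A.2 := by
    have h5 : ∀ᶠ y in 𝓝 x, ∀ A ∈ T, ∀ B ∈ T, (A.1 - B.1) (r y) + (A.2 - B.2) = 0 := by
      refine (eventually_all_finite hT).2 fun A hA => (eventually_all_finite hT).2 fun B hB => ?_
      refine (hx R A hA.1 B hB.1).resolve_left (not_not.2 ?_)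
      rw [sub_apply, sub_add_sub_comm, ← hA.2, ← hB.2, sub_self]
    filter_upwards [h5, hr.continuous.continuousAt.eventually h3] with y hy ⟨B, hB, e⟩ A hA
    have := hy A hA B hB
    rw [sub_apply, sub_add_sub_comm, sub_eq_zero] at this
    rw [e, this]
  obtain ⟨δ, hδ, h3⟩ := Metric.eventually_nhds_iff_ball.1 h3
  obtain ⟨L, hL⟩ := (hT.image fun A => ‖A.1‖).bddAbove
  refine ⟨L ⊔ 0, le_max_right _ _, δ, hδ, fun g c c' a1 a2 a3 => ?_⟩
  have cg : ContinuousAt g x :=
    (a2.continuousAt.add hr.continuous.continuousAt).congr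
      (Eventually.of_forall fun y => sub_add_cancel _ _)
  have h6 : ∀ᶠ y in 𝓝 x, g y ∈ ball (r x) δ :=
    cg.eventually (isOpen_ball.mem_nhds (mem_ball_iff_norm.2 a3))
  have h7 := (h4.and h6).prod_nhds (h4.and h6)
  filter_upwards [a1, a2, h7] with p b1 b2 ⟨⟨b3, b4⟩, b5, b6⟩
  refine norm_sub_le_of_pieces hT hΘ.continuous.continuousOn
    (fun w hw => h3 w ((convex_ball _ _).segment_subset b6 b4 hw)) fun A hA => ?_
  have e : A.1 (g p.1 - g p.2) =
      (Θ (r p.1) - Θ (r p.2)) + A.1 ((g p.1 - r p.1) - (g p.2 - r p.2)) := by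
    rw [b3 A hA, b5 A hA]
    simp only [map_sub]
    abel
  have b7 : ‖A.1‖ ≤ L ⊔ 0 := (hL ⟨A, hA, rfl⟩).trans (le_max_left _ _)
  rw [e, add_mul, mul_assoc]
  refine (norm_add_le _ _).trans (add_le_add b1 ((A.1.le_opNorm _).trans ?_))
  exact mul_le_mul b7 b2 (norm_nonneg _) (le_max_right _ _)

end BEv
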