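import Pool.Agent.Work.MP_f0515e_an.Defs

/-! Calculus of piecewise affine Lipschitz maps. -/

open Set Metric Filter Topology MeasureTheory Function
open scoped ENNReal NNReal

noncomputable section
namespace BEv

variable {E F G : Type} [NormedAddCommGroup E] [NormedSpace ℝ E] [NormedAddCommGroup F]
  [NormedSpace ℝ F] [NormedAddCommGroup G] [NormedSpace ℝ G]

theorem TP.continuous {f : E → F} (h : TP f) : Continuous f := by
  obtain ⟨L, hL⟩ := h.lip
  exact hL.continuous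

theorem TP.const (c : F) : TP (fun _ : E => c) :=
  ⟨⟨0, LipschitzWith.const c⟩, fun _ => ⟨{(0, c)}, finite_singleton _, fun x _ => ⟨_, rfl, by simp⟩⟩⟩

theorem TP.id' : TP (fun x : E => x) :=
  ⟨⟨1, LipschitzWith.id⟩, fun _ => ⟨{(ContinuousLinearMap.id ℝ E, 0)}, finite_singleton _,
    fun x _ => ⟨_, rfl, by simp⟩⟩⟩

theorem TP.clm (M : E →L[ℝ] F) : TP (fun x => M x) :=
  ⟨⟨_, M.lipschitz⟩, fun _ => ⟨{(M, 0)}, finite_singleton _, fun x _ => ⟨_, rfl, by simp⟩⟩⟩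

theorem TP.comp {g : F → G} {f : E → F} (hg : TP g) (hf : TP f) : TP (fun x => g (f x)) := by
  obtain ⟨L, hL⟩ := hf.lip
  obtain ⟨K, hK⟩ := hg.lip
  refine ⟨⟨_, hK.comp hL⟩, fun R => ?_⟩
  obtain ⟨S, hS, h1⟩ := hf.pa R
  obtain ⟨T, hT, h2⟩ := hg.pa (‖f 0‖ + L * R)
  refine ⟨_, hS.image2 (fun A B => (B.1.comp A.1, B.1 A.2 + B.2)) hT, fun x hx => ?_⟩
  obtain ⟨A, hA, e1⟩ := h1 x hx
  obtain ⟨B, hB, e2⟩ := h2 (f x) (by
    have h3 := hL.dist_le_mul x 0
    have h4 := mul_le_mul_of_nonneg_left (mem_closedBall.1 hx) L.coe_nonneg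
    have h5 := dist_triangle (f x) (f 0) 0
    rw [dist_zero_right (f 0)] at h5
    rw [mem_closedBall]
    linarith)
  refine ⟨_, mem_image2_of_mem hA hB, ?_⟩
  change g (f x) = B.1 (A.1 x) + (B.1 A.2 + B.2)
  rw [e2, e1, map_add, add_assoc]

theorem TP.prod {f : E → F} {g : E → G} (hf : TP f) (hg : TP g) :
    TP (fun x => (f x, g x)) := by
  obtain ⟨L, hL⟩ := hf.lip
  obtain ⟨K, hK⟩ := hg.lip
  refine ⟨⟨_, hL.prodMk hK⟩, fun R => ?_⟩
  obtain ⟨S, hS, h1⟩ := hf.pa R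
  obtain ⟨T, hT, h2⟩ := hg.pa R
  refine ⟨_, hS.image2 (fun A B => (A.1.prod B.1, (A.2, B.2))) hT, fun x hx => ?_⟩
  obtain ⟨A, hA, e1⟩ := h1 x hx
  obtain ⟨B, hB, e2⟩ := h2 x hx
  exact ⟨_, mem_image2_of_mem hA hB, Prod.ext e1 e2⟩

theorem TP.fst {f : E → F × G} (hf : TP f) : TP (fun x => (f x).1) :=
  (TP.clm (ContinuousLinearMap.fst ℝ F G)).comp hf

theorem TP.snd {f : E → F × G} (hf : TP f) : TP (fun x => (f x).2) :=
  (TP.clm (ContinuousLinearMap.snd ℝ F G)).comp hf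

theorem TP.add {f g : E → F} (hf : TP f) (hg : TP g) : TP (fun x => f x + g x) :=
  (TP.clm (ContinuousLinearMap.fst ℝ F F + ContinuousLinearMap.snd ℝ F F)).comp (hf.prod hg)

theorem TP.sub {f g : E → F} (hf : TP f) (hg : TP g) : TP (fun x => f x - g x) :=
  (TP.clm (ContinuousLinearMap.fst ℝ F F - ContinuousLinearMap.snd ℝ F F)).comp (hf.prod hg)

theorem TP.neg {f : E → F} (hf : TP f) : TP (fun x => -f x) :=
  (TP.clm (-ContinuousLinearMap.id ℝ F)).comp hf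

theorem TP.const_smul {f : E → F} (c : ℝ) (hf : TP f) : TP (fun x => c • f x) :=
  (TP.clm (c • ContinuousLinearMap.id ℝ F)).comp hf

theorem TP.const_mul {f : E → ℝ} (c : ℝ) (hf : TP f) : TP (fun x => c * f x) :=
  hf.const_smul c

theorem TP.div_const {f : E → ℝ} (hf : TP f) (c : ℝ) : TP (fun x => f x / c) := by
  simpa only [div_eq_inv_mul] using hf.const_mul c⁻¹

theorem TP.smul_const {f : E → ℝ} (hf : TP f) (w : F) : TP (fun x => f x • w) :=
  (TP.clm ((ContinuousLinearMap.id ℝ ℝ).smulRight w)).comp hf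

theorem TP.max {f g : E → ℝ} (hf : TP f) (hg : TP g) : TP (fun x => max (f x) (g x)) := by
  obtain ⟨L, hL⟩ := hf.lip
  obtain ⟨K, hK⟩ := hg.lip
  refine ⟨⟨_, hL.max hK⟩, fun R => ?_⟩
  obtain ⟨S, hS, h1⟩ := hf.pa R
  obtain ⟨T, hT, h2⟩ := hg.pa R
  refine ⟨_, hS.union hT, fun x hx => ?_⟩
  obtain ⟨A, hA, e1⟩ := h1 x hx
  obtain ⟨B, hB, e2⟩ := h2 x hx
  rcases max_choice (f x) (g x) with h | h
  · exact ⟨A, Or.inl hA, h.trans e1⟩
  · exact ⟨B, Or.inr hB, h.trans e2⟩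

theorem TP.min {f g : E → ℝ} (hf : TP f) (hg : TP g) : TP (fun x => min (f x) (g x)) := by
  simpa only [max_neg_neg, neg_neg] using (hf.neg.max hg.neg).neg

theorem TP.abs {f : E → ℝ} (hf : TP f) : TP (fun x => |f x|) :=
  hf.max hf.neg

theorem TP.clamp {f g : E → ℝ} (hf : TP f) (hg : TP g) :
    TP (fun x => BEv.clamp (f x) (g x)) :=
  hg.neg.max (hf.min hg)

theorem TP.sum {κ : Type} (S : Finset κ) {f : κ → E → F} (hf : ∀ k ∈ S, TP (f k)) :
    TP (fun x => ∑ k ∈ S, f k x) := by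
  classical
  induction S using Finset.induction_on with
  | empty => simpa using TP.const (0 : F)
  | insert k S hk ih =>
    simp only [Finset.sum_insert hk]
    exact (hf k (Finset.mem_insert_self _ _)).add (ih fun j hj => hf j (Finset.mem_insert_of_mem hj))

theorem TP.apply {ι : Type} [Fintype ι] {f : E → ι → ℝ} (hf : TP f) (i : ι) :
    TP (fun x => f x i) :=
  (TP.clm (ContinuousLinearMap.proj (R := ℝ) (φ := fun _ : ι => ℝ) i)).comp hf

theorem TP.pi {ι : Type} [Fintype ι] {f : E → ι → ℝ} (hf : ∀ i, TP (fun x => f x i)) :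
    TP f := by
  classical
  have := TP.sum Finset.univ fun i _ =>
    (TP.clm (ContinuousLinearMap.single ℝ (fun _ : ι => ℝ) i)).comp (hf i)
  simpa only [ContinuousLinearMap.single_apply, Finset.univ_sum_single] using this

theorem pa_select {f : E → F} (hl : ∃ L : ℝ≥0, LipschitzWith L f)
    (h : ∀ R : ℝ, ∃ S : Set (E → F), S.Finite ∧ (∀ g ∈ S, TP g) ∧
      ∀ x ∈ closedBall (0 : E) R, ∃ g ∈ S, f x = g x) : TP f := by
  refine ⟨hl, fun R => ?_⟩
  obtain ⟨S, hS, h1, h2⟩ := h R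
  choose! T hT h3 using fun g hg => (h1 g hg).pa R
  refine ⟨_, hS.biUnion hT, fun x hx => ?_⟩
  obtain ⟨g, hg, e⟩ := h2 x hx
  obtain ⟨A, hA, e'⟩ := h3 g hg x hx
  exact ⟨A, mem_biUnion hg hA, e.trans e'⟩

theorem TP.norm_pi {ι : Type} [Fintype ι] {f : E → ι → ℝ} (hf : TP f) :
    TP (fun x => ‖f x‖) := by
  obtain ⟨L, hL⟩ := hf.lip
  refine pa_select ⟨_, lipschitzWith_one_norm.comp hL⟩ fun R =>
    ⟨insert (fun _ => 0) (range fun i x => |f x i|), (finite_range _).insert _, ?_, fun x _ => ?_⟩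
  · rintro g (rfl | ⟨i, rfl⟩)
    exacts [TP.const 0, (hf.apply i).abs]
  · rcases isEmpty_or_nonempty ι with h | h
    · exact ⟨_, Or.inl rfl, by rw [Subsingleton.elim (f x) 0, norm_zero]⟩
    · obtain ⟨i, -, hi⟩ := Finset.univ.exists_max_image (fun i => ‖f x i‖) Finset.univ_nonempty
      exact ⟨_, Or.inr ⟨i, rfl⟩, le_antisymm ((pi_norm_le_iff_of_nonempty _).2 fun j =>
        hi j (Finset.mem_univ j)) (norm_le_pi_norm (f x) i)⟩

/-- A Lipschitz map which is, on each ball, a selection of finitely many `TP` maps. -/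
theorem TP.of_select {f : E → F} (hl : ∃ L : ℝ≥0, LipschitzWith L f)
    (h : ∀ R : ℝ, ∃ S : Set (E → F), S.Finite ∧ (∀ g ∈ S, TP g) ∧
      ∀ x ∈ closedBall (0 : E) R, ∃ g ∈ S, f x = g x) : TP f :=
  pa_select hl h

/-- Real form of the Lipschitz bound. -/
theorem TP.exists_bound {f : E → F} (h : TP f) :
    ∃ L : ℝ, 1 ≤ L ∧ ∀ x y, ‖f x - f y‖ ≤ L * ‖x - y‖ := by
  obtain ⟨L, hL⟩ := h.lip
  refine ⟨L + 1, by simp, fun x y => ?_⟩
  have := hL.dist_le_mul x y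
  rw [dist_eq_norm, dist_eq_norm] at this
  linarith [norm_nonneg (x - y)]

section cmin
variable {κ : Type} (S : Finset κ) (M : ℝ) (f : κ → ℝ)

theorem cmin_le_cap : cmin S M f ≤ M :=
  (Finset.fold_min_le _).2 (Or.inl le_rfl)

theorem cmin_le {k : κ} (hk : k ∈ S) : cmin S M f ≤ f k :=
  (Finset.fold_min_le _).2 (Or.inr ⟨k, hk, le_rfl⟩)

theorem le_cmin {c : ℝ} (h1 : c ≤ M) (h2 : ∀ k ∈ S, c ≤ f k) : c ≤ cmin S M f :=
  (Finset.le_fold_min _).2 ⟨h1, h2⟩

theorem cmin_eq : cmin S M f = M ∨ ∃ k ∈ S, cmin S M f = f k := by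
  rcases (Finset.fold_min_le (s := S) (b := M) (f := f) _).1 le_rfl with h | ⟨k, hk, h⟩
  · exact Or.inl (le_antisymm (cmin_le_cap S M f) h)
  · exact Or.inr ⟨k, hk, le_antisymm (cmin_le S M f hk) h⟩

theorem abs_cmin_sub_le {M' c : ℝ} {f' : κ → ℝ} (h1 : |M - M'| ≤ c)
    (h2 : ∀ k ∈ S, |f k - f' k| ≤ c) : |cmin S M f - cmin S M' f'| ≤ c := by
  rw [abs_sub_le_iff] at h1 ⊢
  constructor
  · rw [sub_le_comm]
    refine le_cmin S M' f' ?_ fun k hk => ?_
    · linarith [cmin_le_cap S M f, h1.1]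
    · linarith [cmin_le S M f hk, (abs_sub_le_iff.1 (h2 k hk)).1]
  · rw [sub_le_comm]
    refine le_cmin S M f ?_ fun k hk => ?_
    · linarith [cmin_le_cap S M' f', h1.2]
    · linarith [cmin_le S M' f' hk, (abs_sub_le_iff.1 (h2 k hk)).2]

end cmin

theorem TP.cmin {κ : Type} (S : Finset κ) {M : E → ℝ} {f : κ → E → ℝ} (hM : TP M)
    (hf : ∀ k ∈ S, TP (f k)) : TP (fun x => BEv.cmin S (M x) (fun k => f k x)) := by
  classical
  induction S using Finset.induction_on with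
  | empty => exact hM
  | insert k S hk ih =>
    simp only [BEv.cmin, Finset.fold_insert hk]
    exact (hf k (Finset.mem_insert_self _ _)).min (ih fun j hj => hf j (Finset.mem_insert_of_mem hj))

theorem dcap_nonneg (S : Finset E) {M : ℝ} (hM : 0 ≤ M) (x : E) : 0 ≤ dcap S M x :=
  le_cmin S M _ hM fun _ _ => norm_nonneg _

theorem dcap_le_cap (S : Finset E) (M : ℝ) (x : E) : dcap S M x ≤ M :=
  cmin_le_cap S M _

theorem dcap_le {S : Finset E} (M : ℝ) (x : E) {p : E} (hp : p ∈ S) :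
    dcap S M x ≤ ‖x - p‖ :=
  cmin_le S M (fun p => ‖x - p‖) hp

theorem exists_of_dcap_lt {S : Finset E} {M : ℝ} {x : E} (h : dcap S M x < M) :
    ∃ p ∈ S, dcap S M x = ‖x - p‖ :=
  (cmin_eq S M _).resolve_left h.ne

theorem abs_dcap_sub_le (S : Finset E) (M : ℝ) (x y : E) :
    |dcap S M x - dcap S M y| ≤ ‖x - y‖ :=
  abs_cmin_sub_le S M _ (by simp) fun p _ => by
    simpa using abs_norm_sub_norm_le (x - p) (y - p)

theorem TP.dcap {ι : Type} [Fintype ι] (S : Finset (ι → ℝ)) (M : ℝ) : TP (BEv.dcap S M) :=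
  TP.cmin S (TP.const M) fun p _ => (TP.id'.sub (TP.const p)).norm_pi

theorem abs_clamp_le {c b : ℝ} (hb : 0 ≤ b) : |clamp c b| ≤ b :=
  abs_le.2 ⟨le_max_left _ _, max_le (by linarith) (min_le_right _ _)⟩

theorem abs_clamp_le_abs {c b : ℝ} (hb : 0 ≤ b) : |clamp c b| ≤ |c| :=
  abs_le.2 ⟨le_max_of_le_right (le_min (neg_abs_le c) (by linarith [abs_nonneg c])),
    max_le (by linarith [abs_nonneg c]) ((min_le_left _ _).trans (le_abs_self c))⟩

theorem clamp_eq_self {c b : ℝ} (h : |c| ≤ b) : clamp c b = c := by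
  rw [clamp, min_eq_left (abs_le.1 h).2, max_eq_right (abs_le.1 h).1]

theorem clamp_zero (c : ℝ) : clamp c 0 = 0 :=
  abs_nonpos_iff.1 (abs_clamp_le le_rfl)

theorem abs_clamp_sub_le (c b c' b' : ℝ) :
    |clamp c b - clamp c' b'| ≤ max |c - c'| |b - b'| := by
  refine (abs_max_sub_max_le_max _ _ _ _).trans (max_le ?_ (abs_min_sub_min_le_max _ _ _ _))
  rw [neg_sub_neg, abs_sub_comm]
  exact le_max_right _ _

end BEv
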