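import Mathlib

/-! Working definitions for the sign-changing Sobolev homeomorphism at the endpoint exponent. -/

open Set Metric Filter Topology MeasureTheory Function
open scoped ENNReal NNReal

noncomputable section
namespace BEv

section General
variable {E F : Type} [NormedAddCommGroup E] [NormedSpace ℝ E] [NormedAddCommGroup F]
  [NormedSpace ℝ F]

/-- On `s`, `f` is a selection of finitely many affine maps. -/
def PAOn (f : E → F) (s : Set E) : Prop :=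
  ∃ S : Set ((E →L[ℝ] F) × F), S.Finite ∧ ∀ x ∈ s, ∃ A ∈ S, f x = A.1 x + A.2

/-- Globally Lipschitz and piecewise affine on every ball. -/
structure TP (f : E → F) : Prop where
  lip : ∃ L : ℝ≥0, LipschitzWith L f
  pa : ∀ R : ℝ, PAOn f (closedBall 0 R)

/-- A bijection which is `TP` in both directions. -/
def LH (f : E → E) : Prop := Bijective f ∧ TP f ∧ TP (invFun f)

/-- Local Lipschitz bound at a point. -/
def LL (f : E → F) (x : E) (c : ℝ) : Prop :=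
  ∀ᶠ p : E × E in 𝓝 (x, x), ‖f p.1 - f p.2‖ ≤ c * ‖p.1 - p.2‖

/-- Lipschitz constant on a ball. -/
def om (f : E → F) (r : ℝ) (x : E) : ℝ≥0∞ :=
  ⨆ y ∈ ball x r, ⨆ z ∈ ball x r, edist (f y) (f z) / edist y z

/-- Local Lipschitz constant. -/
def lip (f : E → F) (x : E) : ℝ≥0∞ := ⨅ n : ℕ, om f (1 / ((n : ℝ) + 1)) x

/-- Minimum of a finite family, capped by `M`. -/
def cmin {κ : Type} (S : Finset κ) (M : ℝ) (f : κ → ℝ) : ℝ := S.fold min M f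

/-- Distance to a finite set, capped by `M`. -/
def dcap (S : Finset E) (M : ℝ) (x : E) : ℝ := cmin S M (fun p => ‖x - p‖)

def clamp (c b : ℝ) : ℝ := max (-b) (min c b)

end General

section Accretive
variable {ι : Type} [Fintype ι]

def Accr (Φ : (ι → ℝ) → ι → ℝ) : Prop := ∀ x y i, ‖x - y‖ ≤ x i - y i → Φ y i ≤ Φ x i

def loc (η : (ι → ℝ) → ℝ) (Φ : (ι → ℝ) → ι → ℝ) (x : ι → ℝ) : ι → ℝ :=
  fun i => max (x i - η x) (min (Φ x i) (x i + η x))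

def mix (c : ℝ) (Φ : (ι → ℝ) → ι → ℝ) (x : ι → ℝ) : ι → ℝ := c • x + (1 - c) • Φ x

end Accretive

abbrev V (m : ℕ) : Type := Fin (2 * m + 1) → ℝ

section Periodic
variable {m : ℕ}

/-- Distance to the integers. -/
def dd (t : ℝ) : ℝ := |t - round t|

def Adm (D : ℝ → ℝ) : Prop :=
  D 0 = 0 ∧ D (1 / 2) = 1 / 2 ∧ ∀ d, 0 ≤ d → d ≤ 1 / 2 → 0 ≤ D d ∧ D d ≤ 1 / 2

/-- Odd periodic extension of a self-map of `[0, 1/2]`. -/
def oext (D : ℝ → ℝ) (t : ℝ) : ℝ :=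
  round t + (if (round t : ℝ) ≤ t then D (dd t) else -D (dd t))

/-- Keep the coordinates in `T`. -/
def pr (T : Finset (Fin (2 * m + 1))) (x : V m) : V m := fun i => if i ∈ T then x i else 0

/-- Median of the distances of the coordinates to the integers. -/
def mu (x : V m) : ℝ :=
  cmin (Finset.powersetCard (m + 1) Finset.univ) (1 / 2) (fun S => ‖pr S (fun i => dd (x i))‖)

def hlf : V m := fun _ => 1 / 2

def be (x : V m) : ℝ := mu (x - hlf)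

def QQ (cap : ℝ → ℝ) (h : ℝ) (K : ℕ) (c d : ℝ) : ℝ :=
  cmin (Finset.range K) (min (cap d) (2 ^ K * d)) (fun k => 2 ^ k * d + max (h - 2 ^ k * c) 0)

def per (cap : ℝ → ℝ) (h : ℝ) (K : ℕ) (x : V m) : V m :=
  fun i => oext (QQ cap h K (mu x)) (x i)

def r0 (K : ℕ) (x : V m) : V m := hlf + per (fun _ => 1 / 2) (1 / 2) K (x - hlf)

def gta (τ : ℝ) (K : ℕ) : V m → V m := mix τ (r0 K)

def gtl (τ : ℝ) (K : ℕ) (ζ : V m → ℝ) : V m → V m := mix τ (loc ζ (r0 K))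

def MM (τ : ℝ) (K : ℕ) : V m → V m := per (fun d => max d (2 * τ + d / 2)) (2 * τ) K

def EE (τ : ℝ) (K : ℕ) : V m → V m := mix (1 / 2) (MM τ K)

def EEl (τ : ℝ) (K : ℕ) (η : V m → ℝ) : V m → V m := mix (1 / 2) (loc η (MM τ K))

def gg (τ : ℝ) (K : ℕ) (x : V m) : V m := invFun (EE τ K) (gta τ K x)

def ggl (τ : ℝ) (K : ℕ) (η : V m → ℝ) (x : V m) : V m := invFun (EEl τ K η) (gtl τ K η x)

def jj (τ : ℝ) (K : ℕ) (e : ℝ) : ℝ := max (min e (4 * (e - τ) / 3)) (2 * e / (1 + 2 ^ K))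

def ji (τ : ℝ) (e : ℝ) : ℝ := max (min e (4 * (e - τ) / 3)) 0

def rr (τ : ℝ) (K : ℕ) (x : V m) : V m := fun i => oext (ji τ) (gta τ K x i)

/-- Core size. -/
def dl (K : ℕ) : ℝ := 1 / 2 ^ (K + 1)

/-- Piecewise affine logarithmic profile. -/
def Lam (ρ : ℝ) (N : ℕ) (t : ℝ) : ℝ :=
  (∑ j ∈ Finset.range N, max 0 (min (2 ^ (j + 1) * t / ρ - 1) 1)) / N

def lam (ρ : ℝ) (N : ℕ) (t : ℝ) : ℝ := if ρ / 2 ^ N ≤ t ∧ t ≤ ρ then 8 / (N * t) else 0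

/-- The weight `mu ^ (-m)`. -/
def wt (y : V m) : ℝ≥0∞ := (ENNReal.ofReal (mu y))⁻¹ ^ m

/-- Non-integer coordinates. -/
def TT (a : V m) : Finset (Fin (2 * m + 1)) := Finset.univ.filter (fun i => dd (a i) ≠ 0)

def ta (a y : V m) : ℝ := ‖pr (TT a) (y - a)‖

def na (a y : V m) : ℝ := ‖pr (TT a)ᶜ (y - a)‖

/-- Weight carried by the fibre of the contraction over a small disc around `a`. -/
def PFw (τ : ℝ) (K : ℕ) (ρ ρ' : ℝ) (N : ℕ) (a x : V m) : ℝ≥0∞ :=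
  indicator {x : V m | dl K < be x ∧ ‖gta τ K x - a‖ ≤ 1 ∧ ta a (gta τ K x) ≤ ρ}
    (fun x => ENNReal.ofReal (1 + lam ρ' N (ta a (gta τ K x))) ^ m * wt (x - hlf)) x

def En (u : V m → V m) (Z : Set (V m)) : ℝ≥0∞ := ∫⁻ x in Z, (1 + lip u x) ^ m

end Periodic

section Shear
variable {m : ℕ}

def ell (v z : V m) : ℝ := z 0 / v 0

def pj (v z : V m) : V m := z - ell v z • v

def rf (v z : V m) : V m := z - (2 * ell v z) • v

def sh (σ : ℝ) (p : ℝ × ℝ) : ℝ × ℝ := (p.1, p.2 - clamp p.1 (max (4 * σ - |p.2|) 0 / 2))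

def RR (σ c t : ℝ) : ℝ := (invFun (sh σ) (c, -(sh σ (c, t)).2)).2

def SS (v : V m) (σ : ℝ) (φ : V m → ℝ) (z : V m) : V m :=
  pj v z + (sh σ (φ (pj v z), ell v z)).2 • v

/-- General position of the projection of the skeleton. -/
def GP (v : V m) (Γ : V m → V m) : Prop :=
  ∀ R : ℝ, ∃ D : Finset (V m), (∀ a ∈ D, (TT a).card = m) ∧
    ∀ x x', mu x = 0 → mu x' = 0 → ‖x‖ ≤ R → ‖x'‖ ≤ R → x ≠ x' → pj v (Γ x) = pj v (Γ x') → x ∈ D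

def gen (p : ℕ × ℕ × ℕ) (x : V m) : V m :=
  ((1 / 2 : ℝ) ^ p.1) • gg ((1 / 2 : ℝ) ^ (p.2.1 + 4)) p.2.2 (((2 : ℝ) ^ p.1) • x)

def word : List (ℕ × ℕ × ℕ) → V m → V m
  | [] => id
  | p :: l => word l ∘ gen p

end Shear

structure St (m : ℕ) where
  G : V m → V m
  H : V m → V m
  σ : ℝ
  a0 : V m → ℝ
  I : Set (V m)
  Γ : V m → V m

namespace St
variable {m : ℕ} (v : V m) (s : St m)

def a (s : St m) (y : V m) : ℝ := min s.σ (max (s.a0 y) 0)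

def U : Set (V m) := {z | 0 ≤ s.a0 (pj v (s.G z)) ∧ |ell v (s.G z)| ≤ 4 * s.σ}

def k (z : V m) : V m := invFun s.H (rf v (s.G z))

def Psi (x : V m) (c : ℝ) : V m := invFun s.H (pj v (s.G x) + RR s.σ c (ell v (s.G x)) • v)

def f (x : V m) : ℝ := clamp (ell v (s.G x)) (s.a (pj v (s.G x)))

def u (x : V m) : V m := Psi v s x (f v s x)

structure Ok : Prop where
  hv : v 0 ≠ 0
  hG : LH s.G
  hH : LH s.H
  hσ : 0 < s.σ
  ha0 : TP s.a0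
  hI : IsOpen s.I
  bdd : Bornology.IsBounded (U v s)
  onI : ∀ x ∈ s.I, s.H x = s.G x ∧ 0 ≤ s.a0 (pj v (s.G x)) ∧ |ell v (s.G x)| ≤ s.a (pj v (s.G x))

def Gam : Prop := ∀ x ∈ U v s, pj v (s.G x) = pj v (s.Γ x)

def Fib (η : ℝ) : Prop :=
  ∀ z ∈ U v s, ∀ t : ℝ, |t| ≤ 4 * s.σ → ‖invFun s.H (pj v (s.G z) + t • v) - z‖ ≤ η

def Fold : Set (V m) := {z | z ∉ s.I ∧ u v s z ∈ s.I}

/-- Rescaling of the domain. -/
def sc (c : ℝ) : St m :=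
  ⟨fun x => s.G (c • x), fun x => s.H (c • x), s.σ, s.a0, {x | c • x ∈ s.I}, fun x => s.Γ (c • x)⟩

end St

/-- First group of parameters of the unit step. -/
structure P1 (m : ℕ) where
  F1 : Finset (V m)
  F2 : Finset (V m)
  FU : Finset (V m)
  D : Finset (V m)
  τ : ℝ
  ρ : ℝ
  N : ℕ
  s0 : ℝ

namespace P1
variable {m : ℕ} (P : P1 m)

def th (x : V m) : ℝ := min (12 - dcap P.F1 12 x) (dcap P.F2 12 x)

def etaB (x : V m) : ℝ := 5 - dcap P.FU 5 x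

def etaA (a y : V m) : ℝ :=
  max (2 * P.τ * Lam P.ρ P.N (ta a y)) (min (2 * P.τ) (max (na a y - 2 * P.τ) 0))

def eta (y : V m) : ℝ := cmin P.D (max (P.th y - 3) 0) (fun a => P.etaA a y)

def zeta (x : V m) : ℝ := max (8 - P.th x) 0

def box (a : V m) : Set (V m) := {y | ta a y ≤ P.ρ ∧ na a y ≤ 4 * P.τ}

def hi (K : ℕ) (y : V m) : V m :=
  gtl P.τ K P.zeta (invFun (gta P.τ K) (EEl P.τ K P.eta y))

def gB (K : ℕ) : V m → V m := ggl P.τ K P.etaB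

def dD (x : V m) : ℝ := dcap P.D 1 x

def Good : Set (V m) :=
  {y | P.s0 < mu y ∨ (∃ a ∈ P.D, ta a y < P.ρ / 2 ^ P.N ∧ na a y < 2 * P.τ) ∨ P.th y < 3}

/-- Conditions not involving the state. -/
structure Ok0 : Prop where
  τ0 : 0 < P.τ
  τ1 : P.τ ≤ 1 / 16
  ρ0 : 0 < P.ρ
  ρ1 : P.ρ ≤ P.τ
  N1 : 1 ≤ P.N
  s00 : 0 < P.s0
  card : ∀ a ∈ P.D, (TT a).card = m
  far : ∀ a ∈ P.D, ∀ i ∈ TT a, 6 * P.τ ≤ dd (a i)
  sep : ∀ a ∈ P.D, ∀ b ∈ P.D, a ≠ b → 9 * P.τ ≤ ‖a - b‖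

structure Ok (v : V m) (s : St m) : Prop extends Ok0 P where
  hF1 : ∀ p ∈ P.F1, closedBall p 20 ⊆ s.I
  hFU : ∀ p ∈ P.FU, p ∈ St.U v s
  net : ∀ x ∈ St.U v s, ∃ p ∈ P.FU, ‖x - p‖ ≤ 1
  hDU : ∀ a ∈ P.D, a ∈ St.U v s
  dbl : ∀ x ∈ St.U v s, ∀ x' ∈ St.U v s, mu x = 0 → mu x' = 0 → x ≠ x' →
    pj v (s.G x) = pj v (s.G x') → x ∈ P.D

/-- The skeleton inside `Z` is protected. -/
def Prot (v : V m) (s : St m) (Z : Set (V m)) : Prop :=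
  ∀ x ∈ Z, mu x = 0 → x ∉ s.I → P.th (St.u v s x) ≤ 1

end P1

/-- Second group of parameters of the unit step. -/
structure P2 (m : ℕ) where
  ρ : ℝ
  N : ℕ
  φ : V m → ℝ
  σ : ℝ

namespace P2
variable {m : ℕ} (v : V m) (s : St m) (P : P1 m) (q : P2 m)

def ft (ρ : ℝ) (N : ℕ) (x : V m) : ℝ := clamp (St.f v s x) (s.σ * Lam (ρ / 2) N (P.dD x))

def Gt (φ : V m → ℝ) (z : V m) : V m := SS v s.σ φ (s.G z)

def Ht (φ : V m → ℝ) (z : V m) : V m := SS v s.σ φ (s.H z)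

def a0 (y : V m) : ℝ :=
  min (P.th (invFun (Gt v s q.φ) y) - 2) (P.dD (invFun (Gt v s q.φ) y) - q.ρ)

/-- Intermediate state; its folded map is the map Theta of the write-up. -/
def mid : St m := ⟨Gt v s q.φ, Ht v s q.φ, q.σ, a0 v s P q, ∅, s.Γ⟩

def Th : V m → V m := St.u v (mid v s P q)

def I' (K : ℕ) : Set (V m) :=
  {x | 8 < P.th x ∧ (∀ a ∈ P.D, gg P.τ K x ∉ P.box a) ∧
    |ell v (Gt v s q.φ (P.gB K x))| < (mid v s P q).a (pj v (Gt v s q.φ (P.gB K x)))}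

def new (K : ℕ) : St m :=
  ⟨Gt v s q.φ ∘ P.gB K, Ht v s q.φ ∘ invFun (P.hi K), q.σ, a0 v s P q, I' v s P q K,
    s.Γ ∘ gg P.τ K⟩

def Fo' (K : ℕ) : Set (V m) :=
  {x | x ∈ St.U v (new v s P q K) ∧
    (mid v s P q).a (pj v (Gt v s q.φ (P.gB K x))) ≤ |ell v (Gt v s q.φ (P.gB K x))| ∧
    8 ≤ P.th (St.u v (new v s P q K) x)}

structure Ok : Prop where
  ρ0 : 0 < q.ρ
  ρ1 : q.ρ ≤ P.τ
  N1 : 1 ≤ q.N
  good : ∀ a ∈ P.D, ∀ x, ‖x - a‖ ≤ q.ρ → ∀ c, |c| ≤ s.σ → St.Psi v s x c ∈ P.Good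
  φtp : TP q.φ
  φle : ∀ y, |q.φ y| ≤ s.a y
  φeq : ∀ x ∈ St.U v s, mu x = 0 → q.φ (pj v (s.G x)) = ft v s P q.ρ q.N x
  σ0 : 0 < q.σ
  σG : ∀ z, |ell v (Gt v s q.φ z)| ≤ 4 * q.σ →
    ‖invFun (Gt v s q.φ) (pj v (Gt v s q.φ z)) - z‖ ≤ q.ρ / 2
  σH : ∀ y (t : ℝ), |ell v y| ≤ 4 * q.σ → |t| ≤ 4 * q.σ →
    ‖invFun (Ht v s q.φ) (pj v y + t • v) - invFun (Ht v s q.φ) y‖ ≤ 1

def Main (x : V m) : ℝ≥0∞ :=
  indicator {x | P.th x ≤ 8} (fun x => (9 * (1 + om (St.u v s) 2 x)) ^ m * wt (x - hlf)) x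

def Bad (cs : ℝ) (K : ℕ) (x : V m) : ℝ≥0∞ :=
  ENNReal.ofReal (100 / P.τ) ^ m * ∑ a ∈ P.D, PFw P.τ K P.ρ P.ρ P.N a x +
    ENNReal.ofReal cs ^ m * ∑ a ∈ P.D, PFw P.τ K q.ρ (q.ρ / 2) q.N a x

end P2

end BEv
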