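import Pool.Agent.Work.MP_f0515e_an.PA

/-! Segments, and bijections which are piecewise affine in both directions. -/

open Set Metric Filter Topology MeasureTheory Function
open scoped ENNReal NNReal

noncomputable section
namespace BEv

variable {E F G : Type} [NormedAddCommGroup E] [NormedSpace ℝ E] [NormedAddCommGroup F]
  [NormedSpace ℝ F] [NormedAddCommGroup G] [NormedSpace ℝ G]

/-- Increment along a segment on which `f` is a continuous selection of finitely many pieces. -/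
theorem norm_sub_le_of_pieces {f : E → F} {y z : E} {c : ℝ} {S : Set ((E →L[ℝ] F) × F)}
    (hS : S.Finite) (hc : ContinuousOn f (segment ℝ y z))
    (hp : ∀ x ∈ segment ℝ y z, ∃ A ∈ S, f x = A.1 x + A.2)
    (hA : ∀ A ∈ S, ‖A.1 (z - y)‖ ≤ c) : ‖f z - f y‖ ≤ c := by
  have hγ : ∀ t ∈ Icc (0 : ℝ) 1, y + t • (z - y) ∈ segment ℝ y z := fun t ht => by
    rw [segment_eq_image']
    exact ⟨t, ht, rfl⟩
  have hφ : ContinuousOn (fun t : ℝ => f (y + t • (z - y))) (Icc 0 1) :=
    hc.comp (by fun_prop) hγ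
  have key := image_le_of_liminf_slope_right_le_deriv_boundary
    (f := fun t : ℝ => ‖f (y + t • (z - y)) - f y‖) (a := 0) (b := 1)
    (hφ.sub continuousOn_const).norm (B := fun t => c * t) (B' := fun _ => c) (by simp)
    (by fun_prop) (fun t _ => by simpa using ((hasDerivAt_id t).const_mul c).hasDerivWithinAt)
    (fun t ht r hr => ?_) (right_mem_Icc.2 zero_le_one)
  · simpa using key
  have hm : Icc (0 : ℝ) 1 ∈ 𝓝[>] t :=
    mem_of_superset (Ioo_mem_nhdsGT ht.2) fun s hs => ⟨ht.1.trans hs.1.le, hs.2.le⟩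
  obtain ⟨A, hAS, hf⟩ : ∃ A ∈ S, ∃ᶠ s in 𝓝[>] t,
      f (y + s • (z - y)) = A.1 (y + s • (z - y)) + A.2 := by
    by_contra hn
    simp only [not_exists, not_and, not_frequently] at hn
    obtain ⟨s, h1, h2⟩ := (((eventually_all_finite hS).2 hn).and hm).exists
    obtain ⟨A, hAS, e⟩ := hp _ (hγ s h2)
    exact h1 A hAS e
  have ht' : f (y + t • (z - y)) = A.1 (y + t • (z - y)) + A.2 :=
    tendsto_nhds_unique_of_frequently_eq
      ((hφ t ⟨ht.1, ht.2.le⟩).mono_left (nhdsWithin_le_iff.2 hm))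
      ((Continuous.tendsto (by fun_prop) t).mono_left nhdsWithin_le_nhds) hf
  refine (hf.and_eventually self_mem_nhdsWithin).mono fun s hs => ?_
  have hs' : 0 < s - t := sub_pos.2 hs.2
  rw [slope_def_field, div_lt_iff₀ hs']
  refine ((norm_sub_norm_le _ _).trans ?_).trans_lt (mul_lt_mul_of_pos_right hr hs')
  rw [sub_sub_sub_cancel_right, hs.1, ht', add_sub_add_right_eq_sub, ← map_sub,
    add_sub_add_left_eq_sub, ← sub_smul, map_smul, norm_smul, Real.norm_of_nonneg hs'.le, mul_comm]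
  exact mul_le_mul_of_nonneg_right (hA A hAS) hs'.le

theorem LH.tp {f : E → E} (h : LH f) : TP f := h.2.1

theorem LH.tpi {f : E → E} (h : LH f) : TP (invFun f) := h.2.2

theorem LH.inj {f : E → E} (h : LH f) : Injective f := h.1.1

theorem LH.li {f : E → E} (h : LH f) (x : E) : invFun f (f x) = x := leftInverse_invFun h.1.1 x

theorem LH.ri {f : E → E} (h : LH f) (y : E) : f (invFun f y) = y := rightInverse_invFun h.1.2 y

theorem LH.inv_eq {f : E → E} (h : LH f) {x y : E} (hx : f x = y) : invFun f y = x :=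
  hx ▸ h.li x

theorem LH.inv_comp {f g : E → E} (hf : LH f) (hg : LH g) (y : E) :
    invFun (f ∘ g) y = invFun g (invFun f y) := by
  have h := leftInverse_invFun (hf.1.comp hg.1).1 (invFun g (invFun f y))
  rwa [comp_apply, hg.ri, hf.ri] at h

theorem LH.comp {f g : E → E} (hf : LH f) (hg : LH g) : LH (f ∘ g) :=
  ⟨hf.1.comp hg.1, hf.tp.comp hg.tp, funext (hf.inv_comp hg) ▸ hg.tpi.comp hf.tpi⟩

theorem pa2_bij {f : E → E} (hf : LH f) : Bijective (invFun f) :=
  bijective_iff_has_inverse.2 ⟨f, hf.ri, hf.li⟩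

theorem LH.inv_inv {f : E → E} (hf : LH f) : invFun (invFun f) = f := by
  funext x
  have h := leftInverse_invFun (pa2_bij hf).1 (f x)
  rwa [hf.li] at h

theorem LH.inv {f : E → E} (hf : LH f) : LH (invFun f) :=
  ⟨pa2_bij hf, hf.tpi, hf.inv_inv.symm ▸ hf.tp⟩

theorem pa2_of_inv {f g : E → E} (hf : TP f) (hg : TP g) (h1 : LeftInverse g f)
    (h2 : RightInverse g f) : LH f := by
  have e : invFun f = g := funext fun y => by
    have h := leftInverse_invFun h1.injective (g y)
    rwa [h2] at h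
  exact ⟨bijective_iff_has_inverse.2 ⟨g, h1, h2⟩, hf, e ▸ hg⟩

theorem LH.id' : LH (id : E → E) := pa2_of_inv TP.id' TP.id' (fun _ => rfl) fun _ => rfl

theorem LH.smul {c : ℝ} (hc : c ≠ 0) : LH (fun x : E => c • x) :=
  pa2_of_inv (TP.id'.const_smul c) (TP.id'.const_smul c⁻¹) (inv_smul_smul₀ hc) (smul_inv_smul₀ hc)

/-- The inverse of an injective continuous selection is a selection of the inverse pieces. -/
theorem pa2_inv [FiniteDimensional ℝ E] {f : E → E} (hc : Continuous f) (hi : Injective f) {R : ℝ}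
    (h : PAOn f (closedBall 0 R)) : PAOn (invFun f) (f '' ball 0 R) := by
  obtain ⟨S, hS, h⟩ := h
  have := FiniteDimensional.complete ℝ E
  have cl : ∀ A : (E →L[ℝ] E) × E, IsClosed {x | f x = A.1 x + A.2} := fun A =>
    isClosed_eq hc (by fun_prop)
  have hd : Dense (⋂ A ∈ {A ∈ S | ¬ Injective A.1}, {x | f x = A.1 x + A.2}ᶜ) := by
    refine dense_biInter_of_isOpen (fun A _ => (cl A).isOpen_compl)
      (hS.subset (sep_subset _ _)).countable fun A hA x => ?_
    by_cases hx : f x = A.1 x + A.2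
    · obtain ⟨v, hv, h0⟩ : ∃ v, A.1 v = 0 ∧ v ≠ 0 := by
        simpa [injective_iff_map_eq_zero] using hA.2
      refine mem_closure_of_tendsto (f := fun t : ℝ => x + t • v) (b := 𝓝[≠] 0)
        ((Continuous.tendsto' (by fun_prop) 0 x (by simp)).mono_left nhdsWithin_le_nhds)
        (eventually_nhdsWithin_of_forall fun t ht e => ?_)
      have e1 : f (x + t • v) = f x := by
        rw [hx, show f (x + t • v) = _ from e]
        simp [hv]
      exact smul_ne_zero ht h0 (add_eq_left.1 (hi e1))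
    · exact subset_closure hx
  have key : ball 0 R ⊆ ⋃ A ∈ {A ∈ S | Injective A.1}, {x | f x = A.1 x + A.2} := by
    refine (hd.open_subset_closure_inter isOpen_ball).trans (closure_minimal (fun x hx => ?_)
      ((hS.subset (sep_subset _ _)).isClosed_biUnion fun A _ => cl A))
    obtain ⟨A, hA, e⟩ := h x (ball_subset_closedBall hx.1)
    refine mem_biUnion (x := A) ⟨hA, ?_⟩ e
    by_contra hn
    exact mem_iInter₂.1 hx.2 A ⟨hA, hn⟩ e
  have ex : ∀ A : E →L[ℝ] E, Injective A → ∃ B : E →L[ℝ] E, ∀ x, B (A x) = x := fun A hA => by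
    obtain ⟨g, hg⟩ := (A : E →ₗ[ℝ] E).exists_leftInverse_of_injective (LinearMap.ker_eq_bot.2 hA)
    exact ⟨LinearMap.toContinuousLinearMap g, fun x => congr($hg x)⟩
  choose! B hB using ex
  refine ⟨(fun A => (B A.1, -B A.1 A.2)) '' S, hS.image _, ?_⟩
  rintro _ ⟨x, hx, rfl⟩
  obtain ⟨A, hA, e⟩ := mem_iUnion₂.1 (key hx)
  refine ⟨_, ⟨A, hA.1, rfl⟩, ?_⟩
  rw [leftInverse_invFun hi, show f x = _ from e]
  simp [hB _ hA.2]

theorem LH.of_expanding [FiniteDimensional ℝ E] {f : E → E} (hf : TP f) (hs : Surjective f)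
    {c : ℝ} (hc : 0 < c) (h : ∀ x y, c * ‖x - y‖ ≤ ‖f x - f y‖) : LH f := by
  have hi : Injective f := fun x y e => by
    have := h x y
    rw [e, sub_self, norm_zero] at this
    exact sub_eq_zero.1 (norm_le_zero_iff.1 (nonpos_of_mul_nonpos_right this hc))
  have hl : ∀ x y, ‖invFun f x - invFun f y‖ ≤ c⁻¹ * ‖x - y‖ := fun x y => by
    have := h (invFun f x) (invFun f y)
    rwa [rightInverse_invFun hs, rightInverse_invFun hs, ← le_inv_mul_iff₀ hc] at this
  refine ⟨⟨hi, hs⟩, hf, ⟨⟨c⁻¹, by positivity⟩, LipschitzWith.of_dist_le_mul fun x y => ?_⟩,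
    fun R => ?_⟩
  · rw [dist_eq_norm, dist_eq_norm]
    exact hl x y
  · obtain ⟨S, hS, h1⟩ := pa2_inv hf.continuous hi (hf.pa (‖invFun f 0‖ + c⁻¹ * R + 1))
    refine ⟨S, hS, fun y hy => h1 y ⟨invFun f y, ?_, rightInverse_invFun hs y⟩⟩
    have h2 := hl y 0
    have h3 := norm_sub_norm_le (invFun f y) (invFun f 0)
    rw [mem_closedBall_zero_iff] at hy
    have h4 := mul_le_mul_of_nonneg_left hy (inv_pos.2 hc).le
    rw [sub_zero] at h2
    rw [mem_ball_zero_iff]
    linarith

theorem LH.of_supp [FiniteDimensional ℝ E] {f : E → E} (hf : TP f) (hb : Bijective f)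
    {R : ℝ} (h : ∀ x, R ≤ ‖x‖ → f x = x) : LH f := by
  have := FiniteDimensional.proper_real E
  have hp : IsProperMap f := isProperMap_iff_tendsto_cocompact.2 ⟨hf.continuous,
    tendsto_id.congr' (mem_of_superset (isCompact_closedBall (0 : E) R).compl_mem_cocompact
      fun x hx => (h x (not_le.1 (mt mem_closedBall_zero_iff.2 hx)).le).symm)⟩
  have hc : Continuous (invFun f) := continuous_iff_isClosed.2 fun s hs => by
    rw [← image_eq_preimage_of_inverse (leftInverse_invFun hb.1) (rightInverse_invFun hb.2)]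
    exact hp.isClosedMap s hs
  obtain ⟨S, hS, h1⟩ := pa2_inv hf.continuous hb.1 (hf.pa R)
  have hS' := hS.insert (ContinuousLinearMap.id ℝ E, 0)
  have h2 : ∀ y, ∃ A ∈ insert (ContinuousLinearMap.id ℝ E, 0) S, invFun f y = A.1 y + A.2 := by
    intro y
    rcases le_or_gt R ‖invFun f y‖ with h3 | h3
    · refine ⟨_, mem_insert _ _, ?_⟩
      simpa [rightInverse_invFun hb.2 y] using (h _ h3).symm
    · obtain ⟨A, hA, e⟩ := h1 y ⟨_, mem_ball_zero_iff.2 h3, rightInverse_invFun hb.2 y⟩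
      exact ⟨A, mem_insert_of_mem _ hA, e⟩
  obtain ⟨L, hL⟩ := (hS'.image fun A => ‖A.1‖₊).bddAbove
  refine ⟨hb, hf, ⟨L, LipschitzWith.of_dist_le_mul fun x y => ?_⟩,
    fun _ => ⟨_, hS', fun y _ => h2 y⟩⟩
  rw [dist_eq_norm, dist_eq_norm]
  refine norm_sub_le_of_pieces hS' hc.continuousOn (fun z _ => h2 z) fun A hA =>
    (A.1.le_opNorm _).trans (mul_le_mul_of_nonneg_right ?_ (norm_nonneg _))
  exact NNReal.coe_le_coe.2 (hL ⟨A, hA, rfl⟩)

end BEv
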