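import Pool.Agent.Work.MP_f0515e_an.PA2

/-! Partial minima, the linear Lojasiewicz inequality and the extension lemma. -/

open Set Metric Filter Topology MeasureTheory Function
open scoped ENNReal NNReal

noncomputable section
namespace BEv

/-- A piece which is active at the limit point and frequently along the filter. -/
theorem pamin_side {κ : Type} {S : Set κ} (hS : S.Finite) {g : ℝ → ℝ} {h : κ → ℝ → ℝ}
    (hg : Continuous g) (hh : ∀ i, Continuous (h i)) {t₀ : ℝ} {l : Filter ℝ} [l.NeBot]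
    (hl : l ≤ 𝓝 t₀) (e : ∀ᶠ t in l, ∃ i ∈ S, g t = h i t) :
    ∃ i ∈ S, g t₀ = h i t₀ ∧ ∃ᶠ t in l, g t = h i t := by
  obtain ⟨i, hi, hf⟩ : ∃ i ∈ S, ∃ᶠ t in l, g t = h i t := by
    by_contra hc
    simp only [not_exists, not_and, not_frequently] at hc
    obtain ⟨t, ⟨i, hi, h1⟩, h2⟩ := (e.and ((eventually_all_finite hS).2 hc)).exists
    exact h2 i hi h1
  exact ⟨i, hi, tendsto_nhds_unique_of_frequently_eq ((hg.tendsto _).mono_left hl)
    (((hh i).tendsto _).mono_left hl) hf, hf⟩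

/-- `φ` is the minimum of `F` over `K` in the second variable. -/
def pamin_Is {Y Z : Type} (K : Set Z) (F : Y × Z → ℝ) (φ : Y → ℝ) : Prop :=
  ∀ y, (∀ x ∈ K, φ y ≤ F (y, x)) ∧ ∃ x ∈ K, φ y = F (y, x)

theorem pamin_one {Y : Type} [NormedAddCommGroup Y] [NormedSpace ℝ Y] {F : Y × ℝ → ℝ} (hF : TP F)
    {R : ℝ} (hR : 0 ≤ R) : ∃ φ : Y → ℝ, TP φ ∧ pamin_Is (Icc (-R) R) F φ := by
  have hc : ∀ y, Continuous fun t => F (y, t) := fun y => hF.continuous.comp (by fun_prop)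
  choose τ hτ hm using fun y => (isCompact_Icc (a := -R) (b := R)).exists_isMinOn
    ⟨0, by simpa using hR⟩ (hc y).continuousOn
  refine ⟨fun y => F (y, τ y), TP.of_select ?_ fun ρ => ?_,
    fun y => ⟨fun t ht => hm y ht, τ y, hτ y, rfl⟩⟩
  · obtain ⟨L, hL⟩ := hF.lip
    refine ⟨L, LipschitzWith.of_le_add_mul L fun y y' => (hm y (hτ y')).trans ?_⟩
    simpa using hL.le_add_mul (y, τ y') (y', τ y')
  obtain ⟨S, hS, hp⟩ := hF.pa (max ρ R)
  let v : ((Y × ℝ →L[ℝ] ℝ) × ℝ) → Y → ℝ := fun A y => A.1 (y, 0) + A.2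
  have hv : ∀ A, TP (v A) := fun A =>
    ((TP.clm A.1).comp (TP.id'.prod (TP.const 0))).add (TP.const _)
  have hA : ∀ (A : (Y × ℝ →L[ℝ] ℝ) × ℝ) y t, A.1 (y, t) + A.2 = v A y + t * A.1 (0, 1) := by
    intro A y t
    rw [show (y, t) = (y, 0) + t • ((0 : Y), (1 : ℝ)) by simp, map_add, map_smul, smul_eq_mul]
    ring
  refine ⟨insert (fun y => F (y, R)) (insert (fun y => F (y, -R)) (image2 (fun A B y =>
    v A y + A.1 (0, 1) * ((v B y - v A y) / (A.1 (0, 1) - B.1 (0, 1)))) S S)),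
    ((hS.image2 _ hS).insert _).insert _, ?_, fun y hy => ?_⟩
  · rintro g (rfl | rfl | ⟨A, -, B, -, rfl⟩)
    · exact hF.comp (TP.id'.prod (TP.const _))
    · exact hF.comp (TP.id'.prod (TP.const _))
    · exact (hv A).add ((((hv B).sub (hv A)).div_const _).const_mul _)
  rcases (hτ y).2.eq_or_lt with h1 | h1
  · exact ⟨_, Or.inl rfl, by rw [h1]⟩
  rcases (hτ y).1.eq_or_lt with h2 | h2
  · exact ⟨_, Or.inr (Or.inl rfl), by rw [← h2]⟩
  have hn : ∀ᶠ t in 𝓝 (τ y), t ∈ Icc (-R) R := Icc_mem_nhds h2 h1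
  have e : ∀ᶠ t in 𝓝 (τ y), ∃ A ∈ S, F (y, t) = v A y + t * A.1 (0, 1) := hn.mono fun t ht => by
    obtain ⟨A, hA1, hA2⟩ := hp (y, t) (mem_closedBall_zero_iff.2
      (max_le_max (mem_closedBall_zero_iff.1 hy) (abs_le.2 ht)))
    exact ⟨A, hA1, hA2.trans (hA A y t)⟩
  obtain ⟨A, hAS, a1, a2⟩ := pamin_side (l := 𝓝[<] τ y) hS (hc y) (fun A => by fun_prop)
    nhdsWithin_le_nhds (e.filter_mono nhdsWithin_le_nhds)
  obtain ⟨B, hBS, b1, b2⟩ := pamin_side (l := 𝓝[>] τ y) hS (hc y) (fun A => by fun_prop)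
    nhdsWithin_le_nhds (e.filter_mono nhdsWithin_le_nhds)
  obtain ⟨s, s1, s2, s3⟩ := (a2.and_eventually
    ((hn.filter_mono nhdsWithin_le_nhds).and self_mem_nhdsWithin)).exists
  obtain ⟨t, t1, t2, t3⟩ := (b2.and_eventually
    ((hn.filter_mono nhdsWithin_le_nhds).and self_mem_nhdsWithin)).exists
  have s4 : F (y, τ y) ≤ F (y, s) := hm y s2
  have t4 : F (y, τ y) ≤ F (y, t) := hm y t2
  have s5 : s < τ y := s3
  have t5 : τ y < t := t3
  have ha : A.1 (0, 1) ≤ 0 := by nlinarith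
  have hb : 0 ≤ B.1 (0, 1) := by nlinarith
  refine ⟨_, Or.inr (Or.inr ⟨A, hAS, B, hBS, rfl⟩), ?_⟩
  change F (y, τ y) = v A y + A.1 (0, 1) * ((v B y - v A y) / (A.1 (0, 1) - B.1 (0, 1)))
  rcases ha.eq_or_lt with h3 | h3
  · rw [a1, h3, mul_zero, zero_mul]
  · rw [show v B y - v A y = τ y * (A.1 (0, 1) - B.1 (0, 1)) by linarith,
      mul_div_cancel_right₀ _ (by linarith), a1, mul_comm]

theorem pamin_cube {R : ℝ} (hR : 0 ≤ R) (n : ℕ) : ∀ (Y : Type) [NormedAddCommGroup Y]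
    [NormedSpace ℝ Y] (F : Y × (Fin n → ℝ) → ℝ), TP F →
      ∃ φ : Y → ℝ, TP φ ∧ pamin_Is (closedBall 0 R) F φ := by
  induction n with
  | zero =>
    intro Y _ _ F hF
    exact ⟨fun y => F (y, 0), hF.comp (TP.id'.prod (TP.const _)), fun y =>
      ⟨fun x _ => by rw [Subsingleton.elim x 0], 0, mem_closedBall_self hR, rfl⟩⟩
  | succ n ih =>
    intro Y _ _ F hF
    have hm : ∀ (t : ℝ) (x : Fin n → ℝ), (Fin.cons t x : Fin (n + 1) → ℝ) ∈ closedBall 0 R ↔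
        t ∈ Icc (-R) R ∧ x ∈ closedBall 0 R := fun t x => by
      simp only [mem_closedBall_zero_iff, pi_norm_le_iff_of_nonneg hR, Fin.forall_fin_succ,
        Fin.cons_zero, Fin.cons_succ, Real.norm_eq_abs, mem_Icc, abs_le]
    obtain ⟨ψ, h1, h2⟩ := ih (Y × ℝ) (fun p => F (p.1.1, Fin.cons p.1.2 p.2))
      (hF.comp (TP.id'.fst.fst.prod (TP.pi fun i => by
        refine Fin.cases ?_ (fun j => ?_) i
        · exact TP.id'.fst.snd
        · exact TP.id'.snd.apply j)))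
    obtain ⟨φ, h3, h4⟩ := pamin_one h1 hR
    refine ⟨φ, h3, fun y => ⟨fun x hx => ?_, ?_⟩⟩
    · rw [← Fin.cons_self_tail x] at hx ⊢
      exact ((h4 y).1 _ ((hm _ _).1 hx).1).trans ((h2 _).1 _ ((hm _ _).1 hx).2)
    · obtain ⟨t, ht, e⟩ := (h4 y).2
      obtain ⟨x, hx, e'⟩ := (h2 (y, t)).2
      exact ⟨_, (hm t x).2 ⟨ht, hx⟩, e.trans e'⟩

/-- Linear lower bound near zero. -/
theorem pamin_lin {η : ℝ → ℝ} (hη : TP η) (h : ∀ s, 0 < s → 0 < η s) :
    ∃ c s₀ : ℝ, 0 < c ∧ 0 < s₀ ∧ ∀ s, 0 < s → s < s₀ → s ≤ c * η s := by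
  obtain ⟨S, hS, hp⟩ := hη.pa 1
  have k : ∀ A : (ℝ →L[ℝ] ℝ) × ℝ, ∃ c : ℝ, ∀ᶠ s in 𝓝[>] (0 : ℝ),
      0 < A.1 s + A.2 → s ≤ c * (A.1 s + A.2) := fun A => by
    have hc : Continuous fun s => A.1 s + A.2 := by fun_prop
    rcases lt_trichotomy A.2 0 with h0 | h0 | h0
    · refine ⟨0, ((hc.continuousAt.eventually_lt continuousAt_const (by simpa using h0)).mono
        fun s hs h1 => absurd hs (not_lt.2 h1.le)).filter_mono nhdsWithin_le_nhds⟩
    · refine ⟨(A.1 1)⁻¹, Eventually.of_forall fun s h1 => ?_⟩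
      have e : A.1 s = s * A.1 1 := by rw [← smul_eq_mul, ← map_smul, smul_eq_mul, mul_one]
      rw [h0, add_zero, e] at h1 ⊢
      rw [mul_comm s, inv_mul_cancel_left₀ (right_ne_zero_of_mul h1.ne')]
    · refine ⟨1, ((continuousAt_id.eventually_lt hc.continuousAt (by simpa using h0)).mono
        fun s hs _ => ?_).filter_mono nhdsWithin_le_nhds⟩
      rw [one_mul]
      exact le_of_lt hs
  choose c hc using k
  obtain ⟨C, hC⟩ := (hS.image c).bddAbove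
  obtain ⟨s₀, h0, h1⟩ := mem_nhdsGT_iff_exists_Ioo_subset.1
    (((eventually_all_finite hS).2 fun A _ => hc A).and (Ioo_mem_nhdsGT one_pos))
  refine ⟨max C 1, s₀, lt_max_of_lt_right one_pos, h0, fun s hs hs' => ?_⟩
  obtain ⟨a1, a2⟩ := h1 ⟨hs, hs'⟩
  obtain ⟨A, hA, e⟩ := hp s (mem_closedBall_zero_iff.2 (abs_le.2 ⟨by linarith, a2.2.le⟩))
  have := a1 A hA (e ▸ h s hs)
  rw [← e] at this
  exact this.trans (mul_le_mul_of_nonneg_right ((hC ⟨A, hA, rfl⟩).trans (le_max_left _ _))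
    (h s hs).le)

/-- The linear Lojasiewicz inequality. -/
theorem pamin_loj {n : ℕ} {R : ℝ} (hR : 0 ≤ R) {F D : (Fin n → ℝ) × (Fin n → ℝ) → ℝ} (hF : TP F)
    (hD : TP D) (h0 : ∀ p, 0 ≤ D p)
    (h : ∀ x ∈ closedBall 0 R, ∀ x' ∈ closedBall 0 R, D (x, x') = 0 → F (x, x') ≤ 0) :
    ∃ L, ∀ x ∈ closedBall 0 R, ∀ x' ∈ closedBall 0 R, F (x, x') ≤ L * D (x, x') := by
  have hq : TP fun p : (ℝ × (Fin n → ℝ)) × (Fin n → ℝ) => (p.1.2, p.2) :=
    TP.id'.fst.snd.prod TP.id'.snd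
  obtain ⟨ψ, h1, h2⟩ := pamin_cube hR n _ _ ((hD.comp hq).max (TP.id'.fst.fst.sub (hF.comp hq)))
  obtain ⟨η, h3, h4⟩ := pamin_cube hR n _ _ h1
  have hp : ∀ s, 0 < s → 0 < η s := fun s hs => by
    obtain ⟨x, hx, e⟩ := (h4 s).2
    obtain ⟨x', hx', e'⟩ := (h2 (s, x)).2
    rw [e, e']
    rcases (h0 (x, x')).eq_or_lt with h5 | h5
    · exact lt_max_of_lt_right (by linarith [h x hx x' hx' h5.symm])
    · exact lt_max_of_lt_left h5
  obtain ⟨c, s₀, hc, hs₀, h5⟩ := pamin_lin h3 hp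
  obtain ⟨M, hM⟩ := ((isCompact_closedBall (0 : Fin n → ℝ) R).prod
    (isCompact_closedBall (0 : Fin n → ℝ) R)).bddAbove_image hF.continuous.continuousOn
  refine ⟨max c (M / η s₀), fun x hx x' hx' => ?_⟩
  have h6 : ∀ s, s ≤ F (x, x') → η s ≤ D (x, x') := fun s hs =>
    (((h4 s).1 x hx).trans ((h2 (s, x)).1 x' hx')).trans (max_le le_rfl (by linarith [h0 (x, x')]))
  have h7 := mul_le_mul_of_nonneg_right (le_max_left c (M / η s₀)) (h0 (x, x'))
  have h8 := mul_le_mul_of_nonneg_right (le_max_right c (M / η s₀)) (h0 (x, x'))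
  rcases le_or_gt (F (x, x')) 0 with a | a
  · exact a.trans ((mul_nonneg hc.le (h0 _)).trans h7)
  rcases lt_or_ge (F (x, x')) s₀ with b | b
  · exact ((h5 _ a b).trans (mul_le_mul_of_nonneg_left (h6 _ le_rfl) hc.le)).trans h7
  · have h9 : F (x, x') ≤ M := hM ⟨(x, x'), ⟨hx, hx'⟩, rfl⟩
    refine h9.trans (le_trans ?_ h8)
    rw [div_mul_eq_mul_div, le_div_iff₀ (hp _ hs₀)]
    exact mul_le_mul_of_nonneg_left (h6 _ b) (by linarith)

/-- Extension of a piecewise affine function along a piecewise affine map. -/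
theorem exists_ext {n : ℕ} {P : (Fin n → ℝ) → Fin n → ℝ} {f D : (Fin n → ℝ) → ℝ} (hP : TP P)
    (hf : TP f) (hD : TP D) (hD0 : ∀ x, 0 ≤ D x) (R : ℝ)
    (h : ∀ x ∈ closedBall (0 : Fin n → ℝ) R, ∀ x' ∈ closedBall (0 : Fin n → ℝ) R,
      D x = 0 → D x' = 0 → P x = P x' → f x = f x') :
    ∃ φ : (Fin n → ℝ) → ℝ, TP φ ∧
      ∀ x ∈ closedBall (0 : Fin n → ℝ) R, D x = 0 → φ (P x) = f x := by
  rcases lt_or_ge R 0 with hR | hR
  · exact ⟨fun _ => 0, TP.const 0, fun x hx => by simp [closedBall_eq_empty.2 hR] at hx⟩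
  have t1 : TP fun p : (Fin n → ℝ) × (Fin n → ℝ) => p.1 := TP.id'.fst
  have t2 : TP fun p : (Fin n → ℝ) × (Fin n → ℝ) => p.2 := TP.id'.snd
  obtain ⟨L, hL⟩ := pamin_loj hR ((hf.comp t1).sub (hf.comp t2))
    ((((hP.comp t1).sub (hP.comp t2)).norm_pi.add (hD.comp t2)).add (hD.comp t1))
    (fun p => add_nonneg (add_nonneg (norm_nonneg _) (hD0 _)) (hD0 _)) fun x hx x' hx' e => by
      have a1 := norm_nonneg (P x - P x')
      have a2 := hD0 x
      have a3 := hD0 x'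
      exact sub_nonpos.2 (h x hx x' hx' (by linarith) (by linarith)
        (sub_eq_zero.1 (norm_eq_zero.1 (by linarith)))).le
  obtain ⟨φ, h1, h2⟩ := pamin_cube hR n _ _ ((hf.comp t2).add
    (((t1.sub (hP.comp t2)).norm_pi.add (hD.comp t2)).const_mul L))
  refine ⟨φ, h1, fun x hx e => le_antisymm (by simpa [e] using (h2 (P x)).1 x hx) ?_⟩
  obtain ⟨x', hx', e'⟩ := (h2 (P x)).2
  have := hL x hx x' hx'
  simp only [e, add_zero] at this
  rw [e']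
  linarith

end BEv
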