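import Pool.Agent.Work.MP_f0515e_an.Per1b
import Pool.Agent.Work.MP_f0515e_an.Meas1b
import Pool.Agent.Work.MP_f0515e_an.PAMin

-- merged part: Pool.Agent.Work.MP_f0515e_an.Ev.Defs
section
-- merged part: Pool.Agent.Work.MP_f0515e_an.Per2
section
/-! The contraction maps `r0`, `gta`, `MM`, `EE`, `gg`, `rr` and their localisations. -/

open Set Metric Filter Topology MeasureTheory Function
open scoped ENNReal NNReal

noncomputable section
namespace BEv

variable {m : ℕ} {τ : ℝ} {K : ℕ}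

theorem per2_cap1 : Cap (fun _ => 1 / 2) (1 / 2) where
  h0 := by norm_num
  tp := TP.const _
  mono := monotone_const
  lip := fun d d' => by simp
  ge := fun d _ h1 => ⟨h1, le_rfl⟩

theorem per2_cap2 (h0 : 0 < τ) (h1 : τ ≤ 1 / 16) :
    Cap (fun d => max d (2 * τ + d / 2)) (2 * τ) where
  h0 := by positivity
  tp := TP.max TP.id' (TP.add (TP.const _) (TP.div_const TP.id' 2))
  mono := fun a b hab => max_le_max hab (by linarith only [hab])
  lip := fun d d' => by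
    refine (abs_max_sub_max_le_max _ _ _ _).trans (max_le le_rfl ?_)
    have : 2 * τ + d / 2 - (2 * τ + d' / 2) = (d - d') / 2 := by ring
    rw [this, abs_div, abs_two]
    have := abs_nonneg (d - d')
    linarith only [this]
  ge := fun d h2 h3 => ⟨le_max_left _ _, max_le h3 (by linarith only [h0, h1, h3])⟩

theorem per2_r0_apply (K : ℕ) (x : V m) (i : Fin (2 * m + 1)) :
    r0 K x i = 1 / 2 + oext (QQ (fun _ => 1 / 2) (1 / 2) K (be x)) (x i - 1 / 2) := rfl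

theorem per2_MM_apply (K : ℕ) (x : V m) (i : Fin (2 * m + 1)) :
    MM τ K x i = oext (QQ (fun d => max d (2 * τ + d / 2)) (2 * τ) K (mu x)) (x i) := rfl

theorem per2_oext_eq_self {D : ℝ → ℝ} {t : ℝ} (h : D (dd t) = dd t) : oext D t = t := by
  have := abs_oext_sub D t
  rw [h, sub_self, abs_zero, abs_eq_zero] at this
  linarith

theorem dl_pos (K : ℕ) : 0 < dl K := by
  unfold dl; positivity

theorem accr_r0 (K : ℕ) : Accr (r0 K : V m → V m) := by
  intro x y i h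
  have h1 := accr_per (m := m) per2_cap1 K (x - hlf) (y - hlf) i (by
    rw [sub_sub_sub_cancel_right]
    simpa using h)
  simp only [r0, Pi.add_apply]
  linarith only [h1]

theorem tp_r0 (K : ℕ) : TP (r0 K : V m → V m) :=
  TP.add (TP.const (hlf : V m))
    (TP.comp (tp_per per2_cap1 K) (TP.sub TP.id' (TP.const (hlf : V m))))

theorem abs_r0_sub_le (K : ℕ) (x : V m) (i : Fin (2 * m + 1)) : |r0 K x i - x i| ≤ 1 / 2 := by
  rw [per2_r0_apply]
  have h1 := abs_oext_sub (QQ (fun _ => 1 / 2) (1 / 2) K (be x)) (x i - 1 / 2)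
  have h2 := le_QQ per2_cap1 K (be x) (dd_nonneg (x i - 1 / 2)) (dd_le_half _)
  have h3 := dd_nonneg (x i - 1 / 2)
  have h4 : 1 / 2 + oext (QQ (fun _ => 1 / 2) (1 / 2) K (be x)) (x i - 1 / 2) - x i =
      oext (QQ (fun _ => 1 / 2) (1 / 2) K (be x)) (x i - 1 / 2) - (x i - 1 / 2) := by ring
  rw [h4, h1, abs_le]
  constructor <;> linarith only [h2, h3, h2.1, h2.2]

theorem ll_r0 (K : ℕ) (x : V m) : LL (r0 K : V m → V m) x (2 ^ (K + 1)) := by
  refine LL.of_forall (fun y z => ?_) x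
  have h := per_lip (m := m) per2_cap1 K (y - hlf) (z - hlf)
  rw [sub_sub_sub_cancel_right] at h
  simpa only [r0, add_sub_add_left_eq_sub] using h

theorem ll_r0_be (K : ℕ) {x : V m} (hx : 0 < be x) :
    LL (r0 K : V m → V m) x (2 / be x) := by
  have h1 : LL (per (fun _ => 1 / 2) (1 / 2) K : V m → V m) (x - hlf) (2 / be x) := by
    have := ll_per (m := m) per2_cap1 K (x := x - hlf) hx
    have h2 : max (1 : ℝ) (4 * (1 / 2)) = 2 := by norm_num
    rw [h2] at this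
    exact this
  have h2 : LL (fun y : V m => y - hlf) x (1 + 0) := LL.sub (LL.id' x) (LL.const _ x)
  have h3 := LL.comp (f := fun y : V m => y - hlf) h1 h2 (by positivity)
  have h4 := LL.add (LL.const (hlf : V m) x) h3
  refine LL.mono h4 (le_of_eq ?_)
  ring

theorem per2_dl_mul (K : ℕ) : (2 : ℝ) ^ K * dl K = 1 / 2 := by
  unfold dl
  rw [pow_succ]
  field_simp

theorem r0_nested {K1 : ℕ} (hK : K1 ≤ K) {x : V m} (hx : dl K1 ≤ be x) :
    r0 K x = r0 K1 x := by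
  have h : (1 / 2 : ℝ) ≤ 2 ^ K1 * mu (x - hlf) := by
    rw [← per2_dl_mul K1]
    exact mul_le_mul_of_nonneg_left hx (by positivity)
  simp only [r0]
  rw [per_nested hK h]

theorem accr_MM (h0 : 0 < τ) (h1 : τ ≤ 1 / 16) (K : ℕ) : Accr (MM τ K : V m → V m) :=
  accr_per (per2_cap2 h0 h1) K

theorem tp_MM (h0 : 0 < τ) (h1 : τ ≤ 1 / 16) (K : ℕ) : TP (MM τ K : V m → V m) :=
  tp_per (per2_cap2 h0 h1) K

theorem abs_MM_sub_le (h0 : 0 < τ) (h1 : τ ≤ 1 / 16) (K : ℕ) (x : V m) (i : Fin (2 * m + 1)) :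
    |MM τ K x i - x i| ≤ 2 * τ := by
  rw [per2_MM_apply, abs_oext_sub]
  have h2 := le_QQ (per2_cap2 h0 h1) K (mu x) (dd_nonneg (x i)) (dd_le_half _)
  have h3 := dd_nonneg (x i)
  have h4 : max (dd (x i)) (2 * τ + dd (x i) / 2) ≤ dd (x i) + 2 * τ :=
    max_le (by linarith only [h0]) (by linarith only [h3])
  rw [abs_le]
  constructor <;> linarith only [h0, h2, h4, h2.1, h2.2]

theorem MM_apply_eq (h0 : 0 < τ) (h1 : τ ≤ 1 / 16) (K : ℕ) {x : V m} {i : Fin (2 * m + 1)}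
    (hx : 4 * τ ≤ dd (x i)) : MM τ K x i = x i := by
  rw [per2_MM_apply]
  apply per2_oext_eq_self
  have h2 := le_QQ (per2_cap2 h0 h1) K (mu x) (dd_nonneg (x i)) (dd_le_half _)
  have h4 : max (dd (x i)) (2 * τ + dd (x i) / 2) ≤ dd (x i) :=
    max_le le_rfl (by linarith only [hx])
  exact le_antisymm (h2.2.trans h4) h2.1

theorem ll_MM (h0 : 0 < τ) (h1 : τ ≤ 1 / 16) (K : ℕ) {y : V m} (hy : 0 < mu y) :
    LL (MM τ K : V m → V m) y (1 / mu y) := by
  have := ll_per (m := m) (per2_cap2 h0 h1) K hy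
  have h2 : max (1 : ℝ) (4 * (2 * τ)) = 1 := max_eq_left (by linarith only [h0, h1])
  rw [h2] at this
  exact this

theorem MM_nested {K1 : ℕ} (hK : K1 ≤ K) {y : V m} (hy : 2 * τ ≤ 2 ^ K1 * mu y) :
    MM τ K y = MM τ K1 y :=
  per_nested hK hy

theorem lh_gta (h0 : 0 < τ) (h1 : τ ≤ 1 / 16) (K : ℕ) : LH (gta τ K : V m → V m) :=
  Accr.lh (accr_r0 K) (tp_r0 K) h0 (by linarith only [h0, h1])

theorem lh_EE (h0 : 0 < τ) (h1 : τ ≤ 1 / 16) (K : ℕ) : LH (EE τ K : V m → V m) :=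
  Accr.lh (accr_MM h0 h1 K) (tp_MM h0 h1 K) (by norm_num) (by norm_num)

theorem lh_gg (h0 : 0 < τ) (h1 : τ ≤ 1 / 16) (K : ℕ) : LH (gg τ K : V m → V m) :=
  LH.comp (lh_EE h0 h1 K).inv (lh_gta h0 h1 K)

theorem EE_gg (h0 : 0 < τ) (h1 : τ ≤ 1 / 16) (K : ℕ) (x : V m) :
    EE τ K (gg τ K x) = gta τ K x :=
  (lh_EE h0 h1 K).ri _

theorem norm_gta_sub_le (h0 : 0 < τ) (h1 : τ ≤ 1 / 16) (K : ℕ) (x : V m) :
    ‖gta τ K x - x‖ ≤ 1 / 2 := by
  refine (pi_norm_le_iff_of_nonneg (by norm_num)).2 (fun i => ?_)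
  have h2 : gta τ K x i - x i = (1 - τ) * (r0 K x i - x i) := mix_sub τ x i
  have h3 := abs_r0_sub_le K x i
  rw [Pi.sub_apply, Real.norm_eq_abs, h2, abs_mul, abs_of_nonneg (by linarith only [h0, h1] : 0 ≤ 1 - τ)]
  have h4 := abs_nonneg (r0 K x i - x i)
  linarith only [h3, h0, h4, mul_nonneg_of_nonpos_of_nonpos (le_of_lt (Mathlib.Tactic.Linarith.sub_neg_of_lt h0)) (Mathlib.Tactic.Linarith.sub_nonpos_of_le h4)]

theorem norm_gg_sub_gta_le (h0 : 0 < τ) (h1 : τ ≤ 1 / 16) (K : ℕ) (x : V m) :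
    ‖gg τ K x - gta τ K x‖ ≤ τ := by
  refine (pi_norm_le_iff_of_nonneg h0.le).2 (fun i => ?_)
  rw [← EE_gg h0 h1 K x]
  have h2 : EE τ K (gg τ K x) i - gg τ K x i =
      (1 - 1 / 2) * (MM τ K (gg τ K x) i - gg τ K x i) := mix_sub _ _ i
  have h3 := abs_MM_sub_le h0 h1 K (gg τ K x) i
  rw [Pi.sub_apply, Real.norm_eq_abs, abs_sub_comm, h2, abs_mul,
    abs_of_nonneg (by norm_num : (0 : ℝ) ≤ 1 - 1 / 2)]
  linarith only [h3]

theorem gg_apply_eq (h0 : 0 < τ) (h1 : τ ≤ 1 / 16) (K : ℕ) {x : V m} {i : Fin (2 * m + 1)}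
    (hx : 4 * τ ≤ dd (gg τ K x i)) : gta τ K x i = gg τ K x i := by
  rw [← EE_gg h0 h1 K x]
  have h2 : EE τ K (gg τ K x) i - gg τ K x i =
      (1 - 1 / 2) * (MM τ K (gg τ K x) i - gg τ K x i) := mix_sub _ _ i
  rw [MM_apply_eq h0 h1 K hx, sub_self, mul_zero] at h2
  linarith only [h2]

theorem per2_QQ_half {c d : ℝ} (hc : dl K ≤ c) (hd : c ≤ d) (hd1 : d ≤ 1 / 2) :
    QQ (fun _ => 1 / 2) (1 / 2) K c d = 1 / 2 := by
  have hd0 : 0 ≤ d := (dl_pos K).le.trans (hc.trans hd)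
  refine le_antisymm (le_QQ per2_cap1 K c hd0 hd1).2 ?_
  unfold QQ
  refine le_cmin _ _ _ (le_min le_rfl ?_) (fun k _ => ?_)
  · rw [← per2_dl_mul K]
    exact mul_le_mul_of_nonneg_left (hc.trans hd) (by positivity)
  · have h1 : (2 : ℝ) ^ k * c ≤ 2 ^ k * d := mul_le_mul_of_nonneg_left hd (by positivity)
    have h2 := le_max_left (1 / 2 - (2 : ℝ) ^ k * c) 0
    linarith only [h1, h2]

theorem mu_gta_le (h0 : 0 < τ) (h1 : τ ≤ 1 / 16) {x : V m} (hx : dl K ≤ be x) :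
    mu (gta τ K x) ≤ τ / 2 := by
  obtain ⟨S, hS, hi⟩ := exists_ge_mu (x - hlf)
  refine (mu_le_iff (by positivity)).2 ⟨S, hS, fun i hiS => ?_⟩
  have h2 : be x ≤ dd (x i - 1 / 2) := hi i hiS
  have h3 := per2_QQ_half hx h2 (dd_le_half _)
  have h4 := dd_oext (adm_QQ per2_cap1 K (be x)) (x i - 1 / 2)
  have h5 : r0 K x i - 1 / 2 = oext (QQ (fun _ => 1 / 2) (1 / 2) K (be x)) (x i - 1 / 2) := by
    rw [per2_r0_apply]; ring
  have h6 := dd_sub_half (r0 K x i)
  rw [h5, h4, h3] at h6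
  have h7 : gta τ K x i - x i = (1 - τ) * (r0 K x i - x i) := mix_sub τ x i
  have h8 : gta τ K x i - r0 K x i = τ * (x i - r0 K x i) := by linarith only [h7]
  have h9 := abs_dd_sub_le (gta τ K x i) (r0 K x i)
  have h10 := abs_r0_sub_le K x i
  rw [h8, abs_mul, abs_of_pos h0, abs_sub_comm (x i)] at h9
  have h11 := (abs_le.1 h9).2
  linarith only [h6, h11, h0, h10, mul_nonneg_of_nonpos_of_nonpos (le_of_lt (Mathlib.Tactic.Linarith.sub_neg_of_lt h0)) (Mathlib.Tactic.Linarith.sub_nonpos_of_le h10)]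

theorem per2_one_le_pow (K : ℕ) : (1 : ℝ) ≤ 2 ^ K := one_le_pow₀ (by norm_num)

theorem per2_b_le {e : ℝ} (he : 0 ≤ e) (K : ℕ) : 2 * e / (1 + 2 ^ K) ≤ e := by
  have := per2_one_le_pow K
  rw [div_le_iff₀ (by positivity)]
  nlinarith

theorem per2_jj_le {e : ℝ} (he : 0 ≤ e) (K : ℕ) : jj τ K e ≤ e :=
  max_le (min_le_left _ _) (per2_b_le he K)

theorem per2_jj_nonneg {e : ℝ} (he : 0 ≤ e) (K : ℕ) : 0 ≤ jj τ K e :=
  le_max_of_le_right (by positivity)

theorem per2_adm_jj (h1 : τ ≤ 1 / 16) (K : ℕ) : Adm (jj τ K) := by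
  refine ⟨le_antisymm (per2_jj_le le_rfl K) (per2_jj_nonneg le_rfl K),
    le_antisymm (per2_jj_le (by norm_num) K) ?_,
    fun d hd0 hd1 => ⟨per2_jj_nonneg hd0 K, (per2_jj_le hd0 K).trans hd1⟩⟩
  exact le_max_of_le_left (le_min le_rfl (by linarith only [h1]))

theorem per2_jj_small (h0 : 0 < τ) {e : ℝ} (he0 : 0 ≤ e) (he : e ≤ τ / 2) (K : ℕ) :
    jj τ K e ≤ τ / 2 ^ K := by
  have hP := per2_one_le_pow K
  refine max_le ((min_le_right _ _).trans ?_) ?_
  · have : 0 ≤ τ / 2 ^ K := by positivity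
    linarith only [h0, he, this]
  · rw [div_le_div_iff₀ (by positivity) (by positivity)]
    linarith only [h0, he, hP, mul_nonneg_of_nonpos_of_nonpos (Mathlib.Tactic.Linarith.sub_nonpos_of_le he) (Mathlib.Tactic.Linarith.sub_nonpos_of_le hP)]

theorem per2_QQ_eq (h0 : 0 < τ) {c d : ℝ} (hc0 : 0 ≤ c) (hc : c ≤ τ / 2 ^ K) (hd : 0 ≤ d) :
    QQ (fun d => max d (2 * τ + d / 2)) (2 * τ) K c d =
      min (max d (2 * τ + d / 2)) (2 ^ K * d) := by
  unfold QQ
  refine le_antisymm (cmin_le_cap _ _ _) (le_cmin _ _ _ le_rfl (fun k hk => ?_))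
  have hPc : (2 : ℝ) ^ K * c ≤ τ := by
    rw [le_div_iff₀ (by positivity)] at hc
    linarith
  have hk1 : k + 1 ≤ K := Finset.mem_range.1 hk
  have hq1 := per2_one_le_pow k
  have hq2 : (2 : ℝ) ^ k * 2 ≤ 2 ^ K := by
    rw [← pow_succ]
    exact pow_le_pow_right₀ (by norm_num) hk1
  have hqc : (2 : ℝ) ^ k * c ≤ τ / 2 := by linarith only [hPc, hc0, hq2, mul_nonneg_of_nonpos_of_nonpos (Mathlib.Tactic.Linarith.sub_nonpos_of_le hc0) (Mathlib.Tactic.Linarith.sub_nonpos_of_le hq2)]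
  have hm := le_max_left (2 * τ - (2 : ℝ) ^ k * c) 0
  have hqd : d ≤ (2 : ℝ) ^ k * d := by linarith only [hd, hq1, mul_nonneg_of_nonpos_of_nonpos (Mathlib.Tactic.Linarith.sub_nonpos_of_le hd) (Mathlib.Tactic.Linarith.sub_nonpos_of_le hq1)]
  have hP := per2_one_le_pow K
  rcases le_total d c with h | h
  · refine (min_le_right _ _).trans ?_
    have : (2 : ℝ) ^ K * d ≤ 2 ^ K * c := mul_le_mul_of_nonneg_left h (by positivity)
    linarith only [h0, hd, hPc, hqc, hm, hqd, this]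
  · have hdc : d - c ≤ (2 : ℝ) ^ k * d - 2 ^ k * c := by linarith only [hq1, h, mul_nonneg_of_nonpos_of_nonpos (Mathlib.Tactic.Linarith.sub_nonpos_of_le hq1) (Mathlib.Tactic.Linarith.sub_nonpos_of_le h)]
    rcases le_total d (2 * c) with h' | h'
    · refine (min_le_right _ _).trans ?_
      have : (2 : ℝ) ^ K * d ≤ 2 ^ K * (2 * c) := mul_le_mul_of_nonneg_left h' (by positivity)
      linarith only [hPc, hm, h, hdc, this]
    · refine (min_le_left _ _).trans (max_le ?_ ?_) <;> linarith only [h0, hqc, hm, hqd, hdc, h']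

theorem per2_avg {P a b e : ℝ} (hP : 0 ≤ P) (ha : a = min e (4 * (e - τ) / 3))
    (hb : (1 + P) * b = 2 * e) :
    max a b + min (max (max a b) (2 * τ + max a b / 2)) (P * max a b) = 2 * e := by
  have key : a + max a (2 * τ + a / 2) = 2 * e := by
    rcases le_total e (4 * (e - τ) / 3) with h | h
    · rw [min_eq_left h] at ha
      rw [max_eq_left (by linarith only [ha, h])]
      linarith only [ha]
    · rw [min_eq_right h] at ha
      rw [max_eq_right (by linarith only [ha, h])]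
      linarith only [ha]
  rcases le_total b a with h | h
  · rw [max_eq_left h, min_eq_left]
    · exact key
    · linarith only [hb, key, h, hP, mul_nonneg_of_nonpos_of_nonpos (Mathlib.Tactic.Linarith.sub_nonpos_of_le hP) (Mathlib.Tactic.Linarith.sub_nonpos_of_le h)]
  · rw [max_eq_right h, min_eq_right]
    · linarith only [hb]
    · have : max a (2 * τ + a / 2) + a ≤ max b (2 * τ + b / 2) + b :=
        add_le_add (max_le_max h (by linarith only [h])) h
      linarith only [hb, key, this]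

theorem per2_mu_oext_jj (h0 : 0 < τ) (h1 : τ ≤ 1 / 16) (K : ℕ) {y : V m} (hy : mu y ≤ τ / 2) :
    mu (fun i => oext (jj τ K) (y i) : V m) ≤ τ / 2 ^ K := by
  obtain ⟨S, hS, hi⟩ := (mu_le_iff (by positivity)).1 hy
  refine (mu_le_iff (by positivity)).2 ⟨S, hS, fun i hiS => ?_⟩
  rw [dd_oext (per2_adm_jj h1 K)]
  exact per2_jj_small h0 (dd_nonneg _) (hi i hiS) K

theorem per2_oext_avg (D D' : ℝ → ℝ) (t : ℝ) :
    (1 / 2 : ℝ) * oext D t + (1 - 1 / 2) * oext D' t = oext (fun d => (D d + D' d) / 2) t := by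
  unfold oext
  split_ifs <;> ring

theorem inv_EE_eq (h0 : 0 < τ) (h1 : τ ≤ 1 / 16) (K : ℕ) {y : V m} (hy : mu y ≤ τ / 2) :
    invFun (EE τ K) y = fun i => oext (jj τ K) (y i) := by
  refine (lh_EE h0 h1 K).inv_eq ?_
  have hw := per2_mu_oext_jj h0 h1 K hy
  set w : V m := fun i => oext (jj τ K) (y i) with hwdef
  funext i
  have h2 : EE τ K w i = (1 / 2 : ℝ) * w i + (1 - 1 / 2) * MM τ K w i := rfl
  have h3 : w i = oext (jj τ K) (y i) := rfl
  rw [h2, per2_MM_apply, h3, oext_oext (per2_adm_jj h1 K) (adm_QQ (per2_cap2 h0 h1) K _),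
    per2_oext_avg]
  apply per2_oext_eq_self
  have he := dd_nonneg (y i)
  rw [per2_QQ_eq h0 (mu_nonneg w) hw (per2_jj_nonneg he K)]
  have h4 := per2_avg (τ := τ) (P := 2 ^ K) (b := 2 * dd (y i) / (1 + 2 ^ K)) (e := dd (y i))
    (by positivity) rfl (by field_simp)
  unfold jj
  linarith only [h4]

theorem per2_ji_le {e : ℝ} (he : 0 ≤ e) : ji τ e ≤ e := max_le (min_le_left _ _) he

theorem per2_ji_nonneg (e : ℝ) : 0 ≤ ji τ e := le_max_right _ _

theorem per2_adm_ji (h1 : τ ≤ 1 / 16) : Adm (ji τ) := by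
  refine ⟨le_antisymm (per2_ji_le le_rfl) (per2_ji_nonneg _),
    le_antisymm (per2_ji_le (by norm_num)) ?_,
    fun d hd0 hd1 => ⟨per2_ji_nonneg _, (per2_ji_le hd0).trans hd1⟩⟩
  exact le_max_of_le_left (le_min le_rfl (by linarith only [h1]))

theorem per2_ji_lip (d d' : ℝ) : |ji τ d - ji τ d'| ≤ 4 / 3 * |d - d'| := by
  unfold ji
  refine (abs_max_sub_max_le_abs _ _ _).trans ((abs_min_sub_min_le_max _ _ _ _).trans ?_)
  have h := abs_nonneg (d - d')
  refine max_le (by linarith only [h]) ?_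
  have : 4 * (d - τ) / 3 - 4 * (d' - τ) / 3 = 4 / 3 * (d - d') := by ring
  rw [this, abs_mul, abs_of_pos (by norm_num : (0 : ℝ) < 4 / 3)]

theorem per2_oext_ji_lip (h1 : τ ≤ 1 / 16) (s t : ℝ) :
    ‖oext (ji τ) s - oext (ji τ) t‖ ≤ 4 / 3 * ‖s - t‖ :=
  oext_lip (per2_adm_ji h1) (by norm_num) (fun d d' _ _ _ _ => per2_ji_lip d d') s t

theorem per2_tp_ji : TP (ji τ) :=
  TP.max (TP.min TP.id' (TP.div_const (TP.const_mul 4 (TP.sub TP.id' (TP.const τ))) 3))
    (TP.const 0)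

theorem per2_tp_oext_ji (h1 : τ ≤ 1 / 16) : TP (oext (ji τ)) := by
  refine tp_oext (D := fun _ : ℝ => ji τ) (t := fun t : ℝ => t) TP.id'
    (TP.comp per2_tp_ji tp_dd) ⟨⟨4 / 3, by norm_num⟩, ?_⟩
  refine LipschitzWith.of_dist_le_mul (fun s t => ?_)
  rw [dist_eq_norm, dist_eq_norm]
  exact per2_oext_ji_lip h1 s t

theorem tp_rr (h0 : 0 < τ) (h1 : τ ≤ 1 / 16) (K : ℕ) : TP (rr τ K : V m → V m) :=
  TP.pi (fun i => TP.comp (per2_tp_oext_ji h1) (TP.apply (lh_gta h0 h1 K).tp i))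

theorem ll_rr (h0 : 0 < τ) (h1 : τ ≤ 1 / 16) {x : V m} {c : ℝ} (hc : 1 ≤ c)
    (h : LL (r0 K : V m → V m) x c) : LL (rr τ K : V m → V m) x (4 / 3 * c) := by
  have h2 : LL (gta τ K : V m → V m) x c := LL.mix h hc h0.le (by linarith)
  refine LL.pi (by positivity) (fun i => ?_)
  exact LL.comp (f := fun y : V m => gta τ K y i)
    (LL.of_forall (per2_oext_ji_lip h1) _) (LL.apply h2 i) (by norm_num)

theorem mu_rr (h0 : 0 < τ) (h1 : τ ≤ 1 / 16) {x : V m} (hx : dl K ≤ be x) :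
    mu (rr τ K x) = 0 := by
  refine le_antisymm ?_ (mu_nonneg _)
  obtain ⟨S, hS, hi⟩ := (mu_le_iff (by positivity)).1 (mu_gta_le h0 h1 hx)
  refine (mu_le_iff le_rfl).2 ⟨S, hS, fun i hiS => ?_⟩
  have h2 : rr τ K x i = oext (ji τ) (gta τ K x i) := rfl
  rw [h2, dd_oext (per2_adm_ji h1)]
  have h3 := hi i hiS
  exact max_le ((min_le_right _ _).trans (by linarith only [h0, h3])) le_rfl

theorem norm_rr_sub_gta_le (h0 : 0 < τ) (h1 : τ ≤ 1 / 16) (K : ℕ) (x : V m) :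
    ‖rr τ K x - gta τ K x‖ ≤ τ := by
  refine (pi_norm_le_iff_of_nonneg h0.le).2 (fun i => ?_)
  have h2 : rr τ K x i = oext (ji τ) (gta τ K x i) := rfl
  rw [Pi.sub_apply, Real.norm_eq_abs, h2, abs_oext_sub]
  have he := dd_nonneg (gta τ K x i)
  set e := dd (gta τ K x i)
  have h3 := per2_ji_le (τ := τ) he
  have h4 : e - τ ≤ ji τ e := by
    rcases le_total e τ with h | h
    · exact (by linarith : e - τ ≤ 0).trans (per2_ji_nonneg e)
    · exact le_max_of_le_left (le_min (by linarith) (by linarith))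
  rw [abs_le]
  constructor <;> linarith only [h4, h0, h3]

theorem rr_apply_eq (h0 : 0 < τ) (h1 : τ ≤ 1 / 16) (K : ℕ) {x : V m} {i : Fin (2 * m + 1)}
    (hx : 4 * τ ≤ dd (rr τ K x i)) : gta τ K x i = rr τ K x i := by
  have h2 : rr τ K x i = oext (ji τ) (gta τ K x i) := rfl
  rw [h2, dd_oext (per2_adm_ji h1)] at hx
  rw [h2]
  symm
  apply per2_oext_eq_self
  have he := dd_nonneg (gta τ K x i)
  have h3 := per2_ji_le (τ := τ) he
  refine le_antisymm h3 (le_max_of_le_left (le_min le_rfl ?_))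
  linarith only [hx, h3]

theorem norm_gg_sub_rr_le (h0 : 0 < τ) (h1 : τ ≤ 1 / 16) {K1 : ℕ} (hK : K1 ≤ K) {x : V m}
    (hx : dl K1 ≤ be x) : ‖gg τ K x - rr τ K1 x‖ ≤ 1 / 2 ^ K := by
  have h2 : gta τ K x = gta τ K1 x := by
    simp only [gta, mix]
    rw [r0_nested hK hx]
  have h3 : gg τ K x = fun i => oext (jj τ K) (gta τ K1 x i) := by
    rw [gg, h2]
    exact inv_EE_eq h0 h1 K (mu_gta_le h0 h1 hx)
  refine (pi_norm_le_iff_of_nonneg (by positivity)).2 (fun i => ?_)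
  have h4 : rr τ K1 x i = oext (ji τ) (gta τ K1 x i) := rfl
  rw [Pi.sub_apply, Real.norm_eq_abs, h4, h3]
  simp only []
  rw [abs_oext_sub_oext]
  have he := dd_nonneg (gta τ K1 x i)
  have he1 := dd_le_half (gta τ K1 x i)
  set e := dd (gta τ K1 x i)
  unfold jj ji
  rw [max_comm _ (2 * e / (1 + 2 ^ K)), max_comm _ (0 : ℝ)]
  refine (abs_max_sub_max_le_abs _ _ _).trans ?_
  have hP := per2_one_le_pow K
  rw [sub_zero, abs_of_nonneg (by positivity), div_le_div_iff₀ (by positivity) (by positivity)]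
  (refine le_of_not_gt fun h_nl => ?_; linarith only [h_nl, h1, he1, h0, hP, mul_pos_of_neg_of_neg (Mathlib.Tactic.Linarith.sub_neg_of_lt h0) (Mathlib.Tactic.Linarith.sub_neg_of_lt h0), mul_nonneg_of_nonpos_of_nonpos (le_of_lt (Mathlib.Tactic.Linarith.sub_neg_of_lt h0)) (Mathlib.Tactic.Linarith.sub_nonpos_of_le h1), mul_pos_of_neg_of_neg (Mathlib.Tactic.Linarith.sub_neg_of_lt h0) (Mathlib.Tactic.Linarith.sub_neg_of_lt h_nl), mul_nonneg_of_nonpos_of_nonpos (Mathlib.Tactic.Linarith.sub_nonpos_of_le h1) (le_of_lt (Mathlib.Tactic.Linarith.sub_neg_of_lt h_nl)), mul_nonneg_of_nonpos_of_nonpos (Mathlib.Tactic.Linarith.sub_nonpos_of_le he1) (Mathlib.Tactic.Linarith.sub_nonpos_of_le hP)])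

theorem mu_gg_le (h0 : 0 < τ) (h1 : τ ≤ 1 / 16) {x : V m} (hx : dl K ≤ be x) :
    mu (gg τ K x) ≤ 1 / 2 ^ K := by
  have h2 := mu_gta_le h0 h1 hx
  have h3 : gg τ K x = fun i => oext (jj τ K) (gta τ K x i) := inv_EE_eq h0 h1 K h2
  rw [h3]
  refine (per2_mu_oext_jj h0 h1 K h2).trans ?_
  exact div_le_div_of_nonneg_right (by linarith only [h0, h1]) (by positivity)

end BEv
end
end

-- merged part: Pool.Agent.Work.MP_f0515e_an.Per2b
section
/-! Fine properties of the contraction maps. -/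

open Set Metric Filter Topology MeasureTheory Function
open scoped ENNReal NNReal

noncomputable section
namespace BEv

variable {m : ℕ} {τ : ℝ} {K : ℕ}

/-- The profile of the map `r0`. -/
def per2b_psi (K : ℕ) (c : ℝ) : ℝ → ℝ := QQ (fun _ => 1 / 2) (1 / 2) K c

theorem per2b_psi_eq (K : ℕ) (c d : ℝ) : per2b_psi K c d = cmin (Finset.range K)
    (min (1 / 2) (2 ^ K * d)) (fun k => 2 ^ k * d + max (1 / 2 - 2 ^ k * c) 0) := rfl

theorem per2b_cap : Cap (fun _ => 1 / 2) (1 / 2) where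
  h0 := by norm_num
  tp := TP.const _
  mono := monotone_const
  lip d d' := by simp
  ge d _ h := ⟨h, le_rfl⟩

theorem per2b_adm (K : ℕ) (c : ℝ) : Adm (per2b_psi K c) := adm_QQ per2b_cap K c

theorem per2b_r0 (K : ℕ) (x : V m) (i : Fin (2 * m + 1)) :
    r0 K x i = 1 / 2 + oext (per2b_psi K (be x)) (x i - 1 / 2) := rfl

theorem per2b_gta (τ : ℝ) (K : ℕ) (x : V m) (i : Fin (2 * m + 1)) :
    gta τ K x i = τ * x i + (1 - τ) * r0 K x i := rfl

theorem per2b_dl (K : ℕ) : 2 ^ K * dl K = 1 / 2 := by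
  unfold dl
  field_simp
  ring

theorem per2b_dl_le (K : ℕ) : dl K ≤ 1 / 2 := by
  have h1 : (1 : ℝ) ≤ 2 ^ K := one_le_pow₀ (by norm_num)
  have h2 := per2b_dl K
  (refine le_of_not_gt fun h_nl => ?_; linarith only [h_nl, h1, h2, dl_pos K, mul_nonneg_of_nonpos_of_nonpos (Mathlib.Tactic.Linarith.sub_nonpos_of_le h1) (le_of_lt (Mathlib.Tactic.Linarith.sub_neg_of_lt h_nl))])

theorem per2b_core {c d : ℝ} (hc : c ≤ dl K) :
    per2b_psi K c d = min (1 / 2) (2 ^ K * d) := by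
  rw [per2b_psi_eq]
  refine le_antisymm (cmin_le_cap _ _ _) (le_cmin _ _ _ le_rfl fun k hk => ?_)
  have h1 : (2 : ℝ) ^ k ≤ 2 ^ K := pow_le_pow_right₀ (by norm_num) (Finset.mem_range.1 hk).le
  have h2 : (0 : ℝ) < 2 ^ k := by positivity
  have h3 := per2b_dl K
  have h4 : 1 / 2 - 2 ^ k * c ≤ max (1 / 2 - 2 ^ k * c) 0 := le_max_left _ _
  have h5 : 2 ^ k * c ≤ 2 ^ k * dl K := mul_le_mul_of_nonneg_left hc h2.le
  rcases le_total (dl K) d with h | h
  · have h6 : 2 ^ k * dl K ≤ 2 ^ k * d := mul_le_mul_of_nonneg_left h h2.le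
    exact (min_le_left _ _).trans (by linarith only [h4, h5, h6])
  · have h6 : (2 ^ K - 2 ^ k) * d ≤ (2 ^ K - 2 ^ k) * dl K :=
      mul_le_mul_of_nonneg_left h (by linarith only [h1])
    exact (min_le_right _ _).trans (by linarith only [h3, h4, h5, h6])

theorem per2b_core_eq {c c' : ℝ} (hc : c ≤ dl K) (hc' : c' ≤ dl K) :
    per2b_psi K c = per2b_psi K c' :=
  funext fun _ => (per2b_core hc).trans (per2b_core hc').symm

theorem per2b_mono {x y : V m} (hx : be x ≤ dl K) (hy : be y ≤ dl K) {i : Fin (2 * m + 1)}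
    (h : y i ≤ x i) : r0 K y i ≤ r0 K x i := by
  have hm : ∀ d d' : ℝ, d ≤ d' → per2b_psi K (be x) d ≤ per2b_psi K (be x) d' := by
    intro d d' hd
    rw [per2b_core hx, per2b_core hx]
    exact min_le_min le_rfl (mul_le_mul_of_nonneg_left hd (by positivity))
  rw [per2b_r0, per2b_r0, per2b_core_eq hy hx]
  have := oext_mono (per2b_adm K (be x)) (per2b_adm K (be x)) (s := x i - 1 / 2)
    (t := y i - 1 / 2) (by linarith only [h]) (fun d d' _ _ hd => hm _ _ (by linarith only [h, hd]))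
    (fun d d' _ _ hd => hm _ _ (by linarith only [h, hd]))
  linarith only [this]

theorem per2b_lin {x : V m} (hx : be x ≤ dl K) {i : Fin (2 * m + 1)} {k : ℤ}
    (hxi : |x i - 1 / 2 - k| ≤ dl K) : r0 K x i = 1 / 2 + k + 2 ^ K * (x i - 1 / 2 - k) := by
  have h1 : (0 : ℝ) < 2 ^ K := by positivity
  have h2 := per2b_dl K
  obtain ⟨h3, h4⟩ := abs_le.1 hxi
  rw [per2b_r0, oext_eq (per2b_adm K _) (hxi.trans (per2b_dl_le K)), per2b_core hx, per2b_core hx]
  split_ifs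
  · rw [min_eq_right (by linarith only [h2, h1, h4, mul_nonneg_of_nonpos_of_nonpos (le_of_lt (Mathlib.Tactic.Linarith.sub_neg_of_lt h1)) (Mathlib.Tactic.Linarith.sub_nonpos_of_le h4)])]
    ring
  · rw [min_eq_right (by linarith only [h2, h1, h3, mul_nonneg_of_nonpos_of_nonpos (le_of_lt (Mathlib.Tactic.Linarith.sub_neg_of_lt h1)) (Mathlib.Tactic.Linarith.sub_nonpos_of_le h3)])]
    ring

theorem per2b_flat (h0 : 0 < τ) {x : V m} {i : Fin (2 * m + 1)}
    (h : per2b_psi K (be x) (dd (x i - 1 / 2)) = 1 / 2) : dd (gta τ K x i) ≤ τ / 2 := by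
  have h1 : dd (r0 K x i - 1 / 2) = 1 / 2 := by
    rw [per2b_r0, add_sub_cancel_left, dd_oext (per2b_adm K _), h]
  rw [dd_sub_half] at h1
  obtain ⟨j, hj⟩ := dd_eq_zero_iff.1 (show dd (r0 K x i) = 0 by linarith only [h1])
  have h2 := abs_r0_sub_le K x i
  refine (dd_le _ j).trans ?_
  rw [per2b_gta, ← hj, show τ * x i + (1 - τ) * r0 K x i - r0 K x i = τ * -(r0 K x i - x i) by ring,
    abs_mul, abs_neg, abs_of_pos h0]
  linarith only [h0, h2, mul_nonneg_of_nonpos_of_nonpos (le_of_lt (Mathlib.Tactic.Linarith.sub_neg_of_lt h0)) (Mathlib.Tactic.Linarith.sub_nonpos_of_le h2)]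

theorem per2b_slope {c d d' : ℝ} (hc : dl K ≤ c) (hd : d ≤ d')
    (h : per2b_psi K c d' < 1 / 2) : d' - d ≤ 4 * c * (per2b_psi K c d' - per2b_psi K c d) := by
  have hc0 : 0 < c := (dl_pos K).trans_le hc
  have hK : 1 / 2 ≤ 2 ^ K * c := by
    rw [← per2b_dl K]
    exact mul_le_mul_of_nonneg_left hc (by positivity)
  have key : ∀ a : ℝ, 1 ≤ 4 * c * a → a * (d' - d) ≤ per2b_psi K c d' - per2b_psi K c d →
      d' - d ≤ 4 * c * (per2b_psi K c d' - per2b_psi K c d) := by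
    intro a ha hb
    have h1 := mul_le_mul_of_nonneg_left hb (show 0 ≤ 4 * c by linarith only [hc0])
    have h2 := mul_le_mul_of_nonneg_right ha (show 0 ≤ d' - d by linarith)
    linarith only [h1, h2]
  rcases cmin_eq (Finset.range K) (min (1 / 2) (2 ^ K * d'))
    (fun k => 2 ^ k * d' + max (1 / 2 - 2 ^ k * c) 0) with e | ⟨k, hk, e⟩
  · change per2b_psi K c d' = _ at e
    have h1 : per2b_psi K c d ≤ 2 ^ K * d := by
      rw [per2b_psi_eq]
      exact (cmin_le_cap _ _ _).trans (min_le_right _ _)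
    have h2 : per2b_psi K c d' = 2 ^ K * d' := by
      rcases min_cases (1 / 2 : ℝ) (2 ^ K * d') with h3 | h3 <;> linarith only [h, e, h3, h3.1]
    exact key (2 ^ K) (by linarith only [hK]) (by linarith only [h1, h2])
  · change per2b_psi K c d' = _ at e
    have h1 : per2b_psi K c d ≤ 2 ^ k * d + max (1 / 2 - 2 ^ k * c) 0 :=
      cmin_le _ _ (fun k => 2 ^ k * d + max (1 / 2 - 2 ^ k * c) 0) hk
    refine key (2 ^ k) ?_ (by linarith only [e, h1])
    by_contra hlt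
    have h2 : 2 ^ (k + 1) * c < 1 / 2 := by
      rw [pow_succ]
      linarith only [hlt]
    have h3 : k + 1 < K := by
      refine lt_of_le_of_ne (Finset.mem_range.1 hk) fun h' => ?_
      rw [h'] at h2
      linarith only [hK, h2]
    have h4 : per2b_psi K c d' ≤ 2 ^ (k + 1) * d' + max (1 / 2 - 2 ^ (k + 1) * c) 0 :=
      cmin_le _ _ (fun k => 2 ^ k * d' + max (1 / 2 - 2 ^ k * c) 0) (Finset.mem_range.2 h3)
    rw [max_eq_left (by linarith only [h2]), pow_succ] at h4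
    rw [max_eq_left (by linarith only [hlt])] at e
    linarith only [h, e, h4]

/-- Position of a coordinate in its cell. -/
theorem per2b_cell (h0 : 0 < τ) (h1 : τ ≤ 1 / 16) {x : V m} {i : Fin (2 * m + 1)} {k : ℤ}
    (hk : (k : ℝ) < gta τ K x i) (hk' : gta τ K x i < k + 1) : |x i - 1 / 2 - k| ≤ 1 / 2 := by
  have h2 := abs_sub_round (x i - 1 / 2)
  set j := round (x i - 1 / 2)
  obtain ⟨h3, h4⟩ := abs_le.1 h2
  have h5 : (j : ℝ) ≤ r0 K x i ∧ r0 K x i ≤ j + 1 := by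
    rw [per2b_r0, oext_eq (per2b_adm K _) h2]
    split_ifs with h
    · have := (per2b_adm K (be x)).2.2 (x i - 1 / 2 - j) (by linarith only [h]) (by linarith only [h4])
      constructor <;> linarith only [h0, h1, this, this.1, this.2]
    · have := (per2b_adm K (be x)).2.2 (j - (x i - 1 / 2)) (by linarith only [h]) (by linarith only [h3])
      constructor <;> linarith only [this, h0, h1, this.1, this.2]
  rw [per2b_gta] at hk hk'
  have h6 : (j : ℝ) < k + 1 := by linarith only [hk', h5, h0, h3, h1, h5.1, mul_nonneg_of_nonpos_of_nonpos (le_of_lt (Mathlib.Tactic.Linarith.sub_neg_of_lt h0)) (Mathlib.Tactic.Linarith.sub_nonpos_of_le h3), mul_nonneg_of_nonpos_of_nonpos (Mathlib.Tactic.Linarith.sub_nonpos_of_le h1) (Mathlib.Tactic.Linarith.sub_nonpos_of_le h5.left)]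
  have h7 : (k : ℝ) < j + 1 := by linarith only [h5, h0, hk, h4, h1, h5.2, mul_pos_of_neg_of_neg (Mathlib.Tactic.Linarith.sub_neg_of_lt h0) (Mathlib.Tactic.Linarith.sub_neg_of_lt hk), mul_nonneg_of_nonpos_of_nonpos (le_of_lt (Mathlib.Tactic.Linarith.sub_neg_of_lt h0)) (Mathlib.Tactic.Linarith.sub_nonpos_of_le h4), mul_nonneg_of_nonpos_of_nonpos (Mathlib.Tactic.Linarith.sub_nonpos_of_le h1) (le_of_lt (Mathlib.Tactic.Linarith.sub_neg_of_lt hk)), mul_nonneg_of_nonpos_of_nonpos (Mathlib.Tactic.Linarith.sub_nonpos_of_le h1) (Mathlib.Tactic.Linarith.sub_nonpos_of_le h5.right)]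
  have h8 : j < k + 1 := by exact_mod_cast h6
  have h9 : k < j + 1 := by exact_mod_cast h7
  rwa [show k = j by omega]

theorem per2b_fibre {x y : V m} (hx : dl K ≤ be x) (hxy : be x = be y) {i : Fin (2 * m + 1)}
    {k : ℤ} (kx : |x i - 1 / 2 - k| ≤ 1 / 2) (ky : |y i - 1 / 2 - k| ≤ 1 / 2)
    (px : per2b_psi K (be x) (dd (x i - 1 / 2)) < 1 / 2)
    (py : per2b_psi K (be x) (dd (y i - 1 / 2)) < 1 / 2) (h : y i ≤ x i) :
    x i - y i ≤ 4 * be x * (r0 K x i - r0 K y i) := by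
  have z := (per2b_adm K (be x)).1
  rw [dd_eq kx] at px
  rw [dd_eq ky] at py
  rw [per2b_r0, per2b_r0, ← hxy, oext_eq (per2b_adm K _) kx, oext_eq (per2b_adm K _) ky]
  split_ifs with a b b
  · rw [abs_of_nonneg (by linarith only [a])] at px
    have := per2b_slope hx (show y i - 1 / 2 - k ≤ x i - 1 / 2 - k by linarith only [h]) px
    linarith only [this]
  · rw [abs_of_nonneg (by linarith only [a])] at px
    rw [abs_sub_comm, abs_of_nonneg (by linarith only [b])] at py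
    have e1 := per2b_slope hx (show 0 ≤ x i - 1 / 2 - k by linarith only [a]) px
    have e2 := per2b_slope hx (show 0 ≤ k - (y i - 1 / 2) by linarith only [b]) py
    rw [z] at e1 e2
    linarith only [e1, e2]
  · linarith only [h, a, b]
  · rw [abs_sub_comm, abs_of_nonneg (by linarith only [h, a])] at py
    have := per2b_slope hx (show k - (x i - 1 / 2) ≤ k - (y i - 1 / 2) by linarith only [h]) py
    linarith only [this]

theorem per2b_small (K : ℕ) {t : ℝ} {k : ℤ} (ht : dd t ≤ τ) (hk : |t - k| < 1 / 2) :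
    oext (jj τ K) t - oext (ji τ) t = 2 / (1 + 2 ^ K) * (t - k) := by
  have hr : round t = k := by
    have : round (t - k) = 0 := round_eq_zero_iff.2 ⟨(abs_lt.1 hk).1.le, (abs_lt.1 hk).2⟩
    rw [round_sub_intCast] at this
    omega
  have h1 : min (dd t) (4 * (dd t - τ) / 3) ≤ 0 := (min_le_right _ _).trans (by linarith only [ht])
  have h2 : 0 ≤ 2 * dd t / (1 + 2 ^ K) := div_nonneg (by linarith [dd_nonneg t]) (by positivity)
  have h3 : jj τ K (dd t) = 2 * dd t / (1 + 2 ^ K) := max_eq_right (h1.trans h2)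
  have h4 : ji τ (dd t) = 0 := max_eq_right h1
  unfold oext
  rw [h3, h4]
  unfold dd
  rw [hr]
  split_ifs with h
  · rw [abs_of_nonneg (by linarith only [h])]
    ring
  · rw [abs_of_nonpos (by linarith only [h])]
    ring

theorem per2b_large {t e : ℝ} (he : 0 < min e (4 * (e - τ) / 3)) (ht : e ≤ dd t)
    (hK : 1 / min e (4 * (e - τ) / 3) ≤ 2 ^ K) : oext (jj τ K) t - oext (ji τ) t = 0 := by
  have h1 : min e (4 * (e - τ) / 3) ≤ min (dd t) (4 * (dd t - τ) / 3) :=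
    min_le_min ht (by linarith only [ht])
  have h2 : 2 * dd t / (1 + 2 ^ K) ≤ min e (4 * (e - τ) / 3) := by
    rw [div_le_iff₀ he] at hK
    rw [div_le_iff₀ (by positivity)]
    linarith only [he, hK, dd_le_half t]
  rw [sub_eq_zero]
  exact oext_congr ((max_eq_left (h2.trans h1)).trans (max_eq_left (he.le.trans h1)).symm)

theorem per2b_coord (h0 : 0 < τ) (h1 : τ ≤ 1 / 16) {G : V m → ℝ} (hG : TP G) {x : V m}
    (hx : dd (G x) - τ ≠ 0 ∨ ∀ᶠ y in 𝓝 x, dd (G y) - τ = 0) {c : ℝ} (hc : 0 < c) :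
    ∀ᶠ K in atTop, LL (fun y => oext (jj τ K) (G y) - oext (ji τ) (G y)) x c := by
  have hp : Tendsto (fun K : ℕ => (2 : ℝ) ^ K) atTop atTop :=
    tendsto_pow_atTop_atTop_of_one_lt (by norm_num)
  have hd : Continuous fun y => dd (G y) := (tp_dd.comp hG).continuous
  have small : (∀ᶠ y in 𝓝 x, dd (G y) ≤ τ) →
      ∀ᶠ K in atTop, LL (fun y => oext (jj τ K) (G y) - oext (ji τ) (G y)) x c := by
    intro hs
    obtain ⟨L, hL1, hL⟩ := hG.exists_bound
    have h2 : ∀ᶠ y in 𝓝 x, |G y - round (G x)| < 1 / 2 :=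
      ((hG.continuous.sub continuous_const).abs.continuousAt (x := x)).eventually_lt
        continuousAt_const (lt_of_le_of_lt hs.self_of_nhds (by linarith only [h0, h1]))
    filter_upwards [hp.eventually_ge_atTop (2 * L / c)] with K hK
    refine LL.congr (f := fun y => 2 / (1 + 2 ^ K) * (G y - round (G x)))
      (LL.of_forall (fun y z => ?_) x) ?_
    · have h3 : 2 / (1 + 2 ^ K) * L ≤ c := by
        rw [div_le_iff₀ hc] at hK
        rw [div_mul_eq_mul_div, div_le_iff₀ (by positivity)]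
        linarith only [hc, hK]
      rw [← mul_sub, sub_sub_sub_cancel_right, norm_mul, Real.norm_of_nonneg (by positivity)]
      calc _ ≤ 2 / (1 + 2 ^ K) * (L * ‖y - z‖) :=
            mul_le_mul_of_nonneg_left (hL y z) (by positivity)
        _ = 2 / (1 + 2 ^ K) * L * ‖y - z‖ := by ring
        _ ≤ _ := mul_le_mul_of_nonneg_right h3 (norm_nonneg _)
    · filter_upwards [hs, h2] with y a b using per2b_small K a b
  rcases hx with hx | hx
  · rcases lt_or_gt_of_ne hx with h | h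
    · exact small ((hd.continuousAt.eventually_lt continuousAt_const
        (show dd (G x) < τ by linarith)).mono fun y hy => hy.le)
    · have he : 0 < min ((dd (G x) + τ) / 2) (4 * ((dd (G x) + τ) / 2 - τ) / 3) :=
        lt_min (by linarith) (by linarith)
      have h2 : ∀ᶠ y in 𝓝 x, (dd (G x) + τ) / 2 < dd (G y) :=
        continuousAt_const.eventually_lt hd.continuousAt (by linarith)
      filter_upwards [hp.eventually_ge_atTop
        (1 / min ((dd (G x) + τ) / 2) (4 * ((dd (G x) + τ) / 2 - τ) / 3))] with K hK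
      refine ((LL.const (0 : ℝ) x).mono hc.le).congr ?_
      filter_upwards [h2] with y hy using per2b_large he hy.le hK
  · exact small (hx.mono fun y hy => by linarith)

/-- The normal part of the contraction is eventually flat at almost every point. -/
theorem ae_ll_gg_sub_rr (h0 : 0 < τ) (h1 : τ ≤ 1 / 16) (K1 : ℕ) :
    ∀ᵐ x : V m, dl K1 < be x → ∀ c : ℝ, 0 < c →
      ∀ᶠ K in atTop, LL (fun y => gg τ K y - rr τ K1 y) x c := by
  have hG : ∀ i, TP fun y : V m => gta τ K1 y i := fun i => (lh_gta h0 h1 K1).tp.apply i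
  have hae : ∀ᵐ x : V m, ∀ i, dd (gta τ K1 x i) - τ ≠ 0 ∨
      ∀ᶠ y in 𝓝 x, dd (gta τ K1 y i) - τ = 0 :=
    ae_all_iff.2 fun i => ((tp_dd.comp (hG i)).sub (TP.const τ)).ae_ne_or
  filter_upwards [hae] with x hx hb c hc
  have h2 : ∀ᶠ y in 𝓝 x, dl K1 < be y :=
    continuousAt_const.eventually_lt tp_be.continuous.continuousAt hb
  filter_upwards [eventually_all.2 fun i => per2b_coord h0 h1 (hG i) (hx i) hc,
    eventually_ge_atTop K1] with K hK hK1
  refine LL.pi hc.le fun i => (hK i).congr ?_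
  filter_upwards [h2] with y hy
  have e : gta τ K y = gta τ K1 y := by
    funext j
    rw [per2b_gta, per2b_gta, r0_nested hK1 hy.le]
  rw [Pi.sub_apply, gg, e, inv_EE_eq h0 h1 K (mu_gta_le h0 h1 hy.le)]
  rfl

/-- In the core the map `gta` is a product map. -/
theorem core_expand (h0 : 0 < τ) (h1 : τ ≤ 1 / 16) {x y : V m} (hx : be x ≤ dl K)
    (hy : be y ≤ dl K) (i : Fin (2 * m + 1)) :
    τ * |x i - y i| ≤ |gta τ K x i - gta τ K y i| := by
  wlog h : y i ≤ x i generalizing x y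
  · rw [abs_sub_comm (x i), abs_sub_comm (gta τ K x i)]
    exact this hy hx (not_le.1 h).le
  have h2 := mul_nonneg (show 0 ≤ 1 - τ by linarith only [h0, h1]) (sub_nonneg.2 (per2b_mono hx hy h))
  rw [abs_of_nonneg (sub_nonneg.2 h), per2b_gta, per2b_gta]
  exact le_trans (by linarith) (le_abs_self _)

theorem core_expand' (h0 : 0 < τ) (h1 : τ ≤ 1 / 16) {x y : V m} (hx : be x ≤ dl K)
    (hy : be y ≤ dl K) {i : Fin (2 * m + 1)} {k : ℤ} (hxi : |x i - 1 / 2 - k| ≤ dl K)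
    (hyi : |y i - 1 / 2 - k| ≤ dl K) :
    2 ^ K / 2 * |x i - y i| ≤ |gta τ K x i - gta τ K y i| := by
  have h2 : (0 : ℝ) < 2 ^ K := by positivity
  have h3 : gta τ K x i - gta τ K y i = (τ + (1 - τ) * 2 ^ K) * (x i - y i) := by
    rw [per2b_gta, per2b_gta, per2b_lin hx hxi, per2b_lin hy hyi]
    ring
  have h4 : 2 ^ K / 2 ≤ τ + (1 - τ) * 2 ^ K := by linarith only [h2, h0, h1, mul_pos_of_neg_of_neg (Mathlib.Tactic.Linarith.sub_neg_of_lt h0) (Mathlib.Tactic.Linarith.sub_neg_of_lt h0), mul_nonneg_of_nonpos_of_nonpos (le_of_lt (Mathlib.Tactic.Linarith.sub_neg_of_lt h0)) (Mathlib.Tactic.Linarith.sub_nonpos_of_le h1), mul_nonneg_of_nonpos_of_nonpos (Mathlib.Tactic.Linarith.sub_nonpos_of_le h1) (le_of_lt (Mathlib.Tactic.Linarith.sub_neg_of_lt h2))]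
  rw [h3, abs_mul]
  exact mul_le_mul_of_nonneg_right (h4.trans (le_abs_self _)) (abs_nonneg _)

theorem dd_lt_be (h0 : 0 < τ) (h1 : τ ≤ 1 / 16) {x : V m} (hx : dl K ≤ be x)
    {i : Fin (2 * m + 1)} (hi : τ ≤ dd (gta τ K x i)) : dd (x i - 1 / 2) < be x := by
  by_contra hc
  rw [not_lt] at hc
  have h2 : per2b_psi K (be x) (dd (x i - 1 / 2)) = 1 / 2 := by
    rw [per2b_psi_eq]
    refine le_antisymm ((cmin_le_cap _ _ _).trans (min_le_left _ _))
      (le_cmin _ _ _ (le_min le_rfl ?_) fun k _ => ?_)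
    · exact (per2b_dl K).ge.trans (mul_le_mul_of_nonneg_left (hx.trans hc) (by positivity))
    · have h3 : 2 ^ k * be x ≤ 2 ^ k * dd (x i - 1 / 2) :=
        mul_le_mul_of_nonneg_left hc (by positivity)
      linarith only [h3, le_max_left (1 / 2 - 2 ^ k * be x) 0]
  linarith only [h0, hi, h2, per2b_flat h0 h2]

/-- Tangential expansion along the fibres of the contraction. -/
theorem fibre_expand (h0 : 0 < τ) (h1 : τ ≤ 1 / 16) {x y : V m} (hx : dl K ≤ be x)
    (hxy : be x = be y) {i : Fin (2 * m + 1)} {a t : ℝ} (ha : 6 * τ ≤ dd a) (ht : t ≤ τ)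
    (hxi : |gta τ K x i - a| ≤ t) (hyi : |gta τ K y i - a| ≤ t) :
    |x i - y i| ≤ 16 * be x * t := by
  wlog h : y i ≤ x i generalizing x y
  · rw [abs_sub_comm (x i), hxy]
    exact this (hxy ▸ hx) hxy.symm hyi hxi (not_le.1 h).le
  have a1 := dd_le a ⌊a⌋
  have a2 := dd_le a (⌊a⌋ + 1)
  push_cast at a2
  rw [abs_of_nonneg (sub_nonneg.2 (Int.floor_le a))] at a1
  rw [abs_of_nonpos (sub_nonpos.2 (Int.lt_floor_add_one a).le)] at a2
  obtain ⟨x1, x2⟩ := abs_le.1 hxi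
  obtain ⟨y1, y2⟩ := abs_le.1 hyi
  have lt : ∀ z : V m, |gta τ K z i - a| ≤ t →
      per2b_psi K (be z) (dd (z i - 1 / 2)) < 1 / 2 := by
    intro z hz
    refine lt_of_le_of_ne ((per2b_adm K _).2.2 _ (dd_nonneg _) (dd_le_half _)).2 fun e => ?_
    have b1 := per2b_flat h0 e
    have b2 := (abs_le.1 ((abs_dd_sub_le (gta τ K z i) a).trans hz)).1
    linarith only [h0, ha, ht, b1, b2]
  have key := per2b_fibre hx hxy (k := ⌊a⌋) (per2b_cell h0 h1 (K := K) (by linarith only [h0, ha, ht, a1, x1]) (by linarith only [h0, ha, ht, a2, x2]))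
    (per2b_cell h0 h1 (K := K) (by linarith only [h0, ha, ht, a1, y1]) (by linarith only [h0, ha, ht, a2, y2])) (lt x hxi) (hxy ▸ lt y hyi) h
  have hb : 0 < be x := (dl_pos K).trans_le hx
  have hr : 0 ≤ r0 K x i - r0 K y i := by
    by_contra hc
    have := mul_neg_of_pos_of_neg (show 0 < 4 * be x by linarith only [hb]) (not_le.1 hc)
    linarith only [h, key, this]
  rw [per2b_gta] at x2 y1
  have h5 : r0 K x i - r0 K y i ≤ 4 * t := by linarith only [x2, y1, hr, h0, h, h1, mul_nonneg_of_nonpos_of_nonpos (le_of_lt (Mathlib.Tactic.Linarith.sub_neg_of_lt h0)) (Mathlib.Tactic.Linarith.sub_nonpos_of_le h), mul_nonneg_of_nonpos_of_nonpos (Mathlib.Tactic.Linarith.sub_nonpos_of_le h1) (Mathlib.Tactic.Linarith.sub_nonpos_of_le hr)]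
  rw [abs_of_nonneg (sub_nonneg.2 h)]
  (refine le_of_not_gt fun h_nl => ?_; linarith only [h_nl, key, h0, h1, hb, h5, mul_pos_of_neg_of_neg (Mathlib.Tactic.Linarith.sub_neg_of_lt h0) (Mathlib.Tactic.Linarith.sub_neg_of_lt h_nl), mul_nonneg_of_nonpos_of_nonpos (Mathlib.Tactic.Linarith.sub_nonpos_of_le h1) (le_of_lt (Mathlib.Tactic.Linarith.sub_neg_of_lt h_nl)), mul_nonneg_of_nonpos_of_nonpos (le_of_lt (Mathlib.Tactic.Linarith.sub_neg_of_lt hb)) (Mathlib.Tactic.Linarith.sub_nonpos_of_le h5)])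

end BEv
end
end

-- merged part: Pool.Agent.Work.MP_f0515e_an.Per2c
section
/-! Localised contraction maps. -/

open Set Metric Filter Topology MeasureTheory Function
open scoped ENNReal NNReal

noncomputable section
namespace BEv

variable {m : ℕ} {τ : ℝ} {K : ℕ}

section Loc
variable {η : V m → ℝ}

theorem lh_gtl (h0 : 0 < τ) (h1 : τ ≤ 1 / 16) (K : ℕ) (ht : TP η)
    (hη : ∀ x y, |η x - η y| ≤ ‖x - y‖) : LH (gtl τ K η) :=
  ((accr_r0 K).loc hη).lh ((tp_r0 K).loc ht) h0 (by linarith only [h0, h1])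

theorem lh_EEl (h0 : 0 < τ) (h1 : τ ≤ 1 / 16) (K : ℕ) (ht : TP η)
    (hη : ∀ x y, |η x - η y| ≤ ‖x - y‖) : LH (EEl τ K η) :=
  ((accr_MM h0 h1 K).loc hη).lh ((tp_MM h0 h1 K).loc ht) (by norm_num) (by norm_num)

theorem gtl_eq {x : V m} (hx : 1 / 2 ≤ η x) : gtl τ K η x = gta τ K x := by
  unfold gtl gta mix
  rw [loc_eq_of_le fun i => (abs_r0_sub_le K x i).trans hx]

theorem gtl_eq_self {x : V m} (hx : η x = 0) : gtl τ K η x = x := by
  unfold gtl mix
  rw [loc_eq_self hx, ← add_smul]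
  simp

theorem EEl_eq (h0 : 0 < τ) (h1 : τ ≤ 1 / 16) {x : V m} (hx : 2 * τ ≤ η x) :
    EEl τ K η x = EE τ K x := by
  unfold EEl EE mix
  rw [loc_eq_of_le fun i => (abs_MM_sub_le h0 h1 K x i).trans hx]

theorem EEl_eq_self {x : V m} (hx : η x = 0) : EEl τ K η x = x := by
  unfold EEl mix
  rw [loc_eq_self hx, ← add_smul]
  simp

theorem norm_EEl_sub_le (h0 : 0 < τ) (h1 : τ ≤ 1 / 16) {x : V m} (hx : 0 ≤ η x) :
    ‖EEl τ K η x - x‖ ≤ τ := by
  refine (pi_norm_le_iff_of_nonneg h0.le).2 fun i => ?_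
  have h2 := (abs_loc_sub_le (Φ := MM τ K) hx i).trans (abs_MM_sub_le h0 h1 K x i)
  rw [Pi.sub_apply, Real.norm_eq_abs, EEl, mix_sub, abs_mul, abs_of_pos (by norm_num)]
  linarith only [h2]

theorem per2c_norm_gtl_sub_le (h0 : 0 < τ) (h1 : τ ≤ 1 / 16) {x : V m} (hx : 0 ≤ η x) :
    ‖gtl τ K η x - x‖ ≤ 1 / 2 := by
  refine (pi_norm_le_iff_of_nonneg (by norm_num)).2 fun i => ?_
  have h2 := (abs_loc_sub_le (Φ := r0 K) hx i).trans (abs_r0_sub_le K x i)
  rw [Pi.sub_apply, Real.norm_eq_abs, gtl, mix_sub, abs_mul, abs_of_pos (by linarith only [h0, h1])]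
  linarith only [h2, h0, abs_nonneg (loc η (r0 K) x i - x i), mul_nonneg_of_nonpos_of_nonpos (le_of_lt (Mathlib.Tactic.Linarith.sub_neg_of_lt h0)) (Mathlib.Tactic.Linarith.sub_nonpos_of_le (abs_nonneg (loc η (r0 K) x i - x i)))]

theorem per2c_between {a b e : ℝ} (he : 0 ≤ e) :
    |max (a - e) (min b (a + e)) - b| ≤ |b - a| := by
  rcases le_total b (a + e) with h | h
  · rw [min_eq_left h]
    rcases le_total (a - e) b with h' | h'
    · rw [max_eq_right h', sub_self, abs_zero]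
      exact abs_nonneg _
    · rw [max_eq_left h', abs_of_nonneg (by linarith), abs_of_nonpos (by linarith)]
      linarith
  · rw [min_eq_right h, max_eq_right (by linarith), abs_of_nonpos (by linarith),
      abs_of_nonneg (by linarith)]
    linarith only [he]

theorem norm_gtl_inv_sub_le (h0 : 0 < τ) (h1 : τ ≤ 1 / 16) (hη : ∀ x, 0 ≤ η x) (y : V m) :
    ‖gtl τ K η (invFun (gta τ K) y) - y‖ ≤ 1 / 2 := by
  obtain ⟨w, rfl⟩ := (lh_gta (m := m) h0 h1 K).1.2 y
  rw [(lh_gta h0 h1 K).li]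
  refine (pi_norm_le_iff_of_nonneg (by norm_num)).2 fun i => ?_
  have h2 : |loc η (r0 K) w i - r0 K w i| ≤ 1 / 2 :=
    (per2c_between (hη w)).trans (abs_r0_sub_le K w i)
  have e : (gtl τ K η w - gta τ K w) i = (1 - τ) * (loc η (r0 K) w i - r0 K w i) := by
    simp only [gtl, gta, mix, Pi.sub_apply, Pi.add_apply, Pi.smul_apply, smul_eq_mul]
    ring
  rw [e, Real.norm_eq_abs, abs_mul, abs_of_pos (by linarith only [h0, h1])]
  linarith only [h2, h0, abs_nonneg (loc η (r0 K) w i - r0 K w i), mul_nonneg_of_nonpos_of_nonpos (le_of_lt (Mathlib.Tactic.Linarith.sub_neg_of_lt h0)) (Mathlib.Tactic.Linarith.sub_nonpos_of_le (abs_nonneg (loc η (r0 K) w i - r0 K w i)))]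

theorem lh_ggl (h0 : 0 < τ) (h1 : τ ≤ 1 / 16) (K : ℕ) (ht : TP η)
    (hη : ∀ x y, |η x - η y| ≤ ‖x - y‖) : LH (ggl τ K η) :=
  (lh_EEl h0 h1 K ht hη).inv.comp (lh_gtl h0 h1 K ht hη)

theorem norm_ggl_sub_le (h0 : 0 < τ) (h1 : τ ≤ 1 / 16) (ht : TP η)
    (hη : ∀ x y, |η x - η y| ≤ ‖x - y‖) (hη0 : ∀ x, 0 ≤ η x) (x : V m) :
    ‖ggl τ K η x - x‖ ≤ 1 / 2 + τ := by
  have e : EEl τ K η (ggl τ K η x) = gtl τ K η x := (lh_EEl h0 h1 K ht hη).ri _
  have h2 := norm_EEl_sub_le (K := K) h0 h1 (hη0 (ggl τ K η x))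
  have h3 := per2c_norm_gtl_sub_le (K := K) h0 h1 (hη0 x)
  rw [e, norm_sub_rev] at h2
  have h4 := norm_sub_le_norm_sub_add_norm_sub (ggl τ K η x) (gtl τ K η x) x
  linarith only [h2, h3, h4]

theorem ggl_eq (h0 : 0 < τ) (h1 : τ ≤ 1 / 16) (ht : TP η)
    (hη : ∀ x y, |η x - η y| ≤ ‖x - y‖) {x : V m} (hx : 1 ≤ η x) :
    ggl τ K η x = gg τ K x := by
  refine (lh_EEl h0 h1 K ht hη).inv_eq ?_
  have h2 := norm_sub_le_norm_sub_add_norm_sub (gg τ K x) (gta τ K x) x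
  have h3 := norm_gg_sub_gta_le h0 h1 K x
  have h4 := norm_gta_sub_le h0 h1 K x
  have h5 := (abs_le.1 (hη (gg τ K x) x)).1
  rw [EEl_eq h0 h1 (by linarith only [h0, h1, hx, h2, h3, h4, h5]), EE_gg h0 h1, gtl_eq (by linarith only [h0, h1, hx])]

theorem ggl_eq_self (h0 : 0 < τ) (h1 : τ ≤ 1 / 16) (ht : TP η)
    (hη : ∀ x y, |η x - η y| ≤ ‖x - y‖) {x : V m} (hx : η x = 0) : ggl τ K η x = x :=
  (lh_EEl h0 h1 K ht hη).inv_eq (by rw [EEl_eq_self hx, gtl_eq_self hx])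

theorem ll_ggl (h0 : 0 < τ) (h1 : τ ≤ 1 / 16) (ht : TP η)
    (hη : ∀ x y, |η x - η y| ≤ ‖x - y‖) {x : V m} {c : ℝ} (hc : 2 ≤ c)
    (h : LL (r0 K : V m → V m) x c) : LL (ggl τ K η) x (2 * c) := by
  have h2 : LL η x 1 := LL.of_forall (fun y z => by rw [one_mul]; exact hη y z) x
  have h3 : LL (gtl τ K η) x c :=
    (h.loc h2 zero_le_one (by linarith)).mix (by linarith) h0.le (by linarith)
  have h4 : LL (invFun (EEl τ K η)) (gtl τ K η x) 2 := by
    refine LL.of_forall (fun y z => ?_) _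
    have := ((accr_MM (m := m) h0 h1 K).loc hη).inv_lip ((tp_MM h0 h1 K).loc ht)
      (c := 1 / 2) (by norm_num) (by norm_num) y z
    rw [one_div_one_div] at this
    exact this
  exact h4.comp h3 (by norm_num)

end Loc

end BEv
end
end

-- merged part: Pool.Agent.Work.MP_f0515e_an.Shear
section
/-! Projection, reflection, shear, and the basic properties of states. -/

open Set Metric Filter Topology MeasureTheory Function
open scoped ENNReal NNReal

noncomputable section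
namespace BEv

variable {m : ℕ} {v : V m} {σ : ℝ}

theorem pj_add_ell (v z : V m) : pj v z + ell v z • v = z := sub_add_cancel _ _

theorem shear_ell_add (hv : v 0 ≠ 0) (y : V m) (t : ℝ) : ell v (y + t • v) = ell v y + t := by
  simp only [ell, Pi.add_apply, Pi.smul_apply, smul_eq_mul]
  field_simp

theorem shear_ell_pj (hv : v 0 ≠ 0) (y : V m) : ell v (pj v y) = 0 := by
  have h := shear_ell_add hv (pj v y) (ell v y)
  rw [pj_add_ell] at h
  linarith

theorem ell_pj_add (hv : v 0 ≠ 0) (y : V m) (t : ℝ) : ell v (pj v y + t • v) = t := by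
  rw [shear_ell_add hv, shear_ell_pj hv, zero_add]

theorem pj_pj_add (hv : v 0 ≠ 0) (y : V m) (t : ℝ) : pj v (pj v y + t • v) = pj v y := by
  rw [pj, ell_pj_add hv, add_sub_cancel_right]

theorem rf_eq (v z : V m) : rf v z = pj v z + (-ell v z) • v := by
  rw [rf, pj, two_mul (ell v z), add_smul, neg_smul]
  abel

theorem tp_ell (v : V m) : TP (ell v) := (TP.apply TP.id' 0).div_const (v 0)

theorem tp_pj (v : V m) : TP (pj v) := TP.id'.sub ((tp_ell v).smul_const v)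

theorem shear_lh {f g : V m → V m} (hf : TP f) (hg : TP g) (h1 : LeftInverse g f)
    (h2 : RightInverse g f) : LH f := by
  refine ⟨⟨h1.injective, h2.surjective⟩, hf, ?_⟩
  have : invFun f = g := funext fun y => by
    conv_lhs => rw [← h2 y]
    exact leftInverse_invFun h1.injective _
  rwa [this]

theorem lh_rf (hv : v 0 ≠ 0) : LH (rf v) := by
  have h1 : TP (rf v) := TP.id'.sub (((tp_ell v).const_mul 2).smul_const v)
  have h2 : LeftInverse (rf v) (rf v) := fun z => by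
    rw [rf_eq v z, rf_eq, pj_pj_add hv, ell_pj_add hv, neg_neg, pj_add_ell]
  exact shear_lh h1 h1 h2 h2

theorem shear_b (σ t t' : ℝ) :
    |max (4 * σ - |t|) 0 / 2 - max (4 * σ - |t'|) 0 / 2| ≤ |t - t'| / 2 := by
  have h1 := abs_max_sub_max_le_abs (4 * σ - |t|) (4 * σ - |t'|) 0
  have h2 : |4 * σ - |t| - (4 * σ - |t'|)| ≤ |t - t'| := by
    rw [show 4 * σ - |t| - (4 * σ - |t'|) = |t'| - |t| by ring, abs_sub_comm t]
    exact abs_abs_sub_abs_le _ _
  rw [← sub_div, abs_div, abs_two]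
  linarith only [h1, h2]

theorem shear_b0 (σ t : ℝ) : 0 ≤ max (4 * σ - |t|) 0 / 2 := by positivity

theorem shear_tp (σ : ℝ) : TP (sh σ) :=
  (TP.fst TP.id').prod ((TP.snd TP.id').sub ((TP.fst TP.id').clamp
    ((((TP.const (4 * σ)).sub (TP.snd TP.id').abs).max (TP.const 0)).div_const 2)))

theorem lh_sh (hσ : 0 < σ) : LH (sh σ) := by
  refine LH.of_expanding (shear_tp σ) (fun p => ?_) (c := 1 / 4) (by norm_num) fun p q => ?_
  · have hc : Continuous fun t : ℝ => (sh σ (p.1, t)).2 :=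
      ((shear_tp σ).continuous.comp (Continuous.prodMk_right p.1)).snd
    have hb : ∀ t, |clamp p.1 (max (4 * σ - |t|) 0 / 2)| ≤ 2 * σ := fun t =>
      (abs_clamp_le (shear_b0 σ t)).trans (by
        have : max (4 * σ - |t|) 0 ≤ 4 * σ := max_le (by linarith [abs_nonneg t]) (by linarith)
        linarith)
    obtain ⟨t, ht⟩ := intermediate_value_univ (p.2 - 2 * σ) (p.2 + 2 * σ) hc
      (show p.2 ∈ Icc _ _ from
        ⟨by have := abs_le.1 (hb (p.2 - 2 * σ)); simp only [sh]; linarith only [this, this.1],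
          by have := abs_le.1 (hb (p.2 + 2 * σ)); simp only [sh]; linarith only [this, this.2]⟩)
    exact ⟨(p.1, t), Prod.ext rfl ht⟩
  · have h1 := abs_clamp_sub_le p.1 (max (4 * σ - |p.2|) 0 / 2) q.1 (max (4 * σ - |q.2|) 0 / 2)
    have h2 := shear_b σ p.2 q.2
    simp only [Prod.norm_def, sh, Prod.fst_sub, Prod.snd_sub, Real.norm_eq_abs]
    generalize clamp p.1 (max (4 * σ - |p.2|) 0 / 2) = x at h1 ⊢
    generalize clamp q.1 (max (4 * σ - |q.2|) 0 / 2) = y at h1 ⊢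
    have h3 : |p.2 - q.2| ≤ |p.2 - x - (q.2 - y)| + |x - y| := by
      have := abs_add_le (p.2 - x - (q.2 - y)) (x - y)
      rwa [show p.2 - x - (q.2 - y) + (x - y) = p.2 - q.2 by ring] at this
    have h4 := le_max_left |p.1 - q.1| |p.2 - x - (q.2 - y)|
    have h5 := le_max_right |p.1 - q.1| |p.2 - x - (q.2 - y)|
    have h6 := abs_nonneg (p.1 - q.1)
    have h7 := abs_nonneg (p.2 - q.2)
    rcases le_max_iff.1 h1 with h | h <;> rcases max_choice |p.1 - q.1| |p.2 - q.2| with e | e <;>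
      rw [e] <;> linarith only [h4, h6, h3, h5, h, h2]

theorem tp_RR (hσ : 0 < σ) : TP (fun p : ℝ × ℝ => RR σ p.1 p.2) :=
  ((lh_sh hσ).tpi.comp ((TP.fst TP.id').prod (shear_tp σ).snd.neg)).snd

theorem shear_inv (hσ : 0 < σ) {c t y : ℝ} (h : (sh σ (c, t)).2 = y) :
    (invFun (sh σ) (c, y)).2 = t :=
  congrArg Prod.snd ((lh_sh hσ).inv_eq (x := (c, t)) (y := (c, y)) (Prod.ext rfl h))

theorem shear_ri (hσ : 0 < σ) (c y : ℝ) : (sh σ (c, (invFun (sh σ) (c, y)).2)).2 = y := by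
  have h := (lh_sh hσ).ri (c, y)
  have h1 : (invFun (sh σ) (c, y)).1 = c := congrArg Prod.fst h
  have h2 : (c, (invFun (sh σ) (c, y)).2) = invFun (sh σ) (c, y) := Prod.ext h1.symm rfl
  rw [h2, h]

theorem sh_RR (hσ : 0 < σ) (c t : ℝ) : (sh σ (c, RR σ c t)).2 = -(sh σ (c, t)).2 :=
  shear_ri hσ _ _

theorem sh_self (hσ : 0 < σ) {c : ℝ} (hc : |c| ≤ σ) : (sh σ (c, c)).2 = 0 := by
  have h : |c| ≤ max (4 * σ - |c|) 0 / 2 := by
    have := le_max_left (4 * σ - |c|) 0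
    linarith only [hσ, hc, this]
  simp only [sh]
  rw [clamp_eq_self h, sub_self]

theorem RR_self (hσ : 0 < σ) {c : ℝ} (hc : |c| ≤ σ) : RR σ c c = c :=
  shear_inv hσ (by rw [sh_self hσ hc, neg_zero])

theorem shear_zero (σ t : ℝ) : (sh σ (0, t)).2 = t := by
  simp only [sh]
  rw [clamp_eq_self (by rw [abs_zero]; exact shear_b0 σ t), sub_zero]

theorem RR_zero (hσ : 0 < σ) (t : ℝ) : RR σ 0 t = -t :=
  shear_inv hσ (by rw [shear_zero, shear_zero])

theorem shear_far (c : ℝ) {t : ℝ} (ht : 4 * σ ≤ |t|) : (sh σ (c, t)).2 = t := by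
  simp only [sh]
  rw [max_eq_right (by linarith), zero_div, clamp_zero, sub_zero]

theorem RR_far (hσ : 0 < σ) (c : ℝ) {t : ℝ} (ht : 4 * σ ≤ |t|) : RR σ c t = -t :=
  shear_inv hσ (by rw [shear_far c ht, shear_far c (by rwa [abs_neg])])

theorem abs_RR_le (hσ : 0 < σ) (c : ℝ) {t : ℝ} (ht : |t| ≤ 4 * σ) : |RR σ c t| ≤ 4 * σ := by
  by_contra h
  have h1 := sh_RR hσ c t
  rw [shear_far c (not_le.1 h).le] at h1
  apply h
  rw [h1, abs_neg]
  have h2 := abs_clamp_le (c := c) (shear_b0 σ t)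
  rw [max_eq_left (by linarith only [ht])] at h2
  simp only [sh]
  rw [max_eq_left (by linarith only [ht])]
  exact (abs_sub _ _).trans (by linarith only [ht, h2])

theorem RR_RR (hσ : 0 < σ) (c t : ℝ) : RR σ c (RR σ c t) = t :=
  shear_inv hσ (by rw [sh_RR hσ, neg_neg])

theorem pj_SS (hv : v 0 ≠ 0) (σ : ℝ) (φ : V m → ℝ) (z : V m) :
    pj v (SS v σ φ z) = pj v z := pj_pj_add hv _ _

theorem ell_SS (hv : v 0 ≠ 0) (σ : ℝ) (φ : V m → ℝ) (z : V m) :
    ell v (SS v σ φ z) = (sh σ (φ (pj v z), ell v z)).2 := ell_pj_add hv _ _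

theorem lh_SS (hv : v 0 ≠ 0) (hσ : 0 < σ) {φ : V m → ℝ} (hφ : TP φ) : LH (SS v σ φ) := by
  have h0 : TP fun z => (φ (pj v z), ell v z) := (hφ.comp (tp_pj v)).prod (tp_ell v)
  refine shear_lh (g := fun z => pj v z + (invFun (sh σ) (φ (pj v z), ell v z)).2 • v)
    ((tp_pj v).add (((shear_tp σ).comp h0).snd.smul_const v))
    ((tp_pj v).add (((lh_sh hσ).tpi.comp h0).snd.smul_const v)) (fun z => ?_) fun z => ?_
  · simp only
    rw [pj_SS hv, ell_SS hv, shear_inv hσ rfl, pj_add_ell]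
  · simp only [SS]
    rw [pj_pj_add hv, ell_pj_add hv, shear_ri hσ, pj_add_ell]

theorem inv_SS_rf (hv : v 0 ≠ 0) (hσ : 0 < σ) {φ : V m → ℝ} (hφ : TP φ) (z : V m) :
    invFun (SS v σ φ) (rf v (SS v σ φ z)) = pj v z + RR σ (φ (pj v z)) (ell v z) • v := by
  refine (lh_SS hv hσ hφ).inv_eq ?_
  rw [rf_eq, pj_SS hv, ell_SS hv, SS, pj_pj_add hv, ell_pj_add hv, sh_RR hσ]

end BEv
end
end

-- merged part: Pool.Agent.Work.MP_f0515e_an.State
section
/-! Basic properties of states. -/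

open Set Metric Filter Topology MeasureTheory Function
open scoped ENNReal NNReal

noncomputable section
namespace BEv

variable {m : ℕ} {v : V m} {σ : ℝ}

namespace St
variable {s : St m}

theorem a_nonneg (h : Ok v s) (y : V m) : 0 ≤ s.a y :=
  le_min h.hσ.le (le_max_right _ _)

theorem a_le (s : St m) (y : V m) : s.a y ≤ s.σ := min_le_left _ _

theorem tp_a (h : Ok v s) : TP s.a := (TP.const s.σ).min (h.ha0.max (TP.const 0))

theorem tp_f (h : Ok v s) : TP (f v s) :=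
  ((tp_ell v).comp h.hG.tp).clamp ((tp_a h).comp ((tp_pj v).comp h.hG.tp))

theorem abs_f_le (h : Ok v s) (x : V m) : |f v s x| ≤ s.a (pj v (s.G x)) :=
  abs_clamp_le (a_nonneg h _)

theorem tp_Psi (h : Ok v s) : TP (fun p : V m × ℝ => Psi v s p.1 p.2) := by
  have h1 : TP (fun p : V m × ℝ => s.G p.1) := h.hG.tp.comp TP.id'.fst
  have h2 : TP (fun p : V m × ℝ => (p.2, ell v (s.G p.1))) := TP.id'.snd.prod ((tp_ell v).comp h1)
  have h3 : TP (fun p : V m × ℝ => RR s.σ p.2 (ell v (s.G p.1))) := (tp_RR h.hσ).comp h2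
  exact h.hH.tpi.comp (((tp_pj v).comp h1).add (h3.smul_const v))

theorem tp_u (h : Ok v s) : TP (u v s) := (tp_Psi h).comp (TP.id'.prod (tp_f h))

theorem lh_k (h : Ok v s) : LH (k v s) := h.hH.inv.comp ((lh_rf h.hv).comp h.hG)

theorem isCompact_U (h : Ok v s) : IsCompact (U v s) := by
  refine Metric.isCompact_of_isClosed_isBounded ?_ h.bdd
  exact (isClosed_le continuous_const (h.ha0.comp ((tp_pj v).comp h.hG.tp)).continuous).inter
    (isClosed_le ((tp_ell v).comp h.hG.tp).abs.continuous continuous_const)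

theorem I_subset_U (h : Ok v s) : s.I ⊆ U v s := fun x hx => by
  obtain ⟨-, h1, h2⟩ := h.onI x hx
  have h3 := s.a_le (pj v (s.G x))
  have h4 := h.hσ
  exact ⟨h1, by linarith⟩

theorem u_thick (h : Ok v s) {x : V m} (hx : |ell v (s.G x)| ≤ s.a (pj v (s.G x))) :
    u v s x = invFun s.H (s.G x) := by
  unfold u Psi f
  rw [clamp_eq_self hx, RR_self h.hσ (hx.trans (s.a_le _)), pj_add_ell]

theorem u_eq_self (h : Ok v s) {x : V m} (hx : x ∈ s.I) : u v s x = x := by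
  obtain ⟨h0, -, h2⟩ := h.onI x hx
  rw [u_thick h h2, ← h0, h.hH.li]

theorem Psi_eq_k (h : Ok v s) {x : V m} (hx : x ∉ U v s) {c : ℝ}
    (hc : |c| ≤ s.a (pj v (s.G x))) : Psi v s x c = k v s x := by
  unfold Psi k
  rw [rf_eq]
  rcases not_and_or.1 hx with h1 | h1
  · have h2 : s.a (pj v (s.G x)) = 0 := by
      unfold a
      rw [max_eq_right (not_le.1 h1).le, min_eq_right h.hσ.le]
    rw [h2, abs_nonpos_iff] at hc
    rw [hc, RR_zero h.hσ]
  · rw [RR_far h.hσ c (not_le.1 h1).le]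

theorem u_eq_k (h : Ok v s) {x : V m} (hx : x ∉ U v s) : u v s x = k v s x :=
  Psi_eq_k h hx (abs_f_le h x)

theorem mem_U_of_k (h : Ok v s) {x : V m} (hx : k v s x ∈ s.I) : x ∈ U v s := by
  obtain ⟨h0, h1, h2⟩ := h.onI _ hx
  have h3 : s.G (k v s x) = pj v (s.G x) + (-ell v (s.G x)) • v := by
    rw [← h0, ← rf_eq]
    exact h.hH.ri _
  rw [h3, pj_pj_add h.hv] at h1 h2
  rw [ell_pj_add h.hv, abs_neg] at h2
  have h4 := s.a_le (pj v (s.G x))
  have h5 := h.hσ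
  exact ⟨h1, by linarith⟩

theorem Fold_subset (h : Ok v s) : Fold v s ⊆ U v s := fun z hz => by
  by_contra hn
  exact hn (mem_U_of_k h (u_eq_k h hn ▸ hz.2))

theorem pj_G_Psi (h : Ok v s) {x : V m} {c : ℝ} (hx : Psi v s x c ∈ s.I) :
    pj v (s.G (Psi v s x c)) = pj v (s.G x) := by
  rw [← (h.onI _ hx).1]
  unfold Psi
  rw [h.hH.ri, pj_pj_add h.hv]

theorem norm_Psi_sub_le (h : Ok v s) {η : ℝ} (hη : Fib v s η) {x : V m} (hx : x ∈ U v s)
    (c : ℝ) : ‖Psi v s x c - x‖ ≤ η :=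
  hη x hx _ (abs_RR_le h.hσ c hx.2)

theorem norm_k_sub_le (h : Ok v s) {η : ℝ} (hη : Fib v s η) {x : V m} (hx : x ∈ U v s) :
    ‖k v s x - x‖ ≤ η := by
  unfold k
  rw [rf_eq]
  exact hη x hx _ (by rw [abs_neg]; exact hx.2)

theorem state_int {T : V m → V m} (hT : LH T) (R : ℝ) :
    ∫⁻ z in closedBall (0 : V m) R, wt (T z) ≠ ⊤ := by
  obtain ⟨L, hL, hb⟩ := hT.tpi.exists_bound
  obtain ⟨L', hL', hb'⟩ := hT.tp.exists_bound
  have h1 := lintegral_transport (f := T) hT.tp.continuous.measurable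
    (Z := closedBall 0 R) (B := closedBall (T 0) (L' * R)) measurableSet_closedBall
    measurableSet_closedBall (fun x hx => by
      rw [mem_closedBall, dist_eq_norm] at hx ⊢
      exact (hb' x 0).trans (mul_le_mul_of_nonneg_left hx (by linarith)))
    (c := fun _ => 1) (fun _ => one_pos) (L := L) (by linarith) (fun x _ y _ i => by
      have h2 := hb (T x) (T y)
      rw [hT.li, hT.li] at h2
      rw [one_mul]
      exact (norm_le_pi_norm (x - y) i).trans h2) measurable_wt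
  rw [Finset.prod_const_one, ENNReal.ofReal_one, one_mul] at h1
  exact ne_top_of_le_ne_top (ENNReal.mul_ne_top ENNReal.ofReal_ne_top (lintegral_wt_ne_top _ _)) h1

theorem state_clamp {c b : ℝ} (hb : 0 ≤ b) : |c| ≤ b ∨ clamp c b = b ∨ clamp c b = -b := by
  unfold clamp
  rcases le_total c b with h1 | h1
  · rcases le_total (-b) c with h2 | h2
    · exact Or.inl (abs_le.2 ⟨h2, h1⟩)
    · rw [min_eq_left h1, max_eq_left h2]
      exact Or.inr (Or.inr rfl)
  · rw [min_eq_right h1, max_eq_right (by linarith)]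
    exact Or.inr (Or.inl rfl)

/-- The folded map is a selection of three bi-Lipschitz maps. -/
theorem lintegral_wt_u (h : Ok v s) (R : ℝ) :
    ∫⁻ z in closedBall (0 : V m) R, wt (u v s z) ≠ ⊤ := by
  have hT : ∀ φ : V m → ℝ, TP φ → LH (invFun s.H ∘ invFun (SS v s.σ φ) ∘ rf v ∘ SS v s.σ φ ∘ s.G) :=
    fun φ hφ => h.hH.inv.comp ((lh_SS h.hv h.hσ hφ).inv.comp
      ((lh_rf h.hv).comp ((lh_SS h.hv h.hσ hφ).comp h.hG)))
  have h0 : LH (invFun s.H ∘ s.G) := h.hH.inv.comp h.hG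
  have h1 := hT _ (tp_a h)
  have h2 := hT _ (tp_a h).neg
  have hle : ∀ z, wt (u v s z) ≤ wt ((invFun s.H ∘ s.G) z) +
      (wt ((invFun s.H ∘ invFun (SS v s.σ s.a) ∘ rf v ∘ SS v s.σ s.a ∘ s.G) z) +
      wt ((invFun s.H ∘ invFun (SS v s.σ fun y => -s.a y) ∘ rf v ∘ SS v s.σ (fun y => -s.a y) ∘
        s.G) z)) := by
    intro z
    simp only [comp_apply]
    rw [inv_SS_rf h.hv h.hσ (tp_a h), inv_SS_rf h.hv h.hσ (tp_a h).neg]
    rcases state_clamp (c := ell v (s.G z)) (a_nonneg h (pj v (s.G z))) with h3 | h3 | h3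
    · rw [u_thick h h3]
      exact le_self_add
    · unfold u Psi f
      rw [h3]
      exact le_add_left le_self_add
    · unfold u Psi f
      rw [h3]
      exact le_add_left le_add_self
  refine ne_top_of_le_ne_top ?_ (lintegral_mono hle)
  have hm : ∀ T : V m → V m, LH T → Measurable fun z => wt (T z) :=
    fun T hT => measurable_wt.comp hT.tp.continuous.measurable
  rw [lintegral_add_left (hm _ h0), lintegral_add_left (hm _ h1)]
  exact ENNReal.add_ne_top.2 ⟨state_int h0 R, ENNReal.add_ne_top.2 ⟨state_int h1 R, state_int h2 R⟩⟩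

section Scale
variable {c : ℝ}

theorem mem_U_sc (c : ℝ) (x : V m) : x ∈ U v (s.sc c) ↔ c • x ∈ U v s := Iff.rfl

theorem ok_sc (h : Ok v s) (hc : 0 < c) : Ok v (s.sc c) := by
  refine ⟨h.hv, h.hG.comp (LH.smul hc.ne'), h.hH.comp (LH.smul hc.ne'), h.hσ, h.ha0,
    h.hI.preimage (continuous_const_smul c), ?_, fun x hx => h.onI (c • x) hx⟩
  obtain ⟨C, hC⟩ := isBounded_iff_forall_norm_le.1 h.bdd
  refine isBounded_iff_forall_norm_le.2 ⟨C / c, fun x hx => ?_⟩
  have h1 := hC (c • x) hx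
  rw [norm_smul, Real.norm_of_nonneg hc.le] at h1
  rw [le_div_iff₀ hc, mul_comm]
  exact h1

theorem gam_sc (h : Gam v s) (c : ℝ) : Gam v (s.sc c) := fun x hx => h (c • x) hx

theorem state_inv_sc (h : Ok v s) (hc : 0 < c) (y : V m) :
    invFun (s.sc c).H y = c⁻¹ • invFun s.H y := by
  refine (ok_sc h hc).hH.inv_eq ?_
  change s.H (c • c⁻¹ • invFun s.H y) = y
  rw [smul_inv_smul₀ hc.ne', h.hH.ri]

theorem k_sc (h : Ok v s) (hc : 0 < c) (x : V m) : k v (s.sc c) x = c⁻¹ • k v s (c • x) :=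
  state_inv_sc h hc _

theorem u_sc (h : Ok v s) (hc : 0 < c) (x : V m) : u v (s.sc c) x = c⁻¹ • u v s (c • x) :=
  state_inv_sc h hc _

theorem fib_sc (h : Ok v s) (hc : 0 < c) {η : ℝ} (hη : Fib v s η) :
    Fib v (s.sc c) (η / c) := by
  intro z hz t ht
  have h1 := hη (c • z) hz t ht
  rw [state_inv_sc h hc]
  have h2 : c⁻¹ • invFun s.H (pj v ((s.sc c).G z) + t • v) - z =
      c⁻¹ • (invFun s.H (pj v (s.G (c • z)) + t • v) - c • z) := by
    rw [smul_sub, inv_smul_smul₀ hc.ne']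
    rfl
  rw [h2, norm_smul, Real.norm_of_nonneg (inv_nonneg.2 hc.le), div_eq_inv_mul]
  exact mul_le_mul_of_nonneg_left h1 (inv_nonneg.2 hc.le)

theorem mem_Fold_sc (h : Ok v s) (hc : 0 < c) (x : V m) :
    x ∈ Fold v (s.sc c) ↔ c • x ∈ Fold v s := by
  change (c • x ∉ s.I ∧ c • u v (s.sc c) x ∈ s.I) ↔ (c • x ∉ s.I ∧ u v s (c • x) ∈ s.I)
  rw [u_sc h hc, smul_inv_smul₀ hc.ne']

end Scale

end St

/-- Change of variables under a dilation. -/
theorem lintegral_scale {c : ℝ} (hc : 0 < c) (F : V m → ℝ≥0∞) {Z : Set (V m)}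
    (hZ : MeasurableSet Z) :
    ∫⁻ x in Z, F x =
      ENNReal.ofReal (c ^ (2 * m + 1)) * ∫⁻ x in {x : V m | c • x ∈ Z}, F (c • x) := by
  have he : MeasurableEmbedding fun x : V m => c • x := measurableEmbedding_const_smul₀ hc.ne'
  have h1 : ∫⁻ x in {x : V m | c • x ∈ Z}, F (c • x) =
      ∫⁻ y in Z, F y ∂(Measure.map (fun x : V m => c • x) volume) := by
    rw [he.restrict_map, he.lintegral_map]
    rfl
  have h2 : 0 < c ^ (2 * m + 1) := pow_pos hc _
  rw [h1, Measure.map_addHaar_smul volume hc.ne', Measure.restrict_smul, lintegral_smul_measure,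
    Module.finrank_fin_fun, smul_eq_mul, ← mul_assoc, ← ENNReal.ofReal_mul h2.le,
    abs_of_pos (inv_pos.2 h2), mul_inv_cancel₀ h2.ne', ENNReal.ofReal_one, one_mul]

end BEv
end
end

-- merged part: Pool.Agent.Work.MP_f0515e_an.Meas2
section
/-! Fibre estimate for logarithmic spikes and the core estimate. -/

open Set Metric Filter Topology MeasureTheory Function
open scoped ENNReal NNReal

noncomputable section
namespace BEv

variable {m : ℕ}

/-- Slicing bound for an integral over a product of lines. -/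
theorem meas2_fubini {ι : Type} [Fintype ι] [DecidableEq ι] (T : Finset ι)
    {G : (ι → ℝ) → ℝ≥0∞} (hG : Measurable G) (a : ι → ℝ) {R : ℝ} (hR : 0 ≤ R) (c : ℝ≥0∞)
    (h1 : ∀ x, G x ≠ 0 → ∀ i, i ∉ T → |x i - a i| ≤ R)
    (h2 : ∀ x, G x ≠ 0 → ∃ r : ℝ, 0 ≤ r ∧ ∃ b : ℝ≥0∞,
      b * ENNReal.ofReal ((2 * r) ^ T.card) ≤ c ∧
      ∀ y, G y ≠ 0 → (∀ i, i ∉ T → y i = x i) → G y ≤ b ∧ ∀ i ∈ T, |y i - x i| ≤ r) :
    ∫⁻ x, G x ≤ c * ENNReal.ofReal ((2 * R) ^ (Fintype.card ι - T.card)) := by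
  let e := MeasurableEquiv.piEquivPiSubtypeProd (fun _ : ι => ℝ) (fun i => i ∈ T)
  have he : MeasurePreserving e volume volume := by
    have h := volume_preserving_piEquivPiSubtypeProd (fun _ : ι => ℝ) (fun i => i ∈ T)
    have e' : (Subtype.fintype fun i => i ∈ T) = Finset.Subtype.fintype T :=
      Subsingleton.elim _ _
    rw [e'] at h
    exact h
  have hs : MeasurePreserving e.symm volume volume := he.symm e
  have e1 : ∀ u w i (hi : i ∈ T), e.symm (u, w) i = u ⟨i, hi⟩ := fun u w i hi => dif_pos hi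
  have e2 : ∀ u w i (hi : i ∉ T), e.symm (u, w) i = w ⟨i, hi⟩ := fun u w i hi => dif_neg hi
  rw [← hs.lintegral_comp hG, Measure.volume_eq_prod,
    lintegral_prod_symm' (fun z => G (e.symm z)) (hG.comp e.symm.measurable)]
  let aN : {i // ¬ i ∈ T} → ℝ := fun i => a i
  have key : ∀ w, ∫⁻ u, G (e.symm (u, w)) ≤ indicator (closedBall aN R) (fun _ => c) w := by
    intro w
    by_cases hw : ∃ u0, G (e.symm (u0, w)) ≠ 0
    · obtain ⟨u0, hu0⟩ := hw
      have hb : w ∈ closedBall aN R := by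
        rw [mem_closedBall, dist_pi_le_iff hR]
        intro i
        have := h1 _ hu0 i.1 i.2
        rw [e2 _ _ _ i.2] at this
        exact this
      rw [indicator_of_mem hb]
      obtain ⟨r, hr, b, hc, hy⟩ := h2 _ hu0
      calc ∫⁻ u, G (e.symm (u, w)) ≤ ∫⁻ u, indicator (closedBall u0 r) (fun _ => b) u := by
            refine lintegral_mono fun u => ?_
            by_cases hu : G (e.symm (u, w)) = 0
            · rw [hu]; exact zero_le
            · obtain ⟨k1, k2⟩ := hy _ hu fun i hi => by rw [e2 _ _ _ hi, e2 _ _ _ hi]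
              have hb' : u ∈ closedBall u0 r := by
                rw [mem_closedBall, dist_pi_le_iff hr]
                intro i
                have := k2 i.1 i.2
                rw [e1 _ _ _ i.2, e1 _ _ _ i.2] at this
                exact this
              rw [indicator_of_mem hb']
              exact k1
        _ = b * ENNReal.ofReal ((2 * r) ^ T.card) := by
            rw [lintegral_indicator_const measurableSet_closedBall, Real.volume_pi_closedBall _ hr,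
              Fintype.card_coe]
        _ ≤ c := hc
    · have : ∀ u, G (e.symm (u, w)) = 0 := fun u => by
        by_contra h
        exact hw ⟨u, h⟩
      simp only [this, lintegral_zero, zero_le]
  refine (lintegral_mono key).trans_eq ?_
  rw [lintegral_indicator_const measurableSet_closedBall, Real.volume_pi_closedBall _ hR,
    Fintype.card_subtype_compl, Fintype.card_coe]

theorem meas2_be_le {T : Finset (Fin (2 * m + 1))} (hT : T.card = m) {x y : V m}
    (hx : ∀ i ∈ T, dd (x i - 1 / 2) < be x) (hxy : ∀ i, i ∉ T → y i = x i) : be x ≤ be y := by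
  obtain ⟨S, hS, hS'⟩ := (mu_le_iff (be_nonneg y)).mp (le_refl (mu (y - hlf)))
  obtain ⟨S', hR, hR'⟩ := exists_ge_mu (x - hlf)
  have h1 : S' ⊆ Tᶜ := by
    intro i hi
    rw [Finset.mem_compl]
    intro hiT
    exact absurd (hR' i hi) (not_le.mpr (hx i hiT))
  have h2 : S' = Tᶜ := by
    refine Finset.eq_of_subset_of_card_le h1 ?_
    rw [Finset.card_compl, Fintype.card_fin, hT, hR]
    omega
  obtain ⟨j, hjS, hjT⟩ : ∃ j ∈ S, j ∉ T :=
    Finset.exists_mem_notMem_of_card_lt_card (by omega)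
  have h3 := hR' j (by rw [h2]; exact Finset.mem_compl.mpr hjT)
  have h4 := hS' j hjS
  rw [Pi.sub_apply, hxy j hjT] at h4
  exact h3.trans h4

/-- The fibre over a small disc. -/
def meas2_Z (τ : ℝ) (K : ℕ) (a : V m) (t : ℝ) : Set (V m) :=
  {x : V m | dl K < be x ∧ ‖gta τ K x - a‖ ≤ 1 ∧ ta a (gta τ K x) ≤ t}

theorem meas2_cont {τ : ℝ} (h0 : 0 < τ) (h1 : τ ≤ 1 / 16) (K : ℕ) (a : V m) :
    Continuous fun x => ta a (gta τ K x) :=
  (tp_ta a).continuous.comp (lh_gta h0 h1 K).tp.continuous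

theorem meas2_meas {τ : ℝ} (h0 : 0 < τ) (h1 : τ ≤ 1 / 16) (K : ℕ) (a : V m) (t : ℝ) :
    MeasurableSet (meas2_Z τ K a t) := by
  have hg : Continuous (gta τ K : V m → V m) := (lh_gta h0 h1 K).tp.continuous
  have a1 : MeasurableSet {x : V m | dl K < be x} :=
    (isOpen_lt continuous_const tp_be.continuous).measurableSet
  have a2 : MeasurableSet {x : V m | ‖gta τ K x - a‖ ≤ 1} :=
    (isClosed_le (hg.sub continuous_const).norm continuous_const).measurableSet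
  have a3 : MeasurableSet {x : V m | ta a (gta τ K x) ≤ t} :=
    (isClosed_le (meas2_cont h0 h1 K a) continuous_const).measurableSet
  exact a1.inter (a2.inter a3)

theorem meas2_wt : Measurable fun x : V m => wt (x - hlf) :=
  measurable_wt.comp (measurable_id.sub_const _)

theorem measurable_PFw {τ : ℝ} (h0 : 0 < τ) (h1 : τ ≤ 1 / 16) (K : ℕ) (ρ ρ' : ℝ) (N : ℕ)
    (a : V m) : Measurable (PFw τ K ρ ρ' N a) := by
  have h2 : Measurable fun x => lam ρ' N (ta a (gta τ K x)) :=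
    (measurable_lam ρ' N).comp (meas2_cont h0 h1 K a).measurable
  have h3 : Measurable fun x : V m =>
      ENNReal.ofReal (1 + lam ρ' N (ta a (gta τ K x))) ^ m * wt (x - hlf) :=
    ((h2.const_add 1).ennreal_ofReal.pow_const m).mul meas2_wt
  exact h3.indicator (meas2_meas h0 h1 K a ρ)

theorem meas2_coord {τ : ℝ} {K : ℕ} {a x : V m} {t : ℝ} (hx : x ∈ meas2_Z τ K a t)
    {i : Fin (2 * m + 1)} (hi : i ∈ TT a) : |gta τ K x i - a i| ≤ t :=
  (abs_le_norm_pr (gta τ K x - a) hi).trans hx.2.2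

theorem meas2_lt {τ : ℝ} (h0 : 0 < τ) (h1 : τ ≤ 1 / 16) {K : ℕ} {a x : V m} {t : ℝ}
    (ha : ∀ i ∈ TT a, 6 * τ ≤ dd (a i)) (ht : t ≤ τ) (hx : x ∈ meas2_Z τ K a t) :
    ∀ i ∈ TT a, dd (x i - 1 / 2) < be x := by
  intro i hi
  refine dd_lt_be h0 h1 hx.1.le ?_
  have h2 := (abs_le.mp ((abs_dd_sub_le (gta τ K x i) (a i)).trans (meas2_coord hx hi))).1
  have h3 := ha i hi
  linarith only [h0, ht, h2, h3]

/-- Weighted measure of the fibre over a small disc. -/
theorem fibre_le (m : ℕ) : ∃ C : ℝ, 0 ≤ C ∧ ∀ (τ : ℝ), 0 < τ → τ ≤ 1 / 16 → ∀ (K : ℕ) (a : V m),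
    (TT a).card = m → (∀ i ∈ TT a, 6 * τ ≤ dd (a i)) → ∀ t : ℝ, 0 ≤ t → t ≤ τ →
    ∫⁻ x in {x : V m | dl K < be x ∧ ‖gta τ K x - a‖ ≤ 1 ∧ ta a (gta τ K x) ≤ t}, wt (x - hlf) ≤
      ENNReal.ofReal (C * t ^ m) := by
  refine ⟨32 ^ m * 3 ^ (m + 1), by positivity, fun τ h0 h1 K a hT ha t ht0 ht => ?_⟩
  have hZ := meas2_meas h0 h1 K a t
  change ∫⁻ x in meas2_Z τ K a t, wt (x - hlf) ≤ _
  rw [← lintegral_indicator hZ]
  have hmem : ∀ x, indicator (meas2_Z τ K a t) (fun x => wt (x - hlf)) x ≠ 0 →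
      x ∈ meas2_Z τ K a t := fun x hx => mem_of_indicator_ne_zero hx
  refine (meas2_fubini (TT a) (meas2_wt.indicator hZ) a (R := 3 / 2) (by norm_num)
    (ENNReal.ofReal ((32 * t) ^ m)) ?_ ?_).trans_eq ?_
  · intro x hx i _
    have k1 : |gta τ K x i - a i| ≤ 1 := (norm_le_pi_norm (gta τ K x - a) i).trans (hmem x hx).2.1
    have k2 : |gta τ K x i - x i| ≤ 1 / 2 :=
      (norm_le_pi_norm (gta τ K x - x) i).trans (norm_gta_sub_le h0 h1 K x)
    rw [abs_le] at k1 k2 ⊢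
    constructor <;> linarith only [k1, k2, k1.1, k1.2, k2.1, k2.2]
  · intro x hx
    have hx' := hmem x hx
    have hb : 0 < be x := (dl_pos K).trans hx'.1
    refine ⟨16 * be x * t, by positivity, (ENNReal.ofReal (be x))⁻¹ ^ m, ?_, fun y hy hyx => ?_⟩
    · rw [hT, ← ENNReal.ofReal_inv_of_pos hb, ← ENNReal.ofReal_pow (by positivity),
        ← ENNReal.ofReal_mul (by positivity), ← mul_pow]
      refine le_of_eq ?_
      congr 2
      field_simp
      ring
    · have hy' := hmem y hy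
      have hbe : be x = be y :=
        le_antisymm (meas2_be_le hT (meas2_lt h0 h1 ha ht hx') hyx)
          (meas2_be_le hT (meas2_lt h0 h1 ha ht hy') fun i hi => (hyx i hi).symm)
      refine ⟨?_, fun i hi => ?_⟩
      · rw [indicator_of_mem hy', hbe]
        exact le_rfl
      · rw [abs_sub_comm]
        exact fibre_expand h0 h1 hx'.1.le hbe (ha i hi) ht (meas2_coord hx' hi)
          (meas2_coord hy' hi)
  · rw [← ENNReal.ofReal_mul (by positivity), hT, Fintype.card_fin,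
      show 2 * m + 1 - m = m + 1 by omega]
    congr 1
    rw [mul_pow, show (2 : ℝ) * (3 / 2) = 3 by norm_num]
    ring

theorem meas2_shell {ρ t : ℝ} (hρ : 0 < ρ) : ∀ N : ℕ, 1 ≤ N → ρ / 2 ^ N ≤ t → t ≤ ρ →
    ∃ j < N, ρ / 2 ^ (j + 1) ≤ t ∧ t ≤ ρ / 2 ^ j := by
  intro N hN
  induction N, hN using Nat.le_induction with
  | base => exact fun h1 h2 => ⟨0, by omega, h1, by simpa using h2⟩
  | succ n hn ih =>
    intro h1 h2
    by_cases h : ρ / 2 ^ n ≤ t
    · obtain ⟨j, hj, hj'⟩ := ih h h2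
      exact ⟨j, by omega, hj'⟩
    · exact ⟨n, by omega, h1, (not_le.mp h).le⟩

theorem meas2_point {τ : ℝ} {K : ℕ} {ρ ρ' : ℝ} {N : ℕ} (hN : 1 ≤ N) (hρ : 0 < ρ') (a x : V m) :
    PFw τ K ρ ρ' N a x ≤ ENNReal.ofReal (2 ^ m) *
      (indicator (meas2_Z τ K a ρ) (fun x => wt (x - hlf)) x +
        ∑ j ∈ Finset.range N, ENNReal.ofReal ((16 * 2 ^ j / (N * ρ')) ^ m) *
          indicator (meas2_Z τ K a (ρ' / 2 ^ j)) (fun x => wt (x - hlf)) x) := by
  have hN' : (0 : ℝ) < N := by exact_mod_cast hN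
  change indicator (meas2_Z τ K a ρ) _ x ≤ _
  by_cases hx : x ∈ meas2_Z τ K a ρ
  swap
  · rw [indicator_of_notMem hx]; exact zero_le
  rw [indicator_of_mem hx, indicator_of_mem hx]
  have h2 : (1 : ℝ) ≤ 2 ^ m := one_le_pow₀ (by norm_num)
  by_cases h : ρ' / 2 ^ N ≤ ta a (gta τ K x) ∧ ta a (gta τ K x) ≤ ρ'
  · obtain ⟨j, hj, k1, k2⟩ := meas2_shell hρ N hN h.1 h.2
    have hxj : x ∈ meas2_Z τ K a (ρ' / 2 ^ j) := ⟨hx.1, hx.2.1, k2⟩
    have ht : 0 < ta a (gta τ K x) := lt_of_lt_of_le (by positivity) k1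
    have hl0 : 0 ≤ lam ρ' N (ta a (gta τ K x)) := lam_nonneg hρ _ _
    have hl : lam ρ' N (ta a (gta τ K x)) ≤ 16 * 2 ^ j / (N * ρ') := by
      rw [lam, if_pos h, div_le_div_iff₀ (by positivity) (by positivity)]
      rw [div_le_iff₀ (by positivity), pow_succ] at k1
      have := mul_le_mul_of_nonneg_left k1 (show (0 : ℝ) ≤ 8 * N by positivity)
      linarith only [this]
    have hc : (0 : ℝ) ≤ 16 * 2 ^ j / (N * ρ') := by positivity
    generalize lam ρ' N (ta a (gta τ K x)) = l at hl0 hl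
    have k3 : (1 + l) ^ m ≤ 2 ^ m * (1 + (16 * 2 ^ j / (N * ρ')) ^ m) := by
      refine (add_pow_le zero_le_one hl0 m).trans ?_
      rw [one_pow]
      exact mul_le_mul (pow_le_pow_right₀ (by norm_num) (Nat.sub_le m 1))
        (by gcongr) (by positivity) (by positivity)
    calc ENNReal.ofReal (1 + l) ^ m * wt (x - hlf)
        ≤ ENNReal.ofReal (2 ^ m * (1 + (16 * 2 ^ j / (N * ρ')) ^ m)) * wt (x - hlf) := by
          rw [← ENNReal.ofReal_pow (by positivity)]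
          exact mul_le_mul_left (ENNReal.ofReal_le_ofReal k3) _
      _ = ENNReal.ofReal (2 ^ m) * (wt (x - hlf) +
            ENNReal.ofReal ((16 * 2 ^ j / (N * ρ')) ^ m) *
              indicator (meas2_Z τ K a (ρ' / 2 ^ j)) (fun x => wt (x - hlf)) x) := by
          rw [indicator_of_mem hxj, ENNReal.ofReal_mul (by positivity),
            ENNReal.ofReal_add zero_le_one (by positivity), ENNReal.ofReal_one]
          ring
      _ ≤ _ := by
          refine mul_le_mul_right (add_le_add_right ?_ _) _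
          exact Finset.single_le_sum (f := fun j => ENNReal.ofReal ((16 * 2 ^ j / (N * ρ')) ^ m) *
            indicator (meas2_Z τ K a (ρ' / 2 ^ j)) (fun x => wt (x - hlf)) x)
            (fun _ _ => zero_le) (Finset.mem_range.mpr hj)
  · rw [lam, if_neg h, add_zero, ENNReal.ofReal_one, one_pow]
    exact mul_le_mul' (ENNReal.one_le_ofReal.mpr h2) le_self_add

/-- Logarithmic spikes are cheap. -/
theorem exists_PFw_le (hm : 2 ≤ m) {ε : ℝ≥0∞} (hε : ε ≠ 0) :
    ∃ ρ0 : ℝ, 0 < ρ0 ∧ ∃ N : ℕ, 1 ≤ N ∧ ∀ (τ : ℝ), 0 < τ → τ ≤ 1 / 16 → ∀ (K : ℕ) (a : V m),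
      (TT a).card = m → (∀ i ∈ TT a, 6 * τ ≤ dd (a i)) → ∀ ρ ρ' : ℝ, 0 < ρ' → ρ' ≤ ρ → ρ ≤ ρ0 →
      ρ ≤ τ → ∫⁻ x, PFw τ K ρ ρ' N a x ≤ ε := by
  obtain ⟨C, hC, hF⟩ := fibre_le m
  obtain ⟨δ, -, hδ0, hδ⟩ := ENNReal.lt_iff_exists_real_btwn.mp (pos_iff_ne_zero.mpr hε)
  have hδ1 : 0 < δ := ENNReal.ofReal_pos.mp hδ0
  obtain ⟨n, hn⟩ := exists_nat_ge (2 ^ m * (C + C * 16 ^ m) / δ)
  have hN' : (0 : ℝ) < ((n + 1 : ℕ) : ℝ) := by positivity
  have hN1 : (1 : ℝ) ≤ ((n + 1 : ℕ) : ℝ) := by exact_mod_cast Nat.le_add_left 1 n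
  have hn' : 2 ^ m * (C + C * 16 ^ m) / ((n + 1 : ℕ) : ℝ) ≤ δ := by
    rw [div_le_iff₀ hδ1] at hn
    rw [div_le_iff₀ hN']
    push_cast
    linarith only [hδ1, hn]
  refine ⟨1 / ((n + 1 : ℕ) : ℝ), by positivity, n + 1, by omega,
    fun τ h0 h1 K a hT ha ρ ρ' hρ' hρ hρ0 hρτ => ?_⟩
  generalize hNe : n + 1 = N at *
  have hN : 1 ≤ N := by omega
  have hI : ∀ t, Measurable (indicator (meas2_Z τ K a t) fun x : V m => wt (x - hlf)) :=
    fun t => meas2_wt.indicator (meas2_meas h0 h1 K a t)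
  have hF' : ∀ t, 0 ≤ t → t ≤ τ → ∫⁻ x, indicator (meas2_Z τ K a t) (fun x => wt (x - hlf)) x ≤
      ENNReal.ofReal (C * t ^ m) := by
    intro t ht0 ht
    rw [lintegral_indicator (meas2_meas h0 h1 K a t)]
    exact hF τ h0 h1 K a hT ha t ht0 ht
  have hρp : 0 < ρ := hρ'.trans_le hρ
  refine (lintegral_mono fun x => meas2_point hN hρ' a x).trans ?_
  rw [lintegral_const_mul' _ _ ENNReal.ofReal_ne_top, lintegral_add_left (hI ρ),
    lintegral_finsetSum _ fun j _ => (hI _).const_mul _]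
  have k1 : ∀ j ∈ Finset.range N, ∫⁻ x, ENNReal.ofReal ((16 * 2 ^ j / (N * ρ')) ^ m) *
      indicator (meas2_Z τ K a (ρ' / 2 ^ j)) (fun x => wt (x - hlf)) x ≤
        ENNReal.ofReal (C * 16 ^ m / N ^ 2) := by
    intro j _
    have h2 : (1 : ℝ) ≤ 2 ^ j := one_le_pow₀ (by norm_num)
    rw [lintegral_const_mul' _ _ ENNReal.ofReal_ne_top]
    refine (mul_le_mul_right (hF' (ρ' / 2 ^ j) (by positivity)
      ((div_le_self hρ'.le h2).trans (hρ.trans hρτ))) _).trans ?_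
    rw [← ENNReal.ofReal_mul (by positivity)]
    refine ENNReal.ofReal_le_ofReal ?_
    have h3 : (16 * 2 ^ j / (N * ρ')) * (ρ' / 2 ^ j) = 16 / N := by field_simp
    rw [mul_left_comm, ← mul_pow, h3, div_pow, ← mul_div_assoc]
    exact div_le_div_of_nonneg_left (by positivity) (by positivity) (pow_le_pow_right₀ hN1 hm)
  have k2 : C * ρ ^ m ≤ C / N := by
    have h2 : ρ ≤ 1 := by linarith only [h0, h1, hρτ]
    have h3 : ρ ^ m ≤ ρ := pow_le_of_le_one hρp.le h2 (by omega)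
    rw [div_eq_mul_one_div]
    exact mul_le_mul_of_nonneg_left (h3.trans hρ0) hC
  refine (mul_le_mul_right (add_le_add ((hF' ρ hρp.le hρτ).trans (ENNReal.ofReal_le_ofReal k2))
    (Finset.sum_le_sum k1)) _).trans ?_
  rw [Finset.sum_const, Finset.card_range, nsmul_eq_mul, ← ENNReal.ofReal_natCast,
    ← ENNReal.ofReal_mul (by positivity), ← ENNReal.ofReal_add (by positivity) (by positivity),
    ← ENNReal.ofReal_mul (by positivity)]
  refine (ENNReal.ofReal_le_ofReal (le_of_eq_of_le ?_ hn')).trans hδ.le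
  field_simp

end BEv
end
end

-- merged part: Pool.Agent.Work.MP_f0515e_an.Meas3
section
/-! The core estimate. -/

open Set Metric Filter Topology MeasureTheory Function
open scoped ENNReal NNReal

noncomputable section
namespace BEv

variable {m : ℕ}

theorem meas3_tendsto {a : ℕ → ℝ≥0∞} {C : ℝ≥0∞} (hC : C ≠ ⊤)
    (h : ∀ᶠ K in atTop, (2 : ℝ≥0∞) ^ K * a K ≤ C) : Tendsto a atTop (𝓝 0) := by
  have h1 : Tendsto (fun K : ℕ => C * (2⁻¹ : ℝ≥0∞) ^ K) atTop (𝓝 (C * 0)) :=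
    ENNReal.Tendsto.const_mul
      (ENNReal.tendsto_pow_atTop_nhds_zero_of_lt_one (by simp)) (Or.inr hC)
  rw [mul_zero] at h1
  refine tendsto_of_tendsto_of_tendsto_of_le_of_le' tendsto_const_nhds h1
    (Eventually.of_forall fun _ => zero_le) (h.mono fun K hK => ?_)
  have h2 : (2⁻¹ : ℝ≥0∞) ^ K * 2 ^ K = 1 := by
    rw [← mul_pow, ENNReal.inv_mul_cancel (by simp) (by simp), one_pow]
  calc a K = (2⁻¹ : ℝ≥0∞) ^ K * (2 ^ K * a K) := by rw [← mul_assoc, h2, one_mul]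
    _ ≤ (2⁻¹ : ℝ≥0∞) ^ K * C := by gcongr
    _ = C * (2⁻¹ : ℝ≥0∞) ^ K := mul_comm _ _

theorem meas3_pow (K m : ℕ) :
    (2 : ℝ≥0∞) ^ K * 2 ^ (K * m) = ENNReal.ofReal (((2 : ℝ) ^ K) ^ (m + 1)) := by
  rw [ENNReal.ofReal_pow (by positivity), ENNReal.ofReal_pow (by positivity), ENNReal.ofReal_ofNat,
    pow_succ, ← pow_mul, mul_comm]

/-- The pieces of the core. -/
def meas3_Z (τ s1 R : ℝ) (K : ℕ) (S : Finset (Fin (2 * m + 1))) (k : Fin (2 * m + 1) → ℤ) :
    Set (V m) :=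
  {x : V m | ‖x‖ ≤ R ∧ be x ≤ dl K ∧ s1 ≤ mu (gg τ K x)} ∩
    {x | ∀ i ∈ S, |x i - 1 / 2 - k i| ≤ dl K}

theorem meas3_closed {τ : ℝ} (h0 : 0 < τ) (h1 : τ ≤ 1 / 16) (s1 R : ℝ) (K : ℕ)
    (S : Finset (Fin (2 * m + 1))) (k : Fin (2 * m + 1) → ℤ) :
    IsClosed (meas3_Z τ s1 R K S k) := by
  refine IsClosed.inter ((isClosed_le continuous_norm continuous_const).inter
    ((isClosed_le tp_be.continuous continuous_const).inter
      (isClosed_le continuous_const (tp_mu.continuous.comp (lh_gg h0 h1 K).tp.continuous)))) ?_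
  simp only [ofPred_forall]
  refine isClosed_iInter fun i => isClosed_iInter fun _ => isClosed_le ?_ continuous_const
  fun_prop

theorem meas3_prod (S : Finset (Fin (2 * m + 1))) (hS : S.card = m + 1) (a b : ℝ) :
    ∏ i, (if i ∈ S then a else b) = a ^ (m + 1) * b ^ m := by
  rw [Finset.prod_ite, Finset.prod_const, Finset.prod_const, Finset.filter_mem_eq_inter,
    Finset.univ_inter, hS]
  have h : (Finset.univ.filter fun i => i ∉ S) = Sᶜ := by
    ext i
    simp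
  rw [h, Finset.card_compl, Fintype.card_fin, hS]
  congr 2
  omega

theorem meas3_piece {τ s1 : ℝ} (h0 : 0 < τ) (h1 : τ ≤ 1 / 16) (R : ℝ)
    {Φ : V m → ℝ≥0∞} (hΦ : Measurable Φ) {K1 K : ℕ} (hK1 : 2 * τ ≤ 2 ^ K1 * s1) (hK : K1 ≤ K)
    {L : ℝ} (hL : 0 ≤ L) (hE : ∀ x y : V m, ‖EE τ K1 x - EE τ K1 y‖ ≤ L * ‖x - y‖)
    (S : Finset (Fin (2 * m + 1))) (hS : S.card = m + 1) (k : Fin (2 * m + 1) → ℤ) :
    (2 : ℝ≥0∞) ^ K * (2 ^ (K * m) * ∫⁻ x in meas3_Z τ s1 R K S k, Φ (gg τ K x)) ≤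
      ENNReal.ofReal (2 ^ (m + 1) / τ ^ m) * (ENNReal.ofReal (L ^ (2 * m + 1)) *
        ∫⁻ z in closedBall (0 : V m) (R + 1), Φ z) := by
  have hEq : ∀ x ∈ meas3_Z τ s1 R K S k, gta τ K x = EE τ K1 (gg τ K x) := fun x hx => by
    rw [← EE_gg h0 h1 K x, EE, EE, mix, mix, MM_nested hK
      (hK1.trans (mul_le_mul_of_nonneg_left hx.1.2.2 (by positivity)))]
  have hT := lintegral_transport (f := gg τ K) (lh_gg h0 h1 K).tp.continuous.measurable
    (meas3_closed h0 h1 s1 R K S k).measurableSet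
    (measurableSet_closedBall (x := (0 : V m)) (ε := R + 1))
    (fun x hx => by
      have e1 := norm_gg_sub_gta_le h0 h1 K x
      have e2 := norm_gta_sub_le h0 h1 K x
      have e3 : ‖x‖ ≤ R := hx.1.1
      have e4 : gg τ K x = (gg τ K x - gta τ K x) + (gta τ K x - x) + x := by abel
      have e5 := norm_add₃_le (a := gg τ K x - gta τ K x) (b := gta τ K x - x) (c := x)
      rw [← e4] at e5
      rw [mem_closedBall_zero_iff]
      linarith only [h0, h1, e1, e2, e3, e5])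
    (c := fun i => if i ∈ S then 2 ^ K / 2 else τ)
    (fun i => by
      by_cases hi : i ∈ S
      · rw [if_pos hi]
        positivity
      · rw [if_neg hi]
        exact h0) hL
    (fun x hx y hy i => by
      have e1 : |gta τ K x i - gta τ K y i| ≤ L * ‖gg τ K x - gg τ K y‖ := by
        refine le_trans ?_ (hE _ _)
        rw [← hEq x hx, ← hEq y hy]
        exact norm_le_pi_norm (gta τ K x - gta τ K y) i
      refine le_trans ?_ e1
      by_cases hi : i ∈ S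
      · rw [if_pos hi]
        exact core_expand' h0 h1 hx.1.2.1 hy.1.2.1 (hx.2 i hi) (hy.2 i hi)
      · rw [if_neg hi]
        exact core_expand h0 h1 hx.1.2.1 hy.1.2.1 i) hΦ
  rw [meas3_prod S hS] at hT
  have e : ((2 : ℝ) ^ K) ^ (m + 1) = 2 ^ (m + 1) / τ ^ m * ((2 ^ K / 2) ^ (m + 1) * τ ^ m) := by
    rw [div_pow]
    field_simp
  rw [← mul_assoc, meas3_pow, e, ENNReal.ofReal_mul (by positivity), mul_assoc]
  gcongr

theorem meas3_cover (τ s1 R : ℝ) (K : ℕ) :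
    {x : V m | ‖x‖ ≤ R ∧ be x ≤ dl K ∧ s1 ≤ mu (gg τ K x)} ⊆
      ⋃ p : (Finset.powersetCard (m + 1) (Finset.univ : Finset (Fin (2 * m + 1))) ×ˢ
        Fintype.piFinset fun _ : Fin (2 * m + 1) => Finset.Icc (-(⌈R⌉ + 1)) (⌈R⌉ + 1) : Finset _),
        meas3_Z τ s1 R K p.1.1 p.1.2 := by
  intro x hx
  obtain ⟨S, hS, hd⟩ := (mu_le_iff (dl_pos K).le).1 hx.2.1
  refine mem_iUnion.2 ⟨⟨(S, fun i => round (x i - 1 / 2)), ?_⟩, hx, fun i hi => hd i hi⟩
  refine Finset.mem_product.2 ⟨Finset.mem_powersetCard.2 ⟨Finset.subset_univ _, hS⟩,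
    Fintype.mem_piFinset.2 fun i => ?_⟩
  have e1 : |x i| ≤ R := (norm_le_pi_norm x i).trans hx.1
  have e2 := abs_sub_round (x i - 1 / 2)
  have e3 := Int.le_ceil R
  rw [abs_le] at e1 e2
  rw [Finset.mem_Icc]
  constructor
  · have : ((-(⌈R⌉ + 1) : ℤ) : ℝ) ≤ (round (x i - 1 / 2) : ℤ) := by
      push_cast
      linarith only [e1, e2, e3, e1.1, e2.2]
    exact_mod_cast this
  · have : ((round (x i - 1 / 2) : ℤ) : ℝ) ≤ ((⌈R⌉ + 1 : ℤ) : ℝ) := by
      push_cast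
      linarith only [e1, e2, e3, e1.2, e2.1]
    exact_mod_cast this

/-- Core estimate by transport. -/
theorem core_tendsto {τ s1 : ℝ} (h0 : 0 < τ) (h1 : τ ≤ 1 / 16) (hs : 0 < s1) (R : ℝ)
    {Φ : V m → ℝ≥0∞} (hΦ : Measurable Φ) (hfin : ∀ R', ∫⁻ z in closedBall (0 : V m) R', Φ z ≠ ⊤) :
    Tendsto (fun K : ℕ => (2 : ℝ≥0∞) ^ (K * m) *
      ∫⁻ x in {x : V m | ‖x‖ ≤ R ∧ be x ≤ dl K ∧ s1 ≤ mu (gg τ K x)}, Φ (gg τ K x))
      atTop (𝓝 0) := by
  obtain ⟨K1, hK1⟩ := pow_unbounded_of_one_lt (2 * τ / s1) (one_lt_two (α := ℝ))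
  rw [div_lt_iff₀ hs] at hK1
  obtain ⟨L, hL, hE⟩ := (lh_EE (m := m) h0 h1 K1).tp.exists_bound
  set C := ENNReal.ofReal (2 ^ (m + 1) / τ ^ m) * (ENNReal.ofReal (L ^ (2 * m + 1)) *
    ∫⁻ z in closedBall (0 : V m) (R + 1), Φ z) with hC
  have hCt : C ≠ ⊤ :=
    ENNReal.mul_ne_top ENNReal.ofReal_ne_top (ENNReal.mul_ne_top ENNReal.ofReal_ne_top (hfin _))
  set I := (Finset.powersetCard (m + 1) (Finset.univ : Finset (Fin (2 * m + 1))) ×ˢ
    Fintype.piFinset fun _ : Fin (2 * m + 1) => Finset.Icc (-(⌈R⌉ + 1)) (⌈R⌉ + 1) : Finset _)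
    with hI
  refine meas3_tendsto (C := ∑ _p : I, C) (ENNReal.sum_ne_top.2 fun _ _ => hCt)
    (eventually_atTop.2 ⟨K1, fun K hK => ?_⟩)
  have e1 := (lintegral_mono_set (μ := volume) (f := fun x => Φ (gg τ K x))
    (meas3_cover (m := m) τ s1 R K)).trans (lintegral_iUnion_le _ _)
  rw [tsum_fintype] at e1
  refine le_trans (mul_le_mul_right (mul_le_mul_right e1 _) _) ?_
  rw [Finset.mul_sum, Finset.mul_sum]
  refine Finset.sum_le_sum fun p _ => meas3_piece h0 h1 R hΦ hK1.le hK (zero_le_one.trans hL) hE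
    _ (Finset.mem_powersetCard.1 (Finset.mem_product.1 p.2).1).2 _

theorem core_tendsto' (R : ℝ) :
    Tendsto (fun K : ℕ => (2 : ℝ≥0∞) ^ (K * m) * volume {x : V m | ‖x‖ ≤ R ∧ be x ≤ dl K})
      atTop (𝓝 0) := by
  obtain ⟨C, hC, h⟩ := volume_be_le (m := m) R
  refine meas3_tendsto (C := ENNReal.ofReal (C * (1 / 2) ^ (m + 1))) ENNReal.ofReal_ne_top
    (Eventually.of_forall fun K => ?_)
  have e1 : volume {x : V m | ‖x‖ ≤ R ∧ be x ≤ dl K} ≤ ENNReal.ofReal (C * dl K ^ (m + 1)) :=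
    le_trans (measure_mono fun x hx => mem_inter hx.2 (mem_closedBall_zero_iff.2 hx.1))
      (h _ (dl_pos K).le)
  have e2 : ((2 : ℝ) ^ K) ^ (m + 1) * (C * dl K ^ (m + 1)) = C * (1 / 2) ^ (m + 1) := by
    have e3 : (2 : ℝ) ^ K * dl K = 1 / 2 := by
      rw [dl, pow_succ]
      field_simp
    rw [← e3, mul_pow]
    ring
  rw [← mul_assoc, meas3_pow, ← e2, ENNReal.ofReal_mul (by positivity)]
  gcongr

end BEv
end
end

-- merged part: Pool.Agent.Work.MP_f0515e_an.GenPos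
section
/-! A generic direction. -/

open Set Metric Filter Topology MeasureTheory Function
open scoped ENNReal NNReal

noncomputable section
namespace BEv

variable {m : ℕ}

theorem genpos_avoid (C : Set (Submodule ℝ (V m))) (hC : C.Countable) :
    ∃ v : V m, ∀ W ∈ C, W ≠ ⊤ → v ∉ W := by
  have h0 : (volume : Measure (V m)) (⋃ W ∈ {W ∈ C | W ≠ ⊤}, (W : Set (V m))) = 0 := by
    rw [measure_biUnion_null_iff (hC.mono (sep_subset _ _))]
    intro W hW
    exact Measure.addHaar_submodule volume W hW.2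
  have h1 : (⋃ W ∈ {W ∈ C | W ≠ ⊤}, (W : Set (V m))) ≠ univ := by
    intro h
    rw [h] at h0
    exact (isOpen_univ.measure_pos volume univ_nonempty).ne' h0
  obtain ⟨v, hv⟩ := (ne_univ_iff_exists_notMem _).1 h1
  refine ⟨v, fun W hW hne hmem => hv ?_⟩
  exact mem_biUnion (show W ∈ {W ∈ C | W ≠ ⊤} from ⟨hW, hne⟩) hmem

/-- Coordinate subspace. -/
def genpos_VT (T : Finset (Fin (2 * m + 1))) : Submodule ℝ (V m) :=
  Submodule.span ℝ ((T.image (fun i => (Pi.single i 1 : V m)) : Finset (V m)) : Set (V m))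

theorem genpos_finrank_VT (T : Finset (Fin (2 * m + 1))) :
    Module.finrank ℝ (genpos_VT T) ≤ T.card :=
  (finrank_span_finset_le_card _).trans Finset.card_image_le

theorem genpos_mem_VT {T : Finset (Fin (2 * m + 1))} {x : V m} (h : ∀ i, i ∉ T → x i = 0) :
    x ∈ genpos_VT T := by
  have hx : x = ∑ i ∈ T, x i • (Pi.single i 1 : V m) := by
    funext j
    rw [Finset.sum_apply]
    by_cases hj : j ∈ T
    · rw [Finset.sum_eq_single j]
      · simp
      · intro i _ hij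
        simp [Ne.symm hij]
      · intro hj'
        exact absurd hj hj'
    · rw [h j hj]
      symm
      apply Finset.sum_eq_zero
      intro i hi
      have hij : j ≠ i := fun e => hj (e ▸ hi)
      simp [hij]
  rw [hx]
  apply Submodule.sum_mem
  intro i hi
  apply Submodule.smul_mem
  apply Submodule.subset_span
  simp only [Finset.coe_image]
  exact mem_image_of_mem _ hi

/-- Data of a pair of pieces. -/
abbrev genpos_Tup (m : ℕ) : Type :=
  ((V m →L[ℝ] V m) × V m) × ((V m →L[ℝ] V m) × V m) × Finset (Fin (2 * m + 1)) ×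
    Finset (Fin (2 * m + 1)) × (Fin (2 * m + 1) → ℤ) × (Fin (2 * m + 1) → ℤ)

def genpos_cast (z : Fin (2 * m + 1) → ℤ) : V m := fun i => (z i : ℝ)

def genpos_W1 (p : genpos_Tup m) : Submodule ℝ (V m) :=
  (genpos_VT p.2.2.1).map (p.1.1 : V m →ₗ[ℝ] V m)

def genpos_W2 (p : genpos_Tup m) : Submodule ℝ (V m) :=
  (genpos_VT p.2.2.2.1).map (p.2.1.1 : V m →ₗ[ℝ] V m)

def genpos_W (p : genpos_Tup m) : Submodule ℝ (V m) := genpos_W1 p ⊔ genpos_W2 p

def genpos_w (p : genpos_Tup m) : V m :=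
  p.1.1 (genpos_cast p.2.2.2.2.1) + p.1.2 - (p.2.1.1 (genpos_cast p.2.2.2.2.2) + p.2.1.2)

def genpos_W' (p : genpos_Tup m) : Submodule ℝ (V m) :=
  genpos_W p ⊔ Submodule.span ℝ {genpos_w p}

theorem genpos_finrank_V : Module.finrank ℝ (V m) = 2 * m + 1 := by
  simp [V]

theorem genpos_finrank_W1 (p : genpos_Tup m) :
    Module.finrank ℝ (genpos_W1 p) ≤ p.2.2.1.card :=
  (Submodule.finrank_map_le _ _).trans (genpos_finrank_VT _)

theorem genpos_finrank_W2 (p : genpos_Tup m) :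
    Module.finrank ℝ (genpos_W2 p) ≤ p.2.2.2.1.card :=
  (Submodule.finrank_map_le _ _).trans (genpos_finrank_VT _)

theorem genpos_top {p : genpos_Tup m} (h1 : p.2.2.1.card ≤ m) (h2 : p.2.2.2.1.card ≤ m)
    (h : genpos_W' p = ⊤) :
    p.2.2.1.card = m ∧ genpos_W1 p ⊓ genpos_W2 p = ⊥ ∧ genpos_W p ≠ ⊤ := by
  have a1 := genpos_finrank_W1 p
  have a2 := genpos_finrank_W2 p
  have a3 := Submodule.finrank_sup_add_finrank_inf_eq (genpos_W1 p) (genpos_W2 p)
  have a4 := Submodule.finrank_add_le_finrank_add_finrank (genpos_W p)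
    (Submodule.span ℝ {genpos_w p})
  have a5 : Module.finrank ℝ (Submodule.span ℝ ({genpos_w p} : Set (V m))) ≤ 1 := by
    have := finrank_span_le_card (R := ℝ) ({genpos_w p} : Set (V m))
    simpa using this
  have a6 : Module.finrank ℝ (genpos_W' p) = 2 * m + 1 := by
    rw [h, finrank_top, genpos_finrank_V]
  change Module.finrank ℝ (genpos_W' p) ≤ _ at a4
  change Module.finrank ℝ (genpos_W p) + _ = _ at a3
  refine ⟨by omega, ?_, ?_⟩
  · apply Submodule.finrank_eq_zero.1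
    omega
  · intro h'
    have a7 : Module.finrank ℝ (genpos_W p) = 2 * m + 1 := by
      rw [h', finrank_top, genpos_finrank_V]
    omega

/-- Solutions attached to a tuple. -/
def genpos_Sol (v : V m) (Γ : V m → V m) (p : genpos_Tup m) : Set (V m) :=
  {x | v ∉ genpos_W p ∧ genpos_W1 p ⊓ genpos_W2 p = ⊥ ∧ ∃ (x' : V m) (t : ℝ),
    x - genpos_cast p.2.2.2.2.1 ∈ genpos_VT p.2.2.1 ∧
    x' - genpos_cast p.2.2.2.2.2 ∈ genpos_VT p.2.2.2.1 ∧
    Γ x = p.1.1 x + p.1.2 ∧ Γ x' = p.2.1.1 x' + p.2.1.2 ∧ Γ x - Γ x' = t • v}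

theorem genpos_sub {v : V m} {Γ : V m → V m} (hΓ : Injective Γ) (p : genpos_Tup m) :
    (genpos_Sol v Γ p).Subsingleton := by
  rintro x ⟨hv, hb, x', t, hx, hx', ex, ex', et⟩ y ⟨-, -, y', s, hy, hy', ey, ey', es⟩
  have m1 : p.1.1 (x - y) ∈ genpos_W1 p := by
    refine ⟨x - y, ?_, rfl⟩
    have := Submodule.sub_mem _ hx hy
    simpa using this
  have m2 : p.2.1.1 (x' - y') ∈ genpos_W2 p := by
    refine ⟨x' - y', ?_, rfl⟩
    have := Submodule.sub_mem _ hx' hy'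
    simpa using this
  have e1 : p.1.1 (x - y) - p.2.1.1 (x' - y') = (t - s) • v := by
    rw [sub_smul, ← et, ← es, ex, ex', ey, ey', map_sub, map_sub]
    abel
  have hts : t - s = 0 := by
    by_contra hne
    apply hv
    have m3 : (t - s) • v ∈ genpos_W p := by
      rw [← e1]
      exact Submodule.sub_mem _ (Submodule.mem_sup_left m1) (Submodule.mem_sup_right m2)
    exact (Submodule.smul_mem_iff _ hne).1 m3
  rw [hts, zero_smul, sub_eq_zero] at e1
  have m4 : p.1.1 (x - y) ∈ genpos_W1 p ⊓ genpos_W2 p := ⟨m1, e1 ▸ m2⟩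
  rw [hb, Submodule.mem_bot, map_sub, sub_eq_zero] at m4
  apply hΓ
  rw [ex, ey, m4]

/-- Integer part off the non-integer coordinates. -/
def genpos_z (x : V m) : Fin (2 * m + 1) → ℤ := fun i => if i ∈ TT x then 0 else round (x i)

theorem genpos_eq_round {x : V m} {i : Fin (2 * m + 1)} (hi : i ∉ TT x) :
    x i = round (x i) := by
  have h : dd (x i) = 0 := by
    by_contra h
    exact hi (Finset.mem_filter.2 ⟨Finset.mem_univ _, h⟩)
  unfold dd at h
  exact sub_eq_zero.1 (abs_eq_zero.1 h)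

theorem genpos_sub_z (x : V m) : x - genpos_cast (genpos_z x) ∈ genpos_VT (TT x) := by
  apply genpos_mem_VT
  intro i hi
  simp only [Pi.sub_apply, genpos_cast, genpos_z, if_neg hi]
  exact sub_eq_zero.2 (genpos_eq_round hi)

theorem genpos_z_mem {x : V m} {N : ℕ} (hx : ‖x‖ ≤ N) (i : Fin (2 * m + 1)) :
    genpos_z x i ∈ Icc (-(N : ℤ)) N := by
  unfold genpos_z
  by_cases hi : i ∈ TT x
  · rw [if_pos hi]
    constructor <;> omega
  · rw [if_neg hi]
    have h1 : |x i| ≤ N := by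
      have := norm_le_pi_norm x i
      rw [Real.norm_eq_abs] at this
      exact this.trans hx
    rw [genpos_eq_round hi] at h1
    have h2 : |round (x i)| ≤ (N : ℤ) := by
      have : ((|round (x i)| : ℤ) : ℝ) ≤ ((N : ℤ) : ℝ) := by
        push_cast
        exact h1
      exact_mod_cast this
    exact abs_le.1 h2

theorem exists_GP {κ : Type} [Countable κ] (Γ : κ → V m → V m) (h1 : ∀ k, TP (Γ k))
    (h2 : ∀ k, Injective (Γ k)) : ∃ v : V m, v 0 ≠ 0 ∧ ∀ k, GP v (Γ k) := by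
  classical
  choose S hSf hS using fun (k : κ) (N : ℕ) => (h1 k).pa N
  set P : Set ((V m →L[ℝ] V m) × V m) := ⋃ k, ⋃ N, S k N with hP
  have hPc : P.Countable :=
    countable_iUnion fun k => countable_iUnion fun N => (hSf k N).countable
  set Q : Set (genpos_Tup m) := P ×ˢ P ×ˢ univ with hQ
  have hQc : Q.Countable := hPc.prod (hPc.prod countable_univ)
  set K0 : Submodule ℝ (V m) := LinearMap.ker (LinearMap.proj (R := ℝ) (φ := fun _ => ℝ) 0)
    with hK0
  obtain ⟨v, hv⟩ := genpos_avoid (insert K0 (genpos_W '' Q ∪ genpos_W' '' Q))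
    (((hQc.image _).union (hQc.image _)).insert _)
  have hv0 : v 0 ≠ 0 := by
    intro h
    refine hv K0 (mem_insert _ _) ?_ (by simpa [hK0] using h)
    intro ht
    have : (fun _ => 1 : V m) ∈ K0 := ht ▸ Submodule.mem_top
    simp [hK0] at this
  refine ⟨v, hv0, fun k R => ?_⟩
  set N : ℕ := ⌈R⌉₊ with hN
  have hRN : R ≤ N := Nat.le_ceil R
  set Z : Set (Fin (2 * m + 1) → ℤ) := {z | ∀ i, z i ∈ Icc (-(N : ℤ)) N} with hZ
  have hZf : Z.Finite := Set.Finite.pi' fun _ => finite_Icc _ _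
  set F : Set (genpos_Tup m) := S k N ×ˢ S k N ×ˢ univ ×ˢ univ ×ˢ Z ×ˢ Z with hF
  have hFf : F.Finite :=
    (hSf k N).prod ((hSf k N).prod (finite_univ.prod (finite_univ.prod (hZf.prod hZf))))
  have hU : (⋃ p ∈ F, genpos_Sol v (Γ k) p).Finite :=
    hFf.biUnion fun p _ => (genpos_sub (h2 k) p).finite
  refine ⟨hU.toFinset.filter (fun a => (TT a).card = m),
    fun a ha => (Finset.mem_filter.1 ha).2, ?_⟩
  intro x x' hx hx' hxR hxR' hne hpj
  have hxN : ‖x‖ ≤ N := hxR.trans hRN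
  have hxN' : ‖x'‖ ≤ N := hxR'.trans hRN
  obtain ⟨A, hA, eA⟩ := hS k N x (by simpa using hxN)
  obtain ⟨B, hB, eB⟩ := hS k N x' (by simpa using hxN')
  set p : genpos_Tup m := (A, B, TT x, TT x', genpos_z x, genpos_z x') with hp
  have hpQ : p ∈ Q :=
    ⟨mem_iUnion.2 ⟨k, mem_iUnion.2 ⟨N, hA⟩⟩, mem_iUnion.2 ⟨k, mem_iUnion.2 ⟨N, hB⟩⟩, mem_univ _⟩
  have hpF : p ∈ F :=
    ⟨hA, hB, mem_univ _, mem_univ _, genpos_z_mem hxN, genpos_z_mem hxN'⟩
  set t : ℝ := ell v (Γ k x) - ell v (Γ k x') with ht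
  have et : Γ k x - Γ k x' = t • v := by
    unfold pj at hpj
    rw [ht, sub_smul]
    have e := sub_eq_zero.2 hpj
    rw [← sub_eq_zero, ← e]
    abel
  have ht0 : t ≠ 0 := by
    intro h
    rw [h, zero_smul, sub_eq_zero] at et
    exact hne (h2 k et)
  have hW' : genpos_W' p = ⊤ := by
    by_contra hne'
    apply hv _ (mem_insert_of_mem _ (Or.inr (mem_image_of_mem _ hpQ))) hne'
    apply (Submodule.smul_mem_iff _ ht0).1
    have e1 : t • v = (A.1 (x - genpos_cast (genpos_z x)) -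
        B.1 (x' - genpos_cast (genpos_z x'))) + genpos_w p := by
      rw [← et, eA, eB, map_sub, map_sub]
      simp only [genpos_w, hp]
      abel
    rw [e1]
    refine Submodule.add_mem _ (Submodule.mem_sup_left ?_)
      (Submodule.mem_sup_right (Submodule.mem_span_singleton_self _))
    exact Submodule.sub_mem _ (Submodule.mem_sup_left ⟨_, genpos_sub_z x, rfl⟩)
      (Submodule.mem_sup_right ⟨_, genpos_sub_z x', rfl⟩)
  obtain ⟨c1, c2, c3⟩ := genpos_top (p := p) (mu_eq_zero_iff.1 hx) (mu_eq_zero_iff.1 hx') hW'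
  have c4 : v ∉ genpos_W p :=
    hv _ (mem_insert_of_mem _ (Or.inl (mem_image_of_mem _ hpQ))) c3
  refine Finset.mem_filter.2 ⟨hU.mem_toFinset.2 (mem_biUnion hpF ?_), c1⟩
  exact ⟨c4, c2, x', t, genpos_sub_z x, genpos_sub_z x', eA, eB, et⟩

theorem genpos_lh_gen (p : ℕ × ℕ × ℕ) : LH (gen p : V m → V m) := by
  have h0 : (0 : ℝ) < (1 / 2 : ℝ) ^ (p.2.1 + 4) := by positivity
  have h1 : (1 / 2 : ℝ) ^ (p.2.1 + 4) ≤ 1 / 16 := by
    rw [pow_add]
    have : (1 / 2 : ℝ) ^ p.2.1 ≤ 1 := pow_le_one₀ (by norm_num) (by norm_num)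
    linarith only [this]
  have a1 : LH (fun x : V m => ((1 / 2 : ℝ) ^ p.1) • x) := LH.smul (by positivity)
  have a2 : LH (fun x : V m => ((2 : ℝ) ^ p.1) • x) := LH.smul (by positivity)
  exact a1.comp ((lh_gg h0 h1 p.2.2).comp a2)

theorem lh_word (l : List (ℕ × ℕ × ℕ)) : LH (word l : V m → V m) := by
  induction l with
  | nil => exact LH.id'
  | cons p l ih => exact ih.comp (genpos_lh_gen p)

theorem exists_GP_word (m : ℕ) : ∃ v : V m, v 0 ≠ 0 ∧
    ∀ (l : List (ℕ × ℕ × ℕ)) (j : ℕ), GP v (fun x => word l (((1 / 2 : ℝ) ^ j) • x)) := by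
  have key : ∀ q : List (ℕ × ℕ × ℕ) × ℕ,
      LH (fun x : V m => word q.1 (((1 / 2 : ℝ) ^ q.2) • x)) := fun q =>
    (lh_word q.1).comp (LH.smul (c := (1 / 2 : ℝ) ^ q.2) (by positivity))
  obtain ⟨v, hv, h⟩ := exists_GP
    (fun (q : List (ℕ × ℕ × ℕ) × ℕ) (x : V m) => word q.1 (((1 / 2 : ℝ) ^ q.2) • x))
    (fun q => (key q).tp) (fun q => (key q).inj)
  exact ⟨v, hv, fun l j => h (l, j)⟩

end BEv
end
end

-- merged part: Pool.Agent.Work.MP_f0515e_an.Ev.Defs
section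
/-! Working definitions for the sign-changing Sobolev homeomorphism at the endpoint exponent in
even dimension `2 m + 2`, exponent `m + 1`.  General tools come from the namespace `BEv`; the names
of the namespace `BEe` shadow the ones of `BEv`. -/

open Set Metric Filter Topology MeasureTheory Function BEv
open scoped ENNReal NNReal

noncomputable section
namespace BEe

abbrev V (m : ℕ) : Type := Fin (2 * m + 2) → ℝ

section Periodic
variable {m : ℕ}

/-- Keep the coordinates in `T`. -/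
def pr (T : Finset (Fin (2 * m + 2))) (x : V m) : V m := fun i => if i ∈ T then x i else 0

/-- The `k`-th smallest distance of a coordinate to the integers. -/
def mk (k : ℕ) (x : V m) : ℝ :=
  cmin (Finset.powersetCard k Finset.univ) (1 / 2) (fun S => ‖pr S (fun i => dd (x i))‖)

/-- Distance to the skeleton of dimension `m + 1`. -/
def mu (x : V m) : ℝ := mk (m + 1) x

def hlf : V m := fun _ => 1 / 2

/-- Distance to the dual skeleton, of dimension `m`. -/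
def be (x : V m) : ℝ := mk (m + 2) (x - hlf)

def r0 (K : ℕ) (x : V m) : V m :=
  fun i => 1 / 2 + oext (QQ (fun _ => 1 / 2) (1 / 2) K (be x)) (x i - 1 / 2)

def gta (τ : ℝ) (K : ℕ) : V m → V m := mix τ (r0 K)

def gtl (τ : ℝ) (K : ℕ) (ζ : V m → ℝ) : V m → V m := mix τ (loc ζ (r0 K))

/-- The two parameters of the contraction are tied together. -/
def tj (j : ℕ) : ℝ := (1 / 2) ^ (j + 4)

def Kj (m j : ℕ) : ℕ := (m + 2) * j

/-- The weight `be ^ (-(m + 1))`. -/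
def wt (x : V m) : ℝ≥0∞ := (ENNReal.ofReal (be x))⁻¹ ^ (m + 1)

def En (u : V m → V m) (Z : Set (V m)) : ℝ≥0∞ := ∫⁻ x in Z, (1 + lip u x) ^ (m + 1)

def pb (ρ : ℝ) (N : ℕ) (t : ℝ) : ℝ := 8 / (N * max t (ρ / 2 ^ N))

/-- Weight carried by the fibres of the contraction over a small ball. -/
def PF0 (K : ℕ) (a : V m) (t : ℝ) (x : V m) : ℝ≥0∞ :=
  indicator {x : V m | dl K < be x ∧ ‖r0 K x - a‖ ≤ t} wt x

def PFw (K : ℕ) (a : V m) (ρ : ℝ) (N : ℕ) (x : V m) : ℝ≥0∞ :=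
  indicator {x : V m | dl K < be x ∧ ‖r0 K x - a‖ ≤ ρ}
    (fun x => ENNReal.ofReal (1 + pb ρ N ‖r0 K x - a‖) ^ (m + 1) * wt x) x

end Periodic

section Tooth
variable {m : ℕ}

/-- Radial profile of a tooth. -/
def rho (h : ℝ) (N : ℕ) (r : ℝ) : ℝ :=
  min (2 ^ N * r / 2) (h / 2) + h / 2 * Lam h N r + max (r - h) 0

def tq (h : ℝ) (N : ℕ) (r d : ℝ) : ℝ :=
  cmin (Finset.range N) (2 ^ N * d) (fun k => 2 ^ k * d + max (rho h N r - 2 ^ k * r) 0)

/-- A tiny ball is blown up to the ball of radius `h / 2`; identity outside the ball of radius `h`. -/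
def tooth (h : ℝ) (N : ℕ) (y : V m) : V m :=
  fun i => tq h N ‖y‖ (max (y i) 0) - tq h N ‖y‖ (max (-y i) 0)

/-- Finitely many teeth. -/
def Es {ι : Type} [Fintype ι] (c : ι → V m) (h : ι → ℝ) (N : ι → ℕ) (y : V m) : V m :=
  y + ∑ i, (tooth (h i) (N i) (y - c i) - (y - c i))

def med (t : ℝ) : ℝ := max 0 (min t 1)

end Tooth

section Shear
variable {m : ℕ}

def ell (v z : V m) : ℝ := z 0 / v 0

def pj (v z : V m) : V m := z - ell v z • v

def rf (v z : V m) : V m := z - (2 * ell v z) • v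

def SS (v : V m) (σ : ℝ) (φ : V m → ℝ) (z : V m) : V m :=
  pj v z + (sh σ (φ (pj v z), ell v z)).2 • v

/-- Rational numbers. -/
def Rq (t : ℝ) : Prop := ∃ r : ℚ, t = r

def RV (x : V m) : Prop := ∀ i, Rq (x i)

/-- Piecewise affine homeomorphisms which keep the rational points. -/
def IsW (Γ : V m → V m) : Prop := LH Γ ∧ ∀ x, RV x → RV (Γ x)

/-- A line in the space of pairs: base point and direction. -/
abbrev Ln (m : ℕ) : Type := (V m × V m) × (V m × V m)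

def Ln.pt (l : Ln m) (t : ℝ) : V m × V m := l.1 + t • l.2

/-- General position of the projection of the skeleton: the double points lie on finitely many
lines, and there are no triple points. -/
structure GP (v : V m) (Γ : V m → V m) : Prop where
  lines : ∀ R : ℝ, ∃ S : Finset (Ln m), (∀ l ∈ S, l.2.1 ≠ 0 ∧ l.2.2 ≠ 0) ∧
    ∀ x x', mu x = 0 → mu x' = 0 → ‖x‖ ≤ R → ‖x'‖ ≤ R → x ≠ x' → pj v (Γ x) = pj v (Γ x') →
      ∃ l ∈ S, ∃ t, l.pt t = (x, x')
  triple : ∀ x x' x'', mu x = 0 → mu x' = 0 → mu x'' = 0 → pj v (Γ x) = pj v (Γ x') →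
    pj v (Γ x) = pj v (Γ x'') → x = x' ∨ x = x'' ∨ x' = x''

end Shear

structure St (m : ℕ) where
  G : V m → V m
  H : V m → V m
  σ : ℝ
  a0 : V m → ℝ
  I : Set (V m)
  Γ : V m → V m

namespace St
variable {m : ℕ} (v : V m) (s : St m)

def a (s : St m) (y : V m) : ℝ := min s.σ (max (s.a0 y) 0)

def U : Set (V m) := {z | 0 ≤ s.a0 (pj v (s.G z)) ∧ |ell v (s.G z)| ≤ 4 * s.σ}

def k (z : V m) : V m := invFun s.H (rf v (s.G z))

def Psi (x : V m) (c : ℝ) : V m := invFun s.H (pj v (s.G x) + RR s.σ c (ell v (s.G x)) • v)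

def f (x : V m) : ℝ := clamp (ell v (s.G x)) (s.a (pj v (s.G x)))

def u (x : V m) : V m := Psi v s x (f v s x)

structure Ok : Prop where
  hv : v 0 ≠ 0
  hG : LH s.G
  hH : LH s.H
  hσ : 0 < s.σ
  ha0 : TP s.a0
  hI : IsOpen s.I
  bdd : Bornology.IsBounded (U v s)
  onI : ∀ x ∈ s.I, s.H x = s.G x ∧ 0 ≤ s.a0 (pj v (s.G x)) ∧ |ell v (s.G x)| ≤ s.a (pj v (s.G x))

def Gam : Prop := ∀ x ∈ U v s, pj v (s.G x) = pj v (s.Γ x)

def Fib (η : ℝ) : Prop :=
  ∀ z ∈ U v s, ∀ t : ℝ, |t| ≤ 4 * s.σ → ‖invFun s.H (pj v (s.G z) + t • v) - z‖ ≤ η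

def Fold : Set (V m) := {z | z ∉ s.I ∧ u v s z ∈ s.I}

/-- Rescaling of the domain. -/
def sc (c : ℝ) : St m :=
  ⟨fun x => s.G (c • x), fun x => s.H (c • x), s.σ, s.a0, {x | c • x ∈ s.I}, fun x => s.Γ (c • x)⟩

end St

/-- Parameters of the coarse part of the unit step. -/
structure CP (m : ℕ) where
  F1 : Finset (V m)
  F2 : Finset (V m)
  FU : Finset (V m)
  chi : V m → ℝ
  φ0 : V m → ℝ
  b0 : ℝ
  σ : ℝ

namespace CP
variable {m : ℕ} (v : V m) (s : St m) (P : CP m)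

def th (P : CP m) (x : V m) : ℝ := min (12 - dcap P.F1 12 x) (dcap P.F2 12 x)

def etaB (P : CP m) (x : V m) : ℝ := 5 - dcap P.FU 5 x

def zeta (P : CP m) (x : V m) : ℝ := max (8 - P.th x) 0

def hi (P : CP m) (j : ℕ) (y : V m) : V m :=
  gtl (tj j) (Kj m j) P.zeta (invFun (gta (tj j) (Kj m j)) y)

def gB (P : CP m) (j : ℕ) : V m → V m := gtl (tj j) (Kj m j) P.etaB

/-- Freedom left to the level function. -/
def B (s : St m) (P : CP m) (y : V m) : ℝ :=
  P.b0 * med (3 - P.chi y) + 3 * s.σ * med (2 - P.chi y)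

/-- Admissible levels. -/
def adm (s : St m) (P : CP m) (y : V m) (t : ℝ) : ℝ :=
  P.φ0 y + clamp (clamp t (s.a y) - P.φ0 y) (B s P y)

def a0 (y : V m) : ℝ := min (P.th (invFun s.G (y + P.φ0 y • v)) - 2) (P.chi y - 2)

def a1 (y : V m) : ℝ := min P.σ (max (a0 v s P y) 0)

/-- The folded map of the next state, for a prescribed level `c`. -/
def Xi (z : V m) (c : ℝ) : V m :=
  invFun s.H (pj v (s.G z) + (invFun (sh s.σ) (c, RR P.σ
    (clamp (sh s.σ (c, ell v (s.G z))).2 (a1 v s P (pj v (s.G z))))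
    (sh s.σ (c, ell v (s.G z))).2)).2 • v)

/-- The virtual folded map before contraction. -/
def Th (z : V m) : V m := Xi v s P z (adm s P (pj v (s.G z)) (St.f v s z))

def Phi (j : ℕ) (p : V m × ℝ) : V m :=
  P.hi j (Xi v s P (P.gB j p.1) (adm s P (pj v (s.G (P.gB j p.1))) p.2))

/-- The virtual folded map. -/
def us (j : ℕ) (x : V m) : V m := P.hi j (Th v s P (P.gB j x))

def Ob : Set (V m) :=
  {z | z ∈ s.I ∧ |ell v (s.G z) - P.φ0 (pj v (s.G z))| < a1 v s P (pj v (s.G z))}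

/-- An open set on which `Th` is the identity. -/
def O : Set (V m) :=
  {z | z ∈ s.I ∧ |ell v (s.G z) - P.φ0 (pj v (s.G z))| < B s P (pj v (s.G z))} ∪ Ob v s P

def Is (j : ℕ) : Set (V m) := {x | 8 < P.th x ∧ P.gB j x ∈ O v s P}

def Fos (j : ℕ) : Set (V m) := {x | P.gB j x ∉ O v s P ∧ 8 ≤ P.th (us v s P j x)}

/-- The zone where the level is not yet a function of the projection. -/
def Nz (j : ℕ) : Set (V m) := {x | P.gB j x ∈ St.U v s ∧ P.chi (pj v (s.G (P.gB j x))) ≤ 3}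

def new (j : ℕ) (φ : V m → ℝ) (q : V m → V m) (Z : Set (V m)) : St m :=
  ⟨fun x => SS v s.σ (fun y => adm s P y (φ y)) (s.G (P.gB j (q x))),
    fun x => SS v s.σ (fun y => adm s P y (φ y)) (s.H (invFun (P.hi j) x)), P.σ, a0 v s P,
    Is v s P j \ Z, fun x => s.Γ (gta (tj j) (Kj m j) (q x))⟩

structure Ok : Prop where
  hF1 : ∀ p ∈ P.F1, closedBall p 20 ⊆ s.I
  hFU : ∀ p ∈ P.FU, p ∈ St.U v s
  net : ∀ x ∈ St.U v s, ∃ p ∈ P.FU, ‖x - p‖ ≤ 1
  tchi : TP P.chi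
  tφ : TP P.φ0
  φle : ∀ y, |P.φ0 y| ≤ s.a y
  φeq : ∀ x ∈ St.U v s, mu x = 0 → 1 ≤ P.chi (pj v (s.G x)) → P.φ0 (pj v (s.G x)) = St.f v s x
  b00 : 0 < P.b0
  σ0 : 0 < P.σ
  sG : ∀ (y : V m) (t t' : ℝ), |t - t'| ≤ 8 * P.σ + P.b0 →
    ‖invFun s.G (y + t • v) - invFun s.G (y + t' • v)‖ ≤ 1
  sH : ∀ (y : V m) (t t' : ℝ), |t - t'| ≤ 16 * P.σ →
    ‖invFun s.H (y + t • v) - invFun s.H (y + t' • v)‖ ≤ 1

/-- The skeleton inside `Z` is protected. -/
def Prot (Z : Set (V m)) : Prop := ∀ x ∈ Z, mu x = 0 → x ∉ s.I → P.th (St.u v s x) ≤ 1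

def Main (x : V m) : ℝ≥0∞ :=
  indicator {x | P.th x ≤ 8} (fun x => (9 * (1 + om (St.u v s) 2 x)) ^ (m + 1) * wt x) x

end CP

/-- Points which are not deep with respect to the two nets. -/
def Shal {m : ℕ} (F1 F2 : Finset (V m)) : Set (V m) :=
  {y | (∀ p ∈ F1, 3 < ‖y - p‖) ∨ ∃ p ∈ F2, ‖y - p‖ < 9}

end BEe
end
end
end

-- merged part: Pool.Agent.Work.MP_f0515e_an.UnitG
section
-- merged part: Pool.Agent.Work.MP_f0515e_an.UnitA
section
/-! The cut-off functions of the unit step and the localised expansion. -/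

open Set Metric Filter Topology MeasureTheory Function
open scoped ENNReal NNReal

noncomputable section
namespace BEv
namespace P1

variable {m : ℕ} {P : P1 m}

theorem tp_th (P : P1 m) : TP P.th :=
  ((TP.const (12 : ℝ)).sub (TP.dcap P.F1 12)).min (TP.dcap P.F2 12)

theorem abs_th_sub_le (P : P1 m) (x y : V m) : |P.th x - P.th y| ≤ ‖x - y‖ := by
  have h1 := abs_le.1 (abs_dcap_sub_le P.F1 12 x y)
  have h2 := abs_le.1 (abs_dcap_sub_le P.F2 12 x y)
  refine (abs_min_sub_min_le_max _ _ _ _).trans (max_le ?_ ?_)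
  · exact abs_le.2 ⟨by linarith [h1.2], by linarith [h1.1]⟩
  · exact abs_le.2 h2

theorem th_nonneg (P : P1 m) (x : V m) : 0 ≤ P.th x :=
  le_min (sub_nonneg.2 (dcap_le_cap _ _ _)) (dcap_nonneg _ (by norm_num) _)

theorem exists_of_le_th {x : V m} {c : ℝ} (hc : 0 < c) (h : c ≤ P.th x) :
    ∃ p ∈ P.F1, ‖x - p‖ ≤ 12 - c := by
  have h1 : c ≤ 12 - dcap P.F1 12 x := h.trans (min_le_left _ _)
  obtain ⟨p, hp, he⟩ := exists_of_dcap_lt (S := P.F1) (M := 12) (x := x) (by linarith)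
  exact ⟨p, hp, by linarith⟩

theorem th_le_of_mem (P : P1 m) (x : V m) {p : V m} (hp : p ∈ P.F2) : P.th x ≤ ‖x - p‖ :=
  (min_le_right _ _).trans (dcap_le 12 x hp)

theorem cases_of_th_le {x y : V m} (h : P.th x ≤ 8) (hxy : ‖x - y‖ < 1) :
    (∀ p ∈ P.F1, 3 < ‖y - p‖) ∨ ∃ p ∈ P.F2, ‖y - p‖ < 9 := by
  rcases min_le_iff.1 h with h1 | h1
  · refine Or.inl fun p hp => ?_
    have h2 := dcap_le 12 x hp
    have h3 : ‖x - p‖ ≤ ‖x - y‖ + ‖y - p‖ := norm_sub_le_norm_sub_add_norm_sub _ _ _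
    linarith
  · obtain ⟨p, hp, he⟩ := exists_of_dcap_lt (S := P.F2) (M := 12) (x := x) (by linarith)
    refine Or.inr ⟨p, hp, ?_⟩
    have h3 : ‖y - p‖ ≤ ‖y - x‖ + ‖x - p‖ := norm_sub_le_norm_sub_add_norm_sub _ _ _
    rw [norm_sub_rev y x] at h3
    linarith

theorem tp_dD (P : P1 m) : TP P.dD := TP.dcap P.D 1

theorem abs_dD_sub_le (P : P1 m) (x y : V m) : |P.dD x - P.dD y| ≤ ‖x - y‖ :=
  abs_dcap_sub_le P.D 1 x y

theorem tp_zeta (P : P1 m) : TP P.zeta :=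
  ((TP.const (8 : ℝ)).sub P.tp_th).max (TP.const 0)

theorem abs_zeta_sub_le (P : P1 m) (x y : V m) : |P.zeta x - P.zeta y| ≤ ‖x - y‖ := by
  have h1 := abs_le.1 (P.abs_th_sub_le x y)
  refine (abs_max_sub_max_le_abs _ _ _).trans ?_
  exact abs_le.2 ⟨by linarith [h1.2], by linarith [h1.1]⟩

theorem unita_tp_eta0 (P : P1 m) : TP (fun z => max (P.th z - 3) 0) :=
  (P.tp_th.sub (TP.const (3 : ℝ))).max (TP.const 0)

theorem unita_eta0_lip (P : P1 m) (x y : V m) :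
    |max (P.th x - 3) 0 - max (P.th y - 3) 0| ≤ ‖x - y‖ := by
  have h1 := abs_le.1 (P.abs_th_sub_le x y)
  refine (abs_max_sub_max_le_abs _ _ _).trans ?_
  exact abs_le.2 ⟨by linarith [h1.1], by linarith [h1.2]⟩

theorem unita_tp_etaA (P : P1 m) (a : V m) : TP (P.etaA a) :=
  (TP.const_mul (2 * P.τ) ((tp_Lam P.ρ P.N).comp (tp_ta a))).max
    ((TP.const (2 * P.τ)).min (((tp_na a).sub (TP.const (2 * P.τ))).max (TP.const 0)))

theorem unita_cut_lip (P : P1 m) (a x y : V m) :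
    |min (2 * P.τ) (max (na a x - 2 * P.τ) 0) - min (2 * P.τ) (max (na a y - 2 * P.τ) 0)| ≤
      ‖x - y‖ := by
  have h1 := abs_le.1 (abs_na_sub_le a x y)
  refine (abs_min_sub_min_le_max _ _ _ _).trans (max_le (by simp) ?_)
  refine (abs_max_sub_max_le_abs _ _ _).trans ?_
  exact abs_le.2 ⟨by linarith [h1.1], by linarith [h1.2]⟩

theorem unita_etaA_nonneg (h : P.Ok0) (a y : V m) : 0 ≤ P.etaA a y :=
  le_max_of_le_left (mul_nonneg (by linarith [h.τ0]) (Lam_nonneg _ _ _))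

theorem unita_etaA_le (h : P.Ok0) (a y : V m) : P.etaA a y ≤ 2 * P.τ := by
  refine max_le ?_ (min_le_left _ _)
  have := Lam_le_one P.ρ P.N (ta a y)
  linarith only [this, h, h.τ0, mul_nonneg_of_nonpos_of_nonpos (Mathlib.Tactic.Linarith.sub_nonpos_of_le this) (le_of_lt (Mathlib.Tactic.Linarith.sub_neg_of_lt h.τ0))]

theorem unita_etaA_eq (h : P.Ok0) {a y : V m} (hy : y ∉ P.box a) : P.etaA a y = 2 * P.τ := by
  refine le_antisymm (unita_etaA_le h a y) ?_
  by_cases h1 : ta a y ≤ P.ρ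
  · have h2 : 4 * P.τ < na a y := lt_of_not_ge fun h2 => hy ⟨h1, h2⟩
    exact le_max_of_le_right (le_min le_rfl (le_max_of_le_left (by linarith)))
  · refine le_max_of_le_left ?_
    rw [Lam_eq_one h.ρ0 h.N1 (le_of_not_ge h1), mul_one]

theorem unita_norm_le (h : P.Ok0) {a y : V m} (hy : y ∈ P.box a) : ‖y - a‖ ≤ 4 * P.τ := by
  rw [norm_sub_eq_max]
  exact max_le (by linarith [hy.1, h.ρ1, h.τ0]) hy.2

theorem unita_far (h : P.Ok0) {a b y : V m} (ha : a ∈ P.D) (hb : b ∈ P.D) (hab : a ≠ b)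
    (hy : y ∈ P.box a) : 5 * P.τ ≤ ‖y - b‖ := by
  have h1 := unita_norm_le h hy
  have h2 := h.sep a ha b hb hab
  have h3 : ‖a - b‖ ≤ ‖a - y‖ + ‖y - b‖ := norm_sub_le_norm_sub_add_norm_sub _ _ _
  rw [norm_sub_rev a y] at h3
  linarith

theorem unita_not_mem (h : P.Ok0) {a b y : V m} (ha : a ∈ P.D) (hb : b ∈ P.D) (hab : a ≠ b)
    (hy : y ∈ P.box a) : y ∉ P.box b := fun hy' => by
  have h1 := unita_far h ha hb hab hy
  have h2 := unita_norm_le h hy'
  linarith [h.τ0]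

theorem unita_eta_box (h : P.Ok0) {a y : V m} (ha : a ∈ P.D) (hy : y ∈ P.box a) :
    P.eta y = min (max (P.th y - 3) 0) (P.etaA a y) := by
  refine le_antisymm (le_min (cmin_le_cap _ _ _) (cmin_le _ _ (fun a => P.etaA a y) ha))
    (le_cmin _ _ _ (min_le_left _ _) fun b hb => (min_le_right _ _).trans ?_)
  by_cases hab : a = b
  · rw [hab]
  · rw [unita_etaA_eq h (unita_not_mem h ha hb hab hy)]
    exact unita_etaA_le h a y

/-- the localised expansion only sees the cut-off up to `2τ` -/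
theorem unita_EEl_congr (h : P.Ok0) (K : ℕ) {η η' : V m → ℝ} {y : V m}
    (he : η y = η' y ∨ (2 * P.τ ≤ η y ∧ 2 * P.τ ≤ η' y)) :
    EEl P.τ K η y = EEl P.τ K η' y := by
  rcases he with he | he
  · funext i
    simp only [EEl, mix, loc, Pi.add_apply, Pi.smul_apply, he]
  · rw [EEl_eq h.τ0 h.τ1 he.1, EEl_eq h.τ0 h.τ1 he.2]

theorem unita_fix (h : P.Ok0) (K : ℕ) {η : V m → ℝ} {a y : V m} (ha : a ∈ P.D)
    (hy : y ∈ P.box a) (h0 : 0 ≤ η y) {i : Fin (2 * m + 1)} (hi : i ∈ TT a) :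
    EEl P.τ K η y i = y i := by
  have h1 := h.far a ha i hi
  have h2 := abs_le.1 (abs_dd_sub_le (a i) (y i))
  have h3 : |(y - a) i| ≤ ta a y := abs_le_norm_pr (y - a) hi
  rw [Pi.sub_apply, abs_sub_comm] at h3
  have h4 : MM P.τ K y i = y i :=
    MM_apply_eq h.τ0 h.τ1 K (by linarith only [h1, h2, h3, hy, h, h2.2, hy.1, h.ρ1, h.τ0])
  simp only [EEl, mix, loc, Pi.add_apply, Pi.smul_apply, smul_eq_mul, h4]
  rw [min_eq_left (by linarith), max_eq_right (by linarith)]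
  ring

theorem tp_eta (P : P1 m) : TP P.eta :=
  TP.cmin P.D P.unita_tp_eta0 fun a _ => P.unita_tp_etaA a

theorem eta_nonneg (h : P.Ok0) (y : V m) : 0 ≤ P.eta y :=
  le_cmin _ _ _ (le_max_right _ _) fun a _ => unita_etaA_nonneg h a y

theorem eta_eq_zero (h : P.Ok0) {y : V m} (hy : P.th y ≤ 3) : P.eta y = 0 :=
  le_antisymm ((cmin_le_cap _ _ _).trans (max_le (by linarith) le_rfl)) (eta_nonneg h y)

theorem eta_eq_zero' (h : P.Ok0) {y a : V m} (ha : a ∈ P.D) (h1 : ta a y ≤ P.ρ / 2 ^ P.N)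
    (h2 : na a y ≤ 2 * P.τ) : P.eta y = 0 := by
  refine le_antisymm ((cmin_le _ _ (fun a => P.etaA a y) ha).trans ?_) (eta_nonneg h y)
  refine max_le ?_ ((min_le_right _ _).trans (max_le (by linarith) le_rfl))
  rw [Lam_eq_zero h.ρ0 h1, mul_zero]

theorem isClosed_box (P : P1 m) (a : V m) : IsClosed (P.box a) :=
  (isClosed_le (tp_ta a).continuous continuous_const).inter
    (isClosed_le (tp_na a).continuous continuous_const)

theorem le_eta (h : P.Ok0) {y : V m} (hy : ∀ a ∈ P.D, y ∉ P.box a) (h4 : 4 ≤ P.th y) :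
    2 * P.τ ≤ P.eta y :=
  le_cmin _ _ _ (le_max_of_le_left (by linarith only [h4, h, h.τ1])) fun a ha =>
    (unita_etaA_eq h (hy a ha)).ge

theorem EEl_eta_eq (h : P.Ok0) (K : ℕ) {y : V m} (hy : ∀ a ∈ P.D, y ∉ P.box a) :
    EEl P.τ K P.eta y = EEl P.τ K (fun z => max (P.th z - 3) 0) y := by
  apply unita_EEl_congr h K
  rcases le_total (max (P.th y - 3) 0) (2 * P.τ) with h1 | h1
  · exact Or.inl (le_antisymm (cmin_le_cap _ _ _) (le_cmin _ _ _ le_rfl fun a ha =>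
      h1.trans (unita_etaA_eq h (hy a ha)).ge))
  · exact Or.inr ⟨le_cmin _ _ _ h1 fun a ha => (unita_etaA_eq h (hy a ha)).ge, h1⟩

theorem ll_eta_box (h : P.Ok0) {a y : V m} (ha : a ∈ P.D) (hy : y ∈ P.box a) :
    LL P.eta y (1 + lam P.ρ P.N (ta a y)) := by
  have hl := lam_nonneg h.ρ0 P.N (ta a y)
  refine LL.cmin (M := fun z => max (P.th z - 3) 0) (f := fun b z => P.etaA b z) P.D ?_
    fun b hb => ?_
  · exact (LL.of_forall (c := 1) (fun x z => by
      rw [one_mul]; exact P.unita_eta0_lip x z) y).mono (by linarith)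
  · by_cases hab : a = b
    · subst hab
      refine LL.max ?_ ?_
      · have h1 : LL (ta a) y 1 := LL.of_forall (fun x z => by
          rw [one_mul]; exact abs_ta_sub_le a x z) y
        have h2 := LL.const_mul (2 * P.τ) ((ll_Lam h.ρ0 h.N1 (ta a y)).comp h1 hl)
        refine h2.mono ?_
        rw [abs_of_nonneg (by linarith [h.τ0])]
        linarith only [hl, h, h.τ0, h.τ1, mul_nonneg_of_nonpos_of_nonpos (Mathlib.Tactic.Linarith.sub_nonpos_of_le hl) (Mathlib.Tactic.Linarith.sub_nonpos_of_le h.τ1)]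
      · exact (LL.of_forall (c := 1) (fun x z => by
          rw [one_mul]; exact P.unita_cut_lip a x z) y).mono (by linarith)
    · refine ((LL.const (2 * P.τ) y).congr ?_).mono (by linarith)
      filter_upwards [(P.isClosed_box b).isOpen_compl.mem_nhds (unita_not_mem h ha hb hab hy)]
        with z hz
      exact unita_etaA_eq h hz

theorem lh_EEl_eta (h : P.Ok0) (K : ℕ) : LH (EEl P.τ K P.eta) := by
  classical
  have hM := tp_MM (m := m) h.τ0 h.τ1 K
  have hA := accr_MM (m := m) h.τ0 h.τ1 K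
  have hb : Bijective (EEl P.τ K P.eta) := by
    refine glue_bijective (f0 := EEl P.τ K fun z => max (P.th z - 3) 0) P.D P.box
      (fun a y i => if i ∈ TT a then y i else
        EEl P.τ K (fun z => min (max (P.th z - 3) 0) (P.etaA a z)) y i)
      (fun a y i => if i ∈ TT a then y i else EEl P.τ K (fun z => max (P.th z - 3) 0) y i)
      (lh_EEl h.τ0 h.τ1 K P.unita_tp_eta0 P.unita_eta0_lip).1 (fun a _ => ?_) (fun a _ => ?_)
      (fun a ha b hb hab => ?_) (fun a ha x hx => ?_) (fun a ha x hx => ?_) (fun a _ x hx => ?_)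
      (fun x hx => EEl_eta_eq h K hx)
    · refine hA.fibre_bijective hM.lip (TT a) fun x y hxy => ?_
      refine (abs_min_sub_min_le_max _ _ _ _).trans (max_le (P.unita_eta0_lip x y) ?_)
      have e : ta a x = ta a y := by
        unfold ta
        congr 1
        funext i
        simp only [pr, Pi.sub_apply]
        split_ifs with hi
        · rw [hxy i hi]
        · rfl
      refine (abs_max_sub_max_le_max _ _ _ _).trans (max_le ?_ (P.unita_cut_lip a x y))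
      rw [e, sub_self, abs_zero]
      exact norm_nonneg _
    · exact hA.fibre_bijective hM.lip (TT a) fun x y _ => P.unita_eta0_lip x y
    · exact Set.disjoint_left.2 fun y hy => unita_not_mem h ha hb hab hy
    · funext i
      split_ifs with hi
      · exact unita_fix h K ha hx (eta_nonneg h x) hi
      · exact congrFun (unita_EEl_congr h K (Or.inl (unita_eta_box h ha hx))) i
    · funext i
      split_ifs with hi
      · exact unita_fix h K ha hx (le_max_right _ _) hi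
      · rfl
    · funext i
      split_ifs with hi
      · rfl
      · refine congrFun (unita_EEl_congr h K ?_) i
        rw [unita_etaA_eq h hx]
        rcases le_total (max (P.th x - 3) 0) (2 * P.τ) with h1 | h1
        · exact Or.inl (min_eq_left h1)
        · exact Or.inr ⟨le_min h1 le_rfl, h1⟩
  obtain ⟨R, hR⟩ := (P.F1.finite_toSet.image fun p : V m => ‖p‖).bddAbove
  refine LH.of_supp ((hM.loc P.tp_eta).mix (1 / 2)) hb (R := R + 10) fun x hx => ?_
  refine EEl_eq_self (eta_eq_zero h (le_of_not_gt fun h3 => ?_))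
  obtain ⟨p, hp, h4⟩ := exists_of_le_th (P := P) (x := x) (c := 3) (by norm_num) h3.le
  have h5 : ‖p‖ ≤ R := hR ⟨p, hp, rfl⟩
  have h6 : ‖x‖ ≤ ‖x - p‖ + ‖p‖ := norm_le_norm_sub_add _ _
  linarith

theorem isOpen_Good (P : P1 m) : IsOpen P.Good := by
  have e : P.Good = {y | P.s0 < mu y} ∪ ((⋃ a ∈ P.D, {y | ta a y < P.ρ / 2 ^ P.N} ∩
      {y | na a y < 2 * P.τ}) ∪ {y | P.th y < 3}) := by
    ext y
    simp only [Good, mem_ofPred_eq, mem_union, mem_iUnion, mem_inter_iff, exists_prop]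
  rw [e]
  exact (isOpen_lt continuous_const tp_mu.continuous).union
    ((isOpen_biUnion fun a _ => (isOpen_lt (tp_ta a).continuous continuous_const).inter
      (isOpen_lt (tp_na a).continuous continuous_const)).union
      (isOpen_lt P.tp_th.continuous continuous_const))

theorem unita_tp_etaB (P : P1 m) : TP P.etaB :=
  (TP.const (5 : ℝ)).sub (TP.dcap P.FU 5)

theorem unita_etaB_lip (P : P1 m) (x y : V m) : |P.etaB x - P.etaB y| ≤ ‖x - y‖ := by
  have h1 := abs_le.1 (abs_dcap_sub_le P.FU 5 x y)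
  unfold etaB
  exact abs_le.2 ⟨by linarith [h1.2], by linarith [h1.1]⟩

theorem lh_gB (h : P.Ok0) (K : ℕ) : LH (P.gB K) :=
  lh_ggl h.τ0 h.τ1 K P.unita_tp_etaB P.unita_etaB_lip

theorem norm_gB_sub_le (h : P.Ok0) (K : ℕ) (x : V m) : ‖P.gB K x - x‖ ≤ 1 / 2 + P.τ :=
  norm_ggl_sub_le h.τ0 h.τ1 P.unita_tp_etaB P.unita_etaB_lip
    (fun y => sub_nonneg.2 (dcap_le_cap _ _ y)) x

theorem gB_eq (h : P.Ok0) (K : ℕ) {x : V m} (hx : dcap P.FU 5 x ≤ 4) :
    P.gB K x = gg P.τ K x :=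
  ggl_eq h.τ0 h.τ1 P.unita_tp_etaB P.unita_etaB_lip (by unfold etaB; linarith)

theorem gB_eq_self (h : P.Ok0) (K : ℕ) {x : V m} (hx : ∀ p ∈ P.FU, 5 ≤ ‖x - p‖) :
    P.gB K x = x := by
  refine ggl_eq_self h.τ0 h.τ1 P.unita_tp_etaB P.unita_etaB_lip ?_
  have : dcap P.FU 5 x = 5 := le_antisymm (dcap_le_cap _ _ _) (le_cmin _ _ _ le_rfl hx)
  rw [etaB, this, sub_self]

theorem ll_gB (h : P.Ok0) {K : ℕ} {x : V m} {c : ℝ} (hc : 2 ≤ c)
    (hx : LL (r0 K : V m → V m) x c) : LL (P.gB K) x (2 * c) :=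
  ll_ggl h.τ0 h.τ1 P.unita_tp_etaB P.unita_etaB_lip hc hx

end P1
end BEv
end
end

-- merged part: Pool.Agent.Work.MP_f0515e_an.UnitA2
section
/-! The inverse target map `hi` of the unit step. -/

open Set Metric Filter Topology MeasureTheory Function
open scoped ENNReal NNReal

noncomputable section
namespace BEv
namespace P1

variable {m : ℕ} {P : P1 m}

theorem unita2_zeta (P : P1 m) (x : V m) : LL P.zeta x 1 :=
  LL.of_forall (fun y z => by rw [one_mul]; exact P.abs_zeta_sub_le y z) x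

theorem unita2_ll (h : P.Ok0) (K : ℕ) (z : V m) :
    LL (fun z => gtl P.τ K P.zeta (invFun (gta P.τ K) z)) z (2 / P.τ) := by
  have := (accr_r0 (m := m) K).ll_loc_inv (tp_r0 K) h.τ0 (h.τ1.trans (by norm_num)) zero_le_one
    (y := z) (unita2_zeta P _)
  rwa [one_add_one_eq_two] at this

theorem unita2_eq (h : P.Ok0) (K : ℕ) {z : V m} (hz : P.th z ≤ 7) :
    gtl P.τ K P.zeta (invFun (gta P.τ K) z) = z := by
  have h1 := norm_gta_sub_le h.τ0 h.τ1 K (invFun (gta P.τ K) z)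
  have h2 := (lh_gta (m := m) h.τ0 h.τ1 K).ri z
  rw [h2] at h1
  have h3 := (abs_le.1 ((P.abs_th_sub_le z (invFun (gta P.τ K) z)).trans h1)).1
  rw [gtl_eq (le_max_of_le_left (by linarith only [hz, h3])), h2]

theorem unita2_gg (h : P.Ok0) (K : ℕ) (x : V m) : ‖gg P.τ K x - x‖ ≤ P.τ + 1 / 2 :=
  (norm_sub_le_norm_sub_add_norm_sub _ _ _).trans
    (add_le_add (norm_gg_sub_gta_le h.τ0 h.τ1 K x) (norm_gta_sub_le h.τ0 h.τ1 K x))

theorem unita2_gta (h : P.Ok0) {K : ℕ} {x : V m} {c : ℝ} (hc : 2 ≤ c)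
    (hr : LL (r0 K : V m → V m) x c) : LL (gta P.τ K : V m → V m) x c :=
  hr.mix (by linarith) h.τ0.le (h.τ1.trans (by norm_num))

theorem unita2_EEl (h : P.Ok0) {K : ℕ} {x : V m} {c c' : ℝ} (hc : 2 ≤ c) (hc' : 0 ≤ c')
    (hr : LL (r0 K : V m → V m) x c) {η : V m → ℝ} (hη : LL η (gg P.τ K x) c') :
    LL (fun y => EEl P.τ K η (gg P.τ K y)) x (2 * (1 + c') * c) := by
  have h1 := (accr_MM (m := m) h.τ0 h.τ1 K).ll_loc_inv (tp_MM h.τ0 h.τ1 K) (c := 1 / 2)
    (by norm_num) (by norm_num) hc' (y := gta P.τ K x) hη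
  have h2 := h1.comp (unita2_gta h hc hr) (by positivity)
  rwa [show (1 + c') / (1 / 2) = 2 * (1 + c') by ring] at h2

theorem unita2_far (h : P.Ok0) {K : ℕ} {x : V m} (hx : ∀ a ∈ P.D, gg P.τ K x ∉ P.box a)
    (h5 : 5 ≤ P.th x) : P.hi K (gg P.τ K x) = gtl P.τ K P.zeta x := by
  have h1 := (abs_le.1 ((P.abs_th_sub_le (gg P.τ K x) x).trans (unita2_gg h K x))).1
  have h2 := h.τ1
  rw [hi, EEl_eq h.τ0 h.τ1 (le_eta h hx (by linarith only [h5, h1, h2])), EE_gg h.τ0 h.τ1,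
    (lh_gta h.τ0 h.τ1 K).li]

theorem lh_hi (h : P.Ok0) (K : ℕ) : LH (P.hi K) :=
  (lh_gtl h.τ0 h.τ1 K P.tp_zeta P.abs_zeta_sub_le).comp
    ((lh_gta h.τ0 h.τ1 K).inv.comp (lh_EEl_eta h K))

theorem hi_eq_self (h : P.Ok0) (K : ℕ) {y : V m} (hy : P.th y ≤ 3) : P.hi K y = y := by
  rw [hi, EEl_eq_self (eta_eq_zero h hy), unita2_eq h K (by linarith)]

theorem norm_hi_sub_le (h : P.Ok0) (K : ℕ) (y : V m) : ‖P.hi K y - y‖ ≤ 1 / 2 + P.τ :=
  (norm_sub_le_norm_sub_add_norm_sub _ _ _).trans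
    (add_le_add (norm_gtl_inv_sub_le h.τ0 h.τ1 (fun _ => le_max_right _ _) _)
      (norm_EEl_sub_le h.τ0 h.τ1 (eta_nonneg h y)))

theorem unita2_two (h : P.Ok0) : 1 ≤ 2 / P.τ := by
  rw [le_div_iff₀ h.τ0]
  linarith only [h, h.τ1]

theorem ll_hi_mu (h : P.Ok0) :
    ∃ C : ℝ, 1 ≤ C ∧ ∀ K y, 0 < mu y → LL (P.hi K) y (C / mu y) := by
  obtain ⟨L, hL, hL'⟩ := P.tp_eta.exists_bound
  have h2 := unita2_two h
  refine ⟨2 / P.τ * (1 + L), one_le_mul_of_one_le_of_one_le h2 (by linarith), fun K y hy => ?_⟩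
  have h3 : 1 + L ≤ (1 + L) / mu y := by
    rw [le_div_iff₀ hy]
    linarith only [hL, hy, mu_le_half y, mul_nonneg_of_nonpos_of_nonpos (Mathlib.Tactic.Linarith.sub_nonpos_of_le hL) (Mathlib.Tactic.Linarith.sub_nonpos_of_le (mu_le_half y))]
  have h4 : LL (EEl P.τ K P.eta) y ((1 + L) / mu y) :=
    (((ll_MM h.τ0 h.τ1 K hy).mono (div_le_div_of_nonneg_right (by linarith) hy.le)).loc
      (LL.of_forall hL' y) (by linarith) h3).mix (by linarith) (by norm_num) (by norm_num)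
  rw [mul_div_assoc]
  exact (unita2_ll h K _).comp h4 (by linarith)

theorem ll_hi_good (h : P.Ok0) : ∃ C : ℝ, 1 ≤ C ∧ ∀ K, ∀ y ∈ P.Good, LL (P.hi K) y C := by
  obtain ⟨C, hC, hC'⟩ := ll_hi_mu h
  have h2 := unita2_two h
  have h3 : 0 ≤ C / P.s0 := div_nonneg (by linarith) h.s00.le
  refine ⟨C / P.s0 + 2 / P.τ, by linarith, fun K y hy => ?_⟩
  rcases hy with hy | ⟨a, ha, h4, h5⟩ | hy
  · refine (hC' K y (h.s00.trans hy)).mono ?_
    have := div_le_div_of_nonneg_left (by linarith : 0 ≤ C) h.s00 hy.le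
    linarith
  · refine ((unita2_ll h K y).mono (by linarith)).congr ?_
    filter_upwards [(tp_ta a).continuous.continuousAt.eventually_lt continuousAt_const h4,
      (tp_na a).continuous.continuousAt.eventually_lt continuousAt_const h5] with z h6 h7
    rw [hi, EEl_eq_self (eta_eq_zero' h ha h6.le h7.le)]
  · refine ((LL.id' y).mono (by linarith)).congr ?_
    filter_upwards [P.tp_th.continuous.continuousAt.eventually_lt continuousAt_const hy] with z h6
    exact hi_eq_self h K h6.le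

theorem ll_hi_gg (h : P.Ok0) : ∃ C : ℝ, 1 ≤ C ∧ ∀ (K : ℕ) (x : V m) (c : ℝ), 2 ≤ c →
    LL (r0 K : V m → V m) x c → LL (fun y => P.hi K (gg P.τ K y)) x (C * c) := by
  obtain ⟨L, hL, hL'⟩ := P.tp_eta.exists_bound
  have h2 := unita2_two h
  refine ⟨2 / P.τ * (2 * (1 + L)), one_le_mul_of_one_le_of_one_le h2 (by linarith),
    fun K x c hc hr => ?_⟩
  rw [mul_assoc]
  exact (unita2_ll h K _).comp (unita2_EEl h hc (by linarith) hr (LL.of_forall hL' _))
    (by linarith)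

theorem box_PF (h : P.Ok0) {K : ℕ} {x a : V m} (ha : a ∈ P.D) (hx : gg P.τ K x ∈ P.box a) :
    ‖gta P.τ K x - a‖ ≤ 1 ∧ ta a (gta P.τ K x) = ta a (gg P.τ K x) := by
  have h0 := h.τ0
  have h1 := h.τ1
  have h2 : ta a (gg P.τ K x) ≤ P.τ := hx.1.trans h.ρ1
  constructor
  · have h3 := norm_sub_le_norm_sub_add_norm_sub (gta P.τ K x) (gg P.τ K x) a
    rw [norm_sub_rev (gta P.τ K x) (gg P.τ K x), norm_sub_eq_max a (gg P.τ K x)] at h3
    have h4 : max (ta a (gg P.τ K x)) (na a (gg P.τ K x)) ≤ 4 * P.τ := max_le (by linarith) hx.2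
    linarith [norm_gg_sub_gta_le h0 h1 K x]
  · unfold ta
    congr 1
    funext i
    by_cases hi : i ∈ TT a
    · have h3 : |gg P.τ K x i - a i| ≤ P.τ := (abs_le_norm_pr (gg P.τ K x - a) hi).trans h2
      have h4 := (abs_le.1 ((abs_dd_sub_le (gg P.τ K x i) (a i)).trans h3)).1
      have h5 := h.far a ha i hi
      simp only [pr, if_pos hi, Pi.sub_apply]
      rw [gg_apply_eq h0 h1 K (by linarith)]
    · simp only [pr, if_neg hi]

theorem ll_hi_gg_box (h : P.Ok0) {K : ℕ} {x a : V m} {c : ℝ} (ha : a ∈ P.D)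
    (hx : gg P.τ K x ∈ P.box a) (hc : 2 ≤ c) (hr : LL (r0 K : V m → V m) x c) :
    LL (fun y => P.hi K (gg P.τ K y)) x
      (8 / P.τ * (1 + lam P.ρ P.N (ta a (gta P.τ K x))) * c) := by
  have h2 := unita2_two h
  have h3 := lam_nonneg h.ρ0 P.N (ta a (gg P.τ K x))
  rw [(box_PF h ha hx).2]
  refine ((unita2_ll h K _).comp (unita2_EEl h hc (by linarith) hr (ll_eta_box h ha hx))
    (by linarith)).mono ?_
  rw [show 8 / P.τ = 2 / P.τ * 4 by ring, mul_assoc (2 / P.τ), mul_assoc (2 / P.τ)]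
  exact mul_le_mul_of_nonneg_left (mul_le_mul_of_nonneg_right (by linarith) (by linarith))
    (by linarith)

theorem ll_hi_gg_nobox (h : P.Ok0) {K : ℕ} {x : V m} {c : ℝ}
    (hx : ∀ a ∈ P.D, gg P.τ K x ∉ P.box a) (hc : 2 ≤ c) (hr : LL (r0 K : V m → V m) x c) :
    LL (fun y => P.hi K (gg P.τ K y)) x (4 * c) := by
  have h1 := h.τ1
  have hb : ∀ᶠ y in 𝓝 x, ∀ a ∈ P.D, gg P.τ K y ∉ P.box a :=
    (eventually_all_finset P.D).2 fun a ha =>
      (lh_gg h.τ0 h.τ1 K).tp.continuous.continuousAt.eventually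
        ((P.isClosed_box a).isOpen_compl.mem_nhds (hx a ha))
  rcases lt_or_ge 5 (P.th x) with h5 | h5
  · refine (((hr.loc (unita2_zeta P x) zero_le_one (by linarith)).mix (by linarith) h.τ0.le
      (by linarith)).mono (by linarith)).congr ?_
    filter_upwards [hb, continuousAt_const.eventually_lt P.tp_th.continuous.continuousAt h5]
      with y h6 h7
    exact unita2_far h h6 h7.le
  · have h3 : LL (fun z => max (P.th z - 3) 0) (gg P.τ K x) 1 := by
      refine LL.of_forall (fun y z => ?_) _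
      rw [one_mul, Real.norm_eq_abs]
      refine (abs_max_sub_max_le_abs _ _ _).trans ?_
      rw [sub_sub_sub_cancel_right]
      exact P.abs_th_sub_le y z
    refine ((unita2_EEl h hc zero_le_one hr h3).mono (by linarith)).congr ?_
    filter_upwards [hb, P.tp_th.continuous.continuousAt.eventually_lt continuousAt_const
      (h5.trans_lt (by norm_num : (5 : ℝ) < 6))] with y h6 h7
    have h8 := (abs_le.1 ((P.abs_th_sub_le (gg P.τ K y) y).trans (unita2_gg h K y))).2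
    have h9 := (abs_le.1 ((P.abs_th_sub_le _ (gg P.τ K y)).trans
      (norm_EEl_sub_le (K := K) h.τ0 h.τ1 (eta_nonneg h (gg P.τ K y))))).2
    rw [hi, unita2_eq h K (by linarith only [h1, h7, h8, h9]), EEl_eta_eq h K h6]

theorem hi_gg_eq (h : P.Ok0) {K : ℕ} {x : V m} (hx : ∀ a ∈ P.D, gg P.τ K x ∉ P.box a)
    (h8 : 8 ≤ P.th x) : P.hi K (gg P.τ K x) = x := by
  rw [unita2_far h hx (by linarith), gtl_eq_self (max_eq_right (by linarith))]

end P1
end BEv
end
end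

-- merged part: Pool.Agent.Work.MP_f0515e_an.UnitB
section
/-! The intermediate state and the map `Th`. -/

open Set Metric Filter Topology MeasureTheory Function
open scoped ENNReal NNReal

noncomputable section
namespace BEv
namespace P2

variable {m : ℕ} {v : V m} {s : St m} {P : P1 m} {q : P2 m}

theorem mem_I_of_th (hP : P.Ok v s) {x y : V m} (hx : 0 < P.th x) (hxy : ‖y - x‖ ≤ 8) :
    y ∈ s.I := by
  obtain ⟨p, hp, h⟩ := P1.exists_of_le_th hx le_rfl
  refine hP.hF1 p hp ?_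
  rw [mem_closedBall, dist_eq_norm]
  have := norm_sub_le_norm_sub_add_norm_sub y x p
  linarith

theorem th_eq_zero (hP : P.Ok v s) {x : V m} (hx : x ∉ s.I) : P.th x = 0 := by
  refine le_antisymm (not_lt.1 fun h => hx (mem_I_of_th hP h ?_)) (P.th_nonneg x)
  rw [sub_self, norm_zero]
  norm_num

theorem lh_Gt (hs : St.Ok v s) {φ : V m → ℝ} (hφ : TP φ) : LH (Gt v s φ) := by
  exact (lh_SS hs.hv hs.hσ hφ).comp hs.hG

theorem lh_Ht (hs : St.Ok v s) {φ : V m → ℝ} (hφ : TP φ) : LH (Ht v s φ) := by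
  exact (lh_SS hs.hv hs.hσ hφ).comp hs.hH

theorem tp_ft (hs : St.Ok v s) (ρ : ℝ) (N : ℕ) : TP (ft v s P ρ N) := by
  exact (St.tp_f hs).clamp (((tp_Lam (ρ / 2) N).comp P.tp_dD).const_mul s.σ)

theorem abs_ft_le (hs : St.Ok v s) (ρ : ℝ) (N : ℕ) (x : V m) :
    |ft v s P ρ N x| ≤ s.a (pj v (s.G x)) := by
  exact (abs_clamp_le_abs (mul_nonneg hs.hσ.le (Lam_nonneg _ _ _))).trans (St.abs_f_le hs x)

theorem ft_eq (hs : St.Ok v s) {ρ : ℝ} {N : ℕ} (hρ : 0 < ρ) (hN : 1 ≤ N) {x : V m}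
    (hx : ρ / 2 ≤ P.dD x) : ft v s P ρ N x = St.f v s x := by
  rw [ft, Lam_eq_one (half_pos hρ) hN hx, mul_one]
  exact clamp_eq_self ((St.abs_f_le hs x).trans (s.a_le _))

theorem ft_eq_zero (hs : St.Ok v s) {ρ : ℝ} (hρ : 0 < ρ) (N : ℕ) {x : V m} (hx : x ∈ P.D) :
    ft v s P ρ N x = 0 := by
  have h1 : P.dD x ≤ ρ / 2 / 2 ^ N := by
    refine (dcap_le 1 x hx).trans ?_
    rw [sub_self, norm_zero]
    positivity
  rw [ft, Lam_eq_zero (half_pos hρ) h1, mul_zero, clamp_zero]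

theorem mem_U_mid (hs : St.Ok v s) (hP : P.Ok v s) (hq : Ok v s P q) {z : V m}
    (hz : z ∈ St.U v (mid v s P q)) : 1 ≤ P.th z ∧ q.ρ / 2 ≤ P.dD z := by
  obtain ⟨h1, h2⟩ := hz
  have h3 := hq.σG z h2
  have h4 : 0 ≤ min (P.th (invFun (Gt v s q.φ) (pj v (Gt v s q.φ z))) - 2)
      (P.dD (invFun (Gt v s q.φ) (pj v (Gt v s q.φ z))) - q.ρ) := h1
  generalize invFun (Gt v s q.φ) (pj v (Gt v s q.φ z)) = x at h3 h4
  obtain ⟨h5, h6⟩ := le_min_iff.1 h4
  have h7 := (abs_le.1 ((P.abs_th_sub_le x z).trans h3)).2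
  have h8 := (abs_le.1 ((P.abs_dD_sub_le x z).trans h3)).2
  have h9 := hq.ρ1
  have h10 := hP.τ1
  constructor <;> linarith only [h5, h7, h9, h10, h6, h8]

theorem unitb_mem_I (hs : St.Ok v s) (hP : P.Ok v s) (hq : Ok v s P q) {z : V m}
    (hz : z ∈ St.U v (mid v s P q)) : z ∈ s.I :=
  mem_I_of_th hP (lt_of_lt_of_le one_pos (mem_U_mid hs hP hq hz).1) (by
    rw [sub_self, norm_zero]
    norm_num)

theorem ok_mid (hs : St.Ok v s) (hP : P.Ok v s) (hq : Ok v s P q) :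
    St.Ok v (mid v s P q) := by
  have hG := lh_Gt hs hq.φtp
  exact ⟨hs.hv, hG, lh_Ht hs hq.φtp, hq.σ0,
    ((P.tp_th.comp hG.tpi).sub (TP.const 2)).min ((P.tp_dD.comp hG.tpi).sub (TP.const q.ρ)),
    isOpen_empty, hs.bdd.subset fun z hz => St.I_subset_U hs (unitb_mem_I hs hP hq hz),
    fun x hx => absurd hx (notMem_empty x)⟩

theorem k_mid (hs : St.Ok v s) (hq : Ok v s P q) (z : V m) :
    St.k v (mid v s P q) z = St.Psi v s z (q.φ (pj v (s.G z))) := by
  have h1 := (lh_SS hs.hv hs.hσ hq.φtp).inv_comp hs.hH (rf v (SS v s.σ q.φ (s.G z)))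
  rw [inv_SS_rf hs.hv hs.hσ hq.φtp] at h1
  exact h1

theorem Th_off (hs : St.Ok v s) (hP : P.Ok v s) (hq : Ok v s P q) {z : V m}
    (hz : z ∉ St.U v s) : Th v s P q z = St.u v s z := by
  have h1 : z ∉ St.U v (mid v s P q) := fun h => hz (St.I_subset_U hs (unitb_mem_I hs hP hq h))
  rw [Th, St.u_eq_k (ok_mid hs hP hq) h1, k_mid hs hq, St.Psi_eq_k hs hz (hq.φle _),
    St.u_eq_k hs hz]

theorem unitb_ell (hs : St.Ok v s) (hq : Ok v s P q) {x : V m} (hx : mu x = 0) (hI : x ∈ s.I)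
    (hd : q.ρ / 2 ≤ P.dD x) : ell v (Gt v s q.φ x) = 0 := by
  have h1 := (hs.onI x hI).2.2
  rw [Gt, ell_SS hs.hv, hq.φeq x (St.I_subset_U hs hI) hx, ft_eq hs hq.ρ0 hq.N1 hd, St.f,
    clamp_eq_self h1, sh_self hs.hσ (h1.trans (s.a_le _))]

theorem Th_skel (hs : St.Ok v s) (hP : P.Ok v s) (hq : Ok v s P q) {x : V m} (hx : mu x = 0) :
    Th v s P q x = St.Psi v s x (ft v s P q.ρ q.N x) := by
  by_cases hU : x ∈ St.U v s
  · rw [← hq.φeq x hU hx, ← k_mid hs hq, Th]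
    by_cases hM : x ∈ St.U v (mid v s P q)
    · have h1 := unitb_ell hs hq hx (unitb_mem_I hs hP hq hM) (mem_U_mid hs hP hq hM).2
      have h2 : ell v ((mid v s P q).G x) = 0 := h1
      rw [St.u_thick (ok_mid hs hP hq) (by
        rw [h2, abs_zero]
        exact St.a_nonneg (ok_mid hs hP hq) _), St.k, rf, h2, mul_zero, zero_smul, sub_zero]
    · exact St.u_eq_k (ok_mid hs hP hq) hM
  · rw [Th_off hs hP hq hU, St.u_eq_k hs hU, St.Psi_eq_k hs hU (abs_ft_le hs _ _ x)]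

theorem Th_skel' (hs : St.Ok v s) (hP : P.Ok v s) (hq : Ok v s P q) {x : V m} (hx : mu x = 0)
    (hd : q.ρ / 2 ≤ P.dD x) : Th v s P q x = St.u v s x := by
  rw [Th_skel hs hP hq hx, ft_eq hs hq.ρ0 hq.N1 hd]
  rfl

theorem thick_of (hs : St.Ok v s) (hP : P.Ok v s) (hq : Ok v s P q) {x : V m} (hx : mu x = 0)
    (h2 : 2 < P.th x) (hd : q.ρ < P.dD x) :
    |ell v (Gt v s q.φ x)| < (mid v s P q).a (pj v (Gt v s q.φ x)) := by
  have hI : x ∈ s.I := mem_I_of_th hP (lt_trans two_pos h2) (by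
    rw [sub_self, norm_zero]
    norm_num)
  have h0 := hq.ρ0
  have h1 := unitb_ell hs hq hx hI (by linarith)
  rw [pj, h1, zero_smul, sub_zero, abs_zero]
  refine lt_min hq.σ0 (lt_max_of_lt_left ?_)
  change 0 < a0 v s P q (Gt v s q.φ x)
  rw [a0, (lh_Gt hs hq.φtp).li]
  exact lt_min (by linarith) (by linarith)

theorem Th_eq_self (hs : St.Ok v s) (hP : P.Ok v s) (hq : Ok v s P q) {z : V m} (hz : z ∈ s.I)
    (h : |ell v (Gt v s q.φ z)| ≤ (mid v s P q).a (pj v (Gt v s q.φ z))) :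
    Th v s P q z = z := by
  rw [Th, St.u_thick (ok_mid hs hP hq) h]
  refine (lh_Ht hs hq.φtp).inv_eq ?_
  change SS v s.σ q.φ (s.H z) = SS v s.σ q.φ (s.G z)
  rw [(hs.onI z hz).1]

theorem Th_good (hs : St.Ok v s) (hP : P.Ok v s) (hq : Ok v s P q) {x : V m} (hx : mu x = 0)
    (hd : P.dD x ≤ q.ρ) : Th v s P q x ∈ P.Good := by
  have h1 := hq.ρ1
  have h2 := hP.τ1
  obtain ⟨a, ha, e⟩ := exists_of_dcap_lt (S := P.D) (M := 1) (x := x)
    (lt_of_le_of_lt hd (by linarith only [h1, h2]))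
  rw [Th_skel hs hP hq hx]
  exact hq.good a ha x (e ▸ hd) _ ((abs_ft_le hs _ _ x).trans (s.a_le _))

theorem th_u_le (hs : St.Ok v s) {Z : Set (V m)} (hZ : P.Prot v s Z) {x : V m} (hxZ : x ∈ Z)
    (hx : mu x = 0) (h2 : P.th x ≤ 2) : P.th (St.u v s x) ≤ 2 := by
  by_cases hI : x ∈ s.I
  · rwa [St.u_eq_self hs hI]
  · exact (hZ x hxZ hx hI).trans one_le_two

/-- Near the skeleton, `Th` is the identity or lands in the good set. -/
theorem dichotomy (hs : St.Ok v s) (hP : P.Ok v s) (hq : Ok v s P q) {Z : Set (V m)}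
    (hc : IsCompact Z) (hZ : P.Prot v s Z) : ∃ s1 : ℝ, 0 < s1 ∧ ∀ z ∈ Z, mu z < s1 →
      (∀ᶠ y in 𝓝 z, Th v s P q y = y) ∨ Th v s P q z ∈ P.Good := by
  have hM := ok_mid hs hP hq
  have hW : IsOpen {z | (∀ᶠ y in 𝓝 z, Th v s P q y = y) ∨ Th v s P q z ∈ P.Good} :=
    IsOpen.union (isOpen_setOfPred_eventually_nhds (p := fun y => Th v s P q y = y))
      (P.isOpen_Good.preimage (St.tp_u hM).continuous)
  have h0 : ∀ z ∈ Z, mu z = 0 →
      (∀ᶠ y in 𝓝 z, Th v s P q y = y) ∨ Th v s P q z ∈ P.Good := fun z hz hmu => by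
    rcases le_or_gt (P.dD z) q.ρ with hd | hd
    · exact Or.inr (Th_good hs hP hq hmu hd)
    have hρ := hq.ρ0
    rcases le_or_gt (P.th z) 2 with h2 | h2
    · refine Or.inr (Or.inr (Or.inr ?_))
      rw [Th_skel' hs hP hq hmu (by linarith)]
      exact (th_u_le hs hZ hz hmu h2).trans_lt (by norm_num)
    · have hI : z ∈ s.I := mem_I_of_th hP (lt_trans two_pos h2) (by
        rw [sub_self, norm_zero]
        norm_num)
      have hG := (lh_Gt hs hq.φtp).tp
      have h3 := (((tp_ell v).comp hG).abs.continuous.continuousAt (x := z)).eventually_lt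
        (((St.tp_a hM).comp ((tp_pj v).comp hG)).continuous.continuousAt (x := z))
        (thick_of hs hP hq hmu h2 hd)
      refine Or.inl ?_
      filter_upwards [hs.hI.mem_nhds hI, h3] with y h4 h5 using Th_eq_self hs hP hq h4 h5.le
  rcases (Z \ {z | (∀ᶠ y in 𝓝 z, Th v s P q y = y) ∨ Th v s P q z ∈ P.Good}).eq_empty_or_nonempty
    with he | hne
  · exact ⟨1, one_pos, fun z hz _ => sdiff_eq_empty.1 he hz⟩
  · obtain ⟨z0, hz0, hmin⟩ := (hc.diff hW).exists_isMinOn hne tp_mu.continuous.continuousOn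
    refine ⟨mu z0, lt_of_le_of_ne (mu_nonneg z0) fun e => hz0.2 (h0 z0 hz0.1 e.symm),
      fun z hz hlt => ?_⟩
    by_contra hn
    exact hlt.not_ge (hmin ⟨hz, hn⟩)

end P2
end BEv
end
end

-- merged part: Pool.Agent.Work.MP_f0515e_an.UnitC
section
/-! The new state. -/

open Set Metric Filter Topology MeasureTheory Function
open scoped ENNReal NNReal

noncomputable section
namespace BEv
namespace P2

variable {m : ℕ} {v : V m} {s : St m} {P : P1 m} {q : P2 m}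

theorem unitc_inv (hs : St.Ok v s) (hP : P.Ok v s) (hq : Ok v s P q) (K : ℕ) (y : V m) :
    invFun (new v s P q K).H y = P.hi K (invFun (Ht v s q.φ) y) := by
  have h1 := LH.inv_comp (lh_Ht hs hq.φtp) (P1.lh_hi hP.toOk0 K).inv y
  rw [(P1.lh_hi hP.toOk0 K).inv_inv] at h1
  exact h1

theorem unitc_gB_le (hP : P.Ok v s) (K : ℕ) (x : V m) : ‖P.gB K x - x‖ ≤ 9 / 16 := by
  have h1 := P1.norm_gB_sub_le hP.toOk0 K x
  have h2 := hP.τ1
  linarith only [h1, h2]

theorem unitc_hi_le (hP : P.Ok v s) (K : ℕ) (x : V m) : ‖P.hi K x - x‖ ≤ 9 / 16 := by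
  have h1 := P1.norm_hi_sub_le hP.toOk0 K x
  have h2 := hP.τ1
  linarith only [h1, h2]

theorem unitc_gB_eq (hs : St.Ok v s) (hP : P.Ok v s) (K : ℕ) {x : V m} (hx : x ∈ s.I) :
    P.gB K x = gg P.τ K x := by
  obtain ⟨p, hp, h1⟩ := hP.net x (St.I_subset_U hs hx)
  exact P1.gB_eq hP.toOk0 K ((dcap_le 5 x hp).trans (by linarith))

theorem unitc_mem_I (hs : St.Ok v s) (hP : P.Ok v s) (hq : Ok v s P q) (K : ℕ) {x : V m}
    (hx : P.gB K x ∈ St.U v (mid v s P q)) : x ∈ s.I ∧ P.gB K x ∈ s.I := by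
  have h1 : 0 < P.th (P.gB K x) := by linarith [(mem_U_mid hs hP hq hx).1]
  refine ⟨mem_I_of_th hP h1 ?_, mem_I_of_th hP h1 (by simp)⟩
  rw [norm_sub_rev]
  linarith only [hP, unitc_gB_le hP K x]

theorem unitc_Ht_eq (hs : St.Ok v s) (φ : V m → ℝ) {x : V m} (hx : x ∈ s.I) :
    Ht v s φ x = Gt v s φ x := by
  unfold Ht Gt
  rw [(hs.onI x hx).1]

theorem unitc_hi_k (hs : St.Ok v s) (hP : P.Ok v s) (K : ℕ) {x : V m} (hx : x ∉ St.U v s) :
    P.hi K (St.k v s x) = St.k v s x := by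
  refine P1.hi_eq_self hP.toOk0 K ?_
  rw [th_eq_zero hP (fun h => hx (St.mem_U_of_k hs h))]
  norm_num

theorem unitc_cont_ell (hs : St.Ok v s) (hP : P.Ok v s) (hq : Ok v s P q) (K : ℕ) :
    Continuous fun x => |ell v (Gt v s q.φ (P.gB K x))| :=
  ((tp_ell v).comp ((lh_Gt hs hq.φtp).tp.comp (P1.lh_gB hP.toOk0 K).tp)).abs.continuous

theorem unitc_cont_a (hs : St.Ok v s) (hP : P.Ok v s) (hq : Ok v s P q) (K : ℕ) :
    Continuous fun x => (mid v s P q).a (pj v (Gt v s q.φ (P.gB K x))) :=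
  ((St.tp_a (ok_mid hs hP hq)).comp ((tp_pj v).comp
    ((lh_Gt hs hq.φtp).tp.comp (P1.lh_gB hP.toOk0 K).tp))).continuous

theorem u_new (hs : St.Ok v s) (hP : P.Ok v s) (hq : Ok v s P q) (K : ℕ) (x : V m) :
    St.u v (new v s P q K) x = P.hi K (Th v s P q (P.gB K x)) :=
  unitc_inv hs hP hq K _

theorem k_new (hs : St.Ok v s) (hP : P.Ok v s) (hq : Ok v s P q) (K : ℕ) (x : V m) :
    St.k v (new v s P q K) x = P.hi K (St.k v (mid v s P q) (P.gB K x)) :=
  unitc_inv hs hP hq K _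

theorem mem_U_new (K : ℕ) (x : V m) :
    x ∈ St.U v (new v s P q K) ↔ P.gB K x ∈ St.U v (mid v s P q) := Iff.rfl

theorem U_new_subset (hs : St.Ok v s) (hP : P.Ok v s) (hq : Ok v s P q) (K : ℕ) {x : V m}
    (hx : x ∈ St.U v (new v s P q K)) : ∃ p ∈ P.F1, ‖x - p‖ ≤ 12 := by
  obtain ⟨p, hp, h1⟩ := P1.exists_of_le_th one_pos
    (mem_U_mid hs hP hq ((mem_U_new K x).1 hx)).1
  refine ⟨p, hp, ?_⟩
  have h2 := unitc_gB_le hP K x
  rw [norm_sub_rev] at h2
  have h3 := norm_sub_le_norm_sub_add_norm_sub x (P.gB K x) p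
  linarith only [h1, h2, h3]

theorem ok_new (hs : St.Ok v s) (hP : P.Ok v s) (hq : Ok v s P q) (K : ℕ) :
    St.Ok v (new v s P q K) := by
  refine ⟨hs.hv, (lh_Gt hs hq.φtp).comp (P1.lh_gB hP.toOk0 K),
    (lh_Ht hs hq.φtp).comp (P1.lh_hi hP.toOk0 K).inv, hq.σ0, (ok_mid hs hP hq).ha0, ?_, ?_, ?_⟩
  · have h1 : IsOpen {x : V m | 8 < P.th x} := isOpen_lt continuous_const (P1.tp_th P).continuous
    have h2 : IsOpen (⋂ a ∈ P.D, gg P.τ K ⁻¹' (P.box a)ᶜ) :=
      isOpen_biInter_finset fun a _ => (P1.isClosed_box P a).isOpen_compl.preimage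
        (lh_gg hP.τ0 hP.τ1 K).tp.continuous
    have h3 := isOpen_lt (unitc_cont_ell hs hP hq K) (unitc_cont_a hs hP hq K)
    have h4 : (new v s P q K).I = {x : V m | 8 < P.th x} ∩ ((⋂ a ∈ P.D, gg P.τ K ⁻¹' (P.box a)ᶜ) ∩
        {x | |ell v (Gt v s q.φ (P.gB K x))| <
          (mid v s P q).a (pj v (Gt v s q.φ (P.gB K x)))}) := by
      ext x
      simp only [new, I', mem_ofPred_eq, mem_inter_iff, mem_iInter, mem_preimage, mem_compl_iff]
    rw [h4]
    exact h1.inter (h2.inter h3)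
  · refine ((Bornology.isBounded_biUnion_finset P.F1 (f := fun p => closedBall p 12)).2
      fun p _ => isBounded_closedBall).subset fun x hx => ?_
    obtain ⟨p, hp, h1⟩ := U_new_subset hs hP hq K hx
    exact mem_iUnion₂.2 ⟨p, hp, by rwa [mem_closedBall, dist_eq_norm]⟩
  · rintro x ⟨h8, hb, hl⟩
    have h0 : 0 < P.th x := by linarith
    have h1 : P.gB K x = gg P.τ K x := unitc_gB_eq hs hP K (mem_I_of_th hP h0 (by simp))
    have h2 : invFun (P.hi K) x = P.gB K x := by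
      rw [h1]
      exact (P1.lh_hi hP.toOk0 K).inv_eq (P1.hi_gg_eq hP.toOk0 hb h8.le)
    have h3 : P.gB K x ∈ s.I := mem_I_of_th hP h0 (by linarith [unitc_gB_le hP K x])
    refine ⟨?_, ?_, hl.le⟩
    · change Ht v s q.φ (invFun (P.hi K) x) = Gt v s q.φ (P.gB K x)
      rw [h2, unitc_Ht_eq hs q.φ h3]
    · change 0 ≤ a0 v s P q (pj v (Gt v s q.φ (P.gB K x)))
      have h4 : 0 < max (a0 v s P q (pj v (Gt v s q.φ (P.gB K x)))) 0 :=
        ((abs_nonneg _).trans_lt hl).trans_le (min_le_right _ _)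
      rcases lt_max_iff.1 h4 with h5 | h5
      · exact h5.le
      · exact absurd h5 (lt_irrefl _)

theorem gam_new (hs : St.Ok v s) (hΓ : St.Gam v s) (hP : P.Ok v s) (hq : Ok v s P q) (K : ℕ) :
    St.Gam v (new v s P q K) := by
  intro x hx
  obtain ⟨h1, h2⟩ := unitc_mem_I hs hP hq K ((mem_U_new K x).1 hx)
  change pj v (SS v s.σ q.φ (s.G (P.gB K x))) = pj v (s.Γ (gg P.τ K x))
  rw [pj_SS hs.hv, hΓ _ (St.I_subset_U hs h2), unitc_gB_eq hs hP K h1]

/-- Far from the net of `U` the new folded map is the old one composed with the contraction. -/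
theorem u_new_far (hs : St.Ok v s) (hP : P.Ok v s) (hq : Ok v s P q) (K : ℕ) {x : V m}
    (hx : 2 < dcap P.FU 5 x) : St.u v (new v s P q K) x = St.u v s (P.gB K x) := by
  have h1 : P.gB K x ∉ St.U v s := by
    intro h
    obtain ⟨p, hp, h2⟩ := hP.net _ h
    have h3 := dcap_le 5 x hp
    have h4 := unitc_gB_le hP K x
    rw [norm_sub_rev] at h4
    have h5 := norm_sub_le_norm_sub_add_norm_sub x (P.gB K x) p
    linarith only [hx, h2, h3, h4, h5]
  rw [u_new hs hP hq, Th_off hs hP hq h1, St.u_eq_k hs h1, unitc_hi_k hs hP K h1]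

theorem new_off (hs : St.Ok v s) (hP : P.Ok v s) (hq : Ok v s P q) (K : ℕ) {x : V m}
    (hx : ∀ y ∈ St.U v s, 5 ≤ ‖x - y‖) :
    St.k v (new v s P q K) x = St.k v s x ∧ St.u v (new v s P q K) x = St.u v s x := by
  have h1 : P.gB K x = x := P1.gB_eq_self hP.toOk0 K fun p hp => hx p (hP.hFU p hp)
  have h2 : x ∉ St.U v s := fun h => by
    have := hx x h
    norm_num at this
  constructor
  · rw [k_new hs hP hq, h1, k_mid hs hq, St.Psi_eq_k hs h2 (hq.φle _), unitc_hi_k hs hP K h2]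
  · rw [u_new hs hP hq, h1, Th_off hs hP hq h2, St.u_eq_k hs h2, unitc_hi_k hs hP K h2]

theorem norm_k_new_sub (hs : St.Ok v s) (hP : P.Ok v s) (hq : Ok v s P q) (K : ℕ) {η L : ℝ}
    (hη0 : 0 ≤ η) (hη : St.Fib v s η) (hL0 : 0 ≤ L)
    (hL : ∀ x y, ‖St.k v s x - St.k v s y‖ ≤ L * ‖x - y‖) (x : V m) :
    ‖St.k v (new v s P q K) x - St.k v s x‖ ≤ 2 * η + L + 1 := by
  rw [k_new hs hP hq]
  set w := P.gB K x with hw
  have h1 := unitc_hi_le hP K (St.k v (mid v s P q) w)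
  have h2 : ‖St.k v (mid v s P q) w - St.k v s w‖ ≤ 2 * η := by
    rw [k_mid hs hq]
    by_cases h : w ∈ St.U v s
    · have h3 := St.norm_Psi_sub_le hs hη h (q.φ (pj v (s.G w)))
      have h4 := St.norm_k_sub_le hs hη h
      rw [norm_sub_rev] at h4
      have h5 := norm_sub_le_norm_sub_add_norm_sub (St.Psi v s w (q.φ (pj v (s.G w)))) w
        (St.k v s w)
      linarith only [h3, h4, h5]
    · rw [St.Psi_eq_k hs h (hq.φle _), sub_self, norm_zero]
      linarith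
  have h3 : ‖St.k v s w - St.k v s x‖ ≤ L := by
    have h4 : ‖w - x‖ ≤ 1 := by linarith only [hP, unitc_gB_le hP K x]
    exact (hL w x).trans (by linarith only [hL0, h4, mul_nonneg_of_nonpos_of_nonpos (Mathlib.Tactic.Linarith.sub_nonpos_of_le hL0) (Mathlib.Tactic.Linarith.sub_nonpos_of_le h4)])
  have h4 := norm_sub_le_norm_sub_add_norm_sub (P.hi K (St.k v (mid v s P q) w))
    (St.k v (mid v s P q) w) (St.k v s x)
  have h5 := norm_sub_le_norm_sub_add_norm_sub (St.k v (mid v s P q) w) (St.k v s w) (St.k v s x)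
  linarith only [h1, h2, h3, h4, h5]

theorem fib_new (hs : St.Ok v s) (hP : P.Ok v s) (hq : Ok v s P q) (K : ℕ) :
    St.Fib v (new v s P q K) 3 := by
  intro z hz t ht
  have hz' := (mem_U_new K z).1 hz
  obtain ⟨-, h2⟩ := unitc_mem_I hs hP hq K hz'
  rw [unitc_inv hs hP hq]
  have h3 := hq.σH (Gt v s q.φ (P.gB K z)) t hz'.2 ht
  rw [(lh_Ht hs hq.φtp).inv_eq (unitc_Ht_eq hs q.φ h2)] at h3
  change ‖P.hi K (invFun (Ht v s q.φ) (pj v (Gt v s q.φ (P.gB K z)) + t • v)) - z‖ ≤ 3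
  set y := invFun (Ht v s q.φ) (pj v (Gt v s q.φ (P.gB K z)) + t • v) with hy
  have h4 := unitc_hi_le hP K y
  have h5 := unitc_gB_le hP K z
  have h6 := norm_sub_le_norm_sub_add_norm_sub (P.hi K y) y z
  have h7 := norm_sub_le_norm_sub_add_norm_sub y (P.gB K z) z
  linarith only [h3, h4, h5, h6, h7]

theorem isCompact_Fo' (hs : St.Ok v s) (hP : P.Ok v s) (hq : Ok v s P q) (K : ℕ) :
    IsCompact (Fo' v s P q K) :=
  (St.isCompact_U (ok_new hs hP hq K)).inter_right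
    ((isClosed_le (unitc_cont_a hs hP hq K) (unitc_cont_ell hs hP hq K)).inter
      (isClosed_le continuous_const
        ((P1.tp_th P).comp (St.tp_u (ok_new hs hP hq K))).continuous))

theorem Fold_new_subset (hs : St.Ok v s) (hP : P.Ok v s) (hq : Ok v s P q) (K : ℕ) :
    St.Fold v (new v s P q K) ⊆ Fo' v s P q K := by
  intro z hz
  have hU := St.Fold_subset (ok_new hs hP hq K) hz
  obtain ⟨hn, hu⟩ := hz
  refine ⟨hU, ?_, hu.1.le⟩
  by_contra hlt
  obtain ⟨h1, h2⟩ := unitc_mem_I hs hP hq K ((mem_U_new K z).1 hU)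
  have h3 : St.u v (new v s P q K) z = P.hi K (gg P.τ K z) := by
    rw [u_new hs hP hq, Th_eq_self hs hP hq h2 (not_le.1 hlt).le, unitc_gB_eq hs hP K h1]
  have h4 := P1.hi_gg_eq hP.toOk0 hu.2.1 hu.1.le
  have h5 : St.u v (new v s P q K) z = z :=
    (lh_gg hP.τ0 hP.τ1 K).inj ((P1.lh_hi hP.toOk0 K).inj (h4.trans h3))
  rw [h5] at hu
  exact hn hu

end P2
end BEv
end
end

-- merged part: Pool.Agent.Work.MP_f0515e_an.UnitD
section
/-! Pointwise bound for large `K`. -/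

open Set Metric Filter Topology MeasureTheory Function
open scoped ENNReal NNReal

noncomputable section
namespace BEv
namespace P2

variable {m : ℕ} {v : V m} {s : St m} {P : P1 m}

theorem unitd_fin {f : V m → V m} {x : V m} {c C : ℝ} (hb : 0 < be x) (h : LL f x c)
    (hc : 0 ≤ c) (hC : 1 + c ≤ C / be x) :
    (1 + lip f x) ^ m ≤ ENNReal.ofReal C ^ m * wt (x - hlf) := by
  have h1 : 1 + lip f x ≤ ENNReal.ofReal C * (ENNReal.ofReal (be x))⁻¹ := by
    rw [← div_eq_mul_inv, ← ENNReal.ofReal_div_of_pos hb]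
    refine le_trans ?_ (ENNReal.ofReal_le_ofReal hC)
    rw [ENNReal.ofReal_add zero_le_one hc, ENNReal.ofReal_one]
    exact add_le_add le_rfl h.lip_le
  rw [wt, ← mul_pow]
  exact pow_le_pow_left₀ zero_le h1 m

theorem unitd_main (hs : St.Ok v s) {f : V m → V m} {x : V m} {c : ℝ} (hb : 0 < be x)
    (h : LL f x c) (hc : 0 ≤ c) (h8 : P.th x ≤ 8)
    (hC : 1 + c ≤ 9 * (1 + (om (St.u v s) 2 x).toReal) / be x) :
    (1 + lip f x) ^ m ≤ Main v s P x := by
  obtain ⟨L, hL, hom⟩ := (St.tp_u hs).om_bound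
  have h1 : om (St.u v s) 2 x ≠ ⊤ := ne_top_of_le_ne_top hL (hom _ _)
  have h2 := unitd_fin hb h hc hC
  rw [ENNReal.ofReal_mul (by norm_num), ENNReal.ofReal_add zero_le_one ENNReal.toReal_nonneg,
    ENNReal.ofReal_one, ENNReal.ofReal_toReal h1, ENNReal.ofReal_ofNat] at h2
  rw [Main, indicator_of_mem (show x ∈ {x | P.th x ≤ 8} from h8)]
  exact h2

theorem unitd_pf {f : V m → V m} {x a : V m} {c C τ ρ ρ' : ℝ} {K N : ℕ} {D : Finset (V m)}
    (ha : a ∈ D) (hb : dl K < be x) (h1 : ‖gta τ K x - a‖ ≤ 1) (h2 : ta a (gta τ K x) ≤ ρ)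
    (h : LL f x c) (hc : 0 ≤ c) (hC0 : 0 ≤ C)
    (hC : 1 + c ≤ C * (1 + lam ρ' N (ta a (gta τ K x))) / be x) :
    (1 + lip f x) ^ m ≤ ENNReal.ofReal C ^ m * ∑ a ∈ D, PFw τ K ρ ρ' N a x := by
  have h3 := unitd_fin ((dl_pos K).trans hb) h hc hC
  rw [ENNReal.ofReal_mul hC0, mul_pow, mul_assoc] at h3
  refine h3.trans (mul_le_mul_right (le_trans (le_of_eq ?_)
    (Finset.single_le_sum (f := fun a => PFw τ K ρ ρ' N a x) (fun _ _ => zero_le) ha)) _)
  rw [PFw, indicator_of_mem (show x ∈ {x : V m | dl K < be x ∧ ‖gta τ K x - a‖ ≤ 1 ∧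
    ta a (gta τ K x) ≤ ρ} from ⟨hb, h1, h2⟩)]

theorem unitd_ll_u (hs : St.Ok v s) {x y : V m} (hy : ‖y - x‖ < 2) :
    LL (St.u v s) y (om (St.u v s) 2 x).toReal := by
  obtain ⟨L, hL, hom⟩ := (St.tp_u hs).om_bound
  exact LL.of_nhds (t := ball x 2) (isOpen_ball.mem_nhds (mem_ball_iff_norm.2 hy))
    fun y hy z hz => norm_sub_le_om (ne_top_of_le_ne_top hL (hom _ _)) hy hz

theorem unitd_dl {K K1 : ℕ} (h : K1 ≤ K) : dl K ≤ dl K1 :=
  one_div_le_one_div_of_le (by positivity) (pow_le_pow_right₀ one_le_two (by omega))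

theorem unitd_exists_dl {b : ℝ} (hb : 0 < b) : ∃ K, dl K < b := by
  obtain ⟨K, hK⟩ := exists_pow_lt_of_lt_one hb (show (1 / 2 : ℝ) < 1 by norm_num)
  refine ⟨K, lt_of_le_of_lt ?_ hK⟩
  rw [dl, one_div_pow]
  exact one_div_le_one_div_of_le (by positivity) (pow_le_pow_right₀ one_le_two (by omega))

theorem unitd_tendsto {τ : ℝ} (h0 : 0 < τ) (h1 : τ ≤ 1 / 16) {K1 : ℕ} {x : V m}
    (hx : dl K1 ≤ be x) : Tendsto (fun K => gg τ K x) atTop (𝓝 (rr τ K1 x)) := by
  rw [tendsto_iff_norm_sub_tendsto_zero]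
  refine squeeze_zero' (Eventually.of_forall fun _ => norm_nonneg _)
    (eventually_atTop.2 ⟨K1, fun K hK => norm_gg_sub_rr_le h0 h1 hK hx⟩) ?_
  simpa only [one_div_pow] using
    tendsto_pow_atTop_nhds_zero_of_lt_one (r := (1 / 2 : ℝ)) (by norm_num) (by norm_num)

/-- Near a double point the tangential distance is the distance. -/
theorem unitd_ta (h : P.Ok0) {K1 : ℕ} {x a : V m} (ha : a ∈ P.D) (hx : dl K1 ≤ be x)
    (hd : ‖rr P.τ K1 x - a‖ ≤ P.τ) : ta a (gta P.τ K1 x) = ‖rr P.τ K1 x - a‖ := by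
  have h0 := h.τ0
  have h1 := h.τ1
  have hi : ∀ i, |rr P.τ K1 x i - a i| ≤ P.τ := fun i =>
    (norm_le_pi_norm (rr P.τ K1 x - a) i).trans hd
  have hT : ∀ i ∈ TT a, 4 * P.τ ≤ dd (rr P.τ K1 x i) := fun i hi' => by
    have e1 := h.far a ha i hi'
    have e2 := (abs_le.1 ((abs_dd_sub_le _ _).trans (hi i))).1
    linarith only [h0, e1, e2]
  have hsub : TT a ⊆ TT (rr P.τ K1 x) := fun i hi' =>
    Finset.mem_filter.2 ⟨Finset.mem_univ _, by linarith [hT i hi']  |> ne_of_gt⟩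
  have heq : TT a = TT (rr P.τ K1 x) := Finset.eq_of_subset_of_card_le hsub (by
    rw [h.card a ha]
    exact mu_eq_zero_iff.1 (mu_rr h0 h1 hx))
  have hna : na a (rr P.τ K1 x) = 0 := by
    refine le_antisymm ((norm_pr_le_iff le_rfl).2 fun i hi' => ?_) (norm_nonneg _)
    have e1 : i ∉ TT a := Finset.mem_compl.1 hi'
    have e2 : i ∉ TT (rr P.τ K1 x) := heq ▸ e1
    simp only [TT, Finset.mem_filter, Finset.mem_univ, true_and, not_not] at e1 e2
    obtain ⟨k, hk⟩ := dd_eq_zero_iff.1 e1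
    obtain ⟨k', hk'⟩ := dd_eq_zero_iff.1 e2
    have e3 := hi i
    rw [hk, hk', ← Int.cast_sub, ← Int.cast_abs] at e3
    have e4 : |k' - k| < 1 := by
      have : ((|k' - k| : ℤ) : ℝ) < ((1 : ℤ) : ℝ) := by
        rw [Int.cast_one]
        linarith only [h0, h1, e3]
      exact_mod_cast this
    rw [Pi.sub_apply, hk, hk', ← Int.cast_sub, Int.abs_lt_one_iff.1 e4, Int.cast_zero, abs_zero]
  rw [norm_sub_eq_max, hna, max_eq_left (show 0 ≤ ta a (rr P.τ K1 x) from norm_nonneg _), ta, ta]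
  congr 1
  funext i
  by_cases hi' : i ∈ TT a
  · simp only [pr, if_pos hi', Pi.sub_apply, rr_apply_eq h0 h1 K1 (hT i hi')]
  · simp only [pr, if_neg hi']

theorem unitd_gta {τ : ℝ} {K K1 : ℕ} (hK : K1 ≤ K) {x : V m} (hx : dl K1 ≤ be x) :
    gta τ K x = gta τ K1 x := by
  rw [gta, gta, mix, mix, r0_nested hK hx]

theorem unitd_ll_ft (hs : St.Ok v s) {Lf ρ : ℝ} {N : ℕ} (hρ : 0 < ρ) (hN : 1 ≤ N) (hL : 0 ≤ Lf)
    (hf : ∀ x y, ‖St.f v s x - St.f v s y‖ ≤ Lf * ‖x - y‖) (x : V m) :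
    LL (ft v s P ρ N) x (Lf + s.σ * lam (ρ / 2) N (P.dD x)) := by
  have h1 : LL P.dD x 1 := LL.of_forall (fun y z => by
    rw [one_mul]
    exact P.abs_dD_sub_le y z) x
  have h2 := lam_nonneg (half_pos hρ) N (P.dD x)
  have h3 := ((ll_Lam (half_pos hρ) hN (P.dD x)).comp h1 h2).const_mul s.σ
  rw [abs_of_pos hs.hσ, mul_one] at h3
  have h4 := mul_nonneg hs.hσ.le h2
  exact ((LL.of_forall hf x).mono (by linarith only [h4])).clamp (h3.mono (by linarith))

theorem pointwise (hs : St.Ok v s) (hP : P.Ok v s) : ∃ cs : ℝ, ∀ q : P2 m, Ok v s P q →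
    ∀ Z : Set (V m), P.Prot v s Z → ∀ᵐ x, closedBall x 1 ⊆ Z → ∀ᶠ K in atTop,
      (x ∉ I' v s P q K →
        (1 + lip (St.u v (new v s P q K)) x) ^ m ≤ Main v s P x + Bad P q cs K x) ∧
      (x ∈ Fo' v s P q K → (1 + lip (St.u v (new v s P q K)) x) ^ m ≤ Bad P q cs K x) := by
  have hO := hP.toOk0
  have h0 := hO.τ0
  have h1 := hO.τ1
  have hσ := hs.hσ
  obtain ⟨CG, hCG, hG⟩ := P1.ll_hi_good hO
  obtain ⟨LP, hLP, hPsi⟩ := (St.tp_Psi hs).exists_bound
  obtain ⟨Lf, hLf, hf⟩ := (St.tp_f hs).exists_bound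
  refine ⟨1 + CG + 3 * CG * LP * (1 + Lf + s.σ), fun q hq Z hZ => ?_⟩
  have hTh : TP (Th v s P q) := St.tp_u (ok_mid hs hP hq)
  filter_upwards [ae_be_pos, ae_all_iff.2 fun K1 => ae_ll_gg_sub_rr (m := m) h0 h1 K1,
    ae_all_iff.2 fun K1 => TP.ae_tangential hTh (tp_rr (m := m) h0 h1 K1)] with x hb hA hT hxZ
  have hbh := be_le_half x
  have hb2 : 2 ≤ 1 / be x := by
    rw [le_div_iff₀ hb]
    linarith only [hbh]
  have hc2 : 2 ≤ 2 / be x := by
    rw [le_div_iff₀ hb]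
    linarith only [h0, h1, hbh]
  have hw : 0 ≤ (om (St.u v s) 2 x).toReal := ENNReal.toReal_nonneg
  have hcap : Continuous (dcap P.FU 5) := (TP.dcap P.FU 5).continuous
  by_cases hfar : 3 < dcap P.FU 5 x
  · have hxI : x ∉ s.I := fun hx => by
      obtain ⟨p, hp, hxp⟩ := hP.net x (St.I_subset_U hs hx)
      linarith only [h0, h1, hfar, hxp, hp, dcap_le 5 x hp]
    refine Eventually.of_forall fun K => ⟨fun _ => le_trans ?_ le_self_add, fun hx => ?_⟩
    · have e1 : ‖P.gB K x - x‖ < 2 := by linarith only [h0, h1, hO, P1.norm_gB_sub_le hO K x]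
      have e2 := (unitd_ll_u hs e1).comp (P1.ll_gB hO hc2 (ll_r0_be K hb)) hw
      refine unitd_main hs hb (e2.congr ?_) (by positivity)
        (by rw [th_eq_zero hP hxI]; norm_num) ?_
      · filter_upwards [hcap.continuousAt.eventually (lt_mem_nhds (show 2 < _ by linarith only [h0, h1, hfar] :
          2 < dcap P.FU 5 x))] with y hy using u_new_far hs hP hq K hy
      · rw [le_div_iff₀ hb]
        field_simp
        linarith only [h0, h1, hbh, hw]
    · obtain ⟨p, hp, hxp⟩ := U_new_subset hs hP hq K hx.1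
      exact absurd (hP.hF1 p hp (mem_closedBall_iff_norm.2 (by linarith only [h0, h1, hxp]))) hxI
  have hnear : ∀ᶠ y in 𝓝 x, ∀ K, P.gB K y = gg P.τ K y := by
    filter_upwards [hcap.continuousAt.eventually (gt_mem_nhds (show _ < 4 by linarith only [h0, h1, hfar] :
      dcap P.FU 5 x < 4))] with y hy K using P1.gB_eq hO K hy.le
  have hu : ∀ K, St.u v (new v s P q K) =ᶠ[𝓝 x] fun y => P.hi K (Th v s P q (gg P.τ K y)) :=
    fun K => hnear.mono fun y hy => by rw [u_new hs hP hq, hy]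
  obtain ⟨K1, hK1⟩ := unitd_exists_dl hb
  have hmu : ∀ᶠ y in 𝓝 x, mu (rr P.τ K1 y) = 0 :=
    (tp_be.continuous.continuousAt.eventually (lt_mem_nhds hK1)).mono fun y hy =>
      mu_rr h0 h1 hy.le
  have hmu0 := hmu.self_of_nhds
  have hlim := unitd_tendsto h0 h1 hK1.le
  have hrc : Continuous (rr P.τ K1 : V m → V m) := (tp_rr h0 h1 K1).continuous
  have hgc : ∀ K, Continuous (gg P.τ K : V m → V m) := fun K => (lh_gg h0 h1 K).tp.continuous
  have hx0 : ‖rr P.τ K1 x - x‖ ≤ 1 := by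
    have e1 := norm_rr_sub_gta_le h0 h1 K1 x
    have e2 := norm_gta_sub_le h0 h1 K1 x
    have e3 := norm_sub_le_norm_sub_add_norm_sub (rr P.τ K1 x) (gta P.τ K1 x) x
    linarith only [h0, h1, e1, e2, e3]
  have hrr : LL (rr P.τ K1 : V m → V m) x (3 / be x) :=
    (ll_rr h0 h1 (by linarith only [h0, h1, hc2]) (ll_r0_be K1 hb)).mono (by
      rw [le_div_iff₀ hb]
      field_simp
      norm_num)
  have htan : ∀ᶠ K in atTop, ∀ c, LL (fun y => Th v s P q (rr P.τ K1 y)) x c →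
      LL (fun y => Th v s P q (gg P.τ K y)) x (c + 1) := by
    obtain ⟨L, hL, e, he, hT⟩ := hT K1
    filter_upwards [hA K1 hK1 (1 / (L + 1)) (by positivity),
      hlim.eventually (ball_mem_nhds _ he)] with K e1 e2 c hc
    refine (hT _ c _ hc e1 (mem_ball_iff_norm.1 e2)).mono ?_
    rw [mul_one_div, add_le_add_iff_left, div_le_one (by positivity)]
    linarith only [h0, h1]
  by_cases hd : P.dD (rr P.τ K1 x) ≤ q.ρ
  · obtain ⟨a, ha, hda⟩ := exists_of_dcap_lt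
      (show dcap P.D 1 (rr P.τ K1 x) < 1 from lt_of_le_of_lt hd (by linarith only [h0, h1, hq, hq.ρ1]))
    have hda' : P.dD (rr P.τ K1 x) = ‖rr P.τ K1 x - a‖ := hda
    have hta : ta a (gta P.τ K1 x) = P.dD (rr P.τ K1 x) := by
      rw [hda']
      exact unitd_ta hO ha hK1.le (by linarith only [hd, hda', hq, hq.ρ1])
    have hl := lam_nonneg (half_pos hq.ρ0) q.N (P.dD (rr P.τ K1 x))
    have e1 := unitd_ll_ft (P := P) hs hq.ρ0 hq.N1 (by linarith only [h0, h1, hLf]) hf (rr P.τ K1 x)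
    generalize hlam : lam (q.ρ / 2) q.N (P.dD (rr P.τ K1 x)) = l at hl e1
    have hσl := mul_nonneg hσ.le hl
    have e2 : LL (fun y => (y, ft v s P q.ρ q.N y)) (rr P.τ K1 x) (1 + Lf + s.σ * l) :=
      ((LL.id' _).mono (by linarith only [h0, h1, hLf, hσl])).prod (e1.mono (by linarith only [h0, h1]))
    have e3 := ((LL.of_forall hPsi _).comp e2 (by linarith only [h0, h1, hLP])).comp hrr (by positivity)
    have e4 : LL (fun y => Th v s P q (rr P.τ K1 y)) x (LP * (1 + Lf + s.σ * l) * (3 / be x)) :=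
      e3.congr (hmu.mono fun y hy => Th_skel hs hP hq hy)
    filter_upwards [htan, eventually_ge_atTop K1, ((hTh.continuous.tendsto _).comp hlim).eventually
      (P.isOpen_Good.mem_nhds (Th_good hs hP hq hmu0 hd))] with K k1 k2 k3
    have e5 := (LL.comp (f := fun y => Th v s P q (gg P.τ K y)) (hG K _ k3) (k1 _ e4)
      (by linarith only [h0, h1, hCG])).congr (hu K)
    have key : (1 + lip (St.u v (new v s P q K)) x) ^ m ≤
        Bad P q (1 + CG + 3 * CG * LP * (1 + Lf + s.σ)) K x := by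
      refine le_trans ?_ le_add_self
      refine unitd_pf ha ((unitd_dl k2).trans_lt hK1) ?_ ?_ e5 (by positivity) (by positivity) ?_
      · have e6 := norm_rr_sub_gta_le h0 h1 K1 x
        have e7 := norm_sub_le_norm_sub_add_norm_sub (gta P.τ K1 x) (rr P.τ K1 x) a
        rw [norm_sub_rev (gta P.τ K1 x) (rr P.τ K1 x)] at e7
        rw [unitd_gta k2 hK1.le]
        linarith only [h0, h1, hd, hda', e6, e7, hq, hq.ρ1]
      · rw [unitd_gta k2 hK1.le, hta]
        exact hd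
      · rw [unitd_gta k2 hK1.le, hta, hlam, le_div_iff₀ hb]
        have e8 : (1 + CG * (LP * (1 + Lf + s.σ * l) * (3 / be x) + 1)) * be x =
            (1 + CG) * be x + 3 * CG * LP * (1 + Lf + s.σ * l) := by
          field_simp
          ring
        have e9 : (1 + CG) * be x ≤ (1 + CG) * (1 + l) :=
          mul_le_mul_of_nonneg_left (by linarith only [h0, h1, hbh, hl]) (by linarith only [h0, h1, hCG])
        have e10 : 3 * CG * LP * (1 + Lf + s.σ * l) ≤ 3 * CG * LP * ((1 + Lf + s.σ) * (1 + l)) :=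
          mul_le_mul_of_nonneg_left (by (refine le_of_not_gt fun h_nl => ?_; linarith only [h_nl, hl, h0, hσ, h1, hLf, mul_pos_of_neg_of_neg (Mathlib.Tactic.Linarith.sub_neg_of_lt h0) (Mathlib.Tactic.Linarith.sub_neg_of_lt hσ), mul_pos_of_neg_of_neg (Mathlib.Tactic.Linarith.sub_neg_of_lt h0) (Mathlib.Tactic.Linarith.sub_neg_of_lt h_nl), mul_nonneg_of_nonpos_of_nonpos (Mathlib.Tactic.Linarith.sub_nonpos_of_le h1) (le_of_lt (Mathlib.Tactic.Linarith.sub_neg_of_lt hσ)), mul_nonneg_of_nonpos_of_nonpos (Mathlib.Tactic.Linarith.sub_nonpos_of_le h1) (le_of_lt (Mathlib.Tactic.Linarith.sub_neg_of_lt h_nl)), mul_nonneg_of_nonpos_of_nonpos (Mathlib.Tactic.Linarith.sub_nonpos_of_le hLf) (Mathlib.Tactic.Linarith.sub_nonpos_of_le hl)])) (by positivity)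
        rw [e8]
        linarith only [e9, e10]
    exact ⟨fun _ => key.trans le_add_self, fun _ => key⟩
  rw [not_le] at hd
  by_cases h2 : P.th (rr P.τ K1 x) ≤ 2
  · have e1 : ∀ᶠ y in 𝓝 x, Th v s P q (rr P.τ K1 y) = St.u v s (rr P.τ K1 y) := by
      filter_upwards [hmu, (P.tp_dD.continuous.comp hrc).continuousAt.eventually
        (lt_mem_nhds hd)] with y hy hy'
      exact Th_skel' hs hP hq hy (by linarith only [hq, hy', hq.ρ0, show q.ρ < P.dD (rr P.τ K1 y) from hy'])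
    have e2 : LL (fun y => Th v s P q (rr P.τ K1 y)) x
        ((om (St.u v s) 2 x).toReal * (3 / be x)) :=
      ((unitd_ll_u hs (show ‖rr P.τ K1 x - x‖ < 2 by linarith only [h0, h1, hx0])).comp hrr hw).congr e1
    have e3 : P.th (Th v s P q (rr P.τ K1 x)) < 3 := by
      rw [e1.self_of_nhds]
      linarith only [h0, h1, hs, hZ, hxZ, hx0, hmu0, h2, th_u_le hs hZ (hxZ (mem_closedBall_iff_norm.2 hx0)) hmu0 h2]
    filter_upwards [htan, (((P.tp_th.comp hTh).continuous.tendsto _).comp hlim).eventually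
      (gt_mem_nhds e3)] with K k1 k2
    have e4 : St.u v (new v s P q K) =ᶠ[𝓝 x] fun y => Th v s P q (gg P.τ K y) := by
      filter_upwards [hu K, ((P.tp_th.comp hTh).continuous.comp (hgc K)).continuousAt.eventually
        (gt_mem_nhds k2)] with y hy hy'
      rw [hy, P1.hi_eq_self hO K (le_of_lt hy')]
    refine ⟨fun _ => le_trans ?_ le_self_add, fun hx => ?_⟩
    · refine unitd_main hs hb ((k1 _ e2).congr e4) (by positivity) ?_ ?_
      · linarith only [h0, h1, h2, hx0, (abs_le.1 ((P.abs_th_sub_le _ _).trans hx0)).1]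
      · rw [le_div_iff₀ hb]
        field_simp
        linarith only [h0, h1, hbh, hw]
    · have e5 := hx.2.2
      rw [e4.self_of_nhds] at e5
      exact absurd (show P.th (Th v s P q (gg P.τ K x)) < 3 from k2) (by linarith only [h0, h1, e5])
  rw [not_le] at h2
  have hGt := (lh_Gt hs hq.φtp).tp
  have hopen : IsOpen ({z | |ell v (Gt v s q.φ z)| <
      (mid v s P q).a (pj v (Gt v s q.φ z))} ∩ s.I) :=
    (isOpen_lt ((tp_ell v).comp hGt).abs.continuous
      ((St.tp_a (ok_mid hs hP hq)).comp ((tp_pj v).comp hGt)).continuous).inter hs.hI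
  filter_upwards [eventually_ge_atTop K1, hlim.eventually (hopen.mem_nhds
    ⟨thick_of hs hP hq hmu0 h2 hd, mem_I_of_th hP (x := rr P.τ K1 x) (by linarith only [h0, h1, h2]) (by simp)⟩)]
    with K k1 k2
  have e1 : St.u v (new v s P q K) =ᶠ[𝓝 x] fun y => P.hi K (gg P.τ K y) := by
    filter_upwards [hu K, (hgc K).continuousAt.eventually (hopen.mem_nhds k2)] with y hy hy'
    rw [hy, Th_eq_self hs hP hq hy'.2 (le_of_lt hy'.1)]
  have e2 : |ell v (Gt v s q.φ (P.gB K x))| < (mid v s P q).a (pj v (Gt v s q.φ (P.gB K x))) := by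
    rw [hnear.self_of_nhds]
    exact k2.1
  refine ⟨fun hx => ?_, fun hx => absurd hx.2.1 (not_le.2 e2)⟩
  by_cases hbox : ∀ a ∈ P.D, gg P.τ K x ∉ P.box a
  · have e3 : P.th x ≤ 8 := not_lt.1 fun h8 => hx ⟨h8, hbox, e2⟩
    refine le_trans ?_ le_self_add
    refine unitd_main hs hb ((P1.ll_hi_gg_nobox hO hbox hc2 (ll_r0_be K hb)).congr e1)
      (by positivity) e3 ?_
    rw [le_div_iff₀ hb]
    field_simp
    linarith only [h0, h1, hbh, hw]
  · push Not at hbox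
    obtain ⟨a, ha, hab⟩ := hbox
    obtain ⟨e3, e4⟩ := P1.box_PF hO ha hab
    have hl := lam_nonneg hO.ρ0 P.N (ta a (gta P.τ K x))
    refine le_trans (le_trans ?_ le_self_add) le_add_self
    refine unitd_pf ha ((unitd_dl k1).trans_lt hK1) e3 (e4.trans_le hab.1)
      ((P1.ll_hi_gg_box hO ha hab hc2 (ll_r0_be K hb)).congr e1) (by positivity)
      (by positivity) ?_
    rw [le_div_iff₀ hb]
    field_simp
    linarith only [h1, hl, h0, hbh, mul_pos_of_neg_of_neg (Mathlib.Tactic.Linarith.sub_neg_of_lt h0) (Mathlib.Tactic.Linarith.sub_neg_of_lt h0), mul_nonneg_of_nonpos_of_nonpos (le_of_lt (Mathlib.Tactic.Linarith.sub_neg_of_lt h0)) (Mathlib.Tactic.Linarith.sub_nonpos_of_le h1), mul_nonneg_of_nonpos_of_nonpos (le_of_lt (Mathlib.Tactic.Linarith.sub_neg_of_lt h0)) (Mathlib.Tactic.Linarith.sub_nonpos_of_le hbh)]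

end P2
end BEv
end
end

-- merged part: Pool.Agent.Work.MP_f0515e_an.UnitE
section
/-! Domination and the core. -/

open Set Metric Filter Topology MeasureTheory Function
open scoped ENNReal NNReal

noncomputable section
namespace BEv
namespace P2

variable {m : ℕ} {v : V m} {s : St m} {P : P1 m} {q : P2 m}

theorem unite_le {f : V m → V m} {x : V m} {C a t : ℝ} (hC : 1 ≤ C) (ha : 1 ≤ a) (ht : t ≤ 1)
    (h : 0 < t → LL f x (2 * C * a / t)) :
    1 + lip f x ≤ ENNReal.ofReal (1 + 2 * C) * ENNReal.ofReal a * (ENNReal.ofReal t)⁻¹ := by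
  by_cases h0 : 0 < t
  · refine (add_le_add le_rfl (h h0).lip_le).trans ?_
    rw [← ENNReal.ofReal_inv_of_pos h0, ← ENNReal.ofReal_mul (by linarith),
      ← ENNReal.ofReal_mul (by positivity), ← ENNReal.ofReal_one,
      ← ENNReal.ofReal_add zero_le_one (by positivity)]
    refine ENNReal.ofReal_le_ofReal ?_
    have h1 : 1 ≤ a * t⁻¹ := one_le_mul_of_one_le_of_one_le ha ((one_le_inv₀ h0).2 ht)
    rw [div_eq_mul_inv]
    linarith only [h1]
  · rw [ENNReal.ofReal_of_nonpos (not_lt.1 h0), ENNReal.inv_zero, ENNReal.mul_top]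
    · exact le_top
    · exact mul_ne_zero (ENNReal.ofReal_pos.2 (by linarith)).ne'
        (ENNReal.ofReal_pos.2 (by linarith)).ne'

theorem dom (hs : St.Ok v s) (hP : P.Ok v s) (hq : Ok v s P q) {Z : Set (V m)}
    (hc : IsCompact Z) (hZ : P.Prot v s Z) : ∃ C s1 : ℝ, 1 ≤ C ∧ 0 < s1 ∧
      ∀ (K : ℕ) (x : V m) (c : ℝ), closedBall x 1 ⊆ Z → 2 ≤ c → LL (r0 K : V m → V m) x c →
        LL (St.u v (new v s P q K)) x (C * c) ∨
        (s1 ≤ mu (gg P.τ K x) ∧ (0 < mu (Th v s P q (gg P.τ K x)) →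
          LL (St.u v (new v s P q K)) x (C * c / mu (Th v s P q (gg P.τ K x))))) := by
  obtain ⟨s1, hs1, hdi⟩ := dichotomy hs hP hq hc hZ
  obtain ⟨Lu, hLu, hu⟩ := (St.tp_u hs).exists_bound
  obtain ⟨Lt, hLt, ht⟩ := (St.tp_u (ok_mid hs hP hq)).exists_bound
  obtain ⟨C1, hC1, h1⟩ := P1.ll_hi_mu hP.toOk0
  obtain ⟨C2, hC2, h2⟩ := P1.ll_hi_good hP.toOk0
  obtain ⟨C3, hC3, h3⟩ := P1.ll_hi_gg hP.toOk0
  have p1 : 0 ≤ C1 * Lt := by positivity
  have p2 : 0 ≤ C2 * Lt := by positivity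
  refine ⟨2 * Lu + 2 * (C1 * Lt) + 2 * (C2 * Lt) + C3, s1, by linarith, hs1,
    fun K x c hx h2c hr => ?_⟩
  have hc0 : 0 ≤ c := by linarith
  have hg : LL (P.gB K) x (2 * c) := P1.ll_gB hP.toOk0 h2c hr
  have hcont : Continuous (dcap P.FU 5 : V m → ℝ) := (TP.dcap P.FU 5).continuous
  have q1 := mul_nonneg p1 hc0
  have q2 := mul_nonneg p2 hc0
  have q3 := mul_nonneg (zero_le_one.trans hC3) hc0
  have q4 := mul_nonneg (zero_le_one.trans hLu) hc0
  by_cases hfar : 2 < dcap P.FU 5 x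
  · left
    have e : ∀ᶠ y in 𝓝 x, 2 < dcap P.FU 5 y := hcont.continuousAt.eventually (lt_mem_nhds hfar)
    refine (((LL.of_forall hu _).comp hg (by linarith)).congr
      (e.mono fun y hy => u_new_far hs hP hq K hy)).mono ?_
    linarith
  have e : ∀ᶠ y in 𝓝 x, dcap P.FU 5 y < 4 :=
    hcont.continuousAt.eventually (gt_mem_nhds (by linarith))
  have e' : ∀ᶠ y in 𝓝 x, P.gB K y = gg P.τ K y := e.mono fun y hy => P1.gB_eq hP.toOk0 K hy.le
  have ex : P.gB K x = gg P.τ K x := e'.self_of_nhds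
  have hT : LL (fun y => Th v s P q (P.gB K y)) x (Lt * (2 * c)) :=
    (LL.of_forall ht _).comp hg (by linarith)
  have eu : St.u v (new v s P q K) =ᶠ[𝓝 x] fun y => P.hi K (Th v s P q (P.gB K y)) :=
    Eventually.of_forall fun y => u_new hs hP hq K y
  by_cases hmu : s1 ≤ mu (gg P.τ K x)
  · refine Or.inr ⟨hmu, fun hpos => ?_⟩
    rw [← ex] at hpos ⊢
    refine ((LL.comp (f := fun y => Th v s P q (P.gB K y)) (h1 K _ hpos) hT
      (div_nonneg (by linarith) hpos.le)).congr eu).mono ?_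
    rw [div_mul_eq_mul_div]
    exact div_le_div_of_nonneg_right (by linarith) hpos.le
  have hZ' : gg P.τ K x ∈ Z := by
    refine hx (mem_closedBall_iff_norm.2 ?_)
    rw [← ex]
    linarith only [hP, P1.norm_gB_sub_le hP.toOk0 K x, hP.τ1]
  left
  rcases hdi _ hZ' (not_le.1 hmu) with hid | hgood
  · rw [← ex] at hid
    have e2 : ∀ᶠ y in 𝓝 x, Th v s P q (P.gB K y) = P.gB K y := hg.continuousAt.eventually hid
    refine ((h3 K x c h2c hr).congr ?_).mono (by linarith)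
    filter_upwards [e', e2] with y hy hy'
    rw [u_new hs hP hq, hy', hy]
  · rw [← ex] at hgood
    refine ((LL.comp (f := fun y => Th v s P q (P.gB K y)) (h2 K _ hgood) hT
      (by linarith)).congr eu).mono ?_
    linarith

theorem dom_wt (hs : St.Ok v s) (hP : P.Ok v s) (hq : Ok v s P q) {Z : Set (V m)}
    (hc : IsCompact Z) (hZ : P.Prot v s Z) : ∃ C : ℝ≥0∞, C ≠ ⊤ ∧ ∀ᶠ K in atTop, ∀ x : V m,
      closedBall x 1 ⊆ Z → dl K < be x →
        (1 + lip (St.u v (new v s P q K)) x) ^ m ≤ C * wt (x - hlf) := by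
  obtain ⟨C, s1, hC, hs1, h⟩ := dom hs hP hq hc hZ
  refine ⟨ENNReal.ofReal (1 + 2 * C) ^ m, ENNReal.pow_ne_top ENNReal.ofReal_ne_top, ?_⟩
  have hK : ∀ᶠ K : ℕ in atTop, (1 / 2 : ℝ) ^ K < s1 :=
    (tendsto_pow_atTop_nhds_zero_of_lt_one (by norm_num) (by norm_num)).eventually
      (gt_mem_nhds hs1)
  filter_upwards [hK] with K hK x hx hb
  have hb0 : 0 < be x := (dl_pos K).trans hb
  have hb1 := be_le_half x
  have h2 : 2 ≤ 2 / be x := by
    rw [le_div_iff₀ hb0]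
    linarith only [hb0, hb1]
  have hmu := mu_gg_le hP.τ0 hP.τ1 hb.le
  rw [one_div_pow] at hK
  rcases h K x _ hx h2 (ll_r0_be K hb0) with h' | h'
  · have := unite_le (a := 1) (t := be x) hC le_rfl (by linarith only [hb0, hb1])
      (fun _ => h'.mono (le_of_eq (by ring)))
    rw [ENNReal.ofReal_one, mul_one] at this
    exact (pow_le_pow_left' this m).trans (le_of_eq (mul_pow _ _ _))
  · linarith only [hK, hmu, h', h'.1]

theorem core_small (hs : St.Ok v s) (hP : P.Ok v s) (hq : Ok v s P q) {Z : Set (V m)}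
    (hc : IsCompact Z) (hZ : P.Prot v s Z) {Y : Set (V m)} (hY : MeasurableSet Y)
    (hYZ : ∀ x ∈ Y, closedBall x 1 ⊆ Z) :
    Tendsto (fun K => En (St.u v (new v s P q K)) (Y ∩ {x | be x ≤ dl K})) atTop (𝓝 0) := by
  obtain ⟨C, s1, hC, hs1, h⟩ := dom hs hP hq hc hZ
  obtain ⟨R, hR⟩ := hc.isBounded.subset_closedBall 0
  set A : ℝ≥0∞ := ENNReal.ofReal (1 + 2 * C) ^ m with hA
  have hAt : A ≠ ⊤ := ENNReal.pow_ne_top ENNReal.ofReal_ne_top
  have hΦ : Measurable fun z : V m => wt (Th v s P q z) :=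
    measurable_wt.comp (St.tp_u (ok_mid hs hP hq)).continuous.measurable
  have t1 := ENNReal.Tendsto.const_mul (a := A) (core_tendsto' (m := m) R) (Or.inr hAt)
  have t2 := ENNReal.Tendsto.const_mul (a := A)
    (core_tendsto hP.τ0 hP.τ1 hs1 R hΦ (St.lintegral_wt_u (ok_mid hs hP hq))) (Or.inr hAt)
  have t3 := t1.add t2
  simp only [mul_zero, add_zero] at t3
  refine tendsto_of_tendsto_of_tendsto_of_le_of_le tendsto_const_nhds t3 (fun _ => zero_le)
    fun K => ?_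
  have mb : MeasurableSet {x : V m | be x ≤ dl K} :=
    (isClosed_le tp_be.continuous continuous_const).measurableSet
  have mS : MeasurableSet {x : V m | s1 ≤ mu (gg P.τ K x)} :=
    (isClosed_le continuous_const
      (tp_mu.continuous.comp (lh_gg hP.τ0 hP.τ1 K).tp.continuous)).measurableSet
  have e2 : ENNReal.ofReal (2 ^ K) ^ m = (2 : ℝ≥0∞) ^ (K * m) := by
    rw [ENNReal.ofReal_pow (by norm_num), ENNReal.ofReal_ofNat, pow_mul]
  have h1K : (1 : ℝ) ≤ 2 ^ K := one_le_pow₀ (by norm_num)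
  have key : ∀ x ∈ Y ∩ {x | be x ≤ dl K}, (1 + lip (St.u v (new v s P q K)) x) ^ m ≤
      A * 2 ^ (K * m) + indicator {x : V m | s1 ≤ mu (gg P.τ K x)}
        (fun x => A * 2 ^ (K * m) * wt (Th v s P q (gg P.τ K x))) x := by
    intro x hx
    rcases h K x _ (hYZ x hx.1) (by rw [pow_succ]; linarith) (ll_r0 K x) with h' | h'
    · have := unite_le (a := 2 ^ K) (t := 1) hC h1K le_rfl
        (fun _ => h'.mono (le_of_eq (by ring)))
      rw [ENNReal.ofReal_one, inv_one, mul_one] at this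
      refine le_add_right ((pow_le_pow_left' this m).trans (le_of_eq ?_))
      rw [mul_pow, e2]
    · have := unite_le (a := 2 ^ K) (t := mu (Th v s P q (gg P.τ K x))) hC h1K
        ((mu_le_half _).trans (by norm_num)) (fun hp => (h'.2 hp).mono (le_of_eq (by ring)))
      rw [indicator_of_mem (show x ∈ {x : V m | s1 ≤ mu (gg P.τ K x)} from h'.1)]
      refine le_add_left ((pow_le_pow_left' this m).trans (le_of_eq ?_))
      rw [mul_pow, mul_pow, e2]
      rfl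
  have sub : Y ∩ {x | be x ≤ dl K} ⊆ {x : V m | ‖x‖ ≤ R ∧ be x ≤ dl K} := fun x hx =>
    ⟨mem_closedBall_zero_iff.1 (hR (hYZ x hx.1 (mem_closedBall_self zero_le_one))), hx.2⟩
  refine (setLIntegral_mono' (hY.inter mb) key).trans ((lintegral_mono_set sub).trans ?_)
  rw [lintegral_add_left measurable_const, setLIntegral_const, lintegral_indicator mS,
    Measure.restrict_restrict mS, lintegral_const_mul' _ _
      (ENNReal.mul_ne_top hAt (ENNReal.pow_ne_top ENNReal.ofNat_ne_top)), mul_assoc, mul_assoc]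
  refine add_le_add le_rfl (mul_le_mul_right (mul_le_mul_right (lintegral_mono_set ?_) _) _)
  exact fun x hx => ⟨hx.2.1, hx.2.2, hx.1⟩

end P2
end BEv
end
end

-- merged part: Pool.Agent.Work.MP_f0515e_an.UnitF
section
/-! Integration of the pointwise bound and the choice of the parameters. -/

open Set Metric Filter Topology MeasureTheory Function
open scoped ENNReal NNReal

noncomputable section
namespace BEv
namespace P2

variable {m : ℕ} {v : V m} {s : St m} {P : P1 m} {q : P2 m}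

/-- Abstract form of the dominated convergence step. -/
theorem unitf_dct {F G : ℕ → V m → ℝ≥0∞} {W A : ℕ → Set (V m)} {Y : Set (V m)}
    {w : V m → ℝ≥0∞} (hY : MeasurableSet Y) (hF : ∀ K, Measurable (F K))
    (hG : ∀ K, Measurable (G K)) (hW : ∀ K, MeasurableSet (W K))
    (hA : ∀ K, MeasurableSet (A K)) (hWY : ∀ K, W K ⊆ Y) (hw : Measurable w)
    (hfin : ∫⁻ x in Y, w x ≠ ⊤)
    (hpt : ∀ᵐ x, x ∈ Y → ∀ᶠ K in atTop, x ∈ W K → F K x ≤ G K x)
    (hdom : ∀ᶠ K in atTop, ∀ x ∈ Y, x ∉ A K → F K x ≤ w x)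
    (hcore : Tendsto (fun K => ∫⁻ x in Y ∩ A K, F K x) atTop (𝓝 0)) {ε : ℝ≥0∞} (hε : ε ≠ 0) :
    ∀ᶠ K in atTop, ∫⁻ x in W K, F K x ≤ (∫⁻ x in W K, G K x) + ε := by
  set B : ℕ → Set (V m) := fun K => W K ∩ {x | G K x < F K x} with hB
  have hBm : ∀ K, MeasurableSet (B K) := fun K =>
    (hW K).inter (measurableSet_lt (hG K) (hF K))
  have hlim : Tendsto (fun K => ∫⁻ x in Y, indicator (B K) w x) atTop
      (𝓝 (∫⁻ _x in Y, (0 : ℝ≥0∞))) := by
    refine tendsto_lintegral_of_dominated_convergence w (fun K => hw.indicator (hBm K))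
      (fun K => Eventually.of_forall fun x => indicator_le_self _ _ x) hfin ?_
    rw [ae_restrict_iff' hY]
    filter_upwards [hpt] with x hx hxY
    refine tendsto_const_nhds.congr' ?_
    filter_upwards [hx hxY] with K hK
    refine (indicator_of_notMem (fun h => ?_) _).symm
    exact absurd (hK h.1) (not_le.2 h.2)
  rw [lintegral_zero] at hlim
  have hsum := hlim.add hcore
  rw [add_zero] at hsum
  have hev := hsum.eventually (eventually_le_nhds (pos_iff_ne_zero.2 hε))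
  filter_upwards [hev, hdom] with K h1 h2
  have hpw : ∀ x ∈ W K, F K x ≤ G K x + (indicator (B K) w x + indicator (A K) (F K) x) := by
    intro x hx
    by_cases hxA : x ∈ A K
    · rw [indicator_of_mem hxA]
      exact le_add_left (le_add_left le_rfl)
    · by_cases hxB : x ∈ B K
      · rw [indicator_of_mem hxB]
        exact le_add_left (le_add_right (h2 x (hWY K hx) hxA))
      · exact le_add_right (not_lt.1 fun h => hxB ⟨hx, h⟩)
  calc ∫⁻ x in W K, F K x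
      ≤ ∫⁻ x in W K, G K x + (indicator (B K) w x + indicator (A K) (F K) x) :=
        setLIntegral_mono' (hW K) hpw
    _ = (∫⁻ x in W K, G K x) + ((∫⁻ x in W K, indicator (B K) w x) +
          ∫⁻ x in W K, indicator (A K) (F K) x) := by
        rw [lintegral_add_left (hG K), lintegral_add_left (hw.indicator (hBm K))]
    _ ≤ (∫⁻ x in W K, G K x) + ((∫⁻ x in Y, indicator (B K) w x) +
          ∫⁻ x in Y ∩ A K, F K x) := by
        refine add_le_add le_rfl (add_le_add (lintegral_mono_set (hWY K)) ?_)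
        rw [lintegral_indicator (hA K), Measure.restrict_restrict (hA K)]
        exact lintegral_mono_set fun x hx => ⟨hWY K hx.2, hx.1⟩
    _ ≤ (∫⁻ x in W K, G K x) + ε := add_le_add le_rfl h1

theorem unitf_meas_sum (h0 : 0 < P.τ) (h1 : P.τ ≤ 1 / 16) (K : ℕ) (ρ ρ' : ℝ) (N : ℕ)
    (D : Finset (V m)) : Measurable fun x => ∑ a ∈ D, PFw P.τ K ρ ρ' N a x :=
  Finset.measurable_sum _ fun a _ => measurable_PFw h0 h1 K ρ ρ' N a

theorem unitf_meas_Bad (hP : P.Ok v s) (cs : ℝ) (K : ℕ) : Measurable (Bad P q cs K) :=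
  ((unitf_meas_sum hP.τ0 hP.τ1 K _ _ _ _).const_mul _).add
    ((unitf_meas_sum hP.τ0 hP.τ1 K _ _ _ _).const_mul _)

theorem unitf_meas_Main : Measurable (Main v s P) := by
  refine Measurable.indicator ?_
    (measurableSet_le (P1.tp_th P).continuous.measurable measurable_const)
  exact ((((measurable_om _ _).const_add _).const_mul _).pow_const _).mul meas2_wt

/-- Dominated convergence. -/
theorem integrated (hs : St.Ok v s) (hP : P.Ok v s) (hq : Ok v s P q) {Z : Set (V m)}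
    (hc : IsCompact Z) (hZ : P.Prot v s Z) {Y : Set (V m)} (hY : MeasurableSet Y)
    (hYZ : ∀ x ∈ Y, closedBall x 1 ⊆ Z) {cs : ℝ}
    (hpt : ∀ᵐ x, closedBall x 1 ⊆ Z → ∀ᶠ K in atTop,
      (x ∉ I' v s P q K →
        (1 + lip (St.u v (new v s P q K)) x) ^ m ≤ Main v s P x + Bad P q cs K x) ∧
      (x ∈ Fo' v s P q K → (1 + lip (St.u v (new v s P q K)) x) ^ m ≤ Bad P q cs K x))
    {ε : ℝ≥0∞} (hε : ε ≠ 0) : ∀ᶠ K in atTop,
      En (St.u v (new v s P q K)) (Y \ I' v s P q K) ≤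
        (∫⁻ x in Y, Main v s P x) + (∫⁻ x, Bad P q cs K x) + ε ∧
      En (St.u v (new v s P q K)) (Y ∩ Fo' v s P q K) ≤ (∫⁻ x, Bad P q cs K x) + ε := by
  obtain ⟨C, hC, hdom⟩ := dom_wt hs hP hq hc hZ
  have hcore := core_small hs hP hq hc hZ hY hYZ
  obtain ⟨R, hR⟩ := hc.isBounded.subset_closedBall (0 : V m)
  have hYR : Y ⊆ closedBall (0 : V m) R := fun x hx =>
    hR (hYZ x hx (mem_closedBall_self zero_le_one))
  have hw : Measurable fun x : V m => C * wt (x - hlf) := meas2_wt.const_mul _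
  have hfin : ∫⁻ x in Y, C * wt (x - hlf) ≠ ⊤ := by
    rw [lintegral_const_mul _ meas2_wt]
    exact ENNReal.mul_ne_top hC
      (ne_top_of_le_ne_top (lintegral_wt_sub_ne_top R) (lintegral_mono_set hYR))
  have hF : ∀ K, Measurable fun x => (1 + lip (St.u v (new v s P q K)) x) ^ m := fun K =>
    ((measurable_lip _).const_add _).pow_const _
  have hA : ∀ K, MeasurableSet {x : V m | be x ≤ dl K} := fun K =>
    measurableSet_le tp_be.continuous.measurable measurable_const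
  have hd : ∀ᶠ K in atTop, ∀ x ∈ Y, x ∉ {x : V m | be x ≤ dl K} →
      (1 + lip (St.u v (new v s P q K)) x) ^ m ≤ C * wt (x - hlf) := by
    filter_upwards [hdom] with K hK x hx hxA
    exact hK x (hYZ x hx) (not_le.1 hxA)
  have hI : ∀ K, MeasurableSet (I' v s P q K) := fun K => (ok_new hs hP hq K).hI.measurableSet
  have hFo : ∀ K, MeasurableSet (Fo' v s P q K) := fun K =>
    (isCompact_Fo' hs hP hq K).isClosed.measurableSet
  have e1 := unitf_dct (W := fun K => Y \ I' v s P q K)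
    (G := fun K x => Main v s P x + Bad P q cs K x) hY hF
    (fun K => unitf_meas_Main.add (unitf_meas_Bad hP cs K)) (fun K => hY.diff (hI K)) hA
    (fun _ => sdiff_subset) hw hfin (by
      filter_upwards [hpt] with x hx hxY
      filter_upwards [hx (hYZ x hxY)] with K hK hxW
      exact hK.1 hxW.2) hd hcore hε
  have e2 := unitf_dct (W := fun K => Y ∩ Fo' v s P q K)
    (G := fun K x => Bad P q cs K x) hY hF
    (fun K => unitf_meas_Bad hP cs K) (fun K => hY.inter (hFo K)) hA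
    (fun _ => inter_subset_left) hw hfin (by
      filter_upwards [hpt] with x hx hxY
      filter_upwards [hx (hYZ x hxY)] with K hK hxW
      exact hK.2 hxW.2) hd hcore hε
  filter_upwards [e1, e2] with K h1 h2
  refine ⟨h1.trans (add_le_add ?_ le_rfl), h2.trans (add_le_add ?_ le_rfl)⟩
  · rw [lintegral_add_left unitf_meas_Main]
    exact add_le_add (lintegral_mono_set sdiff_subset) (setLIntegral_le_lintegral _ _)
  · exact setLIntegral_le_lintegral _ _

/-- Choice of a spike which is cheap after summation over a finite set. -/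
theorem unitf_spike (hm : 2 ≤ m) {τ : ℝ} (h0 : 0 < τ) (h1 : τ ≤ 1 / 16) (D : Finset (V m))
    (hcard : ∀ a ∈ D, (TT a).card = m) (hfar : ∀ a ∈ D, ∀ i ∈ TT a, 6 * τ ≤ dd (a i))
    {C : ℝ≥0∞} (hC : C ≠ ⊤) {ε : ℝ≥0∞} (hε : ε ≠ 0) :
    ∃ ρ0 : ℝ, 0 < ρ0 ∧ ∃ N : ℕ, 1 ≤ N ∧ ∀ ρ ρ' : ℝ, 0 < ρ' → ρ' ≤ ρ → ρ ≤ ρ0 → ρ ≤ τ →
      ∀ K, ∫⁻ x, C * ∑ a ∈ D, PFw τ K ρ ρ' N a x ≤ ε := by
  obtain ⟨n, hn, hlt⟩ := ENNReal.exists_nnreal_pos_mul_lt
    (ENNReal.mul_ne_top hC (ENNReal.natCast_ne_top D.card)) hε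
  obtain ⟨ρ0, hρ0, N, hN, h⟩ := exists_PFw_le hm (ε := (n : ℝ≥0∞)) (by exact_mod_cast hn.ne')
  refine ⟨ρ0, hρ0, N, hN, fun ρ ρ' a1 a2 a3 a4 K => ?_⟩
  rw [lintegral_const_mul _ (Finset.measurable_sum _ fun a _ => measurable_PFw h0 h1 K ρ ρ' N a),
    lintegral_finsetSum _ fun a _ => measurable_PFw h0 h1 K ρ ρ' N a]
  have hle : ∑ a ∈ D, ∫⁻ x, PFw τ K ρ ρ' N a x ≤ D.card * (n : ℝ≥0∞) := by
    rw [← nsmul_eq_mul]
    exact Finset.sum_le_card_nsmul _ _ _ fun a ha =>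
      h τ h0 h1 K a (hcard a ha) (hfar a ha) ρ ρ' a1 a2 a3 a4
  calc C * ∑ a ∈ D, ∫⁻ x, PFw τ K ρ ρ' N a x ≤ C * (D.card * (n : ℝ≥0∞)) := by gcongr
    _ = n * (C * D.card) := by ring
    _ ≤ ε := hlt.le

theorem unitf_small {c k : ℝ} (hc : 0 < c) :
    ∀ᶠ i : ℕ in atTop, k * (1 / 2 : ℝ) ^ (i + 4) ≤ c := by
  have h : Tendsto (fun i : ℕ => k * (1 / 2 : ℝ) ^ (i + 4)) atTop (𝓝 (k * 0)) :=
    ((tendsto_pow_atTop_nhds_zero_of_lt_one (by norm_num) (by norm_num)).comp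
      (tendsto_add_atTop_nat 4)).const_mul k
  rw [mul_zero] at h
  exact h.eventually (eventually_le_nhds hc)

/-- The fibre over a double point avoids the skeleton outside the cores. -/
theorem unitf_fibre (hs : St.Ok v s) (hP : P.Ok v s) {a : V m} (ha : a ∈ P.D) (c : ℝ)
    (hmu : mu (St.Psi v s a c) = 0) : St.Psi v s a c ∈ P.Good := by
  by_cases hth : P.th (St.Psi v s a c) < 3
  · exact Or.inr (Or.inr hth)
  · have hyI : St.Psi v s a c ∈ s.I := mem_I_of_th hP (x := St.Psi v s a c)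
      (by linarith [not_lt.1 hth]) (by simp)
    have hpj := St.pj_G_Psi hs hyI
    generalize St.Psi v s a c = y at *
    have hyD : y ∈ P.D := by
      by_cases hya : y = a
      · rw [hya]; exact ha
      · exact hP.dbl y (St.I_subset_U hs hyI) a (hP.hDU a ha) hmu
          (mu_eq_zero_iff.2 (hP.card a ha).le) hya hpj
    have hz : ∀ T : Finset (Fin (2 * m + 1)), ‖pr T (y - y)‖ = 0 := fun T =>
      le_antisymm ((norm_pr_le T _).trans (by simp)) (norm_nonneg _)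
    have h1 := hP.ρ0
    have h2 := hP.τ0
    refine Or.inr (Or.inl ⟨y, hyD, ?_, ?_⟩)
    · rw [ta, hz]; positivity
    · rw [na, hz]; positivity

theorem unitf_good (hs : St.Ok v s) (Pf : ℕ → P1 m) (hOk : ∀ n, (Pf n).Ok v s)
    (D : Finset (V m)) (hD : ∀ n, (Pf n).D = D)
    (hmu : ∀ (n : ℕ) (y : V m), 1 / ((n : ℝ) + 1) < mu y → y ∈ (Pf n).Good)
    (hmono : ∀ n n', n ≤ n' → (Pf n).Good ⊆ (Pf n').Good) :
    ∃ (n : ℕ) (δ : ℝ), 0 < δ ∧
      ∀ a ∈ D, ∀ x, ‖x - a‖ ≤ δ → ∀ c, |c| ≤ s.σ → St.Psi v s x c ∈ (Pf n).Good := by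
  obtain ⟨Ψ, hΨe⟩ : ∃ Ψ : V m × ℝ → V m, ∀ x c, Ψ (x, c) = St.Psi v s x c :=
    ⟨fun p => St.Psi v s p.1 p.2, fun _ _ => rfl⟩
  have hΨ : Continuous Ψ := by
    have : Ψ = fun p : V m × ℝ => St.Psi v s p.1 p.2 := funext fun p => hΨe p.1 p.2
    rw [this]
    exact (St.tp_Psi hs).continuous
  have hKp : IsCompact ((D : Set (V m)) ×ˢ Icc (-s.σ) s.σ) :=
    D.finite_toSet.isCompact.prod isCompact_Icc
  have hcov : ((D : Set (V m)) ×ˢ Icc (-s.σ) s.σ) ⊆ ⋃ n, Ψ ⁻¹' (Pf n).Good := by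
    rintro ⟨a, c⟩ ⟨ha, -⟩
    have ha' : a ∈ (Pf 0).D := by rw [hD]; exact ha
    rcases (mu_nonneg (St.Psi v s a c)).lt_or_eq with h | h
    · obtain ⟨n, hn⟩ := exists_nat_one_div_lt h
      refine mem_iUnion.2 ⟨n, ?_⟩
      rw [mem_preimage, hΨe]
      exact hmu n _ hn
    · refine mem_iUnion.2 ⟨0, ?_⟩
      rw [mem_preimage, hΨe]
      exact unitf_fibre hs (hOk 0) ha' c h.symm
  have hm : Monotone fun n => Ψ ⁻¹' (Pf n).Good := fun n n' hn =>
    preimage_mono (hmono n n' hn)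
  obtain ⟨n, hn⟩ := hKp.elim_directed_cover _
    (fun n => (P1.isOpen_Good (Pf n)).preimage hΨ) hcov hm.directed_le
  obtain ⟨δ, hδ, hsub⟩ := hKp.exists_cthickening_subset_open
    ((P1.isOpen_Good (Pf n)).preimage hΨ) hn
  refine ⟨n, δ, hδ, fun a ha x hx c hc => ?_⟩
  rw [← hΨe]
  refine hsub (mem_cthickening_of_dist_le (x, c) (a, c) δ _ ⟨ha, abs_le.1 hc⟩ ?_)
  rw [Prod.dist_eq, dist_self, dist_eq_norm]
  exact max_le hx hδ.le

/-- Choice of the first parameters: net, double points, `τ`, pinch, good set. -/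
theorem exists_P1 (hm : 2 ≤ m) (hs : St.Ok v s) (hΓ : St.Gam v s) (hGP : GP v s.Γ)
    (F1 F2 : Finset (V m)) (hF1 : ∀ p ∈ F1, closedBall p 20 ⊆ s.I) {ε : ℝ≥0∞} (hε : ε ≠ 0) :
    ∃ (P : P1 m) (i : ℕ) (ρ0 : ℝ), P.F1 = F1 ∧ P.F2 = F2 ∧ P.τ = (1 / 2 : ℝ) ^ (i + 4) ∧
      P.Ok v s ∧ 0 < ρ0 ∧
      (∀ a ∈ P.D, ∀ x, ‖x - a‖ ≤ ρ0 → ∀ c, |c| ≤ s.σ → St.Psi v s x c ∈ P.Good) ∧
      ∀ K, ∫⁻ x, ENNReal.ofReal (100 / P.τ) ^ m * ∑ a ∈ P.D, PFw P.τ K P.ρ P.ρ P.N a x ≤ ε := by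
  classical
  obtain ⟨R, hR⟩ := hs.bdd.subset_closedBall (0 : V m)
  obtain ⟨D0, hD0, hdbl⟩ := hGP R
  obtain ⟨t, htU, htf, htc⟩ := finite_cover_balls_of_compact (St.isCompact_U hs) zero_lt_one
  set D : Finset (V m) := D0.filter (fun a => a ∈ St.U v s) with hD
  have hcard : ∀ a ∈ D, (TT a).card = m := fun a ha => hD0 a (Finset.mem_filter.1 ha).1
  have hDU : ∀ a ∈ D, a ∈ St.U v s := fun a ha => (Finset.mem_filter.1 ha).2
  have e1 : ∀ᶠ i : ℕ in atTop, ∀ a ∈ D, ∀ j ∈ TT a, 6 * (1 / 2 : ℝ) ^ (i + 4) ≤ dd (a j) := by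
    rw [eventually_all_finset]
    intro a _
    rw [eventually_all_finset]
    intro j hj
    exact unitf_small (lt_of_le_of_ne (dd_nonneg _) (Finset.mem_filter.1 hj).2.symm)
  have e2 : ∀ᶠ i : ℕ in atTop, ∀ a ∈ D, ∀ b ∈ D, a ≠ b →
      9 * (1 / 2 : ℝ) ^ (i + 4) ≤ ‖a - b‖ := by
    rw [eventually_all_finset]
    intro a _
    rw [eventually_all_finset]
    intro b _
    by_cases hab : a = b
    · exact Eventually.of_forall fun _ h => absurd hab h
    · filter_upwards [unitf_small (k := 9) (norm_pos_iff.2 (sub_ne_zero.2 hab))] with i hi _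
      exact hi
  obtain ⟨i, hfar, hsep⟩ := (e1.and e2).exists
  set τ : ℝ := (1 / 2 : ℝ) ^ (i + 4) with hτ
  have h0 : 0 < τ := by positivity
  have h1 : τ ≤ 1 / 16 := by
    have : (1 / 2 : ℝ) ^ i ≤ 1 := pow_le_one₀ (by norm_num) (by norm_num)
    rw [hτ, pow_add]
    linarith only [this]
  obtain ⟨ρ1, hρ1, N, hN, hint⟩ := unitf_spike hm h0 h1 D hcard hfar
    (C := ENNReal.ofReal (100 / τ) ^ m) (ENNReal.pow_ne_top ENNReal.ofReal_ne_top) hε
  set ρ : ℝ := min ρ1 τ with hρ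
  have hρ0 : 0 < ρ := lt_min hρ1 h0
  set Pf : ℕ → P1 m := fun n => ⟨F1, F2, htf.toFinset, D, τ, ρ, N, 1 / ((n : ℝ) + 1)⟩ with hPf
  have hOk : ∀ n, (Pf n).Ok v s := fun n =>
    { τ0 := h0
      τ1 := h1
      ρ0 := hρ0
      ρ1 := min_le_right _ _
      N1 := hN
      s00 := Nat.one_div_pos_of_nat
      card := hcard
      far := hfar
      sep := hsep
      hF1 := hF1
      hFU := fun p hp => htU (htf.mem_toFinset.1 hp)
      net := fun x hx => by
        obtain ⟨p, hp, hxp⟩ := mem_iUnion₂.1 (htc hx)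
        exact ⟨p, htf.mem_toFinset.2 hp, (mem_ball_iff_norm.1 hxp).le⟩
      hDU := hDU
      dbl := fun x hx x' hx' a1 a2 a3 a4 => Finset.mem_filter.2
        ⟨hdbl x x' a1 a2 (mem_closedBall_zero_iff.1 (hR hx)) (mem_closedBall_zero_iff.1 (hR hx'))
          a3 (by rw [← hΓ x hx, ← hΓ x' hx', a4]), hx⟩ }
  obtain ⟨n, δ, hδ, hgood⟩ := unitf_good hs Pf hOk D (fun _ => rfl) (fun n y hy => Or.inl hy)
    (fun n n' hn y hy => by
      rcases hy with hy | hy
      · exact Or.inl (lt_of_le_of_lt (Nat.one_div_le_one_div hn) hy)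
      · exact Or.inr hy)
  exact ⟨Pf n, i, δ, rfl, rfl, rfl, hOk n, hδ, hgood,
    hint ρ ρ hρ0 le_rfl (min_le_left _ _) (min_le_right _ _)⟩

/-- Choice of the spike, the extension and the new height. -/
theorem exists_P2 (hm : 2 ≤ m) (hs : St.Ok v s) (hP : P.Ok v s) {ρ0 : ℝ} (hρ0 : 0 < ρ0)
    (hg : ∀ a ∈ P.D, ∀ x, ‖x - a‖ ≤ ρ0 → ∀ c, |c| ≤ s.σ → St.Psi v s x c ∈ P.Good) (cs : ℝ)
    {ε : ℝ≥0∞} (hε : ε ≠ 0) : ∃ q : P2 m, Ok v s P q ∧
      ∀ K, ∫⁻ x, ENNReal.ofReal cs ^ m * ∑ a ∈ P.D, PFw P.τ K q.ρ (q.ρ / 2) q.N a x ≤ ε := by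
  obtain ⟨ρ1, hρ1, N, hN, hint⟩ := unitf_spike hm hP.τ0 hP.τ1 P.D hP.card hP.far
    (C := ENNReal.ofReal cs ^ m) (ENNReal.pow_ne_top ENNReal.ofReal_ne_top) hε
  set ρ : ℝ := min (min ρ0 ρ1) P.τ with hρ
  have hρp : 0 < ρ := lt_min (lt_min hρ0 hρ1) hP.τ0
  have hρa : ρ ≤ ρ0 := (min_le_left _ _).trans (min_le_left _ _)
  have hρb : ρ ≤ ρ1 := (min_le_left _ _).trans (min_le_right _ _)
  have hρc : ρ ≤ P.τ := min_le_right _ _
  obtain ⟨R, hR⟩ := hs.bdd.subset_closedBall (0 : V m)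
  have tP : TP fun x => pj v (s.G x) := (tp_pj v).comp hs.hG.tp
  have tE : TP fun x => ell v (s.G x) := (tp_ell v).comp hs.hG.tp
  set Dm : V m → ℝ := fun x => mu x + max (-s.a0 (pj v (s.G x))) 0 +
    max (|ell v (s.G x)| - 4 * s.σ) 0 with hDm
  have tD : TP Dm := (tp_mu.add ((hs.ha0.comp tP).neg.max (TP.const 0))).add
    ((tE.abs.sub (TP.const _)).max (TP.const 0))
  have hD0 : ∀ x, 0 ≤ Dm x := fun x =>
    add_nonneg (add_nonneg (mu_nonneg x) (le_max_right _ _)) (le_max_right _ _)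
  have hDz : ∀ x, Dm x = 0 ↔ mu x = 0 ∧ x ∈ St.U v s := by
    intro x
    have a1 := mu_nonneg x
    have a2 := le_max_right (-s.a0 (pj v (s.G x))) 0
    have a3 := le_max_right (|ell v (s.G x)| - 4 * s.σ) 0
    have a4 := le_max_left (-s.a0 (pj v (s.G x))) 0
    have a5 := le_max_left (|ell v (s.G x)| - 4 * s.σ) 0
    constructor
    · intro h
      simp only [hDm] at h
      exact ⟨by linarith only [a1, a2, a3, h], by linarith, by linarith⟩
    · rintro ⟨h1, h2, h3⟩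
      simp only [hDm]
      rw [h1, max_eq_right (by linarith), max_eq_right (by linarith)]
      ring
  obtain ⟨φ0, tφ0, hφ0⟩ := exists_ext tP (tp_ft (P := P) hs ρ N) tD hD0 R (by
    intro x _ x' _ hx hx' hxx
    obtain ⟨b1, b2⟩ := (hDz x).1 hx
    obtain ⟨b3, b4⟩ := (hDz x').1 hx'
    by_cases he : x = x'
    · rw [he]
    · rw [ft_eq_zero hs hρp N (hP.dbl x b2 x' b4 b1 b3 he hxx),
        ft_eq_zero hs hρp N (hP.dbl x' b4 x b2 b3 b1 (Ne.symm he) hxx.symm)])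
  set φ : V m → ℝ := fun y => clamp (φ0 y) (s.a y) with hφ
  have tφ : TP φ := tφ0.clamp (St.tp_a hs)
  obtain ⟨L, hL, hLb⟩ := (lh_Gt hs tφ).tpi.exists_bound
  obtain ⟨L', hL', hLb'⟩ := (lh_Ht hs tφ).tpi.exists_bound
  have hv := norm_nonneg v
  set M : ℝ := 8 * (L + L') * (‖v‖ + 1) with hM
  have hMp : 0 < M := by positivity
  set σ' : ℝ := min (ρ / 2) 1 / M with hσ'
  have hσp : 0 < σ' := div_pos (lt_min (by linarith only [hρp]) one_pos) hMp
  have hσM : M * σ' = min (ρ / 2) 1 := by rw [hσ']; field_simp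
  have hb1 : L * (8 * σ' * ‖v‖) ≤ M * σ' := by
    rw [hM]
    linarith only [hσp, hv, hL', hL, mul_nonneg hσp.le hv, mul_nonneg (mul_nonneg hσp.le hv) (by linarith : 0 ≤ L'),
      mul_nonneg hσp.le (by linarith : 0 ≤ L + L')]
  have hb2 : L' * (8 * σ' * ‖v‖) ≤ M * σ' := by
    rw [hM]
    linarith only [hσp, hv, hL, hL', mul_nonneg hσp.le hv, mul_nonneg (mul_nonneg hσp.le hv) (by linarith : 0 ≤ L),
      mul_nonneg hσp.le (by linarith : 0 ≤ L + L')]
  have hseg : ∀ (y : V m) (t : ℝ), |ell v y| ≤ 4 * σ' → |t| ≤ 4 * σ' →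
      ‖(pj v y + t • v) - y‖ ≤ 8 * σ' * ‖v‖ := by
    intro y t h1 h2
    have : (pj v y + t • v) - y = (t - ell v y) • v := by
      rw [pj, sub_smul]; abel
    rw [this, norm_smul, Real.norm_eq_abs]
    have := abs_sub t (ell v y)
    exact mul_le_mul_of_nonneg_right (by linarith only [h1, h2, this]) hv
  refine ⟨⟨ρ, N, φ, σ'⟩, ⟨hρp, hρc, hN, fun a ha x hx c hc => hg a ha x (hx.trans hρa) c hc, tφ,
    fun y => abs_clamp_le (St.a_nonneg hs y), fun x hx hmu => ?_, hσp, fun z hz => ?_,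
    fun y t h1 h2 => ?_⟩, hint ρ (ρ / 2) (by linarith only [hρp]) (by linarith only [hρp]) hρb hρc⟩
  · change clamp (φ0 (pj v (s.G x))) (s.a (pj v (s.G x))) = ft v s P ρ N x
    rw [hφ0 x (hR hx) ((hDz x).2 ⟨hmu, hx⟩)]
    exact clamp_eq_self (abs_ft_le hs ρ N x)
  · change ‖invFun (Gt v s φ) (pj v (Gt v s φ z)) - z‖ ≤ ρ / 2
    have h1 := hLb (pj v (Gt v s φ z)) (Gt v s φ z)
    rw [(lh_Gt hs tφ).li] at h1
    have h2 := hseg (Gt v s φ z) 0 hz (by rw [abs_zero]; linarith only [hσp])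
    rw [zero_smul, add_zero] at h2
    calc _ ≤ L * ‖pj v (Gt v s φ z) - Gt v s φ z‖ := h1
      _ ≤ L * (8 * σ' * ‖v‖) := mul_le_mul_of_nonneg_left h2 (by linarith only [hL])
      _ ≤ M * σ' := hb1
      _ ≤ ρ / 2 := hσM ▸ min_le_left _ _
  · change ‖invFun (Ht v s φ) (pj v y + t • v) - invFun (Ht v s φ) y‖ ≤ 1
    calc _ ≤ L' * ‖(pj v y + t • v) - y‖ := hLb' _ _
      _ ≤ L' * (8 * σ' * ‖v‖) := mul_le_mul_of_nonneg_left (hseg y t h1 h2) (by linarith only [hL'])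
      _ ≤ M * σ' := hb2
      _ ≤ 1 := hσM ▸ min_le_right _ _

end P2
end BEv
end
end

-- merged part: Pool.Agent.Work.MP_f0515e_an.UnitG
section
/-! The unit step. -/

open Set Metric Filter Topology MeasureTheory Function
open scoped ENNReal NNReal

noncomputable section
namespace BEv

variable {m : ℕ}

/-- Points which are not deep with respect to the two nets. -/
def Shal (F1 F2 : Finset (V m)) : Set (V m) :=
  {y | (∀ p ∈ F1, 3 < ‖y - p‖) ∨ ∃ p ∈ F2, ‖y - p‖ < 9}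

theorem unitg_open (F : Finset (V m)) (r : ℝ) : IsOpen {y : V m | ∃ p ∈ F, ‖y - p‖ < r} := by
  have e : {y : V m | ∃ p ∈ F, ‖y - p‖ < r} = ⋃ p ∈ F, ball p r := by
    ext y; simp [mem_ball, dist_eq_norm]
  rw [e]
  exact isOpen_biUnion fun p _ => isOpen_ball

theorem unitg_compact (F : Finset (V m)) (r : ℝ) : IsCompact {y : V m | ∃ p ∈ F, ‖y - p‖ ≤ r} := by
  have e : {y : V m | ∃ p ∈ F, ‖y - p‖ ≤ r} = ⋃ p ∈ F, closedBall p r := by
    ext y; simp [mem_closedBall, dist_eq_norm]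
  rw [e]
  exact F.isCompact_biUnion fun p _ => isCompact_closedBall p r

theorem unitg_shal (F1 F2 : Finset (V m)) : MeasurableSet (Shal F1 F2) := by
  have e : Shal F1 F2 = {y : V m | ∃ p ∈ F1, ‖y - p‖ ≤ 3}ᶜ ∪ {y : V m | ∃ p ∈ F2, ‖y - p‖ < 9} := by
    ext y; simp [Shal]
  rw [e]
  exact (unitg_compact F1 3).isClosed.measurableSet.compl.union (unitg_open F2 9).measurableSet

theorem unitg_main {C : ℝ≥0∞} (hC : ∀ (Z Z' : Set (V m)) (F F' : V m → ℝ≥0∞), MeasurableSet Z →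
      MeasurableSet Z' → (∀ x ∈ Z, ∀ y, ‖x - y‖ < 1 → y ∈ Z' ∧ F x ≤ F' y) →
      ∫⁻ x in Z, F x * wt (x - hlf) ≤ C * ∫⁻ y in Z', F' y) (v : V m) (s : St m) (P : P1 m)
    {Y W : Set (V m)} {F' : V m → ℝ≥0∞} (hY : MeasurableSet Y) (hW : MeasurableSet W)
    (h : ∀ x ∈ Y, ∀ y, ‖x - y‖ < 1 → y ∈ W ∧ (9 * (1 + om (St.u v s) 2 x)) ^ m ≤ F' y) :
    ∫⁻ x in Y, P2.Main v s P x ≤ C * ∫⁻ y in W ∩ Shal P.F1 P.F2, F' y := by
  have hS : MeasurableSet {x | P.th x ≤ 8} :=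
    (isClosed_le P.tp_th.continuous continuous_const).measurableSet
  unfold P2.Main
  rw [lintegral_indicator hS, Measure.restrict_restrict hS]
  exact hC _ _ (fun x => (9 * (1 + om (St.u v s) 2 x)) ^ m) F' (hS.inter hY)
    (hW.inter (unitg_shal _ _)) fun x hx y hxy =>
      ⟨⟨(h x hx.2 y hxy).1, P1.cases_of_th_le hx.1 hxy⟩, (h x hx.2 y hxy).2⟩

theorem unitg_eps {ε : ℝ≥0∞} (hε : ε ≠ 0) : ∃ e : ℝ≥0∞, e ≠ 0 ∧ e + e + e ≤ ε := by
  refine ⟨ε / 2 / 2, ENNReal.div_ne_zero.2 ⟨ENNReal.div_ne_zero.2 ⟨hε, by norm_num⟩, by norm_num⟩, ?_⟩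
  rw [ENNReal.add_halves]
  calc ε / 2 + ε / 2 / 2 ≤ ε / 2 + ε / 2 := by gcongr; exact ENNReal.half_le_self
    _ = ε := ENNReal.add_halves ε

theorem unit_step (hm : 2 ≤ m) : ∃ C : ℝ≥0∞, C ≠ ⊤ ∧ ∀ (v : V m) (s : St m), St.Ok v s →
    St.Gam v s → GP v s.Γ → ∀ F1 F2 : Finset (V m), (∀ p ∈ F1, closedBall p 20 ⊆ s.I) →
    ∀ η L : ℝ, 0 ≤ η → St.Fib v s η → 0 ≤ L →
    (∀ x y, ‖St.k v s x - St.k v s y‖ ≤ L * ‖x - y‖) → ∀ ε : ℝ≥0∞, ε ≠ 0 →
    ∃ (s' : St m) (i K : ℕ) (Fo : Set (V m)), St.Ok v s' ∧ St.Gam v s' ∧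
      s'.Γ = s.Γ ∘ gg ((1 / 2 : ℝ) ^ (i + 4)) K ∧
      (∀ x ∈ St.U v s', ∃ p ∈ F1, ‖x - p‖ ≤ 12) ∧
      (∀ x, (∀ y ∈ St.U v s, 5 ≤ ‖x - y‖) →
        St.k v s' x = St.k v s x ∧ St.u v s' x = St.u v s x) ∧
      (∀ x, ‖St.k v s' x - St.k v s x‖ ≤ 2 * η + L + 1) ∧ St.Fib v s' 3 ∧ IsCompact Fo ∧
      St.Fold v s' ⊆ Fo ∧ En (St.u v s') Fo ≤ ε ∧
      En (St.u v s') ({x | ∃ p ∈ F1, ‖x - p‖ ≤ 12} \ s'.I) ≤
        C * volume ({y | ∃ p ∈ F1, ‖y - p‖ < 13} ∩ Shal F1 F2) + ε ∧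
      ((∀ x ∈ St.Fold v s, mu x = 0 → ∃ p ∈ F2, ‖St.u v s x - p‖ ≤ 1) →
        En (St.u v s') (cthickening 6 (St.U v s) \ s'.I) ≤
          C * (∫⁻ y in cthickening 7 (St.U v s) ∩ Shal F1 F2, (1 + om (St.u v s) 3 y) ^ m) + ε) :=
  by
  obtain ⟨C, hC, hCw⟩ := lintegral_mul_wt_le m
  have h18 : (18 : ℝ≥0∞) ^ m ≠ ⊤ := ENNReal.pow_ne_top (by norm_num)
  refine ⟨C * 18 ^ m, ENNReal.mul_ne_top hC h18, ?_⟩
  intro v s hs hΓ hGP F1 F2 hF1 η L hη0 hη hL0 hL ε hε
  obtain ⟨e, he, hee⟩ := unitg_eps hε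
  obtain ⟨P, i, ρ0, rfl, rfl, hτ, hP, hρ0, hg, hB1⟩ := P2.exists_P1 hm hs hΓ hGP F1 F2 hF1 he
  obtain ⟨cs, hpt⟩ := P2.pointwise hs hP
  obtain ⟨q, hq, hB2⟩ := P2.exists_P2 hm hs hP hρ0 hg cs he
  have hBad : ∀ K, ∫⁻ x, P2.Bad P q cs K x ≤ e + e := by
    intro K
    unfold P2.Bad
    rw [lintegral_add_left]
    · exact add_le_add (hB1 K) (hB2 K)
    · exact (Finset.measurable_fun_sum _ fun a _ =>
        measurable_PFw hP.τ0 hP.τ1 K P.ρ P.ρ P.N a).const_mul _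
  have hZI : ∀ x, (∃ p ∈ P.F1, ‖x - p‖ ≤ 20) → x ∈ s.I := by
    rintro x ⟨p, hp, hx⟩
    exact hF1 p hp (by rwa [mem_closedBall, dist_eq_norm])
  have hProt : P.Prot v s {x | ∃ p ∈ P.F1, ‖x - p‖ ≤ 13} := by
    rintro x ⟨p, hp, hx⟩ - hI
    exact (hI (hZI x ⟨p, hp, by linarith only [hx]⟩)).elim
  have hY : MeasurableSet {x : V m | ∃ p ∈ P.F1, ‖x - p‖ ≤ 12} :=
    (unitg_compact P.F1 12).isClosed.measurableSet
  have htri : ∀ x y p : V m, ‖y - p‖ ≤ ‖x - y‖ + ‖x - p‖ := fun x y p => by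
    have := norm_sub_le_norm_sub_add_norm_sub y x p
    rwa [norm_sub_rev y x] at this
  have hin := P2.integrated hs hP hq (unitg_compact P.F1 13) hProt hY (by
    rintro x ⟨p, hp, hx⟩ y hy
    rw [mem_closedBall, dist_comm, dist_eq_norm] at hy
    exact ⟨p, hp, by linarith [htri x y p]⟩) (hpt q hq _ hProt) he
  have hMin : ∫⁻ x in {x : V m | ∃ p ∈ P.F1, ‖x - p‖ ≤ 12}, P2.Main v s P x ≤
      C * 18 ^ m * volume ({y | ∃ p ∈ P.F1, ‖y - p‖ < 13} ∩ Shal P.F1 P.F2) := by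
    refine (unitg_main hCw v s P (F' := fun _ => 18 ^ m) hY (unitg_open P.F1 13).measurableSet
      ?_).trans_eq (by rw [setLIntegral_const, mul_assoc])
    rintro x ⟨p, hp, hx⟩ y hxy
    refine ⟨⟨p, hp, by linarith [htri x y p]⟩, ?_⟩
    have hu : ∀ z ∈ ball x 2, St.u v s z = z := fun z hz => by
      rw [mem_ball, dist_comm, dist_eq_norm] at hz
      exact St.u_eq_self hs (hZI z ⟨p, hp, by linarith [htri x z p]⟩)
    have h1 : om (St.u v s) 2 x ≤ 1 := by
      have := om_le (f := St.u v s) (r := 2) (c := 1) (x := x) fun y hy z hz => by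
        rw [hu y hy, hu z hz, one_mul]
      simpa using this
    calc (9 * (1 + om (St.u v s) 2 x)) ^ m ≤ (9 * (1 + 1)) ^ m := by gcongr
      _ = 18 ^ m := by norm_num
  have hball : ∀ x ∈ cthickening 6 (St.U v s), closedBall x 1 ⊆ cthickening 7 (St.U v s) := by
    intro x hx
    refine (closedBall_subset_cthickening hx 1).trans ?_
    have := cthickening_cthickening_subset (s := St.U v s) (zero_le_one' ℝ) (by norm_num : (0 : ℝ) ≤ 6)
    rwa [show (1 : ℝ) + 6 = 7 by norm_num] at this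
  have hMout : ∫⁻ x in cthickening 6 (St.U v s), P2.Main v s P x ≤ C * 18 ^ m *
      ∫⁻ y in cthickening 7 (St.U v s) ∩ Shal P.F1 P.F2, (1 + om (St.u v s) 3 y) ^ m := by
    refine (unitg_main hCw v s P (F' := fun y => 18 ^ m * (1 + om (St.u v s) 3 y) ^ m)
      isClosed_cthickening.measurableSet isClosed_cthickening.measurableSet
      ?_).trans_eq (by rw [lintegral_const_mul' _ _ h18, mul_assoc])
    intro x hx y hxy
    refine ⟨hball x hx (by rw [mem_closedBall, dist_comm, dist_eq_norm]; exact hxy.le), ?_⟩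
    have h1 : om (St.u v s) 2 x ≤ om (St.u v s) 3 y := om_mono _ (ball_subset_ball' (by
      rw [dist_eq_norm]; linarith))
    rw [← mul_pow]
    gcongr
    norm_num
  have hout : ∀ᶠ K in atTop,
      (∀ x ∈ St.Fold v s, mu x = 0 → ∃ p ∈ P.F2, ‖St.u v s x - p‖ ≤ 1) →
        En (St.u v (P2.new v s P q K)) (cthickening 6 (St.U v s) \ P2.I' v s P q K) ≤
          (∫⁻ x in cthickening 6 (St.U v s), P2.Main v s P x) + (∫⁻ x, P2.Bad P q cs K x) + e := by
    by_cases hpr : ∀ x ∈ St.Fold v s, mu x = 0 → ∃ p ∈ P.F2, ‖St.u v s x - p‖ ≤ 1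
    · have hProt' : P.Prot v s (cthickening 7 (St.U v s)) := by
        intro x _ hx hI
        by_cases hu : St.u v s x ∈ s.I
        · obtain ⟨p, hp, h1⟩ := hpr x ⟨hI, hu⟩ hx
          exact (P.th_le_of_mem _ hp).trans h1
        · rw [P2.th_eq_zero hP hu]; exact zero_le_one
      exact (P2.integrated hs hP hq (St.isCompact_U hs).cthickening hProt'
        isClosed_cthickening.measurableSet hball (hpt q hq _ hProt') he).mono fun K hK _ => hK.1
    · exact Eventually.of_forall fun K h => (hpr h).elim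
  obtain ⟨K, ⟨hK1, hK2⟩, hK3⟩ := (hin.and hout).exists
  have hfin : ∀ A B : ℝ≥0∞, A ≤ B → A + (∫⁻ x, P2.Bad P q cs K x) + e ≤ B + ε := fun A B h => by
    calc A + (∫⁻ x, P2.Bad P q cs K x) + e ≤ B + (e + e) + e := by gcongr; exact hBad K
      _ = B + (e + e + e) := by ring
      _ ≤ B + ε := by gcongr
  refine ⟨P2.new v s P q K, i, K, P2.Fo' v s P q K, P2.ok_new hs hP hq K, P2.gam_new hs hΓ hP hq K,
    by rw [← hτ]; rfl, fun x hx => P2.U_new_subset hs hP hq K hx,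
    fun x hx => P2.new_off hs hP hq K hx, P2.norm_k_new_sub hs hP hq K hη0 hη hL0 hL,
    P2.fib_new hs hP hq K, P2.isCompact_Fo' hs hP hq K, P2.Fold_new_subset hs hP hq K, ?_,
    hK1.trans (hfin _ _ hMin), fun h => (hK3 h).trans (hfin _ _ hMout)⟩
  have hsub : P2.Fo' v s P q K ⊆ {x : V m | ∃ p ∈ P.F1, ‖x - p‖ ≤ 12} :=
    fun x hx => P2.U_new_subset hs hP hq K hx.1
  rw [inter_eq_self_of_subset_right hsub] at hK2
  exact hK2.trans ((add_le_add (hBad K) le_rfl).trans hee)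

end BEv
end
end
end
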